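import Pool.Agent.R863.CS.Stm

/-!
# MP_f18d96_ag, piece CS-ADAPT
-/

set_option autoImplicit false

namespace Pool.Agent.R863.CS

open MvPolynomial Module

theorem t_ADAPT : S_ADAPT := by
  intro K _ W p hW hp hp0
  -- second vector of `W`
  obtain ⟨q, hq, hqp⟩ : ∃ q ∈ W, q ∉ Submodule.span K {p} := by
    by_contra hcon
    push Not at hcon
    have h1 : W ≤ Submodule.span K {p} := fun q hq => hcon q hq
    have h2 := Submodule.finrank_mono h1
    rw [hW, finrank_span_singleton hp0] at h2
    omega
  obtain ⟨a, ha⟩ : ∃ a : Fin 4 → K, a ∉ W := by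
    by_contra hcon
    push Not at hcon
    have h1 : W = ⊤ := by
      rw [Submodule.eq_top_iff']; exact hcon
    rw [h1, finrank_top] at hW
    simp at hW
  obtain ⟨b, hb⟩ : ∃ b : Fin 4 → K, b ∉ Submodule.span K {a} ⊔ W := by
    by_contra hcon
    push Not at hcon
    have h1 : Submodule.span K {a} ⊔ W = ⊤ := by
      rw [Submodule.eq_top_iff']; exact hcon
    have h2 := Submodule.finrank_add_le_finrank_add_finrank (Submodule.span K {a}) W
    have h3 := finrank_span_le_card (R := K) ({a} : Set (Fin 4 → K))
    rw [h1, finrank_top] at h2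
    simp at h2 h3
    omega
  have hpq : Submodule.span K {p, q} = W := by
    apply Submodule.eq_of_le_of_finrank_eq
    · rw [Submodule.span_le]
      rintro x (rfl | rfl)
      · exact hp
      · exact hq
    · have hli : LinearIndependent K ![p, q] := by
        rw [LinearIndependent.pair_iff' hp0]
        intro c hc
        exact hqp (Submodule.mem_span_singleton.2 ⟨c, hc⟩)
      have h1 := finrank_span_eq_card hli
      have h2 : Set.range ![p, q] = {p, q} := by
        ext x
        simp only [Set.mem_range, Fin.exists_fin_two, Matrix.cons_val_zero, Matrix.cons_val_one,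
          Set.mem_insert_iff, Set.mem_singleton_iff]
        constructor
        · rintro (h | h)
          · exact Or.inl h.symm
          · exact Or.inr h.symm
        · rintro (h | h)
          · exact Or.inl h.symm
          · exact Or.inr h.symm
      rw [h2] at h1
      rw [h1, hW]
      simp
  have hli4 : LinearIndependent K ![b, a, p, q] := by
    have e1 : (![b, a, p, q] : Fin 4 → Fin 4 → K) = Fin.cons b ![a, p, q] := rfl
    have e2 : (![a, p, q] : Fin 3 → Fin 4 → K) = Fin.cons a ![p, q] := rfl
    have r2 : Set.range (![p, q] : Fin 2 → Fin 4 → K) = {p, q} := by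
      rw [Matrix.range_cons, Matrix.range_cons, Matrix.range_empty, Set.union_empty]
      rfl
    rw [e1, linearIndependent_finCons, e2, linearIndependent_finCons]
    refine ⟨⟨?_, ?_⟩, ?_⟩
    · rw [LinearIndependent.pair_iff' hp0]
      intro c hc
      exact hqp (Submodule.mem_span_singleton.2 ⟨c, hc⟩)
    · rw [r2, hpq]; exact ha
    · intro h
      apply hb
      have h5 : Set.range (Fin.cons a ![p, q] : Fin 3 → Fin 4 → K) = {a} ∪ {p, q} := by
        have : (Fin.cons a ![p, q] : Fin 3 → Fin 4 → K) = ![a, p, q] := rfl
        rw [this, Matrix.range_cons, r2]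
      rw [h5, Submodule.span_union, hpq] at h
      exact h
  set g : Matrix (Fin 4) (Fin 4) K := Matrix.of (fun i j => ![b, a, p, q] j i) with hg
  refine ⟨g, ?_, fun i => rfl, fun v => ?_⟩
  · rw [← Matrix.isUnit_iff_isUnit_det, ← Matrix.linearIndependent_cols_iff_isUnit]
    exact hli4
  · rw [← hpq, Submodule.mem_span_pair]
    constructor
    · rintro ⟨z, w, rfl⟩
      exact ⟨z, w, fun i => rfl⟩
    · rintro ⟨z, w, h⟩
      refine ⟨z, w, ?_⟩
      funext i
      rw [h i]
      rfl

end Pool.Agent.R863.CS
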