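import Pool.Agent.R863.CS.Stm

set_option autoImplicit false

namespace Pool.Agent.R863.CS

open MvPolynomial

theorem card_I5 : Nat.card I5 = 27 := by
  rw [Nat.card_eq_fintype_card]; simp [I5, Fintype.card_sum, Fintype.card_prod]

theorem card_I3 : Nat.card I3 = 27 := by
  rw [Nat.card_eq_fintype_card]; simp [I3, Fintype.card_sum, Fintype.card_prod]

section general

variable {K : Type} [Field K]

theorem count_aux {ι : Type} [Finite ι] (F : MvPolynomial (Fin 4) K)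
    (L : ι → Submodule K (Fin 4 → K)) (hL : Function.Injective L)
    (hK : KLines F = Set.range L) (ty : ι → Prop)
    (hty : ∀ i, (∃ p, IsFixedPoint F (L i) p) ↔ ty i) (hc : Nat.card ι = 27) :
    (Hyp F).ncard = {i | ty i}.ncard ∧ (Ell F).ncard = 27 - {i | ty i}.ncard := by
  have h1 : Hyp F = L '' {i | ty i} := by
    ext W
    simp only [Hyp, Set.mem_setOf_eq, hK, Set.mem_range, Set.mem_image]
    constructor
    · rintro ⟨⟨i, rfl⟩, h⟩
      exact ⟨i, (hty i).1 h, rfl⟩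
    · rintro ⟨i, h, rfl⟩
      exact ⟨⟨i, rfl⟩, (hty i).2 h⟩
  have h2 : Ell F = L '' {i | ty i}ᶜ := by
    ext W
    simp only [Ell, Set.mem_setOf_eq, hK, Set.mem_range, Set.mem_image, Set.mem_compl_iff]
    constructor
    · rintro ⟨⟨i, rfl⟩, h⟩
      exact ⟨i, fun h' => h ((hty i).2 h'), rfl⟩
    · rintro ⟨i, h, rfl⟩
      exact ⟨⟨i, rfl⟩, fun h' => h ((hty i).1 h')⟩
  refine ⟨?_, ?_⟩
  · rw [h1, Set.ncard_image_of_injective _ hL]
  · rw [h2, Set.ncard_image_of_injective _ hL]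
    have := Set.ncard_add_ncard_compl {i | ty i}
    omega

end general

/-- the possible pairs -/
theorem asm (hTR : S_TR) (hTRANS : S_TRANS) (hNF1 : S_NF1) (hNF2 : S_NF2)
    (hTRI : S_TRI) (hEXH : S_EXH) (hSPL5 : S_SPL5) (hSPL3 : S_SPL3) (hIN5 : S_IN5) (hIN3 : S_IN3)
    (hTY5 : S_TY5) (hTY3 : S_TY3) (hCT5 : S_CT5) (hCT3 : S_CT3) (hFIN5 : S_FIN5)
    (hFIN3 : S_FIN3) (hE0 : S_E0) (hE12 : S_E12) (hE16A : S_E16A) (hE16B : S_E16B)
    (K : Type) [Field K] [Finite K] (h2 : (2 : K) ≠ 0) :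
    {n : ℕ × ℕ | ∃ F : MvPolynomial (Fin 4) K, IsSplit F ∧ (Hyp F).ncard = n.1 ∧
        (Ell F).ncard = n.2} =
      if Nat.card K < 7 then ∅ else if Nat.card K < 9 then {(27, 0)}
      else if Nat.card K < 17 then {(27, 0), (15, 12)} else {(27, 0), (15, 12), (11, 16)} := by
  have A5 : ∀ s : Fin 5 → K, dist5 s → IsSplit (fam5 s) ∧
      (Hyp (fam5 s)).ncard = {i | ty5 s i}.ncard ∧
      (Ell (fam5 s)).ncard = 27 - {i | ty5 s i}.ncard := by
    intro s hs
    obtain ⟨h, h'⟩ := hSPL5 K h2 s hs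
    exact ⟨h, count_aux _ _ (hIN5 K h2 s hs) h' _ (hTY5 K h2 s hs) card_I5⟩
  have A3 : ∀ s : Fin 3 → K, dist3 s → IsSplit (fam3 s) ∧
      (Hyp (fam3 s)).ncard = {i | ty3 s i}.ncard ∧
      (Ell (fam3 s)).ncard = 27 - {i | ty3 s i}.ncard := by
    intro s hs
    obtain ⟨h, h'⟩ := hSPL3 K h2 s hs
    exact ⟨h, count_aux _ _ (hIN3 K h2 s hs) h' _ (hTY3 K h2 s hs) card_I3⟩
  -- every split surface is in one of the two families
  have B : ∀ F : MvPolynomial (Fin 4) K, IsSplit F →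
      (∃ s : Fin 5 → K, dist5 s ∧ (Hyp F).ncard = {i | ty5 s i}.ncard ∧
        (Ell F).ncard = 27 - {i | ty5 s i}.ncard) ∨
      (∃ s : Fin 3 → K, dist3 s ∧ (Hyp F).ncard = {i | ty3 s i}.ncard ∧
        (Ell F).ncard = 27 - {i | ty3 s i}.ncard) := by
    intro F hF
    obtain ⟨W₁, W₂, W₃, k1, k2, k3, n12, n13, n23, hr⟩ := hTRI K h2 F hF
    obtain ⟨W, hW, p, hp⟩ := hEXH K h2 F hF W₁ W₂ W₃ k1 k2 k3 n12 n13 n23 hr
    obtain ⟨a, b, c0, c1, c2, c3, hE⟩ := hNF1 K h2 F W p hF hW hp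
    have hS := (hTR K _ _ hE).1 hF
    rcases hNF2 K h2 a b c0 c1 c2 c3 hS with ⟨s, hs, hE'⟩ | ⟨s, hs, hE'⟩
    · have hh := hTR K _ _ (hTRANS K _ _ _ hE hE')
      have := A5 s hs
      exact Or.inl ⟨s, hs, by rw [← hh.2.1, this.2.1], by rw [← hh.2.2, this.2.2]⟩
    · have hh := hTR K _ _ (hTRANS K _ _ _ hE hE')
      have := A3 s hs
      exact Or.inr ⟨s, hs, by rw [← hh.2.1, this.2.1], by rw [← hh.2.2, this.2.2]⟩
  have C0 : 7 ≤ Nat.card K → ∃ F : MvPolynomial (Fin 4) K, IsSplit F ∧ (Hyp F).ncard = 27 ∧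
      (Ell F).ncard = 0 := by
    intro hq
    rcases hE0 K h2 hq with ⟨s, hs, hD, hN⟩ | ⟨s, hs, hD, hN⟩
    · refine ⟨fam3 s, (A3 s hs).1, ?_⟩
      rw [(A3 s hs).2.1, (A3 s hs).2.2]
      rcases hCT3 K h2 s hs with h | h | h
      · rw [h.1]; exact ⟨rfl, rfl⟩
      · obtain ⟨i, hi⟩ := h.2; exact absurd (hD i) hi
      · exact absurd hN h.2.2
    · refine ⟨fam5 s, (A5 s hs).1, ?_⟩
      rw [(A5 s hs).2.1, (A5 s hs).2.2]
      rcases hCT5 K h2 s hs with h | h | h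
      · rw [h.1]; exact ⟨rfl, rfl⟩
      · obtain ⟨i, hi⟩ := h.2.1; exact absurd (hD i) hi
      · rcases h.2 with h | ⟨i, _, h⟩
        · exact absurd hN h.2
        · obtain ⟨j, hj⟩ := exists_ne i
          exact absurd (hD j) (h j hj)
  have C12 : 9 ≤ Nat.card K → ∃ F : MvPolynomial (Fin 4) K, IsSplit F ∧ (Hyp F).ncard = 15 ∧
      (Ell F).ncard = 12 := by
    intro hq
    obtain ⟨s, hs, i, hi⟩ := hE12 K h2 hq
    refine ⟨fam3 s, (A3 s hs).1, ?_⟩
    rw [(A3 s hs).2.1, (A3 s hs).2.2]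
    rcases hCT3 K h2 s hs with h | h | h
    · exact absurd (h.2.1 i) hi
    · rw [h.1]; exact ⟨rfl, rfl⟩
    · exact absurd (h.2.1 i) hi
  have C16 : 17 ≤ Nat.card K → ∃ F : MvPolynomial (Fin 4) K, IsSplit F ∧ (Hyp F).ncard = 11 ∧
      (Ell F).ncard = 16 := by
    intro hq
    have : ∃ s : Fin 5 → K, dist5 s ∧ ∃ i, IsSquare (D5 s i) ∧ ∀ j, j ≠ i → ¬ IsSquare (D5 s j) := by
      by_cases h1 : IsSquare (-1 : K)
      · exact hE16A K h2 hq h1
      · exact hE16B K h2 hq h1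
    obtain ⟨s, hs, i, hi, hj⟩ := this
    refine ⟨fam5 s, (A5 s hs).1, ?_⟩
    rw [(A5 s hs).2.1, (A5 s hs).2.2]
    rcases hCT5 K h2 s hs with h | h | h
    · obtain ⟨j, hji⟩ := exists_ne i
      exact absurd (h.2.1 j) (hj j hji)
    · obtain ⟨i', j', hne, hi', hj'⟩ := h.2.2
      by_cases h3 : i' = i
      · exact absurd hj' (hj j' (fun h4 => hne (h3.trans h4.symm)))
      · exact absurd hi' (hj i' h3)
    · rw [h.1]; exact ⟨rfl, rfl⟩
  -- upper bounds
  have U : ∀ n : ℕ × ℕ, (∃ F : MvPolynomial (Fin 4) K, IsSplit F ∧ (Hyp F).ncard = n.1 ∧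
      (Ell F).ncard = n.2) →
      7 ≤ Nat.card K ∧ (n = (27, 0) ∨ n = (15, 12) ∧ 9 ≤ Nat.card K ∨
        n = (11, 16) ∧ 17 ≤ Nat.card K) := by
    rintro ⟨n1, n2⟩ ⟨F, hF, hn1, hn2⟩
    simp only at hn1 hn2
    rcases B F hF with ⟨s, hs, hh, he⟩ | ⟨s, hs, hh, he⟩
    · obtain ⟨f1, f2⟩ := hFIN5 K h2 s hs
      refine ⟨by omega, ?_⟩
      rcases hCT5 K h2 s hs with h | h | h
      · rw [h.1] at hh he
        left; rw [← hn1, ← hn2, hh, he]
      · rw [h.1] at hh he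
        right; left; rw [← hn1, ← hn2, hh, he]; exact ⟨rfl, f1⟩
      · rw [h.1] at hh he
        right; right; rw [← hn1, ← hn2, hh, he]
        refine ⟨rfl, ?_⟩
        by_contra hlt
        obtain ⟨g1, g2⟩ := f2 (not_le.1 hlt)
        rcases h.2 with h | h
        · exact h.2 (g1 h.1)
        · exact g2 h
    · obtain ⟨f1, f2, f3⟩ := hFIN3 K h2 s hs
      refine ⟨f1, ?_⟩
      rcases hCT3 K h2 s hs with h | h | h
      · rw [h.1] at hh he
        left; rw [← hn1, ← hn2, hh, he]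
      · rw [h.1] at hh he
        right; left; rw [← hn1, ← hn2, hh, he]
        refine ⟨rfl, ?_⟩
        by_contra hlt
        obtain ⟨i, hi⟩ := h.2
        exact hi (f2 (not_le.1 hlt) i)
      · rw [h.1] at hh he
        right; right; rw [← hn1, ← hn2, hh, he]
        refine ⟨rfl, ?_⟩
        by_contra hlt
        exact h.2.2 (f3 (not_le.1 hlt) h.2.1)
  ext n
  constructor
  · intro hn
    obtain ⟨u1, u2⟩ := U n hn
    rw [if_neg (by omega)]
    split_ifs with g1 g2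
    · rcases u2 with h | h | h
      · exact h
      · omega
      · omega
    · rcases u2 with h | h | h
      · exact Or.inl h
      · exact Or.inr h.1
      · omega
    · rcases u2 with h | h | h
      · exact Or.inl h
      · exact Or.inr (Or.inl h.1)
      · exact Or.inr (Or.inr h.1)
  · intro hn
    split_ifs at hn with g0 g1 g2
    · exact absurd hn (by simp)
    · have hn' : n = (27, 0) := hn
      subst hn'; exact C0 (by omega)
    · rcases hn with h | h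
      · subst h; exact C0 (by omega)
      · have h' : n = (15, 12) := h
        subst h'; exact C12 (by omega)
    · rcases hn with h | h | h
      · subst h; exact C0 (by omega)
      · subst h; exact C12 (by omega)
      · have h' : n = (11, 16) := h
        subst h'; exact C16 (by omega)

end Pool.Agent.R863.CS
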