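import Pool.Agent.R863.CS.Stm

set_option autoImplicit false

namespace Pool.Agent.R863.CS

open MvPolynomial

theorem subst_C {k : Type} [Field k] (g : Matrix (Fin 4) (Fin 4) k) (a : k) :
    subst g (C a) = C a := by simp [subst, algebraMap_eq]

theorem subst_X {k : Type} [Field k] (g : Matrix (Fin 4) (Fin 4) k) (i : Fin 4) :
    subst g (X i) = ∑ j, C (g i j) * X j := by simp [subst]

theorem subst_add {k : Type} [Field k] (g : Matrix (Fin 4) (Fin 4) k)
    (F G : MvPolynomial (Fin 4) k) : subst g (F + G) = subst g F + subst g G := by simp [subst]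

theorem subst_mul {k : Type} [Field k] (g : Matrix (Fin 4) (Fin 4) k)
    (F G : MvPolynomial (Fin 4) k) : subst g (F * G) = subst g F * subst g G := by simp [subst]

theorem eval_subst {k : Type} [Field k] (g : Matrix (Fin 4) (Fin 4) k)
    (F : MvPolynomial (Fin 4) k) (v : Fin 4 → k) :
    eval v (subst g F) = eval (g.mulVec v) F := by
  induction F using MvPolynomial.induction_on with
  | C a => simp [subst_C]
  | add p q hp hq => rw [subst_add, map_add, hp, hq, map_add]
  | mul_X p i hp =>
    rw [subst_mul, map_mul, hp, map_mul, subst_X, eval_X]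
    simp [Matrix.mulVec, dotProduct]

theorem pderiv_subst {k : Type} [Field k] (g : Matrix (Fin 4) (Fin 4) k)
    (F : MvPolynomial (Fin 4) k) (v : Fin 4 → k) (j : Fin 4) :
    eval v (pderiv j (subst g F)) = ∑ i, g i j * eval (g.mulVec v) (pderiv i F) := by
  induction F using MvPolynomial.induction_on with
  | C a => simp [subst_C]
  | add p q hp hq =>
    rw [subst_add, map_add, map_add, hp, hq, ← Finset.sum_add_distrib]
    refine Finset.sum_congr rfl fun i _ => ?_
    rw [map_add, map_add]; ring
  | mul_X p i hp =>
    rw [subst_mul, Derivation.leibniz, smul_eq_mul, smul_eq_mul, map_add, map_mul, map_mul, hp,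
      eval_subst, eval_subst, eval_X, subst_X]
    have h1 : eval v (pderiv j (∑ l, C (g i l) * X l)) = g i j := by
      rw [map_sum, map_sum, Finset.sum_eq_single j]
      · simp [Derivation.leibniz]
      · intro b _ hb
        simp [Derivation.leibniz, pderiv_X_of_ne hb]
      · simp
    rw [h1, Finset.mul_sum]
    have h2 : ∀ l, g l j * eval (g.mulVec v) (pderiv l (p * X i)) =
        g l j * (eval (g.mulVec v) p * (if l = i then 1 else 0)) +
          g.mulVec v i * (g l j * eval (g.mulVec v) (pderiv l p)) := by
      intro l
      rw [Derivation.leibniz, smul_eq_mul, smul_eq_mul, map_add, map_mul, map_mul, eval_X]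
      by_cases h : l = i
      · subst h; simp; ring
      · rw [pderiv_X_of_ne (Ne.symm h), if_neg h]; simp; ring
    rw [Finset.sum_congr rfl fun l _ => h2 l, Finset.sum_add_distrib]
    congr 1
    rw [Finset.sum_eq_single i]
    · simp [mul_comm]
    · intro b _ hb; simp [hb]
    · simp

theorem t_CH : S_CH := by
  refine ⟨fun k _ g F v => ⟨eval_subst g F v, pderiv_subst g F v⟩, ?_, ?_, ?_⟩
  · intro k _ g F hF
    have := hF.aeval (n := 1) (fun i => ∑ j, C (g i j) * X j) (fun i => by
      refine IsHomogeneous.sum _ _ _ fun j _ => ?_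
      exact (isHomogeneous_X k j).C_mul (g i j))
    simpa [subst] using this
  · intro K _ g F
    unfold bar subst
    induction F using MvPolynomial.induction_on with
    | C a => simp [algebraMap_eq]
    | add p q hp hq => simp only [map_add, hp, hq]
    | mul_X p i hp =>
      rw [map_mul, map_mul, hp, map_mul, map_mul]
      congr 1
      simp
  · intro K _ g v
    ext i
    simp [up, Matrix.mulVec, dotProduct, Matrix.map_apply]

end Pool.Agent.R863.CS
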