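import Pool.Agent.R863.CS.CT5

/-! Piece CS-CT3: counting hyperbolic lines of the second family. -/

set_option autoImplicit false

namespace Pool.Agent.R863.CS

namespace CT3aux

open CT5aux

variable {K : Type} [Field K]

lemma sum_ne {s : Fin 3 → K} (h : dist3 s) {i j : Fin 3} (hij : i ≠ j) : s i + s j ≠ 0 := by
  intro h0
  apply h.2 i j hij
  have : s i = - s j := by linear_combination h0
  rw [this]; ring

lemma N3_ne {s : Fin 3 → K} (h : dist3 s) : N3 s ≠ 0 := by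
  unfold N3
  rw [neg_ne_zero]
  exact mul_ne_zero (mul_ne_zero (mul_ne_zero (mul_ne_zero (mul_ne_zero (h.1 0) (h.1 1)) (h.1 2))
    (sum_ne h (by decide))) (sum_ne h (by decide))) (sum_ne h (by decide))

lemma D3_ne {s : Fin 3 → K} (h : dist3 s) (i : Fin 3) : D3 s i ≠ 0 := by
  unfold D3
  rw [neg_ne_zero, Finset.prod_ne_zero_iff]
  intro j hj
  rw [Finset.mem_erase] at hj
  exact sub_ne_zero.mpr (h.2 j i hj.1)

lemma D3_0 (s : Fin 3 → K) : D3 s 0 = -((s 1 ^ 2 - s 0 ^ 2) * (s 2 ^ 2 - s 0 ^ 2)) := by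
  unfold D3
  rw [show (Finset.univ.erase (0 : Fin 3)) = {1, 2} by decide]
  rw [Finset.prod_insert (by decide), Finset.prod_singleton]
lemma D3_1 (s : Fin 3 → K) : D3 s 1 = -((s 0 ^ 2 - s 1 ^ 2) * (s 2 ^ 2 - s 1 ^ 2)) := by
  unfold D3
  rw [show (Finset.univ.erase (1 : Fin 3)) = {0, 2} by decide]
  rw [Finset.prod_insert (by decide), Finset.prod_singleton]
lemma D3_2 (s : Fin 3 → K) : D3 s 2 = -((s 0 ^ 2 - s 2 ^ 2) * (s 1 ^ 2 - s 2 ^ 2)) := by
  unfold D3
  rw [show (Finset.univ.erase (2 : Fin 3)) = {0, 1} by decide]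
  rw [Finset.prod_insert (by decide), Finset.prod_singleton]

/-- sign changes -/
def F0 (r : Fin 3 → K) : Fin 3 → K := ![-r 0, r 1, r 2]
def F1 (r : Fin 3 → K) : Fin 3 → K := ![r 0, -r 1, r 2]
def F2 (r : Fin 3 → K) : Fin 3 → K := ![r 0, r 1, -r 2]

lemma sqF0 (r : Fin 3 → K) (i : Fin 3) : F0 r i ^ 2 = r i ^ 2 := by
  fin_cases i <;> simp [F0]
lemma sqF1 (r : Fin 3 → K) (i : Fin 3) : F1 r i ^ 2 = r i ^ 2 := by
  fin_cases i <;> simp [F1]
lemma sqF2 (r : Fin 3 → K) (i : Fin 3) : F2 r i ^ 2 = r i ^ 2 := by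
  fin_cases i <;> simp [F2]

lemma dist_of_sq {r r' : Fin 3 → K} (h : ∀ i, r' i ^ 2 = r i ^ 2) (hd : dist3 r) : dist3 r' := by
  constructor
  · intro i h0
    have h1 := h i
    rw [h0] at h1
    have h2 : r i ^ 2 = 0 := by rw [← h1]; ring
    exact hd.1 i (by simpa using h2)
  · intro i j hij
    rw [h, h]; exact hd.2 i j hij

lemma D3_of_sq {r r' : Fin 3 → K} (h : ∀ i, r' i ^ 2 = r i ^ 2) (i : Fin 3) : D3 r' i = D3 r i := by
  unfold D3
  simp only [h]

lemma id0 (r : Fin 3 → K) : N3 (F0 r) * N3 r * 1 ^ 2 =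
    D3 r 0 * 1 * (r 0 * r 1 * r 2 * (r 1 + r 2)) ^ 2 := by
  rw [D3_0]
  simp only [N3, F0, Matrix.cons_val_zero, Matrix.cons_val_one, Matrix.cons_val]
  ring
lemma id1 (r : Fin 3 → K) : N3 (F1 r) * N3 r * 1 ^ 2 =
    D3 r 1 * 1 * (r 0 * r 1 * r 2 * (r 0 + r 2)) ^ 2 := by
  rw [D3_1]
  simp only [N3, F1, Matrix.cons_val_zero, Matrix.cons_val_one, Matrix.cons_val]
  ring
lemma id2 (r : Fin 3 → K) : N3 (F2 r) * N3 r * 1 ^ 2 =
    D3 r 2 * 1 * (r 0 * r 1 * r 2 * (r 0 + r 1)) ^ 2 := by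
  rw [D3_2]
  simp only [N3, F2, Matrix.cons_val_zero, Matrix.cons_val_one, Matrix.cons_val]
  ring

lemma q_one : q (1 : K) = true := by
  rw [q_iff]; exact ⟨1, by ring⟩

variable [Finite K]

lemma qF0 {r : Fin 3 → K} (h : dist3 r) : q (N3 (F0 r)) = (q (N3 r) == q (D3 r 0)) := by
  rw [q_rel (N3_ne (dist_of_sq (sqF0 r) h)) (N3_ne h) (D3_ne h 0) one_ne_zero one_ne_zero
    (mul_ne_zero (mul_ne_zero (mul_ne_zero (h.1 0) (h.1 1)) (h.1 2)) (sum_ne h (by decide))) (id0 r),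
    q_one]
  cases q (N3 r) <;> cases q (D3 r 0) <;> rfl
lemma qF1 {r : Fin 3 → K} (h : dist3 r) : q (N3 (F1 r)) = (q (N3 r) == q (D3 r 1)) := by
  rw [q_rel (N3_ne (dist_of_sq (sqF1 r) h)) (N3_ne h) (D3_ne h 1) one_ne_zero one_ne_zero
    (mul_ne_zero (mul_ne_zero (mul_ne_zero (h.1 0) (h.1 1)) (h.1 2)) (sum_ne h (by decide))) (id1 r),
    q_one]
  cases q (N3 r) <;> cases q (D3 r 1) <;> rfl
lemma qF2 {r : Fin 3 → K} (h : dist3 r) : q (N3 (F2 r)) = (q (N3 r) == q (D3 r 2)) := by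
  rw [q_rel (N3_ne (dist_of_sq (sqF2 r) h)) (N3_ne h) (D3_ne h 2) one_ne_zero one_ne_zero
    (mul_ne_zero (mul_ne_zero (mul_ne_zero (h.1 0) (h.1 1)) (h.1 2)) (sum_ne h (by decide))) (id2 r),
    q_one]
  cases q (N3 r) <;> cases q (D3 r 2) <;> rfl

lemma prodD {s : Fin 3 → K} (h : dist3 s) :
    (q (D3 s 0) == (q (D3 s 1) == q (D3 s 2))) = true := by
  rw [← q_mul (D3_ne h 1) (D3_ne h 2), ← q_mul (D3_ne h 0) (mul_ne_zero (D3_ne h 1) (D3_ne h 2))]
  rw [q_iff, D3_0, D3_1, D3_2]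
  refine ⟨(s 1 ^ 2 - s 0 ^ 2) * (s 2 ^ 2 - s 0 ^ 2) * (s 2 ^ 2 - s 1 ^ 2), ?_⟩
  ring

/-- the Boolean version of `ty3` -/
def Bt (d : Fin 3 → Bool) (ν : Bool) : I3 → Bool
  | .inl _ => true
  | .inr (.inl (i, _)) => d i
  | .inr (.inr (.inl _)) => true
  | .inr (.inr (.inr (.inl _))) => true
  | .inr (.inr (.inr (.inr (_, t)))) => (ν == ((if t 0 then d 0 else true) ==
      ((if t 1 then d 1 else true) == (if t 2 then d 2 else true))))

omit [Finite K] in
lemma sv_cases (s : Fin 3 → K) (t : Fin 3 → Bool) :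
    sv3 s t = (if t 0 then F0 else id) ((if t 1 then F1 else id) ((if t 2 then F2 else id) s)) := by
  funext i
  cases h0 : t 0 <;> cases h1 : t 1 <;> cases h2 : t 2 <;>
    fin_cases i <;> simp [sv3, sg, F0, F1, F2, h0, h1, h2]

lemma q_sv {s : Fin 3 → K} (h : dist3 s) (b : Bool) (t : Fin 3 → Bool) :
    q (N3 (sv3 s t)) = Bt (fun i => q (D3 s i)) (q (N3 s)) (.inr (.inr (.inr (.inr (b, t))))) := by
  rw [sv_cases]
  have st0 : ∀ (b : Bool) (r : Fin 3 → K), dist3 r → (∀ i, D3 r i = D3 s i) →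
      dist3 ((if b then F0 else id) r) ∧ (∀ i, D3 ((if b then F0 else id) r) i = D3 s i) ∧
      q (N3 ((if b then F0 else id) r)) = (q (N3 r) == (if b then q (D3 s 0) else true)) := by
    intro b r hr hD
    cases b
    · simp only [Bool.false_eq_true, if_false, id]
      exact ⟨hr, hD, by cases q (N3 r) <;> rfl⟩
    · simp only [if_true]
      exact ⟨dist_of_sq (sqF0 r) hr, fun i => (D3_of_sq (sqF0 r) i).trans (hD i), by
        rw [qF0 hr, hD]⟩
  have st1 : ∀ (b : Bool) (r : Fin 3 → K), dist3 r → (∀ i, D3 r i = D3 s i) →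
      dist3 ((if b then F1 else id) r) ∧ (∀ i, D3 ((if b then F1 else id) r) i = D3 s i) ∧
      q (N3 ((if b then F1 else id) r)) = (q (N3 r) == (if b then q (D3 s 1) else true)) := by
    intro b r hr hD
    cases b
    · simp only [Bool.false_eq_true, if_false, id]
      exact ⟨hr, hD, by cases q (N3 r) <;> rfl⟩
    · simp only [if_true]
      exact ⟨dist_of_sq (sqF1 r) hr, fun i => (D3_of_sq (sqF1 r) i).trans (hD i), by
        rw [qF1 hr, hD]⟩
  have st2 : ∀ (b : Bool) (r : Fin 3 → K), dist3 r → (∀ i, D3 r i = D3 s i) →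
      dist3 ((if b then F2 else id) r) ∧ (∀ i, D3 ((if b then F2 else id) r) i = D3 s i) ∧
      q (N3 ((if b then F2 else id) r)) = (q (N3 r) == (if b then q (D3 s 2) else true)) := by
    intro b r hr hD
    cases b
    · simp only [Bool.false_eq_true, if_false, id]
      exact ⟨hr, hD, by cases q (N3 r) <;> rfl⟩
    · simp only [if_true]
      exact ⟨dist_of_sq (sqF2 r) hr, fun i => (D3_of_sq (sqF2 r) i).trans (hD i), by
        rw [qF2 hr, hD]⟩
  obtain ⟨b1, b2, b3⟩ := st2 (t 2) s h (fun i => rfl)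
  obtain ⟨c1, c2, c3⟩ := st1 (t 1) _ b1 b2
  obtain ⟨d1, d2, d3⟩ := st0 (t 0) _ c1 c2
  rw [d3, c3, b3]
  simp only [Bt]
  generalize (if t 0 = true then q (D3 s 0) else true) = x0
  generalize (if t 1 = true then q (D3 s 1) else true) = x1
  generalize (if t 2 = true then q (D3 s 2) else true) = x2
  cases q (N3 s) <;> cases x0 <;> cases x1 <;> cases x2 <;> rfl

set_option maxRecDepth 100000 in
lemma key : ∀ d0 d1 d2 ν : Bool, (d0 == (d1 == d2)) = true →
    ((Finset.univ.filter (fun i : I3 => Bt ![d0, d1, d2] ν i = true)).card = 27 ∧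
      (∀ i, ![d0, d1, d2] i = true) ∧ ν = true) ∨
    ((Finset.univ.filter (fun i : I3 => Bt ![d0, d1, d2] ν i = true)).card = 15 ∧
      (∃ i, ¬ ![d0, d1, d2] i = true)) ∨
    ((Finset.univ.filter (fun i : I3 => Bt ![d0, d1, d2] ν i = true)).card = 11 ∧
      (∀ i, ![d0, d1, d2] i = true) ∧ ¬ ν = true) := by
  decide +kernel

end CT3aux

open CT5aux CT3aux

theorem t_CT3 : S_CT3 := by
  intro K _ _ _ s hs
  set d : Fin 3 → Bool := fun i => q (D3 s i) with hd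
  have hvec : ![d 0, d 1, d 2] = d := by
    funext i; fin_cases i <;> rfl
  have hk := CT3aux.key (d 0) (d 1) (d 2) (q (N3 s)) (CT3aux.prodD hs)
  rw [hvec] at hk
  have hset : {i | ty3 s i} = ((Finset.univ.filter (fun i : I3 => CT3aux.Bt d (q (N3 s)) i = true) :
      Finset I3) : Set I3) := by
    ext i
    simp only [Set.mem_ofPred_eq, Finset.coe_filter, Finset.mem_univ, true_and]
    match i with
    | .inl _ => simp [ty3, CT3aux.Bt]
    | .inr (.inl (i, b)) => simp only [ty3, CT3aux.Bt, hd, q_iff]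
    | .inr (.inr (.inl _)) => simp [ty3, CT3aux.Bt]
    | .inr (.inr (.inr (.inl _))) => simp [ty3, CT3aux.Bt]
    | .inr (.inr (.inr (.inr (b, t)))) =>
      rw [hd, ← CT3aux.q_sv hs b t, q_iff]
      rfl
  have hcard : {i | ty3 s i}.ncard =
      (Finset.univ.filter (fun i : I3 => CT3aux.Bt d (q (N3 s)) i = true)).card := by
    rw [hset, Set.ncard_coe_finset]
  rw [hcard]
  simpa only [hd, q_iff] using hk

end Pool.Agent.R863.CS
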