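import Pool.Agent.R863.CS.Stm

/-! Piece CS-CT5: counting hyperbolic lines of the first family. -/

set_option autoImplicit false

namespace Pool.Agent.R863.CS

namespace CT5aux

open Classical in
/-- is a square, as a Boolean -/
noncomputable def q {K : Type} [Field K] (a : K) : Bool := decide (IsSquare a)

lemma q_iff {K : Type} [Field K] (a : K) : q a = true ↔ IsSquare a := by
  unfold q; simp

lemma q_mul {K : Type} [Field K] [Finite K] {a b : K} (ha : a ≠ 0) (hb : b ≠ 0) :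
    q (a * b) = (q a == q b) := by
  classical
  have := Fintype.ofFinite K
  have hab := mul_ne_zero ha hb
  have h1 := quadraticChar_one_iff_isSquare (F := K) ha
  have h2 := quadraticChar_one_iff_isSquare (F := K) hb
  have h3 := quadraticChar_one_iff_isSquare (F := K) hab
  have d1 := quadraticChar_dichotomy (F := K) ha
  have d2 := quadraticChar_dichotomy (F := K) hb
  have hm : quadraticChar K (a * b) = quadraticChar K a * quadraticChar K b := map_mul _ _ _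
  have e1 : q a = decide (quadraticChar K a = 1) := by
    rw [Bool.eq_iff_iff, q_iff, decide_eq_true_iff, h1]
  have e2 : q b = decide (quadraticChar K b = 1) := by
    rw [Bool.eq_iff_iff, q_iff, decide_eq_true_iff, h2]
  have e3 : q (a * b) = decide (quadraticChar K (a * b) = 1) := by
    rw [Bool.eq_iff_iff, q_iff, decide_eq_true_iff, h3]
  rw [e1, e2, e3, hm]
  rcases d1 with h | h <;> rcases d2 with h' | h' <;> rw [h, h'] <;> decide

lemma q_sq {K : Type} [Field K] (a : K) : q (a ^ 2) = true := by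
  rw [q_iff]; exact ⟨a, by ring⟩

/-- If `x * y * c² = z * w * e²` with nonzero entries then the classes agree. -/
lemma q_rel {K : Type} [Field K] [Finite K] {x y z w c e : K} (hx : x ≠ 0) (hy : y ≠ 0)
    (hz : z ≠ 0) (hw : w ≠ 0) (hc : c ≠ 0) (he : e ≠ 0) (h : x * y * c ^ 2 = z * w * e ^ 2) :
    q x = (q y == (q z == q w)) := by
  have h1 := congrArg q h
  rw [q_mul (mul_ne_zero hx hy) (pow_ne_zero 2 hc), q_mul hx hy, q_sq,
    q_mul (mul_ne_zero hz hw) (pow_ne_zero 2 he), q_mul hz hw, q_sq] at h1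
  revert h1
  cases q x <;> cases q y <;> cases q z <;> cases q w <;> simp

variable {K : Type} [Field K]

lemma sum_ne {s : Fin 5 → K} (h : dist5 s) {i j : Fin 5} (hij : i ≠ j) : s i + s j ≠ 0 := by
  intro h0
  apply h i j hij
  have : s i = - s j := by linear_combination h0
  rw [this]; ring

lemma sub_ne {s : Fin 5 → K} (h : dist5 s) {i j : Fin 5} (hij : i ≠ j) : s i - s j ≠ 0 := by
  intro h0
  apply h i j hij
  have : s i = s j := by linear_combination h0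
  rw [this]

lemma N5_ne {s : Fin 5 → K} (h : dist5 s) : N5 s ≠ 0 := by
  unfold N5
  have h01 := sum_ne h (show (0 : Fin 5) ≠ 1 by decide)
  have h02 := sum_ne h (show (0 : Fin 5) ≠ 2 by decide)
  have h03 := sum_ne h (show (0 : Fin 5) ≠ 3 by decide)
  have h04 := sum_ne h (show (0 : Fin 5) ≠ 4 by decide)
  have h12 := sum_ne h (show (1 : Fin 5) ≠ 2 by decide)
  have h13 := sum_ne h (show (1 : Fin 5) ≠ 3 by decide)
  have h14 := sum_ne h (show (1 : Fin 5) ≠ 4 by decide)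
  have h23 := sum_ne h (show (2 : Fin 5) ≠ 3 by decide)
  have h24 := sum_ne h (show (2 : Fin 5) ≠ 4 by decide)
  have h34 := sum_ne h (show (3 : Fin 5) ≠ 4 by decide)
  rw [neg_ne_zero]
  exact mul_ne_zero (mul_ne_zero (mul_ne_zero (mul_ne_zero (mul_ne_zero (mul_ne_zero (mul_ne_zero
    (mul_ne_zero (mul_ne_zero h01 h02) h03) h04) h12) h13) h14) h23) h24) h34

lemma D5_ne {s : Fin 5 → K} (h : dist5 s) (i : Fin 5) : D5 s i ≠ 0 := by
  unfold D5
  rw [Finset.prod_ne_zero_iff]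
  intro j hj
  rw [Finset.mem_erase] at hj
  exact sub_ne_zero.mpr (h j i hj.1)

lemma D5_0 (s : Fin 5 → K) : D5 s 0 = (s 1 ^ 2 - s 0 ^ 2) * (s 2 ^ 2 - s 0 ^ 2) *
    (s 3 ^ 2 - s 0 ^ 2) * (s 4 ^ 2 - s 0 ^ 2) := by
  unfold D5
  rw [show (Finset.univ.erase (0 : Fin 5)) = {1, 2, 3, 4} by decide]
  rw [Finset.prod_insert (by decide), Finset.prod_insert (by decide), Finset.prod_insert (by decide),
    Finset.prod_singleton]
  ring
lemma D5_1 (s : Fin 5 → K) : D5 s 1 = (s 0 ^ 2 - s 1 ^ 2) * (s 2 ^ 2 - s 1 ^ 2) *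
    (s 3 ^ 2 - s 1 ^ 2) * (s 4 ^ 2 - s 1 ^ 2) := by
  unfold D5
  rw [show (Finset.univ.erase (1 : Fin 5)) = {0, 2, 3, 4} by decide]
  rw [Finset.prod_insert (by decide), Finset.prod_insert (by decide), Finset.prod_insert (by decide),
    Finset.prod_singleton]
  ring
lemma D5_2 (s : Fin 5 → K) : D5 s 2 = (s 0 ^ 2 - s 2 ^ 2) * (s 1 ^ 2 - s 2 ^ 2) *
    (s 3 ^ 2 - s 2 ^ 2) * (s 4 ^ 2 - s 2 ^ 2) := by
  unfold D5
  rw [show (Finset.univ.erase (2 : Fin 5)) = {0, 1, 3, 4} by decide]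
  rw [Finset.prod_insert (by decide), Finset.prod_insert (by decide), Finset.prod_insert (by decide),
    Finset.prod_singleton]
  ring
lemma D5_3 (s : Fin 5 → K) : D5 s 3 = (s 0 ^ 2 - s 3 ^ 2) * (s 1 ^ 2 - s 3 ^ 2) *
    (s 2 ^ 2 - s 3 ^ 2) * (s 4 ^ 2 - s 3 ^ 2) := by
  unfold D5
  rw [show (Finset.univ.erase (3 : Fin 5)) = {0, 1, 2, 4} by decide]
  rw [Finset.prod_insert (by decide), Finset.prod_insert (by decide), Finset.prod_insert (by decide),
    Finset.prod_singleton]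
  ring
lemma D5_4 (s : Fin 5 → K) : D5 s 4 = (s 0 ^ 2 - s 4 ^ 2) * (s 1 ^ 2 - s 4 ^ 2) *
    (s 2 ^ 2 - s 4 ^ 2) * (s 3 ^ 2 - s 4 ^ 2) := by
  unfold D5
  rw [show (Finset.univ.erase (4 : Fin 5)) = {0, 1, 2, 3} by decide]
  rw [Finset.prod_insert (by decide), Finset.prod_insert (by decide), Finset.prod_insert (by decide),
    Finset.prod_singleton]
  ring

/-- flip the signs of the entries `k` and `4` -/
def F0 (r : Fin 5 → K) : Fin 5 → K := ![-r 0, r 1, r 2, r 3, -r 4]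
def F1 (r : Fin 5 → K) : Fin 5 → K := ![r 0, -r 1, r 2, r 3, -r 4]
def F2 (r : Fin 5 → K) : Fin 5 → K := ![r 0, r 1, -r 2, r 3, -r 4]
def F3 (r : Fin 5 → K) : Fin 5 → K := ![r 0, r 1, r 2, -r 3, -r 4]

lemma sqF0 (r : Fin 5 → K) (i : Fin 5) : F0 r i ^ 2 = r i ^ 2 := by
  fin_cases i <;> simp [F0]
lemma sqF1 (r : Fin 5 → K) (i : Fin 5) : F1 r i ^ 2 = r i ^ 2 := by
  fin_cases i <;> simp [F1]
lemma sqF2 (r : Fin 5 → K) (i : Fin 5) : F2 r i ^ 2 = r i ^ 2 := by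
  fin_cases i <;> simp [F2]
lemma sqF3 (r : Fin 5 → K) (i : Fin 5) : F3 r i ^ 2 = r i ^ 2 := by
  fin_cases i <;> simp [F3]

lemma dist_of_sq {r r' : Fin 5 → K} (h : ∀ i, r' i ^ 2 = r i ^ 2) (hd : dist5 r) : dist5 r' := by
  intro i j hij
  rw [h, h]; exact hd i j hij
lemma D5_of_sq {r r' : Fin 5 → K} (h : ∀ i, r' i ^ 2 = r i ^ 2) (i : Fin 5) : D5 r' i = D5 r i := by
  unfold D5
  simp only [h]

lemma id0 (r : Fin 5 → K) : N5 (F0 r) * N5 r * (r 4 - r 0) ^ 2 =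
    D5 r 0 * D5 r 4 * ((r 1 + r 2) * (r 1 + r 3) * (r 2 + r 3)) ^ 2 := by
  rw [D5_0, D5_4]
  have e1 : r 1 ^ 2 - r 0 ^ 2 = (r 0 + r 1) * (-r 0 + r 1) := by ring
  have e2 : r 2 ^ 2 - r 0 ^ 2 = (r 0 + r 2) * (-r 0 + r 2) := by ring
  have e3 : r 3 ^ 2 - r 0 ^ 2 = (r 0 + r 3) * (-r 0 + r 3) := by ring
  have e4 : r 4 ^ 2 - r 0 ^ 2 = (r 0 + r 4) * (r 4 - r 0) := by ring
  have e5 : r 0 ^ 2 - r 4 ^ 2 = -((r 0 + r 4) * (r 4 - r 0)) := by ring
  have e6 : r 1 ^ 2 - r 4 ^ 2 = (r 1 + r 4) * (r 1 + -r 4) := by ring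
  have e7 : r 2 ^ 2 - r 4 ^ 2 = (r 2 + r 4) * (r 2 + -r 4) := by ring
  have e8 : r 3 ^ 2 - r 4 ^ 2 = (r 3 + r 4) * (r 3 + -r 4) := by ring
  rw [e1, e2, e3, e4, e5, e6, e7, e8]
  simp only [N5, F0, Matrix.cons_val_zero, Matrix.cons_val_one, Matrix.cons_val]
  have e9 : -r 0 + -r 4 = -(r 0 + r 4) := by ring
  rw [e9]
  generalize r 0 + r 1 = x01
  generalize r 0 + r 2 = x02
  generalize r 0 + r 3 = x03
  generalize r 0 + r 4 = x04
  generalize r 1 + r 2 = x12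
  generalize r 1 + r 3 = x13
  generalize r 1 + r 4 = x14
  generalize r 2 + r 3 = x23
  generalize r 2 + r 4 = x24
  generalize r 3 + r 4 = x34
  generalize -r 0 + r 1 = y01
  generalize -r 0 + r 2 = y02
  generalize -r 0 + r 3 = y03
  generalize r 1 + -r 4 = y14
  generalize r 2 + -r 4 = y24
  generalize r 3 + -r 4 = y34
  generalize r 4 - r 0 = z
  ring

lemma id1 (r : Fin 5 → K) : N5 (F1 r) * N5 r * (r 4 - r 1) ^ 2 =
    D5 r 1 * D5 r 4 * ((r 0 + r 2) * (r 0 + r 3) * (r 2 + r 3)) ^ 2 := by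
  rw [D5_1, D5_4]
  have e1 : r 0 ^ 2 - r 1 ^ 2 = (r 0 + r 1) * (r 0 + -r 1) := by ring
  have e2 : r 2 ^ 2 - r 1 ^ 2 = (r 1 + r 2) * (-r 1 + r 2) := by ring
  have e3 : r 3 ^ 2 - r 1 ^ 2 = (r 1 + r 3) * (-r 1 + r 3) := by ring
  have e4 : r 4 ^ 2 - r 1 ^ 2 = (r 1 + r 4) * (r 4 - r 1) := by ring
  have e5 : r 1 ^ 2 - r 4 ^ 2 = -((r 1 + r 4) * (r 4 - r 1)) := by ring
  have e6 : r 0 ^ 2 - r 4 ^ 2 = (r 0 + r 4) * (r 0 + -r 4) := by ring
  have e7 : r 2 ^ 2 - r 4 ^ 2 = (r 2 + r 4) * (r 2 + -r 4) := by ring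
  have e8 : r 3 ^ 2 - r 4 ^ 2 = (r 3 + r 4) * (r 3 + -r 4) := by ring
  rw [e1, e2, e3, e4, e5, e6, e7, e8]
  simp only [N5, F1, Matrix.cons_val_zero, Matrix.cons_val_one, Matrix.cons_val]
  have e9 : -r 1 + -r 4 = -(r 1 + r 4) := by ring
  rw [e9]
  generalize r 0 + r 1 = x01
  generalize r 0 + r 2 = x02
  generalize r 0 + r 3 = x03
  generalize r 0 + r 4 = x04
  generalize r 1 + r 2 = x12
  generalize r 1 + r 3 = x13
  generalize r 1 + r 4 = x14
  generalize r 2 + r 3 = x23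
  generalize r 2 + r 4 = x24
  generalize r 3 + r 4 = x34
  generalize r 0 + -r 1 = y01
  generalize -r 1 + r 2 = y02
  generalize -r 1 + r 3 = y03
  generalize r 0 + -r 4 = y14
  generalize r 2 + -r 4 = y24
  generalize r 3 + -r 4 = y34
  generalize r 4 - r 1 = z
  ring

lemma id2 (r : Fin 5 → K) : N5 (F2 r) * N5 r * (r 4 - r 2) ^ 2 =
    D5 r 2 * D5 r 4 * ((r 0 + r 1) * (r 0 + r 3) * (r 1 + r 3)) ^ 2 := by
  rw [D5_2, D5_4]
  have e1 : r 0 ^ 2 - r 2 ^ 2 = (r 0 + r 2) * (r 0 + -r 2) := by ring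
  have e2 : r 1 ^ 2 - r 2 ^ 2 = (r 1 + r 2) * (r 1 + -r 2) := by ring
  have e3 : r 3 ^ 2 - r 2 ^ 2 = (r 2 + r 3) * (-r 2 + r 3) := by ring
  have e4 : r 4 ^ 2 - r 2 ^ 2 = (r 2 + r 4) * (r 4 - r 2) := by ring
  have e5 : r 2 ^ 2 - r 4 ^ 2 = -((r 2 + r 4) * (r 4 - r 2)) := by ring
  have e6 : r 0 ^ 2 - r 4 ^ 2 = (r 0 + r 4) * (r 0 + -r 4) := by ring
  have e7 : r 1 ^ 2 - r 4 ^ 2 = (r 1 + r 4) * (r 1 + -r 4) := by ring
  have e8 : r 3 ^ 2 - r 4 ^ 2 = (r 3 + r 4) * (r 3 + -r 4) := by ring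
  rw [e1, e2, e3, e4, e5, e6, e7, e8]
  simp only [N5, F2, Matrix.cons_val_zero, Matrix.cons_val_one, Matrix.cons_val]
  have e9 : -r 2 + -r 4 = -(r 2 + r 4) := by ring
  rw [e9]
  generalize r 0 + r 1 = x01
  generalize r 0 + r 2 = x02
  generalize r 0 + r 3 = x03
  generalize r 0 + r 4 = x04
  generalize r 1 + r 2 = x12
  generalize r 1 + r 3 = x13
  generalize r 1 + r 4 = x14
  generalize r 2 + r 3 = x23
  generalize r 2 + r 4 = x24
  generalize r 3 + r 4 = x34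
  generalize r 0 + -r 2 = y01
  generalize r 1 + -r 2 = y02
  generalize -r 2 + r 3 = y03
  generalize r 0 + -r 4 = y14
  generalize r 1 + -r 4 = y24
  generalize r 3 + -r 4 = y34
  generalize r 4 - r 2 = z
  ring

lemma id3 (r : Fin 5 → K) : N5 (F3 r) * N5 r * (r 4 - r 3) ^ 2 =
    D5 r 3 * D5 r 4 * ((r 0 + r 1) * (r 0 + r 2) * (r 1 + r 2)) ^ 2 := by
  rw [D5_3, D5_4]
  have e1 : r 0 ^ 2 - r 3 ^ 2 = (r 0 + r 3) * (r 0 + -r 3) := by ring
  have e2 : r 1 ^ 2 - r 3 ^ 2 = (r 1 + r 3) * (r 1 + -r 3) := by ring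
  have e3 : r 2 ^ 2 - r 3 ^ 2 = (r 2 + r 3) * (r 2 + -r 3) := by ring
  have e4 : r 4 ^ 2 - r 3 ^ 2 = (r 3 + r 4) * (r 4 - r 3) := by ring
  have e5 : r 3 ^ 2 - r 4 ^ 2 = -((r 3 + r 4) * (r 4 - r 3)) := by ring
  have e6 : r 0 ^ 2 - r 4 ^ 2 = (r 0 + r 4) * (r 0 + -r 4) := by ring
  have e7 : r 1 ^ 2 - r 4 ^ 2 = (r 1 + r 4) * (r 1 + -r 4) := by ring
  have e8 : r 2 ^ 2 - r 4 ^ 2 = (r 2 + r 4) * (r 2 + -r 4) := by ring
  rw [e1, e2, e3, e4, e5, e6, e7, e8]
  simp only [N5, F3, Matrix.cons_val_zero, Matrix.cons_val_one, Matrix.cons_val]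
  have e9 : -r 3 + -r 4 = -(r 3 + r 4) := by ring
  rw [e9]
  generalize r 0 + r 1 = x01
  generalize r 0 + r 2 = x02
  generalize r 0 + r 3 = x03
  generalize r 0 + r 4 = x04
  generalize r 1 + r 2 = x12
  generalize r 1 + r 3 = x13
  generalize r 1 + r 4 = x14
  generalize r 2 + r 3 = x23
  generalize r 2 + r 4 = x24
  generalize r 3 + r 4 = x34
  generalize r 0 + -r 3 = y01
  generalize r 1 + -r 3 = y02
  generalize r 2 + -r 3 = y03
  generalize r 0 + -r 4 = y14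
  generalize r 1 + -r 4 = y24
  generalize r 2 + -r 4 = y34
  generalize r 4 - r 3 = z
  ring

variable [Finite K]

lemma qF0 {r : Fin 5 → K} (h : dist5 r) :
    q (N5 (F0 r)) = (q (N5 r) == (q (D5 r 0) == q (D5 r 4))) :=
  q_rel (N5_ne (dist_of_sq (sqF0 r) h)) (N5_ne h) (D5_ne h 0) (D5_ne h 4)
    (sub_ne h (by decide)) (mul_ne_zero (mul_ne_zero (sum_ne h (by decide)) (sum_ne h (by decide)))
      (sum_ne h (by decide))) (id0 r)
lemma qF1 {r : Fin 5 → K} (h : dist5 r) :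
    q (N5 (F1 r)) = (q (N5 r) == (q (D5 r 1) == q (D5 r 4))) :=
  q_rel (N5_ne (dist_of_sq (sqF1 r) h)) (N5_ne h) (D5_ne h 1) (D5_ne h 4)
    (sub_ne h (by decide)) (mul_ne_zero (mul_ne_zero (sum_ne h (by decide)) (sum_ne h (by decide)))
      (sum_ne h (by decide))) (id1 r)
lemma qF2 {r : Fin 5 → K} (h : dist5 r) :
    q (N5 (F2 r)) = (q (N5 r) == (q (D5 r 2) == q (D5 r 4))) :=
  q_rel (N5_ne (dist_of_sq (sqF2 r) h)) (N5_ne h) (D5_ne h 2) (D5_ne h 4)
    (sub_ne h (by decide)) (mul_ne_zero (mul_ne_zero (sum_ne h (by decide)) (sum_ne h (by decide)))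
      (sum_ne h (by decide))) (id2 r)
lemma qF3 {r : Fin 5 → K} (h : dist5 r) :
    q (N5 (F3 r)) = (q (N5 r) == (q (D5 r 3) == q (D5 r 4))) :=
  q_rel (N5_ne (dist_of_sq (sqF3 r) h)) (N5_ne h) (D5_ne h 3) (D5_ne h 4)
    (sub_ne h (by decide)) (mul_ne_zero (mul_ne_zero (sum_ne h (by decide)) (sum_ne h (by decide)))
      (sum_ne h (by decide))) (id3 r)

lemma prodD {s : Fin 5 → K} (h : dist5 s) :
    (q (D5 s 0) == (q (D5 s 1) == (q (D5 s 2) == (q (D5 s 3) == q (D5 s 4))))) = true := by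
  have h0 := D5_ne h 0
  have h1 := D5_ne h 1
  have h2 := D5_ne h 2
  have h3 := D5_ne h 3
  have h4 := D5_ne h 4
  rw [← q_mul h3 h4, ← q_mul h2 (mul_ne_zero h3 h4), ← q_mul h1 (mul_ne_zero h2 (mul_ne_zero h3 h4)),
    ← q_mul h0 (mul_ne_zero h1 (mul_ne_zero h2 (mul_ne_zero h3 h4)))]
  rw [q_iff, D5_0, D5_1, D5_2, D5_3, D5_4]
  generalize s 0 ^ 2 = a
  generalize s 1 ^ 2 = b
  generalize s 2 ^ 2 = c
  generalize s 3 ^ 2 = d
  generalize s 4 ^ 2 = e
  have e1 : a - b = -(b - a) := by ring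
  have e2 : a - c = -(c - a) := by ring
  have e3 : a - d = -(d - a) := by ring
  have e4 : a - e = -(e - a) := by ring
  have e5 : b - c = -(c - b) := by ring
  have e6 : b - d = -(d - b) := by ring
  have e7 : b - e = -(e - b) := by ring
  have e8 : c - d = -(d - c) := by ring
  have e9 : c - e = -(e - c) := by ring
  have e10 : d - e = -(e - d) := by ring
  rw [e1, e2, e3, e4, e5, e6, e7, e8, e9, e10]
  refine ⟨(b - a) * (c - a) * (d - a) * (e - a) * (c - b) * (d - b) * (e - b) * (d - c) * (e - c) *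
    (e - d), ?_⟩
  generalize b - a = x1
  generalize c - a = x2
  generalize d - a = x3
  generalize e - a = x4
  generalize c - b = x5
  generalize d - b = x6
  generalize e - b = x7
  generalize d - c = x8
  generalize e - c = x9
  generalize e - d = x10
  ring

/-- the Boolean version of `ty5` -/
def Bt (d : Fin 5 → Bool) (ν : Bool) : I5 → Bool
  | .inl _ => true
  | .inr (.inl (i, _)) => d i
  | .inr (.inr t) => (ν == ((if t 0 then (d 0 == d 4) else true) ==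
      ((if t 1 then (d 1 == d 4) else true) == ((if t 2 then (d 2 == d 4) else true) ==
        (if t 3 then (d 3 == d 4) else true)))))

omit [Finite K] in
lemma sv_cases (s : Fin 5 → K) (t : Fin 4 → Bool) :
    sv s t = (if t 0 then F0 else id) ((if t 1 then F1 else id) ((if t 2 then F2 else id)
      ((if t 3 then F3 else id) s))) := by
  funext i
  cases h0 : t 0 <;> cases h1 : t 1 <;> cases h2 : t 2 <;> cases h3 : t 3 <;>
    fin_cases i <;> simp [sv, sg, F0, F1, F2, F3, h0, h1, h2, h3]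

lemma q_sv {s : Fin 5 → K} (h : dist5 s) (t : Fin 4 → Bool) :
    q (N5 (sv s t)) = Bt (fun i => q (D5 s i)) (q (N5 s)) (.inr (.inr t)) := by
  rw [sv_cases]
  -- one step
  have st0 : ∀ (b : Bool) (r : Fin 5 → K), dist5 r → (∀ i, D5 r i = D5 s i) →
      dist5 ((if b then F0 else id) r) ∧ (∀ i, D5 ((if b then F0 else id) r) i = D5 s i) ∧
      q (N5 ((if b then F0 else id) r)) = (q (N5 r) == (if b then (q (D5 s 0) == q (D5 s 4)) else true)) := by
    intro b r hr hD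
    cases b
    · simp only [Bool.false_eq_true, if_false, id]
      exact ⟨hr, hD, by cases q (N5 r) <;> rfl⟩
    · simp only [if_true]
      exact ⟨dist_of_sq (sqF0 r) hr, fun i => (D5_of_sq (sqF0 r) i).trans (hD i), by
        rw [qF0 hr, hD, hD]⟩
  have st1 : ∀ (b : Bool) (r : Fin 5 → K), dist5 r → (∀ i, D5 r i = D5 s i) →
      dist5 ((if b then F1 else id) r) ∧ (∀ i, D5 ((if b then F1 else id) r) i = D5 s i) ∧
      q (N5 ((if b then F1 else id) r)) = (q (N5 r) == (if b then (q (D5 s 1) == q (D5 s 4)) else true)) := by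
    intro b r hr hD
    cases b
    · simp only [Bool.false_eq_true, if_false, id]
      exact ⟨hr, hD, by cases q (N5 r) <;> rfl⟩
    · simp only [if_true]
      exact ⟨dist_of_sq (sqF1 r) hr, fun i => (D5_of_sq (sqF1 r) i).trans (hD i), by
        rw [qF1 hr, hD, hD]⟩
  have st2 : ∀ (b : Bool) (r : Fin 5 → K), dist5 r → (∀ i, D5 r i = D5 s i) →
      dist5 ((if b then F2 else id) r) ∧ (∀ i, D5 ((if b then F2 else id) r) i = D5 s i) ∧
      q (N5 ((if b then F2 else id) r)) = (q (N5 r) == (if b then (q (D5 s 2) == q (D5 s 4)) else true)) := by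
    intro b r hr hD
    cases b
    · simp only [Bool.false_eq_true, if_false, id]
      exact ⟨hr, hD, by cases q (N5 r) <;> rfl⟩
    · simp only [if_true]
      exact ⟨dist_of_sq (sqF2 r) hr, fun i => (D5_of_sq (sqF2 r) i).trans (hD i), by
        rw [qF2 hr, hD, hD]⟩
  have st3 : ∀ (b : Bool) (r : Fin 5 → K), dist5 r → (∀ i, D5 r i = D5 s i) →
      dist5 ((if b then F3 else id) r) ∧ (∀ i, D5 ((if b then F3 else id) r) i = D5 s i) ∧
      q (N5 ((if b then F3 else id) r)) = (q (N5 r) == (if b then (q (D5 s 3) == q (D5 s 4)) else true)) := by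
    intro b r hr hD
    cases b
    · simp only [Bool.false_eq_true, if_false, id]
      exact ⟨hr, hD, by cases q (N5 r) <;> rfl⟩
    · simp only [if_true]
      exact ⟨dist_of_sq (sqF3 r) hr, fun i => (D5_of_sq (sqF3 r) i).trans (hD i), by
        rw [qF3 hr, hD, hD]⟩
  obtain ⟨a1, a2, a3⟩ := st3 (t 3) s h (fun i => rfl)
  obtain ⟨b1, b2, b3⟩ := st2 (t 2) _ a1 a2
  obtain ⟨c1, c2, c3⟩ := st1 (t 1) _ b1 b2
  obtain ⟨d1, d2, d3⟩ := st0 (t 0) _ c1 c2
  rw [d3, c3, b3, a3]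
  simp only [Bt]
  generalize (if t 0 = true then (q (D5 s 0) == q (D5 s 4)) else true) = x0
  generalize (if t 1 = true then (q (D5 s 1) == q (D5 s 4)) else true) = x1
  generalize (if t 2 = true then (q (D5 s 2) == q (D5 s 4)) else true) = x2
  generalize (if t 3 = true then (q (D5 s 3) == q (D5 s 4)) else true) = x3
  cases q (N5 s) <;> cases x0 <;> cases x1 <;> cases x2 <;> cases x3 <;> rfl

set_option maxRecDepth 100000 in
lemma key : ∀ d0 d1 d2 d3 d4 ν : Bool, (d0 == (d1 == (d2 == (d3 == d4)))) = true →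
    ((Finset.univ.filter (fun i : I5 => Bt ![d0, d1, d2, d3, d4] ν i = true)).card = 27 ∧
      (∀ i, ![d0, d1, d2, d3, d4] i = true) ∧ ν = true) ∨
    ((Finset.univ.filter (fun i : I5 => Bt ![d0, d1, d2, d3, d4] ν i = true)).card = 15 ∧
      (∃ i, ¬ ![d0, d1, d2, d3, d4] i = true) ∧
      (∃ i j, i ≠ j ∧ ![d0, d1, d2, d3, d4] i = true ∧ ![d0, d1, d2, d3, d4] j = true)) ∨
    ((Finset.univ.filter (fun i : I5 => Bt ![d0, d1, d2, d3, d4] ν i = true)).card = 11 ∧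
      (((∀ i, ![d0, d1, d2, d3, d4] i = true) ∧ ¬ ν = true) ∨
        (∃ i, ![d0, d1, d2, d3, d4] i = true ∧ ∀ j, j ≠ i → ¬ ![d0, d1, d2, d3, d4] j = true))) := by
  decide +kernel

end CT5aux

open CT5aux

theorem t_CT5 : S_CT5 := by
  intro K _ _ _ s hs
  set d : Fin 5 → Bool := fun i => q (D5 s i) with hd
  have hvec : ![d 0, d 1, d 2, d 3, d 4] = d := by
    funext i; fin_cases i <;> rfl
  have hk := key (d 0) (d 1) (d 2) (d 3) (d 4) (q (N5 s)) (prodD hs)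
  rw [hvec] at hk
  have hset : {i | ty5 s i} = ((Finset.univ.filter (fun i : I5 => Bt d (q (N5 s)) i = true) :
      Finset I5) : Set I5) := by
    ext i
    simp only [Set.mem_ofPred_eq, Finset.coe_filter, Finset.mem_univ, true_and]
    match i with
    | .inl _ => simp [ty5, Bt]
    | .inr (.inl (i, b)) => simp only [ty5, Bt, hd, q_iff]
    | .inr (.inr t) =>
      rw [hd, ← q_sv hs t, q_iff]
      rfl
  have hcard : {i | ty5 s i}.ncard =
      (Finset.univ.filter (fun i : I5 => Bt d (q (N5 s)) i = true)).card := by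
    rw [hset, Set.ncard_coe_finset]
  rw [hcard]
  simpa only [hd, q_iff] using hk

end Pool.Agent.R863.CS
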