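import Pool.Agent.R863.CS.Stm

/-! CS-CUB: coefficients of cubic forms in four variables. -/

set_option autoImplicit false

namespace Pool.Agent.R863.CS

open MvPolynomial

namespace CUBp

variable {K : Type} [Field K]

/-- the exponents of the monomials of `cub20` -/
def tab : Fin 20 → ℕ × ℕ × ℕ × ℕ :=
  ![(3, 0, 0, 0), (2, 1, 0, 0), (1, 2, 0, 0), (0, 3, 0, 0), (2, 0, 1, 0), (1, 1, 1, 0),
    (0, 2, 1, 0), (1, 0, 2, 0), (0, 1, 2, 0), (0, 0, 3, 0), (2, 0, 0, 1), (1, 1, 0, 1),
    (0, 2, 0, 1), (1, 0, 1, 1), (0, 1, 1, 1), (0, 0, 2, 1), (1, 0, 0, 2), (0, 1, 0, 2),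
    (0, 0, 1, 2), (0, 0, 0, 3)]

lemma cub20_zero : cub20 (0 : Fin 20 → K) = 0 := by
  simp [cub20]

lemma cub20_add (c c' : Fin 20 → K) : cub20 (c + c') = cub20 c + cub20 c' := by
  simp only [cub20, Pi.add_apply, map_add]
  ring

lemma mon (a : K) (p q r s : ℕ) (h : p + q + r + s = 3) :
    ∃ c : Fin 20 → K, (C a * (X 0 ^ p * X 1 ^ q * X 2 ^ r * X 3 ^ s) : MvPolynomial (Fin 4) K) =
      cub20 c := by
  have hp : p ≤ 3 := by omega
  have hq : q ≤ 3 - p := by omega
  have hr : r ≤ 3 - p - q := by omega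
  have hs : s = 3 - p - q - r := by omega
  subst hs
  refine ⟨fun i => if tab i = (p, q, r, 3 - p - q - r) then a else 0, ?_⟩
  interval_cases p <;> interval_cases q <;> interval_cases r <;>
    (simp [cub20, tab]; try ring)

end CUBp

open CUBp

theorem t_CUB : S_CUB := by
  intro K _ G hG
  rw [G.as_sum]
  refine Finset.sum_induction _ (fun G => ∃ c : Fin 20 → K, G = cub20 c) ?_ ?_ ?_
  · rintro _ _ ⟨c, rfl⟩ ⟨c', rfl⟩
    exact ⟨c + c', (cub20_add c c').symm⟩
  · exact ⟨0, cub20_zero.symm⟩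
  · intro m hm
    have h1 : m.degree = 3 := by
      have h := hG (mem_support_iff.1 hm)
      have h' := congrArg (fun f => f m) (Finsupp.degree_eq_weight_one (σ := Fin 4) (R := ℕ))
      exact h'.trans h
    have h2 : m 0 + m 1 + m 2 + m 3 = 3 := by
      rw [Finsupp.degree_eq_sum, Fin.sum_univ_four] at h1
      exact h1
    have h3 : monomial m (coeff m G) =
        C (coeff m G) * (X 0 ^ (m 0) * X 1 ^ (m 1) * X 2 ^ (m 2) * X 3 ^ (m 3)) := by
      rw [monomial_eq, Finsupp.prod_fintype _ _ (fun i => pow_zero _), Fin.prod_univ_four]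
    rw [h3]
    exact mon _ _ _ _ _ h2

theorem t_COEF : S_COEF := by
  classical
  intro K _ G hG hv
  obtain ⟨c, rfl⟩ := t_CUB K G hG
  set φ := algebraMap K (AlgebraicClosure K) with hφ
  have hinj : Function.Injective φ := φ.injective
  have h1 : ∀ z w : AlgebraicClosure K,
      φ (c 9) * z ^ 3 + w * (φ (c 15) * z ^ 2 + φ (c 18) * z * w + φ (c 19) * w ^ 2) = 0 := by
    intro z w
    have h := hv z w
    simp only [bar, cub20, map_add, map_mul, map_pow, map_C, map_X, eval_C, eval_X] at h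
    simp at h
    linear_combination h
  have h9 : φ (c 9) = 0 := by
    have := h1 1 0
    simpa using this
  have h19 : φ (c 19) = 0 := by
    have := h1 0 1
    simpa using this
  have ha : φ (c 15) + φ (c 18) = 0 := by
    have := h1 1 1
    rw [h9, h19] at this
    linear_combination this
  obtain ⟨t, ht⟩ := Infinite.exists_notMem_finset ({0, 1} : Finset (AlgebraicClosure K))
  rw [Finset.mem_insert, Finset.mem_singleton, not_or] at ht
  have hb : φ (c 15) + φ (c 18) * t = 0 := by
    have := h1 1 t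
    rw [h9, h19] at this
    have h2 : t * (φ (c 15) + φ (c 18) * t) = 0 := by linear_combination this
    exact (mul_eq_zero.1 h2).resolve_left ht.1
  have h18 : φ (c 18) = 0 := by
    have h2 : φ (c 18) * (t - 1) = 0 := by linear_combination hb - ha
    exact (mul_eq_zero.1 h2).resolve_right (sub_ne_zero.2 ht.2)
  have h15 : φ (c 15) = 0 := by
    rw [h18, add_zero] at ha
    exact ha
  have g9 : c 9 = 0 := hinj (by rw [h9, map_zero])
  have g15 : c 15 = 0 := hinj (by rw [h15, map_zero])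
  have g18 : c 18 = 0 := hinj (by rw [h18, map_zero])
  have g19 : c 19 = 0 := hinj (by rw [h19, map_zero])
  refine ⟨![c 7, c 13, c 16], ![c 8, c 14, c 17], ![c 4, c 10], ![c 5, c 11], ![c 6, c 12],
    ![c 0, c 1, c 2, c 3], ?_⟩
  simp only [cub20, cub16, g9, g15, g18, g19, map_zero, Matrix.cons_val_zero, Matrix.cons_val_one,
    Matrix.cons_val]
  ring

end Pool.Agent.R863.CS
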