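import Pool.Agent.R863.CS.Stm

/-!
# MP_f18d96_ag, piece CS-DIST
-/

set_option autoImplicit false

namespace Pool.Agent.R863.CS

open MvPolynomial Module

namespace PDIST

variable {k : Type} [Field k]

theorem nf_eval (a b c0 c1 c2 c3 x y z w : k) : eval ![x, y, z, w] (nf a b c0 c1 c2 c3) =
    x * z ^ 2 + y * w ^ 2 + 2 * a * y ^ 2 * z + 2 * b * x ^ 2 * w -
      (c0 * x ^ 3 + c1 * x ^ 2 * y + c2 * x * y ^ 2 + c3 * y ^ 3) := by
  simp [nf]

theorem nf_d0 (a b c0 c1 c2 c3 x y z w : k) :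
    eval ![x, y, z, w] (pderiv 0 (nf a b c0 c1 c2 c3)) =
    z ^ 2 + 4 * b * x * w - (3 * c0 * x ^ 2 + 2 * c1 * x * y + c2 * y ^ 2) := by
  simp [nf, pderiv_X]
  ring

theorem nf_d1 (a b c0 c1 c2 c3 x y z w : k) :
    eval ![x, y, z, w] (pderiv 1 (nf a b c0 c1 c2 c3)) =
    w ^ 2 + 4 * a * y * z - (c1 * x ^ 2 + 2 * c2 * x * y + 3 * c3 * y ^ 2) := by
  simp [nf, pderiv_X]
  ring

theorem nf_d2 (a b c0 c1 c2 c3 x y z w : k) :
    eval ![x, y, z, w] (pderiv 2 (nf a b c0 c1 c2 c3)) = 2 * x * z + 2 * a * y ^ 2 := by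
  simp [nf, pderiv_X]
  ring

theorem nf_d3 (a b c0 c1 c2 c3 x y z w : k) :
    eval ![x, y, z, w] (pderiv 3 (nf a b c0 c1 c2 c3)) = 2 * y * w + 2 * b * x ^ 2 := by
  simp [nf, pderiv_X]
  ring

/-- a singular point -/
theorem not_smooth {a b c0 c1 c2 c3 x z w : k}
    (h : x * z ^ 2 + w ^ 2 + 2 * a * z + 2 * b * x ^ 2 * w -
      (c0 * x ^ 3 + c1 * x ^ 2 + c2 * x + c3) = 0)
    (h0 : z ^ 2 + 4 * b * x * w - (3 * c0 * x ^ 2 + 2 * c1 * x + c2) = 0)
    (h1 : w ^ 2 + 4 * a * z - (c1 * x ^ 2 + 2 * c2 * x + 3 * c3) = 0)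
    (h2 : x * z + a = 0) (h3 : w + b * x ^ 2 = 0) :
    ¬ Smooth (nf a b c0 c1 c2 c3) := by
  intro hs
  obtain ⟨i, hi⟩ := hs ![x, 1, z, w] (by
      intro hv
      have := congrFun hv 1
      simp at this) (by rw [nf_eval]; linear_combination h)
  apply hi
  fin_cases i
  · show eval ![x, 1, z, w] (pderiv 0 (nf a b c0 c1 c2 c3)) = 0
    rw [nf_d0]; linear_combination h0
  · show eval ![x, 1, z, w] (pderiv 1 (nf a b c0 c1 c2 c3)) = 0
    rw [nf_d1]; linear_combination h1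
  · show eval ![x, 1, z, w] (pderiv 2 (nf a b c0 c1 c2 c3)) = 0
    rw [nf_d2]; linear_combination 2 * h2
  · show eval ![x, 1, z, w] (pderiv 3 (nf a b c0 c1 c2 c3)) = 0
    rw [nf_d3]; linear_combination 2 * h3

theorem q5 (s : Fin 5 → k) (i : Fin 5) :
    -((s i ^ 2) ^ 5) + e1 (fun i => s i ^ 2) * (s i ^ 2) ^ 4 - e2 (fun i => s i ^ 2) * (s i ^ 2) ^ 3 +
      e3 (fun i => s i ^ 2) * (s i ^ 2) ^ 2 - e4 (fun i => s i ^ 2) * (s i ^ 2) + e5 s ^ 2 = 0 := by
  unfold e1 e2 e3 e4 e5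
  fin_cases i <;> simp only [Fin.zero_eta, Fin.mk_one, Fin.reduceFinMk] <;> ring

theorem q5' (s : Fin 5 → k) (i : Fin 5) :
    5 * (s i ^ 2) ^ 4 - 4 * e1 (fun i => s i ^ 2) * (s i ^ 2) ^ 3 +
      3 * e2 (fun i => s i ^ 2) * (s i ^ 2) ^ 2 - 2 * e3 (fun i => s i ^ 2) * (s i ^ 2) +
      e4 (fun i => s i ^ 2) = ∏ j ∈ Finset.univ.erase i, (s j ^ 2 - s i ^ 2) := by
  have h0 : (Finset.univ.erase (0 : Fin 5)) = {1, 2, 3, 4} := by decide
  have h1 : (Finset.univ.erase (1 : Fin 5)) = {0, 2, 3, 4} := by decide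
  have h2 : (Finset.univ.erase (2 : Fin 5)) = {0, 1, 3, 4} := by decide
  have h3 : (Finset.univ.erase (3 : Fin 5)) = {0, 1, 2, 4} := by decide
  have h4 : (Finset.univ.erase (4 : Fin 5)) = {0, 1, 2, 3} := by decide
  unfold e1 e2 e3 e4
  fin_cases i
  · simp only [Fin.zero_eta, h0]
    rw [Finset.prod_insert (by decide), Finset.prod_insert (by decide),
      Finset.prod_insert (by decide), Finset.prod_singleton]
    ring
  · simp only [Fin.mk_one, h1]
    rw [Finset.prod_insert (by decide), Finset.prod_insert (by decide),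
      Finset.prod_insert (by decide), Finset.prod_singleton]
    ring
  · simp only [Fin.reduceFinMk, h2]
    rw [Finset.prod_insert (by decide), Finset.prod_insert (by decide),
      Finset.prod_insert (by decide), Finset.prod_singleton]
    ring
  · simp only [Fin.reduceFinMk, h3]
    rw [Finset.prod_insert (by decide), Finset.prod_insert (by decide),
      Finset.prod_insert (by decide), Finset.prod_singleton]
    ring
  · simp only [Fin.reduceFinMk, h4]
    rw [Finset.prod_insert (by decide), Finset.prod_insert (by decide),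
      Finset.prod_insert (by decide), Finset.prod_singleton]
    ring

theorem q3 (s : Fin 3 → k) (i : Fin 3) :
    -((s i ^ 2) ^ 3) + (s 0 ^ 2 + s 1 ^ 2 + s 2 ^ 2) * (s i ^ 2) ^ 2 -
      (s 0 ^ 2 * s 1 ^ 2 + s 0 ^ 2 * s 2 ^ 2 + s 1 ^ 2 * s 2 ^ 2) * (s i ^ 2) +
      s 0 ^ 2 * s 1 ^ 2 * s 2 ^ 2 = 0 := by
  fin_cases i <;> simp only [Fin.zero_eta, Fin.mk_one, Fin.reduceFinMk] <;> ring

theorem q3' (s : Fin 3 → k) (i : Fin 3) :
    3 * (s i ^ 2) ^ 2 - 2 * (s 0 ^ 2 + s 1 ^ 2 + s 2 ^ 2) * (s i ^ 2) +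
      (s 0 ^ 2 * s 1 ^ 2 + s 0 ^ 2 * s 2 ^ 2 + s 1 ^ 2 * s 2 ^ 2) =
      ∏ j ∈ Finset.univ.erase i, (s j ^ 2 - s i ^ 2) := by
  have h0 : (Finset.univ.erase (0 : Fin 3)) = {1, 2} := by decide
  have h1 : (Finset.univ.erase (1 : Fin 3)) = {0, 2} := by decide
  have h2 : (Finset.univ.erase (2 : Fin 3)) = {0, 1} := by decide
  fin_cases i
  · simp only [Fin.zero_eta, h0]
    rw [Finset.prod_insert (by decide), Finset.prod_singleton]
    ring
  · simp only [Fin.mk_one, h1]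
    rw [Finset.prod_insert (by decide), Finset.prod_singleton]
    ring
  · simp only [Fin.reduceFinMk, h2]
    rw [Finset.prod_insert (by decide), Finset.prod_singleton]
    ring

end PDIST

open PDIST

theorem t_DIST5 : S_DIST5 := by
  intro k _ _ h2 s hs i j hij heq
  have hQ := q5 s i
  have hQ' := q5' s i
  have hz : ∏ j ∈ Finset.univ.erase i, (s j ^ 2 - s i ^ 2) = 0 :=
    Finset.prod_eq_zero (Finset.mem_erase.2 ⟨fun h => hij h.symm, Finset.mem_univ j⟩)
      (by rw [heq, sub_self])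
  rw [hz] at hQ'
  by_cases hX : s i ^ 2 = 0
  · rw [hX] at hQ hQ'
    have ha : e5 s = 0 := by
      have : e5 s ^ 2 = 0 := by linear_combination hQ
      exact pow_eq_zero_iff (by norm_num) |>.1 this
    have hc3 : e4 (fun i => s i ^ 2) = 0 := by linear_combination hQ'
    obtain ⟨z, hz⟩ := IsAlgClosed.exists_pow_nat_eq (e3 fun i => s i ^ 2) (show 0 < 2 by norm_num)
    refine not_smooth (x := 0) (z := z) (w := 0) ?_ ?_ ?_ ?_ ?_ hs
    · rw [ha, hc3]; ring
    · linear_combination hz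
    · rw [ha, hc3]; ring
    · rw [ha]; ring
    · ring
  · set X := s i ^ 2 with hXd
    set a := e5 s with had
    refine not_smooth (x := -X) (z := a / X) (w := -X ^ 2) ?_ ?_ ?_ ?_ ?_ hs
    · field_simp
      linear_combination hQ
    · field_simp
      linear_combination hQ + X * hQ'
    · field_simp
      linear_combination 4 * hQ + X * hQ'
    · field_simp
      ring
    · ring

theorem t_DIST3 : S_DIST3 := by
  intro k _ _ h2 s hs
  refine ⟨fun i hi => ?_, fun i j hij heq => ?_⟩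
  · have hc3 : s 0 ^ 2 * s 1 ^ 2 * s 2 ^ 2 = 0 := by
      have := q3 s i
      rw [hi] at this
      linear_combination this
    obtain ⟨z, hz⟩ := IsAlgClosed.exists_pow_nat_eq
      (s 0 ^ 2 * s 1 ^ 2 + s 0 ^ 2 * s 2 ^ 2 + s 1 ^ 2 * s 2 ^ 2) (show 0 < 2 by norm_num)
    refine not_smooth (x := 0) (z := z) (w := 0) ?_ ?_ ?_ ?_ ?_ hs
    · rw [hc3]; ring
    · linear_combination hz
    · rw [hc3]; ring
    · ring
    · ring
  · have hQ := q3 s i
    have hQ' := q3' s i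
    have hz : ∏ j ∈ Finset.univ.erase i, (s j ^ 2 - s i ^ 2) = 0 :=
      Finset.prod_eq_zero (Finset.mem_erase.2 ⟨fun h => hij h.symm, Finset.mem_univ j⟩)
        (by rw [heq, sub_self])
    rw [hz] at hQ'
    refine not_smooth (x := -(s i ^ 2)) (z := 0) (w := 0) ?_ ?_ ?_ ?_ ?_ hs
    · linear_combination -hQ
    · linear_combination -hQ'
    · linear_combination -3 * hQ - s i ^ 2 * hQ'
    · ring
    · ring

end Pool.Agent.R863.CS
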