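import Pool.Agent.R863.CS.Stm

set_option autoImplicit false

namespace Pool.Agent.R863.CS

namespace E0

variable {K : Type} [Field K]

theorem pick {K : Type} [Finite K] (T : Finset K) (h : T.card < Nat.card K) : ∃ x, x ∉ T := by
  classical
  have := Fintype.ofFinite K
  by_contra hcon
  push Not at hcon
  have : T = Finset.univ := Finset.eq_univ_iff_forall.2 hcon
  rw [this, Finset.card_univ, Nat.card_eq_fintype_card] at h
  exact lt_irrefl _ h

theorem fromTU (t u : K) (ht0 : t ≠ 0) (hu0 : u ≠ 0) (ht1 : t ^ 2 ≠ 1) (h : t ^ 2 + u ^ 2 = -1) :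
    ∃ s : Fin 3 → K, dist3 s ∧ (∀ i, IsSquare (D3 s i)) ∧ IsSquare (N3 s) := by
  have hm1 : t ^ 2 ≠ -1 := by
    intro h1
    apply hu0
    have : u ^ 2 = 0 := by linear_combination h - h1
    exact pow_eq_zero_iff (two_ne_zero) |>.1 this
  have h4 : t ^ 4 ≠ 1 := by
    intro h1
    have h2 : (t ^ 2 - 1) * (t ^ 2 + 1) = 0 := by linear_combination h1
    rcases mul_eq_zero.1 h2 with h3 | h3
    · exact ht1 (sub_eq_zero.1 h3)
    · exact hm1 (eq_neg_of_add_eq_zero_left h3)
  have h24 : t ^ 2 ≠ t ^ 4 := by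
    intro h1
    have h2 : t ^ 2 * (t ^ 2 - 1) = 0 := by linear_combination -h1
    rcases mul_eq_zero.1 h2 with h3 | h3
    · exact ht0 (pow_eq_zero_iff (two_ne_zero) |>.1 h3)
    · exact ht1 (sub_eq_zero.1 h3)
  have e0 : (Finset.univ.erase (0 : Fin 3)) = {1, 2} := by decide
  have e1' : (Finset.univ.erase (1 : Fin 3)) = {0, 2} := by decide
  have e2' : (Finset.univ.erase (2 : Fin 3)) = {0, 1} := by decide
  refine ⟨![1, t, t ^ 2], ⟨?_, ?_⟩, ?_, ?_⟩
  · intro i
    fin_cases i
    · exact one_ne_zero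
    · exact ht0
    · exact pow_ne_zero 2 ht0
  · have q1 : (1:K) ^ 2 ≠ t ^ 2 := fun h1 => ht1 (by rw [← h1]; ring)
    have q2 : (1:K) ^ 2 ≠ (t ^ 2) ^ 2 := fun h1 => h4 (by linear_combination -h1)
    have q3 : t ^ 2 ≠ (t ^ 2) ^ 2 := fun h1 => h24 (by linear_combination h1)
    intro i j hij
    fin_cases i <;> fin_cases j
    · exact absurd rfl hij
    · exact q1
    · exact q2
    · exact q1.symm
    · exact absurd rfl hij
    · exact q3
    · exact q2.symm
    · exact q3.symm
    · exact absurd rfl hij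
  · intro i
    fin_cases i
    · refine ⟨u * (t ^ 2 - 1), ?_⟩
      show D3 ![1, t, t ^ 2] 0 = _
      unfold D3
      rw [e0, Finset.prod_pair (by decide)]
      show -((t ^ 2 - 1 ^ 2) * ((t ^ 2) ^ 2 - 1 ^ 2)) = _
      linear_combination (-(t ^ 2 - 1) ^ 2) * h
    · refine ⟨t * (t ^ 2 - 1), ?_⟩
      show D3 ![1, t, t ^ 2] 1 = _
      unfold D3
      rw [e1', Finset.prod_pair (by decide)]
      show -((1 ^ 2 - t ^ 2) * ((t ^ 2) ^ 2 - t ^ 2)) = _
      ring
    · refine ⟨t * (t ^ 2 - 1) * u, ?_⟩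
      show D3 ![1, t, t ^ 2] 2 = _
      unfold D3
      rw [e2', Finset.prod_pair (by decide)]
      show -((1 ^ 2 - (t ^ 2) ^ 2) * (t ^ 2 - (t ^ 2) ^ 2)) = _
      linear_combination (-(t ^ 2 * (t ^ 2 - 1) ^ 2)) * h
  · refine ⟨t ^ 2 * (1 + t) * u, ?_⟩
    unfold N3
    show -(1 * t * t ^ 2 * (1 + t) * (t + t ^ 2) * (t ^ 2 + 1)) = _
    linear_combination (-(t ^ 4 * (1 + t) ^ 2)) * h

open Polynomial in
theorem quad_ne (a b c : K) (h : a ≠ 0 ∨ b ≠ 0 ∨ c ≠ 0) : (C a * X ^ 2 + C b * X + C c : K[X]) ≠ 0 := by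
  intro h0
  have h2 := congrArg (fun p : K[X] => p.coeff 2) h0
  have h1 := congrArg (fun p : K[X] => p.coeff 1) h0
  have h3 := congrArg (fun p : K[X] => p.coeff 0) h0
  simp [coeff_X, coeff_C] at h1 h2 h3
  rcases h with h | h | h
  · exact h h2
  · exact h h1
  · exact h h3

open Polynomial in
theorem good [Finite K] (hq : 11 ≤ Nat.card K) (q : Fin 5 → K × K × K)
    (h : ∀ i, (q i).1 ≠ 0 ∨ (q i).2.1 ≠ 0 ∨ (q i).2.2 ≠ 0) :
    ∃ m : K, ∀ i, (q i).1 * m ^ 2 + (q i).2.1 * m + (q i).2.2 ≠ 0 := by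
  classical
  set f : K[X] := ∏ i, (C (q i).1 * X ^ 2 + C (q i).2.1 * X + C (q i).2.2) with hf
  have hf0 : f ≠ 0 := Finset.prod_ne_zero_iff.2 (fun i _ => quad_ne _ _ _ (h i))
  have hdeg : f.natDegree ≤ 10 := by
    refine (natDegree_prod_le _ _).trans ?_
    calc ∑ i : Fin 5, (C (q i).1 * X ^ 2 + C (q i).2.1 * X + C (q i).2.2 : K[X]).natDegree ≤ ∑ i : Fin 5, 2 :=
          Finset.sum_le_sum (fun i _ => natDegree_quadratic_le)
      _ = 10 := by simp
  obtain ⟨m, hm⟩ := pick f.roots.toFinset (by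
    calc f.roots.toFinset.card ≤ Multiset.card f.roots := Multiset.toFinset_card_le _
      _ ≤ f.natDegree := card_roots' f
      _ < Nat.card K := by omega)
  refine ⟨m, fun i hi => hm ?_⟩
  rw [Multiset.mem_toFinset, mem_roots hf0, IsRoot.def, hf, eval_prod]
  apply Finset.prod_eq_zero (Finset.mem_univ i)
  simpa using hi

end E0

open E0 in
theorem t_E0 : S_E0 := by
  intro K _ _ h2 hcard
  classical
  have hft := Fintype.ofFinite K
  have hcc : Nat.card K = Fintype.card K := Nat.card_eq_fintype_card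
  have hcast : ((Fintype.card K : ℕ) : K) = 0 := FiniteField.cast_card_eq_zero K
  obtain ⟨p, hp⟩ := CharP.exists K
  obtain ⟨n, hpp, hpn⟩ := FiniteField.card K p
  by_cases h11 : 11 ≤ Nat.card K
  · left
    -- base point
    have hne : NeZero p := ⟨hpp.ne_zero⟩
    obtain ⟨a, b, hab⟩ := CharP.sq_add_sq K p (-1)
    set t0 : K := (a : K) with ht0
    set u0 : K := (b : K) with hu0
    have hab' : t0 ^ 2 + u0 ^ 2 = -1 := by rw [hab]; norm_num
    have htu : t0 ≠ 0 ∨ u0 ≠ 0 := by
      by_contra hcon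
      push Not at hcon
      rw [hcon.1, hcon.2] at hab'
      norm_num at hab'
    obtain ⟨m, hm⟩ := good h11 ![(1, 0, 1), (-t0, -2 * u0, t0), (-u0, 2 * t0, u0), (-t0 - 1, -2 * u0, t0 - 1),
      (1 - t0, -2 * u0, t0 + 1)] (by
        intro i
        fin_cases i
        · left; exact one_ne_zero
        · rcases htu with h | h
          · left; exact neg_ne_zero.2 h
          · right; left; exact mul_ne_zero (neg_ne_zero.2 h2) h
        · rcases htu with h | h
          · right; left; exact mul_ne_zero h2 h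
          · left; exact neg_ne_zero.2 h
        · by_cases h : (-t0 - 1 : K) = 0
          · right; right
            intro h3
            apply h2
            have h3' : t0 - 1 = 0 := h3
            linear_combination -h - h3'
          · left; exact h
        · by_cases h : (1 - t0 : K) = 0
          · right; right
            intro h3
            apply h2
            have h3' : t0 + 1 = 0 := h3
            linear_combination h + h3'
          · left; exact h)
    have m0 : 1 * m ^ 2 + 0 * m + 1 ≠ 0 := hm 0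
    have m1 : -t0 * m ^ 2 + -2 * u0 * m + t0 ≠ 0 := hm 1
    have m2 : -u0 * m ^ 2 + 2 * t0 * m + u0 ≠ 0 := hm 2
    have m3 : (-t0 - 1) * m ^ 2 + -2 * u0 * m + (t0 - 1) ≠ 0 := hm 3
    have m4 : (1 - t0) * m ^ 2 + -2 * u0 * m + (t0 + 1) ≠ 0 := hm 4
    have d0 : 1 + m ^ 2 ≠ 0 := fun h => m0 (by linear_combination h)
    refine fromTU ((-t0 * m ^ 2 + -2 * u0 * m + t0) / (1 + m ^ 2)) ((-u0 * m ^ 2 + 2 * t0 * m + u0) / (1 + m ^ 2))
      (div_ne_zero m1 d0) (div_ne_zero m2 d0) ?_ ?_
    · intro h
      rw [div_pow, div_eq_one_iff_eq (pow_ne_zero 2 d0)] at h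
      rcases sq_eq_sq_iff_eq_or_eq_neg.1 h with h | h
      · apply m3; linear_combination h
      · apply m4; linear_combination h
    · field_simp
      linear_combination ((1 + m ^ 2) ^ 2) * hab'
  · push Not at h11
    have h4 : Nat.card K = 7 ∨ Nat.card K = 8 ∨ Nat.card K = 9 ∨ Nat.card K = 10 := by omega
    rcases h4 with h | h | h | h
    · left
      rw [← hcc, h] at hcast
      have h7 : (7:K) = 0 := by exact_mod_cast hcast
      refine fromTU 3 2 ?_ h2 ?_ ?_
      · intro h3
        have : (1:K) = 0 := by linear_combination h7 - 2 * h3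
        exact one_ne_zero this
      · intro h3
        have : (1:K) = 0 := by linear_combination h3 - h7
        exact one_ne_zero this
      · linear_combination 2 * h7
    · exfalso
      rw [← hcc, h] at hcast
      have h8 : (2:K) ^ 3 = 0 := by
        have : (8:K) = 0 := by exact_mod_cast hcast
        linear_combination this
      exact h2 (pow_eq_zero_iff (by norm_num) |>.1 h8)
    · right
      rw [← hcc, h] at hcast
      have h3 : (3:K) = 0 := by
        have h9 : (3:K) ^ 2 = 0 := by
          have : (9:K) = 0 := by exact_mod_cast hcast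
          linear_combination this
        exact pow_eq_zero_iff (by norm_num) |>.1 h9
      have hsq : IsSquare (-1 : K) := by
        rw [FiniteField.isSquare_neg_one_iff, ← hcc, h]
        norm_num
      obtain ⟨i, hi⟩ := hsq
      have hi2 : i ^ 2 = -1 := by rw [sq, ← hi]
      have hi0 : i ≠ 0 := by
        rintro rfl
        norm_num at hi2
      have h10 : (1:K) ≠ 0 := one_ne_zero
      have x1 : (0:K) ^ 2 = 0 := by ring
      have x2 : i ^ 2 = -1 := hi2
      have x3 : (1:K) ^ 2 = 1 := by ring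
      have x4 : (1 + i) ^ 2 = -i := by linear_combination hi2 + i * h3
      have x5 : (1 - i) ^ 2 = i := by linear_combination hi2 - i * h3
      have n1 : (0:K) ≠ -1 := fun hh => h10 (by linear_combination hh)
      have n2 : (0:K) ≠ 1 := fun hh => h10 hh.symm
      have n3 : (0:K) ≠ -i := fun hh => hi0 (by linear_combination hh)
      have n4 : (0:K) ≠ i := fun hh => hi0 hh.symm
      have n5 : (-1:K) ≠ 1 := fun hh => h2 (by linear_combination -hh)
      have n6 : (-1:K) ≠ -i := fun hh => h2 (by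
        have : i = 1 := by linear_combination hh
        rw [this] at hi2
        linear_combination hi2)
      have n7 : (-1:K) ≠ i := fun hh => h2 (by
        rw [← hh] at hi2
        linear_combination hi2)
      have n8 : (1:K) ≠ -i := fun hh => n7 (by linear_combination -hh)
      have n9 : (1:K) ≠ i := fun hh => n6 (by linear_combination -hh)
      have n10 : (-i:K) ≠ i := fun hh => hi0 (by
        have : 2 * i = 0 := by linear_combination -hh
        exact (mul_eq_zero.1 this).resolve_left h2)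
      have e0' : (Finset.univ.erase (0 : Fin 5)) = {1, 2, 3, 4} := by decide
      have e1' : (Finset.univ.erase (1 : Fin 5)) = {0, 2, 3, 4} := by decide
      have e2' : (Finset.univ.erase (2 : Fin 5)) = {0, 1, 3, 4} := by decide
      have e3' : (Finset.univ.erase (3 : Fin 5)) = {0, 1, 2, 4} := by decide
      have e4' : (Finset.univ.erase (4 : Fin 5)) = {0, 1, 2, 3} := by decide
      have s0 : (![0, i, 1, 1 + i, 1 - i] : Fin 5 → K) 0 ^ 2 = 0 := x1
      have s1 : (![0, i, 1, 1 + i, 1 - i] : Fin 5 → K) 1 ^ 2 = -1 := x2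
      have s2 : (![0, i, 1, 1 + i, 1 - i] : Fin 5 → K) 2 ^ 2 = 1 := x3
      have s3 : (![0, i, 1, 1 + i, 1 - i] : Fin 5 → K) 3 ^ 2 = -i := x4
      have s4 : (![0, i, 1, 1 + i, 1 - i] : Fin 5 → K) 4 ^ 2 = i := x5
      refine ⟨![0, i, 1, 1 + i, 1 - i], ?_, ?_, ?_⟩
      · intro j l hjl
        have key : ∀ j l : Fin 5, j < l → (![0, i, 1, 1 + i, 1 - i] : Fin 5 → K) j ^ 2 ≠
            (![0, i, 1, 1 + i, 1 - i] : Fin 5 → K) l ^ 2 := by
          intro j l hjl
          fin_cases j <;> fin_cases l <;> first | exact absurd hjl (by decide) | skip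
          · show (![0, i, 1, 1 + i, 1 - i] : Fin 5 → K) 0 ^ 2 ≠ (![0, i, 1, 1 + i, 1 - i] : Fin 5 → K) 1 ^ 2
            rw [s0, s1]; exact n1
          · show (![0, i, 1, 1 + i, 1 - i] : Fin 5 → K) 0 ^ 2 ≠ (![0, i, 1, 1 + i, 1 - i] : Fin 5 → K) 2 ^ 2
            rw [s0, s2]; exact n2
          · show (![0, i, 1, 1 + i, 1 - i] : Fin 5 → K) 0 ^ 2 ≠ (![0, i, 1, 1 + i, 1 - i] : Fin 5 → K) 3 ^ 2
            rw [s0, s3]; exact n3
          · show (![0, i, 1, 1 + i, 1 - i] : Fin 5 → K) 0 ^ 2 ≠ (![0, i, 1, 1 + i, 1 - i] : Fin 5 → K) 4 ^ 2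
            rw [s0, s4]; exact n4
          · show (![0, i, 1, 1 + i, 1 - i] : Fin 5 → K) 1 ^ 2 ≠ (![0, i, 1, 1 + i, 1 - i] : Fin 5 → K) 2 ^ 2
            rw [s1, s2]; exact n5
          · show (![0, i, 1, 1 + i, 1 - i] : Fin 5 → K) 1 ^ 2 ≠ (![0, i, 1, 1 + i, 1 - i] : Fin 5 → K) 3 ^ 2
            rw [s1, s3]; exact n6
          · show (![0, i, 1, 1 + i, 1 - i] : Fin 5 → K) 1 ^ 2 ≠ (![0, i, 1, 1 + i, 1 - i] : Fin 5 → K) 4 ^ 2
            rw [s1, s4]; exact n7
          · show (![0, i, 1, 1 + i, 1 - i] : Fin 5 → K) 2 ^ 2 ≠ (![0, i, 1, 1 + i, 1 - i] : Fin 5 → K) 3 ^ 2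
            rw [s2, s3]; exact n8
          · show (![0, i, 1, 1 + i, 1 - i] : Fin 5 → K) 2 ^ 2 ≠ (![0, i, 1, 1 + i, 1 - i] : Fin 5 → K) 4 ^ 2
            rw [s2, s4]; exact n9
          · show (![0, i, 1, 1 + i, 1 - i] : Fin 5 → K) 3 ^ 2 ≠ (![0, i, 1, 1 + i, 1 - i] : Fin 5 → K) 4 ^ 2
            rw [s3, s4]; exact n10
        rcases lt_or_gt_of_ne hjl with h | h
        · exact key j l h
        · exact (key l j h).symm
      · intro j
        fin_cases j
        · refine ⟨i, ?_⟩
          show D5 ![0, i, 1, 1 + i, 1 - i] 0 = _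
          unfold D5
          rw [e0', Finset.prod_insert (by decide), Finset.prod_insert (by decide), Finset.prod_pair (by decide),
            s0, s1, s2, s3, s4]
          linear_combination 0 * hi2
        · refine ⟨1, ?_⟩
          show D5 ![0, i, 1, 1 + i, 1 - i] 1 = _
          unfold D5
          rw [e1', Finset.prod_insert (by decide), Finset.prod_insert (by decide), Finset.prod_pair (by decide),
            s0, s1, s2, s3, s4]
          linear_combination (-2) * hi2 + h3
        · refine ⟨1, ?_⟩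
          show D5 ![0, i, 1, 1 + i, 1 - i] 2 = _
          unfold D5
          rw [e2', Finset.prod_insert (by decide), Finset.prod_insert (by decide), Finset.prod_pair (by decide),
            s0, s1, s2, s3, s4]
          linear_combination (-2) * hi2 + h3
        · refine ⟨1, ?_⟩
          show D5 ![0, i, 1, 1 + i, 1 - i] 3 = _
          unfold D5
          rw [e3', Finset.prod_insert (by decide), Finset.prod_insert (by decide), Finset.prod_pair (by decide),
            s0, s1, s2, s3, s4]
          linear_combination (2 * i ^ 2 - 4) * hi2 + h3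
        · refine ⟨1, ?_⟩
          show D5 ![0, i, 1, 1 + i, 1 - i] 4 = _
          unfold D5
          rw [e4', Finset.prod_insert (by decide), Finset.prod_insert (by decide), Finset.prod_pair (by decide),
            s0, s1, s2, s3, s4]
          linear_combination (2 * i ^ 2 - 4) * hi2 + h3
      · refine ⟨1 + i, ?_⟩
        unfold N5
        show -((0 + i) * (0 + 1) * (0 + (1 + i)) * (0 + (1 - i)) * (i + 1) * (i + (1 + i)) * (i + (1 - i))
          * (1 + (1 + i)) * (1 + (1 - i)) * ((1 + i) + (1 - i))) = _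
        linear_combination (-4 * i ^ 5 - 6 * i ^ 4 + 22 * i ^ 3 + 36 * i ^ 2 - 28 * i - 61) * hi2 + (6 * i + 20) * h3
    · exfalso
      rw [← hcc, h] at hpn
      have hpd : p ∣ 10 := by rw [hpn]; exact dvd_pow_self p n.ne_zero
      have hple : p ≤ 10 := Nat.le_of_dvd (by norm_num) hpd
      have hn4 : (n : ℕ) < 4 := by
        by_contra hcon
        push Not at hcon
        have h1 : 2 ^ 4 ≤ p ^ (n : ℕ) := by
          calc 2 ^ 4 ≤ p ^ 4 := Nat.pow_le_pow_left hpp.two_le 4
            _ ≤ p ^ (n : ℕ) := Nat.pow_le_pow_right hpp.pos hcon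
        rw [← hpn] at h1
        omega
      have hn0 : 0 < (n : ℕ) := n.pos
      generalize (n : ℕ) = k at hpn hn4 hn0
      interval_cases k
      · rw [pow_one] at hpn
        rw [← hpn] at hpp
        revert hpp
        decide
      · have : p < 4 := by nlinarith
        interval_cases p <;> omega
      · have : p < 3 := by
          by_contra hcon
          push Not at hcon
          have := Nat.pow_le_pow_left hcon 3
          omega
        interval_cases p <;> omega

end Pool.Agent.R863.CS
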