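import Pool.Agent.R863.CS.Stm

set_option autoImplicit false

namespace Pool.Agent.R863.CS

namespace E12

variable {K : Type} [Field K]

theorem pick [Finite K] (T : Finset K) (h : T.card < Nat.card K) : ∃ x, x ∉ T := by
  classical
  haveI := Fintype.ofFinite K
  by_contra hcon
  push Not at hcon
  have : T = Finset.univ := Finset.eq_univ_iff_forall.2 hcon
  rw [this, Finset.card_univ, Nat.card_eq_fintype_card] at h
  exact lt_irrefl _ h

theorem char_ne_two (h2 : (2 : K) ≠ 0) : ringChar K ≠ 2 := by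
  intro h
  apply h2
  have : ((ringChar K : ℕ) : K) = 0 := ringChar.Nat.cast_ringChar
  rw [h] at this
  exact_mod_cast this

theorem D30 (s : Fin 3 → K) : D3 s 0 = -((s 1 ^ 2 - s 0 ^ 2) * (s 2 ^ 2 - s 0 ^ 2)) := by
  unfold D3
  have : (Finset.univ.erase (0 : Fin 3)) = {1, 2} := by decide
  rw [this, Finset.prod_pair (by decide)]

/-- the assumption for contradiction in convenient form -/
theorem conv (h : ¬ ∃ s : Fin 3 → K, dist3 s ∧ ∃ i, ¬ IsSquare (D3 s i)) (a b c : K) (ha : a ≠ 0) (hb : b ≠ 0)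
    (hc : c ≠ 0) (hab : a ^ 2 ≠ b ^ 2) (hac : a ^ 2 ≠ c ^ 2) (hbc : b ^ 2 ≠ c ^ 2) :
    IsSquare (-((b ^ 2 - a ^ 2) * (c ^ 2 - a ^ 2))) := by
  by_contra hcon
  apply h
  refine ⟨![a, b, c], ⟨?_, ?_⟩, 0, ?_⟩
  · intro i
    fin_cases i
    · exact ha
    · exact hb
    · exact hc
  · intro i j hij
    fin_cases i <;> fin_cases j <;> simp_all [eq_comm]
  · rw [D30]
    simpa using hcon

theorem sq_mul_left {x y : K} (hx0 : x ≠ 0) (hx : IsSquare x) (hxy : IsSquare (x * y)) : IsSquare y := by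
  obtain ⟨u, hu⟩ := hx
  obtain ⟨v, hv⟩ := hxy
  have hu0 : u ≠ 0 := by rintro rfl; apply hx0; rw [hu]; ring
  refine ⟨v / u, ?_⟩
  have : y = v * v / x := by rw [← hv]; field_simp
  rw [this, hu]
  field_simp

end E12

open E12 in
theorem t_E12 : S_E12 := by
  intro K _ _ h2 hcard
  classical
  by_contra hcon
  have hP := conv hcon
  have h1 : (1:K) ≠ 0 := one_ne_zero
  -- four different nonzero squares
  obtain ⟨x, hx⟩ := pick ({0, 1, -1} : Finset K) (lt_of_le_of_lt (Finset.card_le_three) (by omega))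
  obtain ⟨y, hy⟩ := pick ({0, 1, -1, x, -x} : Finset K) (lt_of_le_of_lt (Finset.card_le_five) (by omega))
  obtain ⟨z, hz⟩ := pick ({0, 1, -1, x, -x, y, -y} : Finset K) (by
    refine lt_of_le_of_lt (b := 7) ?_ (by omega)
    refine (Finset.card_insert_le _ _).trans ?_
    refine Nat.succ_le_succ ?_
    exact Finset.card_le_six)
  simp only [Finset.mem_insert, Finset.mem_singleton, not_or] at hx hy hz
  obtain ⟨hx0, hx1, hx1'⟩ := hx
  obtain ⟨hy0, hy1, hy1', hyx, hyx'⟩ := hy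
  obtain ⟨hz0, hz1, hz1', hzx, hzx', hzy, hzy'⟩ := hz
  have sqne : ∀ a b : K, a ≠ b → a ≠ -b → a ^ 2 ≠ b ^ 2 := by
    intro a b hab hab' h
    rcases sq_eq_sq_iff_eq_or_eq_neg.1 h with h | h
    · exact hab h
    · exact hab' h
  have ex1 : (1:K) ^ 2 ≠ x ^ 2 := fun h => sqne x 1 hx1 hx1' h.symm
  have ey1 : (1:K) ^ 2 ≠ y ^ 2 := fun h => sqne y 1 hy1 hy1' h.symm
  have ez1 : (1:K) ^ 2 ≠ z ^ 2 := fun h => sqne z 1 hz1 hz1' h.symm
  have exy : x ^ 2 ≠ y ^ 2 := fun h => sqne y x hyx hyx' h.symm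
  have exz : x ^ 2 ≠ z ^ 2 := fun h => sqne z x hzx hzx' h.symm
  have eyz : y ^ 2 ≠ z ^ 2 := fun h => sqne z y hzy hzy' h.symm
  -- -1 is a square
  have hneg : IsSquare (-1 : K) := by
    have s1 := hP 1 x y h1 hx0 hy0 ex1 ey1 exy
    have s2 := hP 1 y z h1 hy0 hz0 ey1 ez1 eyz
    have s3 := hP 1 x z h1 hx0 hz0 ex1 ez1 exz
    have s4 := (s1.mul s2).mul s3
    set w := (x ^ 2 - 1 ^ 2) * (y ^ 2 - 1 ^ 2) * (z ^ 2 - 1 ^ 2) with hw
    have hw0 : w ≠ 0 := mul_ne_zero (mul_ne_zero (sub_ne_zero.2 ex1.symm) (sub_ne_zero.2 ey1.symm))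
      (sub_ne_zero.2 ez1.symm)
    have e : -((x ^ 2 - 1 ^ 2) * (y ^ 2 - 1 ^ 2)) * -((y ^ 2 - 1 ^ 2) * (z ^ 2 - 1 ^ 2)) *
        -((x ^ 2 - 1 ^ 2) * (z ^ 2 - 1 ^ 2)) = (w * w) * (-1) := by rw [hw]; ring
    rw [e] at s4
    exact sq_mul_left (mul_ne_zero hw0 hw0) ⟨w, rfl⟩ s4
  obtain ⟨i, hi⟩ := hneg
  have hi0 : i ≠ 0 := by rintro rfl; rw [mul_zero] at hi; exact (neg_ne_zero.2 h1) hi
  -- convenient form
  have hQ : ∀ a b c : K, a ≠ 0 → b ≠ 0 → c ≠ 0 → a ^ 2 ≠ b ^ 2 → a ^ 2 ≠ c ^ 2 → b ^ 2 ≠ c ^ 2 →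
      IsSquare ((b ^ 2 - a ^ 2) * (c ^ 2 - a ^ 2)) := by
    intro a b c ha hb hc hab hac hbc
    have s1 := hP a b c ha hb hc hab hac hbc
    have s2 : IsSquare (-1 : K) := ⟨i, hi⟩
    have s3 := s2.mul s1
    have e : -1 * -((b ^ 2 - a ^ 2) * (c ^ 2 - a ^ 2)) = (b ^ 2 - a ^ 2) * (c ^ 2 - a ^ 2) := by ring
    rwa [e] at s3
  by_cases hB : IsSquare (x ^ 2 - 1 ^ 2)
  · -- all differences are squares
    have hC : ∀ c : K, c ≠ 0 → (1:K) ^ 2 ≠ c ^ 2 → IsSquare (c ^ 2 - 1 ^ 2) := by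
      intro c hc h1c
      by_cases hxc : x ^ 2 = c ^ 2
      · rw [← hxc]; exact hB
      · exact sq_mul_left (sub_ne_zero.2 ex1.symm) hB (hQ 1 x c h1 hx0 hc ex1 h1c hxc)
    have hD : ∀ a b : K, a ≠ 0 → b ≠ 0 → a ^ 2 ≠ b ^ 2 → IsSquare (a ^ 2 - b ^ 2) := by
      intro a b ha hb hab
      by_cases h1b : (1:K) ^ 2 = b ^ 2
      · rw [← h1b]; exact hC a ha (fun h => hab (h.symm.trans h1b))
      by_cases h1a : (1:K) ^ 2 = a ^ 2
      · have s1 := hC b hb h1b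
        have s2 : IsSquare (-1 : K) := ⟨i, hi⟩
        have s3 := s2.mul s1
        have e : -1 * (b ^ 2 - 1 ^ 2) = a ^ 2 - b ^ 2 := by rw [← h1a]; ring
        rwa [e] at s3
      · have s1 := hQ b 1 a hb h1 ha (Ne.symm h1b) hab.symm h1a
        have s0 := hC b hb h1b
        have s2 : IsSquare (-1 : K) := ⟨i, hi⟩
        have s3 := s2.mul s0
        have e : -1 * (b ^ 2 - 1 ^ 2) = 1 ^ 2 - b ^ 2 := by ring
        rw [e] at s3
        exact sq_mul_left (sub_ne_zero.2 h1b) s3 s1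
    obtain ⟨g, hg⟩ := FiniteField.exists_nonsquare (char_ne_two h2)
    apply hg
    have e : g = ((g + 1) / 2) ^ 2 - ((g - 1) / 2) ^ 2 := by field_simp; ring
    by_cases c1 : (g + 1) / 2 = 0
    · have : g = -1 := by
        have := (div_eq_zero_iff.1 c1).resolve_right h2
        linear_combination this
      rw [this]; exact ⟨i, hi⟩
    by_cases c2 : (g - 1) / 2 = 0
    · have : g = 1 := by
        have := (div_eq_zero_iff.1 c2).resolve_right h2
        linear_combination this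
      rw [this]; exact ⟨1, by ring⟩
    by_cases c3 : ((g + 1) / 2) ^ 2 = ((g - 1) / 2) ^ 2
    · have : g = 0 := by rw [e, c3, sub_self]
      rw [this]; exact ⟨0, by ring⟩
    rw [e]
    exact hD _ _ c1 c2 c3
  · -- all differences with 1 are nonsquares
    have hC : ∀ c : K, c ≠ 0 → (1:K) ^ 2 ≠ c ^ 2 → ¬ IsSquare (c ^ 2 - 1 ^ 2) := by
      intro c hc h1c hcc
      by_cases hxc : x ^ 2 = c ^ 2
      · rw [← hxc] at hcc; exact hB hcc
      · apply hB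
        have s1 := hQ 1 c x h1 hc hx0 h1c ex1 (Ne.symm hxc)
        exact sq_mul_left (sub_ne_zero.2 h1c.symm) hcc s1
    obtain ⟨t, ht⟩ := pick ({0, 1, -1, i, -i} : Finset K) (lt_of_le_of_lt (Finset.card_le_five) (by omega))
    simp only [Finset.mem_insert, Finset.mem_singleton, not_or] at ht
    obtain ⟨ht0, ht1, ht1', hti, hti'⟩ := ht
    have hd : 1 + t ^ 2 ≠ 0 := by
      intro h
      have e : t ^ 2 = i ^ 2 := by rw [sq i, ← hi]; linear_combination h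
      exact sqne t i hti hti' e
    have hn : 1 - t ^ 2 ≠ 0 := by
      intro h
      have e : t ^ 2 = 1 ^ 2 := by linear_combination -h
      exact sqne t 1 ht1 ht1' e
    have hc0 : (1 - t ^ 2) / (1 + t ^ 2) ≠ 0 := div_ne_zero hn hd
    have key : ((1 - t ^ 2) / (1 + t ^ 2)) ^ 2 - 1 ^ 2 = (i * (2 * t / (1 + t ^ 2))) * (i * (2 * t / (1 + t ^ 2))) := by
      have : (i * (2 * t / (1 + t ^ 2))) * (i * (2 * t / (1 + t ^ 2))) = (i * i) * (2 * t / (1 + t ^ 2)) ^ 2 := by ring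
      rw [this, ← hi]
      field_simp
      ring
    have hne : (1:K) ^ 2 ≠ ((1 - t ^ 2) / (1 + t ^ 2)) ^ 2 := by
      intro h
      have h3 : (i * (2 * t / (1 + t ^ 2))) * (i * (2 * t / (1 + t ^ 2))) = 0 := by rw [← key, ← h, sub_self]
      have h4 : i * (2 * t / (1 + t ^ 2)) ≠ 0 := mul_ne_zero hi0 (div_ne_zero (mul_ne_zero h2 ht0) hd)
      exact h4 (mul_self_eq_zero.1 h3)
    exact hC _ hc0 hne ⟨_, key⟩

end Pool.Agent.R863.CS
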