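import Pool.Agent.R863.CS.Stm

set_option autoImplicit false

namespace Pool.Agent.R863.CS

namespace E16A

/-- Ramsey `R(3,3) ≤ 6` -/
theorem ramsey {α : Type} (S : Finset α) (h6 : 6 ≤ S.card) (r : α → α → Prop) :
    ∃ a ∈ S, ∃ b ∈ S, ∃ c ∈ S, a ≠ b ∧ a ≠ c ∧ b ≠ c ∧ ((r a b ∧ r a c ∧ r b c) ∨ (¬ r a b ∧ ¬ r a c ∧ ¬ r b c)) := by
  classical
  have hne : S.Nonempty := Finset.card_pos.1 (by omega)
  obtain ⟨v, hv⟩ := hne
  have h1 : (S.erase v).card + 1 = S.card := Finset.card_erase_add_one hv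
  have h2 := Finset.card_filter_add_card_filter_not (s := S.erase v) (fun x => r v x)
  rcases (show 3 ≤ ((S.erase v).filter (fun x => r v x)).card ∨ 3 ≤ ((S.erase v).filter (fun x => ¬ r v x)).card by
    omega) with h | h
  · obtain ⟨a, b, c, ha, hb, hc, hab, hac, hbc⟩ := Finset.two_lt_card_iff.1 h
    simp only [Finset.mem_filter, Finset.mem_erase] at ha hb hc
    obtain ⟨⟨hav, haS⟩, hra⟩ := ha
    obtain ⟨⟨hbv, hbS⟩, hrb⟩ := hb
    obtain ⟨⟨hcv, hcS⟩, hrc⟩ := hc
    by_cases r1 : r a b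
    · exact ⟨v, hv, a, haS, b, hbS, hav.symm, hbv.symm, hab, Or.inl ⟨hra, hrb, r1⟩⟩
    by_cases r2 : r a c
    · exact ⟨v, hv, a, haS, c, hcS, hav.symm, hcv.symm, hac, Or.inl ⟨hra, hrc, r2⟩⟩
    by_cases r3 : r b c
    · exact ⟨v, hv, b, hbS, c, hcS, hbv.symm, hcv.symm, hbc, Or.inl ⟨hrb, hrc, r3⟩⟩
    exact ⟨a, haS, b, hbS, c, hcS, hab, hac, hbc, Or.inr ⟨r1, r2, r3⟩⟩
  · obtain ⟨a, b, c, ha, hb, hc, hab, hac, hbc⟩ := Finset.two_lt_card_iff.1 h
    simp only [Finset.mem_filter, Finset.mem_erase] at ha hb hc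
    obtain ⟨⟨hav, haS⟩, hra⟩ := ha
    obtain ⟨⟨hbv, hbS⟩, hrb⟩ := hb
    obtain ⟨⟨hcv, hcS⟩, hrc⟩ := hc
    by_cases r1 : r a b
    · by_cases r2 : r a c
      · by_cases r3 : r b c
        · exact ⟨a, haS, b, hbS, c, hcS, hab, hac, hbc, Or.inl ⟨r1, r2, r3⟩⟩
        · exact ⟨v, hv, b, hbS, c, hcS, hbv.symm, hcv.symm, hbc, Or.inr ⟨hrb, hrc, r3⟩⟩
      · exact ⟨v, hv, a, haS, c, hcS, hav.symm, hcv.symm, hac, Or.inr ⟨hra, hrc, r2⟩⟩
    · exact ⟨v, hv, a, haS, b, hbS, hav.symm, hbv.symm, hab, Or.inr ⟨hra, hrb, r1⟩⟩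

variable {K : Type} [Field K]

theorem prods (s : Fin 5 → K) :
    D5 s 0 = (s 1 ^ 2 - s 0 ^ 2) * ((s 2 ^ 2 - s 0 ^ 2) * ((s 3 ^ 2 - s 0 ^ 2) * (s 4 ^ 2 - s 0 ^ 2))) ∧
    D5 s 1 = (s 0 ^ 2 - s 1 ^ 2) * ((s 2 ^ 2 - s 1 ^ 2) * ((s 3 ^ 2 - s 1 ^ 2) * (s 4 ^ 2 - s 1 ^ 2))) ∧
    D5 s 2 = (s 0 ^ 2 - s 2 ^ 2) * ((s 1 ^ 2 - s 2 ^ 2) * ((s 3 ^ 2 - s 2 ^ 2) * (s 4 ^ 2 - s 2 ^ 2))) ∧
    D5 s 3 = (s 0 ^ 2 - s 3 ^ 2) * ((s 1 ^ 2 - s 3 ^ 2) * ((s 2 ^ 2 - s 3 ^ 2) * (s 4 ^ 2 - s 3 ^ 2))) ∧
    D5 s 4 = (s 0 ^ 2 - s 4 ^ 2) * ((s 1 ^ 2 - s 4 ^ 2) * ((s 2 ^ 2 - s 4 ^ 2) * (s 3 ^ 2 - s 4 ^ 2))) := by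
  have e0' : (Finset.univ.erase (0 : Fin 5)) = {1, 2, 3, 4} := by decide
  have e1' : (Finset.univ.erase (1 : Fin 5)) = {0, 2, 3, 4} := by decide
  have e2' : (Finset.univ.erase (2 : Fin 5)) = {0, 1, 3, 4} := by decide
  have e3' : (Finset.univ.erase (3 : Fin 5)) = {0, 1, 2, 4} := by decide
  have e4' : (Finset.univ.erase (4 : Fin 5)) = {0, 1, 2, 3} := by decide
  unfold D5
  refine ⟨?_, ?_, ?_, ?_, ?_⟩
  · rw [e0', Finset.prod_insert (by decide), Finset.prod_insert (by decide), Finset.prod_pair (by decide)]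
  · rw [e1', Finset.prod_insert (by decide), Finset.prod_insert (by decide), Finset.prod_pair (by decide)]
  · rw [e2', Finset.prod_insert (by decide), Finset.prod_insert (by decide), Finset.prod_pair (by decide)]
  · rw [e3', Finset.prod_insert (by decide), Finset.prod_insert (by decide), Finset.prod_pair (by decide)]
  · rw [e4', Finset.prod_insert (by decide), Finset.prod_insert (by decide), Finset.prod_pair (by decide)]

theorem dist_of_lt (s : Fin 5 → K) (h : ∀ j l : Fin 5, j < l → s j ^ 2 ≠ s l ^ 2) : dist5 s := by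
  intro j l hjl
  rcases lt_or_gt_of_ne hjl with h1 | h1
  · exact h j l h1
  · exact (h l j h1).symm

theorem case17 [Finite K] (h2 : (2 : K) ≠ 0) (hq : Nat.card K = 17) :
    ∃ s : Fin 5 → K, dist5 s ∧ ∃ i, IsSquare (D5 s i) ∧ ∀ j, j ≠ i → ¬ IsSquare (D5 s j) := by
  classical
  have := Fintype.ofFinite K
  have hcc : Nat.card K = Fintype.card K := Nat.card_eq_fintype_card
  have hcast : ((Fintype.card K : ℕ) : K) = 0 := FiniteField.cast_card_eq_zero K
  rw [← hcc, hq] at hcast
  have h17 : (17:K) = 0 := by exact_mod_cast hcast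
  have nonsq : ∀ a : K, a ^ 8 = -1 → ¬ IsSquare a := by
    rintro a ha ⟨y, hy⟩
    have hy0 : y ≠ 0 := by
      rintro rfl
      rw [hy] at ha
      norm_num at ha
    have h1 := FiniteField.pow_card_sub_one_eq_one y hy0
    rw [← hcc, hq] at h1
    apply h2
    have h3 : a ^ 8 = y ^ 16 := by rw [hy]; ring
    have h4 : y ^ (17 - 1) = y ^ 16 := rfl
    rw [h4, ← h3, ha] at h1
    linear_combination -h1
  have n11 : (11:K) ^ 8 = -1 := by linear_combination 12609346 * h17
  have n7 : (7:K) ^ 8 = -1 := by linear_combination 339106 * h17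
  obtain ⟨p0, p1, p2, p3, p4⟩ := prods (![0, 1, 6, 7, 4] : Fin 5 → K)
  refine ⟨![0, 1, 6, 7, 4], dist_of_lt _ ?_, 0, ?_, ?_⟩
  · intro j l hjl
    fin_cases j <;> fin_cases l <;> first | exact absurd hjl (by decide) | skip
    · show (0:K) ^ 2 ≠ 1 ^ 2
      intro h
      exact one_ne_zero (show (1:K) = 0 by linear_combination (16) * h + (1) * h17)
    · show (0:K) ^ 2 ≠ 6 ^ 2
      intro h
      exact one_ne_zero (show (1:K) = 0 by linear_combination (8) * h + (17) * h17)
    · show (0:K) ^ 2 ≠ 7 ^ 2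
      intro h
      exact one_ne_zero (show (1:K) = 0 by linear_combination (9) * h + (26) * h17)
    · show (0:K) ^ 2 ≠ 4 ^ 2
      intro h
      exact one_ne_zero (show (1:K) = 0 by linear_combination (1) * h + (1) * h17)
    · show (1:K) ^ 2 ≠ 6 ^ 2
      intro h
      exact one_ne_zero (show (1:K) = 0 by linear_combination (16) * h + (33) * h17)
    · show (1:K) ^ 2 ≠ 7 ^ 2
      intro h
      exact one_ne_zero (show (1:K) = 0 by linear_combination (6) * h + (17) * h17)
    · show (1:K) ^ 2 ≠ 4 ^ 2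
      intro h
      exact one_ne_zero (show (1:K) = 0 by linear_combination (9) * h + (8) * h17)
    · show (6:K) ^ 2 ≠ 7 ^ 2
      intro h
      exact one_ne_zero (show (1:K) = 0 by linear_combination (13) * h + (10) * h17)
    · show (6:K) ^ 2 ≠ 4 ^ 2
      intro h
      exact one_ne_zero (show (1:K) = 0 by linear_combination (6) * h + (-7) * h17)
    · show (7:K) ^ 2 ≠ 4 ^ 2
      intro h
      exact one_ne_zero (show (1:K) = 0 by linear_combination (16) * h + (-31) * h17)
  · rw [p0]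
    refine ⟨6 * 7 * 4, ?_⟩
    show ((1:K) ^ 2 - 0 ^ 2) * ((6 ^ 2 - 0 ^ 2) * ((7 ^ 2 - 0 ^ 2) * (4 ^ 2 - 0 ^ 2))) = _
    norm_num
  · intro j hj
    fin_cases j
    · exact absurd rfl hj
    · show ¬ IsSquare (D5 ![0, 1, 6, 7, 4] 1)
      rw [p1]
      apply nonsq
      rw [← n11]
      congr 1
      show ((0:K) ^ 2 - 1 ^ 2) * ((6 ^ 2 - 1 ^ 2) * ((7 ^ 2 - 1 ^ 2) * (4 ^ 2 - 1 ^ 2))) = _
      linear_combination (-1483) * h17
    · show ¬ IsSquare (D5 ![0, 1, 6, 7, 4] 2)
      rw [p2]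
      apply nonsq
      rw [← n7]
      congr 1
      show ((0:K) ^ 2 - 6 ^ 2) * ((1 ^ 2 - 6 ^ 2) * ((7 ^ 2 - 6 ^ 2) * (4 ^ 2 - 6 ^ 2))) = _
      linear_combination (-19271) * h17
    · show ¬ IsSquare (D5 ![0, 1, 6, 7, 4] 3)
      rw [p3]
      apply nonsq
      rw [← n7]
      congr 1
      show ((0:K) ^ 2 - 7 ^ 2) * ((1 ^ 2 - 7 ^ 2) * ((6 ^ 2 - 7 ^ 2) * (4 ^ 2 - 7 ^ 2))) = _
      linear_combination (59353) * h17
    · show ¬ IsSquare (D5 ![0, 1, 6, 7, 4] 4)
      rw [p4]
      apply nonsq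
      rw [← n11]
      congr 1
      show ((0:K) ^ 2 - 4 ^ 2) * ((1 ^ 2 - 4 ^ 2) * ((6 ^ 2 - 4 ^ 2) * (7 ^ 2 - 4 ^ 2))) = _
      linear_combination (9317) * h17

theorem cardR [Fintype K] [DecidableEq K] (R : Finset K) (hR : ∀ Y, Y ∈ R ↔ Y ≠ 0 ∧ IsSquare Y) :
    Fintype.card K ≤ 2 * R.card + 1 := by
  have h1 : (Finset.univ.erase (0:K)).card ≤ 2 * R.card := by
    refine Finset.card_le_mul_card_image_of_maps_to (f := fun x : K => x ^ 2) ?_ 2 ?_
    · intro x hx
      rw [hR]
      have hx0 := Finset.ne_of_mem_erase hx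
      exact ⟨pow_ne_zero 2 hx0, ⟨x, by ring⟩⟩
    · intro b hb
      obtain ⟨_, ⟨y, hy⟩⟩ := (hR b).1 hb
      refine (Finset.card_le_card (t := {y, -y}) ?_).trans Finset.card_le_two
      intro x hx
      rw [Finset.mem_filter] at hx
      have h3 : x ^ 2 = y ^ 2 := by rw [hx.2, hy]; ring
      rcases sq_eq_sq_iff_eq_or_eq_neg.1 h3 with h | h
      · rw [h]; simp
      · rw [h]; simp
  have h2 : (Finset.univ.erase (0:K)).card + 1 = Fintype.card K := Finset.card_erase_add_one (Finset.mem_univ 0)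
  omega

theorem cardA [Fintype K] [DecidableEq K] (h2 : (2 : K) ≠ 0) (i : K) (hi : i ^ 2 = -1) (A : Finset K)
    (hA : ∀ Y, Y ∈ A ↔ Y ≠ 0 ∧ Y ≠ 1 ∧ IsSquare Y ∧ IsSquare (1 - Y)) :
    4 * A.card + 5 ≤ Fintype.card K := by
  have hi0 : i ≠ 0 := by rintro rfl; norm_num at hi
  have h10 : (1:K) ≠ 0 := one_ne_zero
  have hT : ({0, 1, -1, i, -i} : Finset K).card = 5 := by
    have n2 : (0:K) ≠ -1 := fun h => h10 (by linear_combination h)
    have n3 : (0:K) ≠ i := fun h => hi0 h.symm
    have n4 : (0:K) ≠ -i := fun h => hi0 (by linear_combination h)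
    have n5 : (1:K) ≠ -1 := fun h => h2 (by linear_combination h)
    have n6 : (1:K) ≠ i := fun h => h2 (by rw [← h] at hi; linear_combination hi)
    have n7 : (1:K) ≠ -i := fun h => h2 (by
      have : i = -1 := by linear_combination h
      rw [this] at hi; linear_combination hi)
    have n8 : (-1:K) ≠ i := fun h => h2 (by rw [← h] at hi; linear_combination hi)
    have n9 : (-1:K) ≠ -i := fun h => n6 (by linear_combination -h)
    have n10 : (i:K) ≠ -i := fun h => hi0 (by
      have : 2 * i = 0 := by linear_combination h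
      exact (mul_eq_zero.1 this).resolve_left h2)
    rw [Finset.card_insert_of_notMem, Finset.card_insert_of_notMem, Finset.card_insert_of_notMem,
      Finset.card_pair n10]
    · simp only [Finset.mem_insert, Finset.mem_singleton, not_or]; exact ⟨n8, n9⟩
    · simp only [Finset.mem_insert, Finset.mem_singleton, not_or]; exact ⟨n5, n6, n7⟩
    · simp only [Finset.mem_insert, Finset.mem_singleton, not_or]; exact ⟨h10.symm, n2, n3, n4⟩
  set V : Finset K := Finset.univ \ {0, 1, -1, i, -i} with hV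
  have hVc : V.card + 5 = Fintype.card K := by
    rw [hV, ← hT, Finset.card_sdiff_add_card_eq_card (Finset.subset_univ _), Finset.card_univ]
  set f : K → K := fun u => ((u + u⁻¹) / 2) ^ 2 with hf
  have h1 : 4 * A.card ≤ (V.filter (fun u => f u ∈ A)).card := by
    refine Finset.mul_card_image_le_card_of_maps_to (f := f) (fun a ha => (Finset.mem_filter.1 ha).2) 4 ?_
    intro Y hY
    obtain ⟨hY0, hY1, ⟨x, hx⟩, ⟨y, hy⟩⟩ := (hA Y).1 hY
    have hx0 : x ≠ 0 := by rintro rfl; apply hY0; rw [hx]; ring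
    have hy0 : y ≠ 0 := by
      rintro rfl
      apply hY1
      have : 1 - Y = 0 := by rw [hy]; ring
      linear_combination -this
    have hxy : x ^ 2 + y ^ 2 = 1 := by linear_combination -hx - hy
    -- the four elements
    have hprod : (x + i * y) * (x - i * y) = 1 := by linear_combination hxy - y ^ 2 * hi
    have hu0 : x + i * y ≠ 0 := left_ne_zero_of_mul_eq_one hprod
    have hv0 : x - i * y ≠ 0 := right_ne_zero_of_mul_eq_one hprod
    have hinv : (x + i * y)⁻¹ = x - i * y := inv_eq_of_mul_eq_one_right hprod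
    have hinv' : (x - i * y)⁻¹ = x + i * y := inv_eq_of_mul_eq_one_right (by rw [mul_comm]; exact hprod)
    have hiy : i * y ≠ 0 := mul_ne_zero hi0 hy0
    -- general facts about membership
    have gen : ∀ a b : K, a * b = 1 → a + b ≠ 0 → a - b ≠ 0 → a ∈ V := by
      intro a b hab hs hd
      rw [hV, Finset.mem_sdiff]
      refine ⟨Finset.mem_univ _, ?_⟩
      simp only [Finset.mem_insert, Finset.mem_singleton, not_or]
      refine ⟨?_, ?_, ?_, ?_, ?_⟩
      · rintro rfl; apply h10; linear_combination -hab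
      · rintro rfl; apply hd; linear_combination -hab
      · rintro rfl; apply hd; linear_combination hab
      · intro h
        apply hs
        have hb : b = -i := by
          rw [h] at hab
          have : i * b = i * (-i) := by linear_combination hab + hi
          exact mul_left_cancel₀ hi0 this
        rw [h, hb]; ring
      · intro h
        apply hs
        have hb : b = i := by
          rw [h] at hab
          have : i * b = i * i := by linear_combination -hab - hi
          exact mul_left_cancel₀ hi0 this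
        rw [h, hb]; ring
    have fval : ∀ a b : K, a * b = 1 → f a = ((a + b) / 2) ^ 2 := by
      intro a b hab
      simp only [hf]
      rw [inv_eq_of_mul_eq_one_right hab]
    have hxs : (2 * x : K) ≠ 0 := mul_ne_zero h2 hx0
    have hys : (2 * (i * y) : K) ≠ 0 := mul_ne_zero h2 hiy
    have hsub : ({x + i * y, x - i * y, -(x + i * y), -(x - i * y)} : Finset K) ⊆
        (V.filter (fun u => f u ∈ A)).filter (fun u => f u = Y) := by
      intro u hu
      simp only [Finset.mem_insert, Finset.mem_singleton] at hu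
      have hfu : f u = Y ∧ u ∈ V := by
        rcases hu with h | h | h | h
        · rw [h]
          refine ⟨?_, gen _ (x - i * y) hprod (fun h => hxs (by linear_combination h)) (fun h => hys (by linear_combination h))⟩
          rw [fval _ _ hprod, hx]; field_simp; ring
        · rw [h]
          have hp : (x - i * y) * (x + i * y) = 1 := by rw [mul_comm]; exact hprod
          refine ⟨?_, gen _ (x + i * y) hp (fun h => hxs (by linear_combination h)) (fun h => hys (by linear_combination -h))⟩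
          rw [fval _ _ hp, hx]; field_simp; ring
        · rw [h]
          have hp : (-(x + i * y)) * (-(x - i * y)) = 1 := by rw [neg_mul_neg]; exact hprod
          refine ⟨?_, gen _ (-(x - i * y)) hp (fun h => hxs (by linear_combination -h)) (fun h => hys (by linear_combination -h))⟩
          rw [fval _ _ hp, hx]; field_simp; ring
        · rw [h]
          have hp : (-(x - i * y)) * (-(x + i * y)) = 1 := by rw [neg_mul_neg, mul_comm]; exact hprod
          refine ⟨?_, gen _ (-(x + i * y)) hp (fun h => hxs (by linear_combination -h)) (fun h => hys (by linear_combination h))⟩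
          rw [fval _ _ hp, hx]; field_simp; ring
      rw [Finset.mem_filter, Finset.mem_filter]
      exact ⟨⟨hfu.2, by rw [hfu.1]; exact hY⟩, hfu.1⟩
    refine le_trans ?_ (Finset.card_le_card hsub)
    have m1 : x + i * y ≠ x - i * y := fun h => hys (by linear_combination h)
    have m2 : x + i * y ≠ -(x + i * y) := fun h => hu0 (by
      have : 2 * (x + i * y) = 0 := by linear_combination h
      exact (mul_eq_zero.1 this).resolve_left h2)
    have m3 : x + i * y ≠ -(x - i * y) := fun h => hxs (by linear_combination h)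
    have m4 : x - i * y ≠ -(x + i * y) := fun h => hxs (by linear_combination h)
    have m5 : x - i * y ≠ -(x - i * y) := fun h => hv0 (by
      have : 2 * (x - i * y) = 0 := by linear_combination h
      exact (mul_eq_zero.1 this).resolve_left h2)
    have m6 : -(x + i * y) ≠ -(x - i * y) := fun h => hys (by linear_combination -h)
    rw [Finset.card_insert_of_notMem, Finset.card_insert_of_notMem, Finset.card_pair m6]
    · simp only [Finset.mem_insert, Finset.mem_singleton, not_or]; exact ⟨m4, m5⟩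
    · simp only [Finset.mem_insert, Finset.mem_singleton, not_or]; exact ⟨m1, m2, m3⟩
  have h3 : (V.filter (fun u => f u ∈ A)).card ≤ V.card := Finset.card_filter_le _ _
  omega

end E16A

open E16A in
theorem t_E16A : S_E16A := by
  intro K _ _ h2 hcard hsq
  classical
  have hft := Fintype.ofFinite K
  have hcc : Nat.card K = Fintype.card K := Nat.card_eq_fintype_card
  obtain ⟨p, hp⟩ := CharP.exists K
  obtain ⟨n, hpp, hpn⟩ := FiniteField.card K p
  have hodd : Fintype.card K % 2 = 1 := by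
    apply FiniteField.odd_card_of_char_ne_two
    intro h
    apply h2
    have : ((ringChar K : ℕ) : K) = 0 := ringChar.Nat.cast_ringChar
    rw [h] at this
    exact_mod_cast this
  have hmod := (FiniteField.isSquare_neg_one_iff (F := K)).1 hsq
  by_cases hq : 25 ≤ Nat.card K
  · obtain ⟨i, hi'⟩ := hsq
    have hi : i ^ 2 = -1 := by rw [sq, ← hi']
    have hi0 : i ≠ 0 := by rintro rfl; norm_num at hi
    set R : Finset K := Finset.univ.filter (fun Y => Y ≠ 0 ∧ IsSquare Y) with hR
    have hRm : ∀ Y, Y ∈ R ↔ Y ≠ 0 ∧ IsSquare Y := fun Y => by simp [hR]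
    set A : Finset K := Finset.univ.filter (fun Y => Y ≠ 0 ∧ Y ≠ 1 ∧ IsSquare Y ∧ IsSquare (1 - Y)) with hA
    have hAm : ∀ Y, Y ∈ A ↔ Y ≠ 0 ∧ Y ≠ 1 ∧ IsSquare Y ∧ IsSquare (1 - Y) := fun Y => by simp [hA]
    have c1 := cardR R hRm
    have c2 := cardA h2 i hi A hAm
    set N : Finset K := (R.erase 1).filter (fun Y => ¬ IsSquare (1 - Y)) with hN
    have c3 : (R.erase 1).card + 1 = R.card :=
      Finset.card_erase_add_one ((hRm 1).2 ⟨one_ne_zero, ⟨1, by ring⟩⟩)
    have c4 := Finset.card_filter_add_card_filter_not (s := R.erase 1) (fun Y => IsSquare (1 - Y))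
    have c5 : ((R.erase 1).filter (fun Y => IsSquare (1 - Y))).card ≤ A.card := by
      apply Finset.card_le_card
      intro Y hY
      rw [Finset.mem_filter, Finset.mem_erase, hRm] at hY
      rw [hAm]
      exact ⟨hY.1.2.1, hY.1.1, hY.1.2.2, hY.2⟩
    have c6 : 6 ≤ N.card := by
      rw [← hN] at c4
      omega
    obtain ⟨X2, m2, X3, m3, X4, m4, h23, h24, h34, hr⟩ := ramsey N c6 (fun a b => IsSquare (a - b))
    have hNm : ∀ Y ∈ N, Y ≠ 0 ∧ Y ≠ 1 ∧ IsSquare Y ∧ ¬ IsSquare (1 - Y) := by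
      intro Y hY
      rw [hN, Finset.mem_filter, Finset.mem_erase, hRm] at hY
      exact ⟨hY.1.2.1, hY.1.1, hY.1.2.2, hY.2⟩
    obtain ⟨a0, a1, ⟨x2, hx2⟩, a3⟩ := hNm X2 m2
    obtain ⟨b0, b1, ⟨x3, hx3⟩, b3⟩ := hNm X3 m3
    obtain ⟨c0, c1', ⟨x4, hx4⟩, c3'⟩ := hNm X4 m4
    -- the quadratic character
    set χ := quadraticChar K with hχ
    have kneg : χ (-1) = 1 := (quadraticChar_one_iff_isSquare (neg_ne_zero.2 one_ne_zero)).2 ⟨i, hi'⟩
    have ksym : ∀ a b : K, χ (a - b) = χ (b - a) := by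
      intro a b
      have : a - b = (-1) * (b - a) := by ring
      rw [this, map_mul, kneg, one_mul]
    have k2 : χ (1 - X2) = -1 := quadraticChar_neg_one_iff_not_isSquare.2 a3
    have k3 : χ (1 - X3) = -1 := quadraticChar_neg_one_iff_not_isSquare.2 b3
    have k4 : χ (1 - X4) = -1 := quadraticChar_neg_one_iff_not_isSquare.2 c3'
    have l2 : χ X2 = 1 := (quadraticChar_one_iff_isSquare a0).2 ⟨x2, hx2⟩
    have l3 : χ X3 = 1 := (quadraticChar_one_iff_isSquare b0).2 ⟨x3, hx3⟩
    have l4 : χ X4 = 1 := (quadraticChar_one_iff_isSquare c0).2 ⟨x4, hx4⟩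
    have hε : ∃ ε : ℤ, ε * ε = 1 ∧ χ (X2 - X3) = ε ∧ χ (X2 - X4) = ε ∧ χ (X3 - X4) = ε := by
      rcases hr with ⟨r1, r2, r3⟩ | ⟨r1, r2, r3⟩
      · exact ⟨1, by norm_num, (quadraticChar_one_iff_isSquare (sub_ne_zero.2 h23)).2 r1,
          (quadraticChar_one_iff_isSquare (sub_ne_zero.2 h24)).2 r2,
          (quadraticChar_one_iff_isSquare (sub_ne_zero.2 h34)).2 r3⟩
      · exact ⟨-1, by norm_num, quadraticChar_neg_one_iff_not_isSquare.2 r1,
          quadraticChar_neg_one_iff_not_isSquare.2 r2, quadraticChar_neg_one_iff_not_isSquare.2 r3⟩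
    obtain ⟨ε, hεε, t23, t24, t34⟩ := hε
    have q0 : (![0, 1, x2, x3, x4] : Fin 5 → K) 0 ^ 2 = 0 := by show (0:K) ^ 2 = 0; ring
    have q1 : (![0, 1, x2, x3, x4] : Fin 5 → K) 1 ^ 2 = 1 := by show (1:K) ^ 2 = 1; ring
    have q2 : (![0, 1, x2, x3, x4] : Fin 5 → K) 2 ^ 2 = X2 := by show x2 ^ 2 = X2; rw [hx2]; ring
    have q3 : (![0, 1, x2, x3, x4] : Fin 5 → K) 3 ^ 2 = X3 := by show x3 ^ 2 = X3; rw [hx3]; ring
    have q4 : (![0, 1, x2, x3, x4] : Fin 5 → K) 4 ^ 2 = X4 := by show x4 ^ 2 = X4; rw [hx4]; ring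
    obtain ⟨p0, p1, p2, p3, p4⟩ := prods (![0, 1, x2, x3, x4] : Fin 5 → K)
    rw [q0, q1, q2, q3, q4] at p0 p1 p2 p3 p4
    refine ⟨![0, 1, x2, x3, x4], dist_of_lt _ ?_, 0, ?_, ?_⟩
    · intro j l hjl
      fin_cases j <;> fin_cases l <;> first | exact absurd hjl (by decide) | skip
      · exact fun h => one_ne_zero ((q0.symm.trans (h.trans q1)).symm)
      · exact fun h => a0 ((q0.symm.trans (h.trans q2)).symm)
      · exact fun h => b0 ((q0.symm.trans (h.trans q3)).symm)
      · exact fun h => c0 ((q0.symm.trans (h.trans q4)).symm)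
      · exact fun h => a1 ((q1.symm.trans (h.trans q2)).symm)
      · exact fun h => b1 ((q1.symm.trans (h.trans q3)).symm)
      · exact fun h => c1' ((q1.symm.trans (h.trans q4)).symm)
      · exact fun h => h23 (q2.symm.trans (h.trans q3))
      · exact fun h => h24 (q2.symm.trans (h.trans q4))
      · exact fun h => h34 (q3.symm.trans (h.trans q4))
    · rw [p0]
      refine ⟨x2 * x3 * x4, ?_⟩
      rw [hx2, hx3, hx4]; ring
    · intro j hj
      fin_cases j
      · exact absurd rfl hj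
      · show ¬ IsSquare (D5 ![0, 1, x2, x3, x4] 1)
        rw [p1, ← quadraticChar_neg_one_iff_not_isSquare, ← hχ, map_mul, map_mul, map_mul, zero_sub, kneg,
          ksym X2 1, ksym X3 1, ksym X4 1, k2, k3, k4]
        norm_num
      · show ¬ IsSquare (D5 ![0, 1, x2, x3, x4] 2)
        rw [p2, ← quadraticChar_neg_one_iff_not_isSquare, ← hχ, map_mul, map_mul, map_mul, ksym 0 X2, sub_zero, l2,
          k2, ksym X3 X2, ksym X4 X2, t23, t24, hεε]
        norm_num
      · show ¬ IsSquare (D5 ![0, 1, x2, x3, x4] 3)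
        rw [p3, ← quadraticChar_neg_one_iff_not_isSquare, ← hχ, map_mul, map_mul, map_mul, ksym 0 X3, sub_zero, l3,
          k3, ksym X4 X3, t23, t34, hεε]
        norm_num
      · show ¬ IsSquare (D5 ![0, 1, x2, x3, x4] 4)
        rw [p4, ← quadraticChar_neg_one_iff_not_isSquare, ← hχ, map_mul, map_mul, map_mul, ksym 0 X4, sub_zero, l4,
          k4, t24, t34, hεε]
        norm_num
  · push Not at hq
    by_cases h17 : Nat.card K = 17
    · exact case17 h2 h17
    · exfalso
      have h21 : Fintype.card K = 21 := by omega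
      rw [h21] at hpn
      have hpd : p ∣ 21 := by rw [hpn]; exact dvd_pow_self p n.ne_zero
      have hple : p ≤ 21 := Nat.le_of_dvd (by norm_num) hpd
      have hn5 : (n : ℕ) < 5 := by
        by_contra hcon
        push Not at hcon
        have h1 : 2 ^ 5 ≤ p ^ (n : ℕ) := by
          calc 2 ^ 5 ≤ p ^ 5 := Nat.pow_le_pow_left hpp.two_le 5
            _ ≤ p ^ (n : ℕ) := Nat.pow_le_pow_right hpp.pos hcon
        rw [← hpn] at h1
        omega
      have hn0 : 0 < (n : ℕ) := n.pos
      generalize (n : ℕ) = k at hpn hn5 hn0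
      interval_cases k
      · rw [pow_one] at hpn
        rw [← hpn] at hpp
        revert hpp
        decide
      · have : p < 5 := by nlinarith
        interval_cases p <;> omega
      · have : p < 3 := by
          by_contra hcon
          push Not at hcon
          have := Nat.pow_le_pow_left hcon 3
          omega
        interval_cases p <;> omega
      · have : p < 3 := by
          by_contra hcon
          push Not at hcon
          have := Nat.pow_le_pow_left hcon 4
          omega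
        interval_cases p <;> omega

end Pool.Agent.R863.CS
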