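import Pool.Agent.R863.CS.Stm

set_option autoImplicit false

namespace Pool.Agent.R863.CS

namespace E16B

/-- nonzero squares -/
def P {K : Type} [Field K] (y : K) : Prop := y ≠ 0 ∧ IsSquare y

variable {K : Type} [Field K]

lemma P.mul {x y : K} (hx : P x) (hy : P y) : P (x * y) :=
  ⟨mul_ne_zero hx.1 hy.1, hx.2.mul hy.2⟩

lemma P.inv {x : K} (hx : P x) : P x⁻¹ := ⟨inv_ne_zero hx.1, by
  obtain ⟨r, hr⟩ := hx.2
  exact ⟨r⁻¹, by rw [hr, mul_inv]⟩⟩

lemma P_one : P (1 : K) := ⟨one_ne_zero, ⟨1, by ring⟩⟩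

lemma P.not_neg (hm : ¬ IsSquare (-1 : K)) {y : K} (h1 : P y) (h2 : P (-y)) : False := by
  apply hm
  have h3 := (h2.mul h1.inv).2
  have h4 : -y * y⁻¹ = -1 := by
    have := h1.1
    field_simp
  rwa [h4] at h3

lemma P.swap (hm : ¬ IsSquare (-1 : K)) {x y : K} (h1 : P (x - y)) (h2 : P (y - x)) : False :=
  h1.not_neg hm (by rwa [neg_sub])

lemma P.irr {x : K} (h : P (x - x)) : False := h.1 (sub_self x)

lemma tot [Finite K] (hm : ¬ IsSquare (-1 : K)) (y : K) (hy : y ≠ 0) : P y ∨ P (-y) := by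
  classical
  haveI : Fintype K := Fintype.ofFinite K
  by_cases h : IsSquare y
  · exact Or.inl ⟨hy, h⟩
  · right
    refine ⟨neg_ne_zero.mpr hy, ?_⟩
    have hc : ringChar K ≠ 2 := by
      intro hc
      exact hm (FiniteField.isSquare_of_char_two hc _)
    have h1 : quadraticChar K y = -1 := quadraticChar_neg_one_iff_not_isSquare.mpr h
    have h2 : quadraticChar K (-1) = -1 := quadraticChar_neg_one_iff_not_isSquare.mpr hm
    have h3 : quadraticChar K (-y) = 1 := by
      have : -y = (-1) * y := by ring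
      rw [this, map_mul, h1, h2]
      norm_num
    exact (quadraticChar_one_iff_isSquare (neg_ne_zero.mpr hy)).mp h3

lemma tot' [Finite K] (hm : ¬ IsSquare (-1 : K)) {x y : K} (hy : x ≠ y) (h : ¬ P (x - y)) :
    P (y - x) := by
  rcases tot hm (x - y) (sub_ne_zero.mpr hy) with h1 | h1
  · exact absurd h1 h
  · rwa [neg_sub] at h1

/-- The main combinatorial statement. -/
theorem exists_conf [Finite K] (hm : ¬ IsSquare (-1 : K)) (hq : 17 ≤ Nat.card K) :
    ∃ v x1 x2 x3 : K, P v ∧ P x1 ∧ P x2 ∧ P x3 ∧ P (x1 - v) ∧ P (x2 - v) ∧ P (x3 - v) ∧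
      P (x2 - x1) ∧ P (x3 - x2) ∧ P (x1 - x3) := by
  classical
  haveI : Fintype K := Fintype.ofFinite K
  by_contra hcon
  have hOut : ∀ v x1 x2 x3 : K, P v → P x1 → P x2 → P x3 → P (x1 - v) → P (x2 - v) →
      P (x3 - v) → P (x2 - x1) → P (x3 - x2) → P (x1 - x3) → False :=
    fun v x1 x2 x3 h1 h2 h3 h4 h5 h6 h7 h8 h9 h10 =>
      hcon ⟨v, x1, x2, x3, h1, h2, h3, h4, h5, h6, h7, h8, h9, h10⟩
  have invsub : ∀ x y : K, P x → P y → P (y - x) → P (x⁻¹ - y⁻¹) := by
    intro x y hx hy h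
    have h1 : x⁻¹ - y⁻¹ = (y - x) * (x⁻¹ * y⁻¹) := by
      have := hx.1
      have := hy.1
      field_simp
    rw [h1]
    exact h.mul (hx.inv.mul hy.inv)
  have hIn : ∀ v x1 x2 x3 : K, P v → P x1 → P x2 → P x3 → P (v - x1) → P (v - x2) →
      P (v - x3) → P (x2 - x1) → P (x3 - x2) → P (x1 - x3) → False := by
    intro v x1 x2 x3 h1 h2 h3 h4 h5 h6 h7 h8 h9 h10
    exact hOut v⁻¹ x1⁻¹ x3⁻¹ x2⁻¹ h1.inv h2.inv h4.inv h3.inv (invsub _ _ h2 h1 h5)
      (invsub _ _ h4 h1 h7) (invsub _ _ h3 h1 h6) (invsub _ _ h4 h2 h10) (invsub _ _ h3 h4 h9)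
      (invsub _ _ h2 h3 h8)
  set I : Finset K := Finset.univ.filter fun y => P y ∧ P (1 - y) with hI
  have memI : ∀ y, y ∈ I ↔ P y ∧ P (1 - y) := by intro y; simp [hI]
  -- counting
  have hcard : 3 < I.card := by
    set S : Finset K := Finset.univ.filter fun y => P y with hS
    have memS : ∀ y, y ∈ S ↔ P y := by intro y; simp [hS]
    set O : Finset K := Finset.univ.filter fun y => P y ∧ P (y - 1) with hO
    have memO : ∀ y, y ∈ O ↔ P y ∧ P (y - 1) := by intro y; simp [hO]
    have h1 : (Finset.univ : Finset K) ⊆ insert 0 (S ∪ S.image (fun y => -y)) := by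
      intro y _
      by_cases hy : y = 0
      · simp [hy]
      · rcases tot hm y hy with h | h
        · simp only [Finset.mem_insert, Finset.mem_union, memS]; right; left; exact h
        · simp only [Finset.mem_insert, Finset.mem_union, Finset.mem_image, memS]
          right; right; exact ⟨-y, h, neg_neg y⟩
    have h2 : Fintype.card K ≤ 1 + (S.card + S.card) := by
      calc Fintype.card K = (Finset.univ : Finset K).card := rfl
        _ ≤ (insert 0 (S ∪ S.image (fun y => -y))).card := Finset.card_le_card h1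
        _ ≤ (S ∪ S.image (fun y => -y)).card + 1 := Finset.card_insert_le _ _
        _ ≤ (S.card + (S.image (fun y => -y)).card) + 1 :=
          Nat.add_le_add_right (Finset.card_union_le _ _) 1
        _ ≤ (S.card + S.card) + 1 := by
          have := Finset.card_image_le (s := S) (f := fun y => -y)
          omega
        _ = 1 + (S.card + S.card) := by ring
    have h3 : S ⊆ insert 1 (I ∪ O) := by
      intro y hy
      rw [memS] at hy
      by_cases h : y = 1
      · simp [h]
      · by_cases h4 : P (1 - y)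
        · simp only [Finset.mem_insert, Finset.mem_union, memI]; right; left; exact ⟨hy, h4⟩
        · have h5 : P (y - 1) := tot' hm (Ne.symm h) h4
          simp only [Finset.mem_insert, Finset.mem_union, memO]; right; right; exact ⟨hy, h5⟩
    have h4 : O.card ≤ I.card := by
      apply Finset.card_le_card_of_injOn (fun y => y⁻¹)
      · intro y hy
        have hy' := (memO y).mp hy
        have h6 : P (1 - y⁻¹) := by
          have := invsub 1 y P_one hy'.1 hy'.2
          rwa [inv_one] at this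
        exact (memI _).mpr ⟨hy'.1.inv, h6⟩
      · intro x _ y _ h
        exact inv_injective h
    have h5 : S.card ≤ (I.card + O.card) + 1 := by
      calc S.card ≤ (insert 1 (I ∪ O)).card := Finset.card_le_card h3
        _ ≤ (I ∪ O).card + 1 := Finset.card_insert_le _ _
        _ ≤ (I.card + O.card) + 1 := Nat.add_le_add_right (Finset.card_union_le _ _) 1
    have h6 : 17 ≤ Fintype.card K := by rwa [Nat.card_eq_fintype_card] at hq
    omega
  have hne : I.Nonempty := Finset.card_pos.mp (by omega)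
  -- the sink
  obtain ⟨a, haI, hsink⟩ : ∃ a ∈ I, ∀ y ∈ I, y ≠ a → P (a - y) := by
    obtain ⟨a, ha, hmax⟩ := Finset.exists_max_image I (fun w => (I.filter fun x => P (w - x)).card) hne
    refine ⟨a, ha, ?_⟩
    intro w hw hwa
    by_contra hn
    have haw : P (w - a) := tot' hm (Ne.symm hwa) hn
    have hlt : (I.filter fun x => P (a - x)).card < (I.filter fun x => P (w - x)).card := by
      apply Finset.card_lt_card
      rw [Finset.ssubset_iff_of_subset]
      · refine ⟨a, ?_, ?_⟩
        · rw [Finset.mem_filter]; exact ⟨ha, haw⟩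
        · rw [Finset.mem_filter]; rintro ⟨_, h⟩; exact h.irr
      · intro x hx
        rw [Finset.mem_filter] at hx ⊢
        refine ⟨hx.1, ?_⟩
        by_contra hn2
        have hxw : w ≠ x := by
          rintro rfl
          exact hn hx.2
        have h7 : P (x - w) := tot' hm hxw hn2
        have e1 := (memI a).mp ha
        have e2 := (memI w).mp hw
        have e3 := (memI x).mp hx.1
        exact hIn 1 a w x P_one e1.1 e2.1 e3.1 e1.2 e2.2 e3.2 haw h7 hx.2
    have := hmax w hw
    omega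
  have ha := (memI a).mp haI
  have inv1 : ∀ y ∈ I, 1 - y ∈ I := by
    intro y hy
    have h := (memI y).mp hy
    exact (memI _).mpr ⟨h.2, by rw [sub_sub_cancel]; exact h.1⟩
  set b : K := 1 - a with hb
  have hbI : b ∈ I := inv1 a haI
  have hsource : ∀ y ∈ I, y ≠ b → P (y - b) := by
    intro y hy hyb
    have h1 : 1 - y ≠ a := by
      intro h
      apply hyb
      rw [hb, ← h]; ring
    have h2 := hsink (1 - y) (inv1 y hy) h1
    have h3 : a - (1 - y) = y - b := by rw [hb]; ring
    rwa [h3] at h2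
  set J : Finset K := I.erase a with hJ
  have memJ : ∀ y, y ∈ J ↔ y ≠ a ∧ y ∈ I := by intro y; rw [hJ, Finset.mem_erase]
  set J' : Finset K := J.image (fun y => y * a⁻¹) with hJ'
  have hJcard : J.card = I.card - 1 := Finset.card_erase_of_mem haI
  have hJ'card : J'.card = I.card - 1 := by
    rw [hJ', Finset.card_image_of_injective _ (fun x y h => by
      exact mul_right_cancel₀ (inv_ne_zero ha.1.1) h), hJcard]
  have hJ'sub : J' ⊆ I := by
    intro y hy
    rw [hJ', Finset.mem_image] at hy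
    obtain ⟨x, hx, rfl⟩ := hy
    have hx' := (memJ x).mp hx
    have hxI := (memI x).mp hx'.2
    refine (memI _).mpr ⟨hxI.1.mul ha.1.inv, ?_⟩
    have h1 := hsink x hx'.2 hx'.1
    have h2 : 1 - x * a⁻¹ = (a - x) * a⁻¹ := by
      have := ha.1.1
      field_simp
    rw [h2]
    exact h1.mul ha.1.inv
  have hdiff : (I \ J').card = 1 := by
    rw [Finset.card_sdiff_of_subset hJ'sub, hJ'card]
    omega
  obtain ⟨y0, hy0⟩ := Finset.card_eq_one.mp hdiff
  have hy0' : y0 ∈ I \ J' := by rw [hy0]; exact Finset.mem_singleton_self _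
  rw [Finset.mem_sdiff] at hy0'
  have hmul : ∀ y ∈ I, y ≠ y0 → a * y ∈ J := by
    intro y hy hyy
    have h1 : y ∈ J' := by
      by_contra hn
      have : y ∈ I \ J' := Finset.mem_sdiff.mpr ⟨hy, hn⟩
      rw [hy0, Finset.mem_singleton] at this
      exact hyy this
    rw [hJ', Finset.mem_image] at h1
    obtain ⟨x, hx, hxy⟩ := h1
    have h2 : a * y = x := by
      rw [← hxy]
      have := ha.1.1
      field_simp
    rwa [h2]
  have hy0I := (memI y0).mp hy0'.1
  -- z = a * y0
  have hz1 : P (a * y0) := ha.1.mul hy0I.1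
  have hz2 : P (a - a * y0) := by
    have h1 : a - a * y0 = a * (1 - y0) := by ring
    rw [h1]; exact ha.1.mul hy0I.2
  have hz3 : a * y0 ∉ I := by
    intro h
    apply hy0'.2
    rw [hJ', Finset.mem_image]
    refine ⟨a * y0, (memJ _).mpr ⟨?_, h⟩, ?_⟩
    · intro h1
      rw [h1] at hz2
      exact hz2.irr
    · have := ha.1.1
      field_simp
  have hz4 : (1 : K) ≠ a * y0 := by
    intro h
    rw [← h] at hz2
    exact hz2.swap hm ha.2
  have hz5 : P (a * y0 - 1) := by
    apply tot' hm hz4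
    intro h
    exact hz3 ((memI _).mpr ⟨hz1, h⟩)
  have hz6 : ∀ w ∈ I, w ≠ a → P (w - a * y0) := by
    intro w hw hwa
    by_contra hn
    have hwz : w ≠ a * y0 := by rintro rfl; exact hz3 hw
    have h1 : P (a * y0 - w) := tot' hm hwz hn
    have hw' := (memI w).mp hw
    exact hOut w a 1 (a * y0) hw'.1 ha.1 P_one hz1 (hsink w hw hwa) hw'.2 h1 ha.2 hz5 hz2
  have hy0source : ∀ y ∈ I, y ≠ y0 → P (y - y0) := by
    intro y hy hyy
    have h1 := (memJ _).mp (hmul y hy hyy)
    have h2 := hz6 (a * y) h1.2 h1.1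
    have h3 : y - y0 = (a * y - a * y0) * a⁻¹ := by
      have := ha.1.1
      field_simp
    rw [h3]
    exact h2.mul ha.1.inv
  have hy0b : y0 = b := by
    by_contra h
    exact (hsource y0 hy0'.1 h).swap hm (hy0source b hbI (Ne.symm h))
  subst hy0b
  -- a ≠ b
  have hab : a ≠ b := by
    intro h
    obtain ⟨y, hy, hya⟩ := Finset.exists_mem_ne (by omega : 1 < I.card) a
    have h1 := hsink y hy hya
    have h2 := hsource y hy (by rw [← h]; exact hya)
    rw [← h] at h2
    exact h1.swap hm h2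
  have haa := (memJ _).mp (hmul a haI hab)
  -- a^2 is the sink of J
  have haasink : ∀ x ∈ J, x ≠ a * a → P (a * a - x) := by
    intro x hx hxa
    have hy : x * a⁻¹ ∈ J' := by rw [hJ']; exact Finset.mem_image_of_mem _ hx
    have hyI := hJ'sub hy
    have hya : x * a⁻¹ ≠ a := by
      intro h
      apply hxa
      have h0 : x = (x * a⁻¹) * a := by
        have := ha.1.1
        field_simp
      rw [h0, h]
    have h1 := hsink _ hyI hya
    have h2 : a * a - x = (a - x * a⁻¹) * a := by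
      have := ha.1.1
      field_simp
    rw [h2]
    exact h1.mul ha.1
  have hbJ : b ∈ J := (memJ _).mpr ⟨Ne.symm hab, hbI⟩
  set y : K := b * a⁻¹ with hy
  have hyJ' : y ∈ J' := by rw [hJ']; exact Finset.mem_image_of_mem _ hbJ
  have hyI := hJ'sub hyJ'
  have hyb : y ≠ b := by
    intro h
    rw [h] at hyJ'
    exact hy0'.2 hyJ'
  have hay : a * y = b := by
    rw [hy]
    have := ha.1.1
    field_simp
  have hys : y = 1 - a * a := by
    by_contra hne2
    have hysI : 1 - a * a ∈ I := inv1 _ haa.2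
    have h1 : P (y - (1 - a * a)) := by
      have h2 : 1 - y ∈ J := by
        refine (memJ _).mpr ⟨?_, inv1 y hyI⟩
        intro h
        apply hyb
        rw [hb, ← h]; ring
      have h3 : 1 - y ≠ a * a := by
        intro h
        apply hne2
        rw [← h]; ring
      have h4 := haasink _ h2 h3
      have h5 : a * a - (1 - y) = y - (1 - a * a) := by ring
      rwa [h5] at h4
    have h6 : 1 - a * a ≠ b := by
      intro h
      rw [hb] at h
      apply haa.1
      linear_combination -h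
    have h7 := (memJ _).mp (hmul _ hysI h6)
    have h8 : a * (1 - a * a) ≠ b := by
      intro h
      apply hne2
      have : a * (1 - a * a) = a * y := by rw [h, hay]
      exact (mul_left_cancel₀ ha.1.1 this).symm
    have h9 := hsource _ h7.2 h8
    have h10 : (1 - a * a) - y = (a * (1 - a * a) - b) * a⁻¹ := by
      rw [← hay]
      have := ha.1.1
      field_simp
    have h11 : P ((1 - a * a) - y) := by
      rw [h10]; exact h9.mul ha.1.inv
    exact h1.swap hm h11
  have hfin : a * a = b := by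
    have h1 : a * (1 - a * a) = 1 - a := by rw [← hys, hay]
    have h2 : (1 - a) * (a * (1 + a) - 1) = 0 := by linear_combination h1
    rcases mul_eq_zero.mp h2 with h3 | h3
    · exact absurd h3 ha.2.1
    · rw [hb]; linear_combination h3
  -- third element
  have h3 : 2 < I.card := by omega
  obtain ⟨x, hx, hxa, hxb⟩ : ∃ x ∈ I, x ≠ a ∧ x ≠ b := by
    by_contra hn
    push Not at hn
    have hsub : I ⊆ {a, b} := by
      intro x hx
      rw [Finset.mem_insert, Finset.mem_singleton]
      by_cases h : x = a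
      · exact Or.inl h
      · exact Or.inr (hn x hx h)
    have := Finset.card_le_card hsub
    have h5 := Finset.card_le_two (a := a) (b := b)
    omega
  have h4 := haasink x ((memJ _).mpr ⟨hxa, hx⟩) (by rw [hfin]; exact hxb)
  rw [hfin] at h4
  exact h4.swap hm (hsource x hx hxb)

lemma D5_0 (s : Fin 5 → K) : D5 s 0 =
    (s 1 ^ 2 - s 0 ^ 2) * (s 2 ^ 2 - s 0 ^ 2) * (s 3 ^ 2 - s 0 ^ 2) * (s 4 ^ 2 - s 0 ^ 2) := by
  have h : (Finset.univ.erase (0 : Fin 5)) = {1, 2, 3, 4} := by decide
  simp [D5, h, mul_assoc]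
lemma D5_1 (s : Fin 5 → K) : D5 s 1 =
    (s 0 ^ 2 - s 1 ^ 2) * (s 2 ^ 2 - s 1 ^ 2) * (s 3 ^ 2 - s 1 ^ 2) * (s 4 ^ 2 - s 1 ^ 2) := by
  have h : (Finset.univ.erase (1 : Fin 5)) = {0, 2, 3, 4} := by decide
  simp [D5, h, mul_assoc]
lemma D5_2 (s : Fin 5 → K) : D5 s 2 =
    (s 0 ^ 2 - s 2 ^ 2) * (s 1 ^ 2 - s 2 ^ 2) * (s 3 ^ 2 - s 2 ^ 2) * (s 4 ^ 2 - s 2 ^ 2) := by
  have h : (Finset.univ.erase (2 : Fin 5)) = {0, 1, 3, 4} := by decide
  simp [D5, h, mul_assoc]
lemma D5_3 (s : Fin 5 → K) : D5 s 3 =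
    (s 0 ^ 2 - s 3 ^ 2) * (s 1 ^ 2 - s 3 ^ 2) * (s 2 ^ 2 - s 3 ^ 2) * (s 4 ^ 2 - s 3 ^ 2) := by
  have h : (Finset.univ.erase (3 : Fin 5)) = {0, 1, 2, 4} := by decide
  simp [D5, h, mul_assoc]
lemma D5_4 (s : Fin 5 → K) : D5 s 4 =
    (s 0 ^ 2 - s 4 ^ 2) * (s 1 ^ 2 - s 4 ^ 2) * (s 2 ^ 2 - s 4 ^ 2) * (s 3 ^ 2 - s 4 ^ 2) := by
  have h : (Finset.univ.erase (4 : Fin 5)) = {0, 1, 2, 3} := by decide
  simp [D5, h, mul_assoc]

lemma not_sq (hm : ¬ IsSquare (-1 : K)) {t d : K} (ht : P t) (hd : d = -t) : ¬ IsSquare d := by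
  intro h
  exact ht.not_neg hm ⟨neg_ne_zero.mpr ht.1, hd ▸ h⟩

end E16B

open E16B in
theorem t_E16B : S_E16B := by
  intro K _ _ h2 hq hm
  obtain ⟨v, x1, x2, x3, hv, h1, h2', h3, k1, k2, k3, l1, l2, l3⟩ := exists_conf hm hq
  obtain ⟨rv, hrv⟩ := hv.2
  obtain ⟨r1, hr1⟩ := h1.2
  obtain ⟨r2, hr2⟩ := h2'.2
  obtain ⟨r3, hr3⟩ := h3.2
  have ev : rv ^ 2 = v := by rw [hrv, sq]
  have e1 : r1 ^ 2 = x1 := by rw [hr1, sq]
  have e2 : r2 ^ 2 = x2 := by rw [hr2, sq]
  have e3 : r3 ^ 2 = x3 := by rw [hr3, sq]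
  refine ⟨![0, rv, r1, r2, r3], ?_, 0, ?_, ?_⟩
  · have a0 := hv.1
    have a1 := h1.1
    have a2 := h2'.1
    have a3 := h3.1
    have b1 := sub_ne_zero.mp k1.1
    have b2 := sub_ne_zero.mp k2.1
    have b3 := sub_ne_zero.mp k3.1
    have c1 := sub_ne_zero.mp l1.1
    have c2 := sub_ne_zero.mp l2.1
    have c3 := sub_ne_zero.mp l3.1
    have a0' := a0.symm
    have a1' := a1.symm
    have a2' := a2.symm
    have a3' := a3.symm
    have b1' := b1.symm
    have b2' := b2.symm
    have b3' := b3.symm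
    have c1' := c1.symm
    have c2' := c2.symm
    have c3' := c3.symm
    intro i j hij
    fin_cases i <;> fin_cases j <;>
      first
        | exact absurd rfl hij
        | (simp [ev, e1, e2, e3]; assumption)
  · rw [D5_0]
    simp only [Matrix.cons_val_zero, Matrix.cons_val_one, Matrix.cons_val]
    rw [ev, e1, e2, e3]
    have h := ((hv.mul h1).mul h2').mul h3
    have : (v - 0 ^ 2) * (x1 - 0 ^ 2) * (x2 - 0 ^ 2) * (x3 - 0 ^ 2) = v * x1 * x2 * x3 := by ring
    rw [this]
    exact h.2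
  · intro j hj
    fin_cases j
    · exact absurd rfl hj
    · show ¬ IsSquare (D5 ![0, rv, r1, r2, r3] 1)
      rw [D5_1]
      simp only [Matrix.cons_val_zero, Matrix.cons_val_one, Matrix.cons_val]
      rw [ev, e1, e2, e3]
      exact not_sq hm (((hv.mul k1).mul k2).mul k3) (by ring)
    · show ¬ IsSquare (D5 ![0, rv, r1, r2, r3] 2)
      rw [D5_2]
      simp only [Matrix.cons_val_zero, Matrix.cons_val_one, Matrix.cons_val]
      rw [ev, e1, e2, e3]
      exact not_sq hm (((h1.mul k1).mul l1).mul l3) (by ring)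
    · show ¬ IsSquare (D5 ![0, rv, r1, r2, r3] 3)
      rw [D5_3]
      simp only [Matrix.cons_val_zero, Matrix.cons_val_one, Matrix.cons_val]
      rw [ev, e1, e2, e3]
      exact not_sq hm (((h2'.mul k2).mul l1).mul l2) (by ring)
    · show ¬ IsSquare (D5 ![0, rv, r1, r2, r3] 4)
      rw [D5_4]
      simp only [Matrix.cons_val_zero, Matrix.cons_val_one, Matrix.cons_val]
      rw [ev, e1, e2, e3]
      exact not_sq hm (((h3.mul k3).mul l2).mul l3) (by ring)

end Pool.Agent.R863.CS
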