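import Pool.Agent.R863.CS.Stm

/-!
# CS-EXH (MP_f18d96_ag), by helper780: one of three coplanar lines is hyperbolic
-/

set_option autoImplicit false

namespace Pool.Agent.R863.CS

open MvPolynomial

namespace ExhAux

section
variable {K : Type} [Field K]

theorem pair_indep {V : Submodule K (Fin 4 → K)} {p q : Fin 4 → K} (hp : p ∈ V) (hp0 : p ≠ 0)
    (hq : q ∉ V) : LinearIndependent K ![p, q] := by
  rw [LinearIndependent.pair_iff]
  intro s t h
  have ht : t = 0 := by
    by_contra ht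
    apply hq
    have e : q = (-(t⁻¹ * s)) • p := by
      have h1 : t • q = -(s • p) := by rw [eq_neg_iff_add_eq_zero, add_comm]; exact h
      calc q = t⁻¹ • (t • q) := by rw [smul_smul, inv_mul_cancel₀ ht, one_smul]
        _ = _ := by rw [h1, smul_neg, smul_smul, neg_smul]
    rw [e]
    exact V.smul_mem _ hp
  rw [ht, zero_smul, add_zero] at h
  exact ⟨(smul_eq_zero.mp h).resolve_right hp0, ht⟩

theorem span_pair_of {W : Submodule K (Fin 4 → K)} (h2 : Module.finrank K W = 2)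
    {u v : Fin 4 → K} (hu : u ∈ W) (hv : v ∈ W) (hli : LinearIndependent K ![u, v]) :
    W = Submodule.span K {u, v} := by
  have e : Set.range ![u, v] = {u, v} := by
    simp [Matrix.range_cons, Set.pair_comm]
  have h3 : Module.finrank K (Submodule.span K ({u, v} : Set (Fin 4 → K))) = 2 := by
    rw [← e, finrank_span_eq_card hli]
    simp
  refine (Submodule.eq_of_le_of_finrank_eq ?_ (by rw [h3, h2])).symm
  rw [Submodule.span_le]
  rintro x (rfl | rfl)
  · exact hu
  · exact hv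

/-- matrix with given columns -/
def colM (v : Fin 4 → Fin 4 → K) : Matrix (Fin 4) (Fin 4) K := Matrix.of fun i j => v j i

theorem colM_unit {v : Fin 4 → Fin 4 → K} (hv : LinearIndependent K v) : IsUnit (colM v).det := by
  rw [← Matrix.isUnit_iff_isUnit_det, ← Matrix.linearIndependent_cols_iff_isUnit]
  exact hv

theorem map_pair (g : Matrix (Fin 4) (Fin 4) K) (u v : Fin 4 → K) :
    (Submodule.span K {u, v}).map g.mulVecLin
      = Submodule.span K {g.mulVec u, g.mulVec v} := by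
  rw [Submodule.map_span, Set.image_pair]
  rfl

theorem indep4 {H : Submodule K (Fin 4 → K)} {v0 v1 v2 v3 : Fin 4 → K} (h0 : v0 ∈ H)
    (h1 : v1 ∈ H) (h2 : v2 ∈ H) (h3 : v3 ∉ H)
    (h : ∀ a b c : K, a • v0 + b • v1 + c • v2 = 0 → a = 0 ∧ b = 0 ∧ c = 0) :
    LinearIndependent K ![v0, v1, v2, v3] := by
  rw [Fintype.linearIndependent_iff]
  intro g hg
  simp only [Fin.sum_univ_four, Matrix.cons_val_zero, Matrix.cons_val_one, Matrix.cons_val] at hg
  have h4 : g 3 = 0 := by
    by_contra h4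
    apply h3
    have e : v3 = (-(g 3)⁻¹) • (g 0 • v0 + g 1 • v1 + g 2 • v2) := by
      have h5 : g 3 • v3 = -(g 0 • v0 + g 1 • v1 + g 2 • v2) := by
        rw [eq_neg_iff_add_eq_zero, add_comm]; exact hg
      calc v3 = (g 3)⁻¹ • (g 3 • v3) := by rw [smul_smul, inv_mul_cancel₀ h4, one_smul]
        _ = _ := by rw [h5, smul_neg, neg_smul]
    rw [e]
    exact H.smul_mem _ (H.add_mem (H.add_mem (H.smul_mem _ h0) (H.smul_mem _ h1))
      (H.smul_mem _ h2))
  rw [h4, zero_smul, add_zero] at hg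
  obtain ⟨a, b, c⟩ := h _ _ _ hg
  intro i
  fin_cases i
  · exact a
  · exact b
  · exact c
  · exact h4

end

section
variable {k : Type} [Field k]

theorem eval20 (c : Fin 20 → k) (v : Fin 4 → k) : eval v (cub20 c) =
    c 0 * v 0 ^ 3 + c 1 * v 0 ^ 2 * v 1 + c 2 * v 0 * v 1 ^ 2 + c 3 * v 1 ^ 3
    + c 4 * v 0 ^ 2 * v 2 + c 5 * v 0 * v 1 * v 2 + c 6 * v 1 ^ 2 * v 2
    + c 7 * v 0 * v 2 ^ 2 + c 8 * v 1 * v 2 ^ 2 + c 9 * v 2 ^ 3
    + v 3 * (c 10 * v 0 ^ 2 + c 11 * v 0 * v 1 + c 12 * v 1 ^ 2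
      + c 13 * v 0 * v 2 + c 14 * v 1 * v 2 + c 15 * v 2 ^ 2
      + c 16 * v 0 * v 3 + c 17 * v 1 * v 3 + c 18 * v 2 * v 3 + c 19 * v 3 ^ 2) := by
  simp [cub20]

theorem grad0 (c : Fin 20 → k) (v : Fin 4 → k) : eval v (pderiv 0 (cub20 c)) =
    3 * c 0 * v 0 ^ 2 + 2 * c 1 * v 0 * v 1 + c 2 * v 1 ^ 2
    + 2 * c 4 * v 0 * v 2 + c 5 * v 1 * v 2 + c 7 * v 2 ^ 2
    + v 3 * (2 * c 10 * v 0 + c 11 * v 1 + c 13 * v 2 + c 16 * v 3) := by
  simp [cub20, pderiv_X]
  ring

theorem grad1 (c : Fin 20 → k) (v : Fin 4 → k) : eval v (pderiv 1 (cub20 c)) =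
    c 1 * v 0 ^ 2 + 2 * c 2 * v 0 * v 1 + 3 * c 3 * v 1 ^ 2
    + c 5 * v 0 * v 2 + 2 * c 6 * v 1 * v 2 + c 8 * v 2 ^ 2
    + v 3 * (c 11 * v 0 + 2 * c 12 * v 1 + c 14 * v 2 + c 17 * v 3) := by
  simp [cub20, pderiv_X]
  ring

theorem grad2 (c : Fin 20 → k) (v : Fin 4 → k) : eval v (pderiv 2 (cub20 c)) =
    c 4 * v 0 ^ 2 + c 5 * v 0 * v 1 + c 6 * v 1 ^ 2
    + 2 * c 7 * v 0 * v 2 + 2 * c 8 * v 1 * v 2 + 3 * c 9 * v 2 ^ 2
    + v 3 * (c 13 * v 0 + c 14 * v 1 + 2 * c 15 * v 2 + c 18 * v 3) := by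
  simp [cub20, pderiv_X]
  ring

theorem grad3 (c : Fin 20 → k) (v : Fin 4 → k) : eval v (pderiv 3 (cub20 c)) =
    c 10 * v 0 ^ 2 + c 11 * v 0 * v 1 + c 12 * v 1 ^ 2
      + c 13 * v 0 * v 2 + c 14 * v 1 * v 2 + c 15 * v 2 ^ 2
      + 2 * v 3 * (c 16 * v 0 + c 17 * v 1 + c 18 * v 2) + 3 * c 19 * v 3 ^ 2 := by
  simp [cub20, pderiv_X]
  ring

end

theorem bar20 {K : Type} [Field K] (c : Fin 20 → K) :
    bar (cub20 c) = cub20 (fun i => algebraMap K (AlgebraicClosure K) (c i)) := by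
  simp [bar, cub20]

abbrev E0 (K : Type) [Field K] : Fin 4 → K := ![1, 0, 0, 0]
abbrev E1 (K : Type) [Field K] : Fin 4 → K := ![0, 1, 0, 0]
abbrev E2 (K : Type) [Field K] : Fin 4 → K := ![0, 0, 1, 0]
abbrev E3 (K : Type) [Field K] : Fin 4 → K := ![0, 0, 0, 1]

section
variable {K : Type} [Field K]

theorem two_ne (h2 : (2 : K) ≠ 0) : (2 : AlgebraicClosure K) ≠ 0 := by
  intro h
  apply h2
  have : algebraMap K (AlgebraicClosure K) 2 = 0 := by rw [map_ofNat]; exact h
  exact (map_eq_zero _).mp this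

theorem sq_of_three [Finite K] (a b c : K) (ha : a ≠ 0) (hb : b ≠ 0) (hc : c ≠ 0) :
    IsSquare (b * c) ∨ IsSquare (a * c) ∨ IsSquare (a * b) := by
  classical
  have : Fintype K := Fintype.ofFinite K
  by_cases h1 : IsSquare (b * c)
  · exact Or.inl h1
  by_cases h2 : IsSquare (a * c)
  · exact Or.inr (Or.inl h2)
  right; right
  have e1 : quadraticChar K (b * c) = -1 := quadraticChar_neg_one_iff_not_isSquare.mpr h1
  have e2 : quadraticChar K (a * c) = -1 := quadraticChar_neg_one_iff_not_isSquare.mpr h2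
  have e3 : quadraticChar K ((b * c) * (a * c)) = 1 := by
    rw [map_mul, e1, e2]; norm_num
  have h3 : IsSquare ((b * c) * (a * c)) :=
    (quadraticChar_one_iff_isSquare (mul_ne_zero (mul_ne_zero hb hc) (mul_ne_zero ha hc))).mp e3
  obtain ⟨r, hr⟩ := h3
  refine ⟨r / c, ?_⟩
  field_simp
  linear_combination hr

/-- the coefficients on `x = w = 0` vanish -/
theorem van1 (h2 : (2 : K) ≠ 0) (c : Fin 20 → K)
    (h : ∀ y z : AlgebraicClosure K, eval ![0, y, z, 0] (bar (cub20 c)) = 0) :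
    c 3 = 0 ∧ c 6 = 0 ∧ c 8 = 0 ∧ c 9 = 0 := by
  have h2' := two_ne h2
  have h' : ∀ y z : AlgebraicClosure K, algebraMap K (AlgebraicClosure K) (c 3) * y ^ 3
      + algebraMap K (AlgebraicClosure K) (c 6) * y ^ 2 * z
      + algebraMap K (AlgebraicClosure K) (c 8) * y * z ^ 2
      + algebraMap K (AlgebraicClosure K) (c 9) * z ^ 3 = 0 := by
    intro y z
    have := h y z
    rw [bar20, eval20] at this
    simpa using this
  have a1 := h' 1 0
  have a2 := h' 0 1
  have a3 := h' 1 1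
  have a4 := h' 1 (-1)
  have b1 : algebraMap K (AlgebraicClosure K) (c 3) = 0 := by linear_combination a1
  have b2 : algebraMap K (AlgebraicClosure K) (c 9) = 0 := by linear_combination a2
  have b3 : algebraMap K (AlgebraicClosure K) (c 8) = 0 := by
    have : (2 : AlgebraicClosure K) * algebraMap K (AlgebraicClosure K) (c 8) = 0 := by
      linear_combination a3 + a4 - 2 * b1
    exact (mul_eq_zero.mp this).resolve_left h2'
  have b4 : algebraMap K (AlgebraicClosure K) (c 6) = 0 := by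
    linear_combination a3 - b1 - b2 - b3
  exact ⟨(map_eq_zero _).mp b1, (map_eq_zero _).mp b4, (map_eq_zero _).mp b3,
    (map_eq_zero _).mp b2⟩

theorem van2 (h2 : (2 : K) ≠ 0) (c : Fin 20 → K)
    (h : ∀ x z : AlgebraicClosure K, eval ![x, 0, z, 0] (bar (cub20 c)) = 0) :
    c 0 = 0 ∧ c 4 = 0 ∧ c 7 = 0 ∧ c 9 = 0 := by
  have h2' := two_ne h2
  have h' : ∀ y z : AlgebraicClosure K, algebraMap K (AlgebraicClosure K) (c 0) * y ^ 3
      + algebraMap K (AlgebraicClosure K) (c 4) * y ^ 2 * z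
      + algebraMap K (AlgebraicClosure K) (c 7) * y * z ^ 2
      + algebraMap K (AlgebraicClosure K) (c 9) * z ^ 3 = 0 := by
    intro y z
    have := h y z
    rw [bar20, eval20] at this
    simpa using this
  have a1 := h' 1 0
  have a2 := h' 0 1
  have a3 := h' 1 1
  have a4 := h' 1 (-1)
  have b1 : algebraMap K (AlgebraicClosure K) (c 0) = 0 := by linear_combination a1
  have b2 : algebraMap K (AlgebraicClosure K) (c 9) = 0 := by linear_combination a2
  have b3 : algebraMap K (AlgebraicClosure K) (c 7) = 0 := by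
    have : (2 : AlgebraicClosure K) * algebraMap K (AlgebraicClosure K) (c 7) = 0 := by
      linear_combination a3 + a4 - 2 * b1
    exact (mul_eq_zero.mp this).resolve_left h2'
  have b4 : algebraMap K (AlgebraicClosure K) (c 4) = 0 := by
    linear_combination a3 - b1 - b2 - b3
  exact ⟨(map_eq_zero _).mp b1, (map_eq_zero _).mp b4, (map_eq_zero _).mp b3,
    (map_eq_zero _).mp b2⟩

theorem van3 (h2 : (2 : K) ≠ 0) (c : Fin 20 → K)
    (h : ∀ x y : AlgebraicClosure K, eval ![x, y, 0, 0] (bar (cub20 c)) = 0) :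
    c 0 = 0 ∧ c 1 = 0 ∧ c 2 = 0 ∧ c 3 = 0 := by
  have h2' := two_ne h2
  have h' : ∀ y z : AlgebraicClosure K, algebraMap K (AlgebraicClosure K) (c 0) * y ^ 3
      + algebraMap K (AlgebraicClosure K) (c 1) * y ^ 2 * z
      + algebraMap K (AlgebraicClosure K) (c 2) * y * z ^ 2
      + algebraMap K (AlgebraicClosure K) (c 3) * z ^ 3 = 0 := by
    intro y z
    have := h y z
    rw [bar20, eval20] at this
    simpa using this
  have a1 := h' 1 0
  have a2 := h' 0 1
  have a3 := h' 1 1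
  have a4 := h' 1 (-1)
  have b1 : algebraMap K (AlgebraicClosure K) (c 0) = 0 := by linear_combination a1
  have b2 : algebraMap K (AlgebraicClosure K) (c 3) = 0 := by linear_combination a2
  have b3 : algebraMap K (AlgebraicClosure K) (c 2) = 0 := by
    have : (2 : AlgebraicClosure K) * algebraMap K (AlgebraicClosure K) (c 2) = 0 := by
      linear_combination a3 + a4 - 2 * b1
    exact (mul_eq_zero.mp this).resolve_left h2'
  have b4 : algebraMap K (AlgebraicClosure K) (c 1) = 0 := by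
    linear_combination a3 - b1 - b2 - b3
  exact ⟨(map_eq_zero _).mp b1, (map_eq_zero _).mp b4, (map_eq_zero _).mp b3,
    (map_eq_zero _).mp b2⟩

/-- smoothness at the three vertices and along `z = w = 0` -/
theorem nz0 {c : Fin 20 → K} (hs : Smooth (bar (cub20 c))) (h0 : c 0 = 0) (h1 : c 1 = 0)
    (h4 : c 4 = 0) : c 10 ≠ 0 := by
  intro h10
  obtain ⟨i, hi⟩ := hs ![1, 0, 0, 0] (by
    intro h; have := congrFun h 0; simp at this) (by
    rw [bar20, eval20]; simp [h0])
  apply hi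
  rw [bar20]
  fin_cases i
  · change eval _ (pderiv 0 _) = 0
    rw [grad0]; simp [h0]
  · change eval _ (pderiv 1 _) = 0
    rw [grad1]; simp [h1]
  · change eval _ (pderiv 2 _) = 0
    rw [grad2]; simp [h4]
  · change eval _ (pderiv 3 _) = 0
    rw [grad3]; simp [h10]

theorem nz1 {c : Fin 20 → K} (hs : Smooth (bar (cub20 c))) (h2 : c 2 = 0) (h3 : c 3 = 0)
    (h6 : c 6 = 0) : c 12 ≠ 0 := by
  intro h12
  obtain ⟨i, hi⟩ := hs ![0, 1, 0, 0] (by
    intro h; have := congrFun h 1; simp at this) (by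
    rw [bar20, eval20]; simp [h3])
  apply hi
  rw [bar20]
  fin_cases i
  · change eval _ (pderiv 0 _) = 0
    rw [grad0]; simp [h2]
  · change eval _ (pderiv 1 _) = 0
    rw [grad1]; simp [h3]
  · change eval _ (pderiv 2 _) = 0
    rw [grad2]; simp [h6]
  · change eval _ (pderiv 3 _) = 0
    rw [grad3]; simp [h12]

theorem nz2 {c : Fin 20 → K} (hs : Smooth (bar (cub20 c))) (h7 : c 7 = 0) (h8 : c 8 = 0)
    (h9 : c 9 = 0) : c 15 ≠ 0 := by
  intro h15
  obtain ⟨i, hi⟩ := hs ![0, 0, 1, 0] (by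
    intro h; have := congrFun h 2; simp at this) (by
    rw [bar20, eval20]; simp [h9])
  apply hi
  rw [bar20]
  fin_cases i
  · change eval _ (pderiv 0 _) = 0
    rw [grad0]; simp [h7]
  · change eval _ (pderiv 1 _) = 0
    rw [grad1]; simp [h8]
  · change eval _ (pderiv 2 _) = 0
    rw [grad2]; simp [h9]
  · change eval _ (pderiv 3 _) = 0
    rw [grad3]; simp [h15]

theorem nzz (h2 : (2 : K) ≠ 0) {c : Fin 20 → K} (hs : Smooth (bar (cub20 c))) (h0 : c 0 = 0)
    (h1 : c 1 = 0) (h2c : c 2 = 0) (h3 : c 3 = 0) (h10 : c 10 ≠ 0) :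
    ¬ (c 4 = 0 ∧ c 5 = 0 ∧ c 6 = 0) := by
  rintro ⟨h4, h5, h6⟩
  have h2' := two_ne h2
  have : NeZero (2 : AlgebraicClosure K) := ⟨h2'⟩
  have h10' : algebraMap K (AlgebraicClosure K) (c 10) ≠ 0 := fun h => h10 ((map_eq_zero _).mp h)
  obtain ⟨x, hx⟩ := exists_quadratic_eq_zero h10'
    (b := algebraMap K (AlgebraicClosure K) (c 11)) (c := algebraMap K (AlgebraicClosure K) (c 12))
    (by
      obtain ⟨s, hs⟩ := IsAlgClosed.exists_eq_mul_self
        (discrim (algebraMap K (AlgebraicClosure K) (c 10))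
          (algebraMap K (AlgebraicClosure K) (c 11)) (algebraMap K (AlgebraicClosure K) (c 12)))
      exact ⟨s, hs⟩)
  obtain ⟨i, hi⟩ := hs ![x, 1, 0, 0] (by
    intro h; have := congrFun h 1; simp at this) (by
    rw [bar20, eval20]; simp [h0, h1, h2c, h3])
  apply hi
  rw [bar20]
  fin_cases i
  · change eval _ (pderiv 0 _) = 0
    rw [grad0]; simp [h0, h1, h2c]
  · change eval _ (pderiv 1 _) = 0
    rw [grad1]; simp [h1, h2c, h3]
  · change eval _ (pderiv 2 _) = 0
    rw [grad2]; simp [h4, h5, h6]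
  · change eval _ (pderiv 3 _) = 0
    rw [grad3]; simp
    linear_combination hx

theorem li_of (i j : Fin 4) (_hij : i ≠ j) (p q : Fin 4 → K) (h1 : p i = 1) (h2 : p j = 0)
    (h3 : q i = 0) (h4 : q j = 1) : LinearIndependent K ![p, q] := by
  rw [LinearIndependent.pair_iff]
  intro s t h
  have a := congrFun h i
  have b := congrFun h j
  simp only [Pi.add_apply, Pi.smul_apply, smul_eq_mul, Pi.zero_apply, h1, h2, h3, h4] at a b
  constructor
  · linear_combination a
  · linear_combination b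

/-- core of case (b) -/
theorem coreB [Finite K] (h2 : (2 : K) ≠ 0) (hG : S_GAUSS) (c : Fin 20 → K)
    (hs : Smooth (bar (cub20 c)))
    (hW1 : ∀ y z : AlgebraicClosure K, eval ![0, y, z, 0] (bar (cub20 c)) = 0)
    (hW2 : ∀ x z : AlgebraicClosure K, eval ![x, 0, z, 0] (bar (cub20 c)) = 0)
    (hW3 : ∀ x y : AlgebraicClosure K, eval ![x, y, 0, 0] (bar (cub20 c)) = 0) :
    (∃ p, IsFixedPoint (cub20 c) (Submodule.span K {E1 K, E2 K}) p) ∨
    (∃ p, IsFixedPoint (cub20 c) (Submodule.span K {E0 K, E2 K}) p) ∨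
    (∃ p, IsFixedPoint (cub20 c) (Submodule.span K {E0 K, E1 K}) p) := by
  obtain ⟨h3, h6, h8, h9⟩ := van1 h2 c hW1
  obtain ⟨h0, h4, h7, -⟩ := van2 h2 c hW2
  obtain ⟨-, h1, h2c, -⟩ := van3 h2 c hW3
  have h10 := nz0 hs h0 h1 h4
  have h12 := nz1 hs h2c h3 h6
  have h15 := nz2 hs h7 h8 h9
  have h5 : c 5 ≠ 0 := fun h5 => nzz h2 hs h0 h1 h2c h3 h10 ⟨h4, h5, h6⟩
  rcases sq_of_three (c 10) (c 12) (c 15) h10 h12 h15 with hq | hq | hq
  · left
    refine (hG K h2 (cub20 c) (E1 K) (E2 K) (E0 K) (E3 K) ![0, c 5, 0] ![c 12, c 14, c 15]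
      (li_of 1 2 (by decide) _ _ (by simp) (by simp) (by simp) (by simp))
      (li_of 0 3 (by decide) _ _ (by simp) (by simp) (by simp) (by simp)) ?_ ?_).mpr ?_
    · intro z w i
      rw [bar20]
      fin_cases i
      · change eval _ (pderiv 0 _) = _
        rw [grad0]; simp [up, h0, h1, h2c, h4, h7]
      · change eval _ (pderiv 1 _) = _
        rw [grad1]; simp [up, h1, h2c, h3, h6, h8]
      · change eval _ (pderiv 2 _) = _
        rw [grad2]; simp [up, h4, h6, h7, h8, h9]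
      · change eval _ (pderiv 3 _) = _
        rw [grad3]; simp [up]
    · simp [h5, h12, h15]
    · obtain ⟨r, hr⟩ := hq
      refine ⟨c 5 * r, ?_⟩
      simp
      linear_combination c 5 ^ 2 * hr
  · right; left
    refine (hG K h2 (cub20 c) (E0 K) (E2 K) (E1 K) (E3 K) ![0, c 5, 0] ![c 10, c 13, c 15]
      (li_of 0 2 (by decide) _ _ (by simp) (by simp) (by simp) (by simp))
      (li_of 1 3 (by decide) _ _ (by simp) (by simp) (by simp) (by simp)) ?_ ?_).mpr ?_
    · intro z w i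
      rw [bar20]
      fin_cases i
      · change eval _ (pderiv 0 _) = _
        rw [grad0]; simp [up, h0, h1, h2c, h4, h7]
      · change eval _ (pderiv 1 _) = _
        rw [grad1]; simp [up, h1, h2c, h3, h6, h8]
      · change eval _ (pderiv 2 _) = _
        rw [grad2]; simp [up, h4, h6, h7, h8, h9]
      · change eval _ (pderiv 3 _) = _
        rw [grad3]; simp [up]
    · simp [h5, h10, h15]
    · obtain ⟨r, hr⟩ := hq
      refine ⟨c 5 * r, ?_⟩
      simp
      linear_combination c 5 ^ 2 * hr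
  · right; right
    refine (hG K h2 (cub20 c) (E0 K) (E1 K) (E2 K) (E3 K) ![0, c 5, 0] ![c 10, c 11, c 12]
      (li_of 0 1 (by decide) _ _ (by simp) (by simp) (by simp) (by simp))
      (li_of 2 3 (by decide) _ _ (by simp) (by simp) (by simp) (by simp)) ?_ ?_).mpr ?_
    · intro z w i
      rw [bar20]
      fin_cases i
      · change eval _ (pderiv 0 _) = _
        rw [grad0]; simp [up, h0, h1, h2c, h4, h7]
      · change eval _ (pderiv 1 _) = _
        rw [grad1]; simp [up, h1, h2c, h3, h6, h8]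
      · change eval _ (pderiv 2 _) = _
        rw [grad2]; simp [up, h4, h6, h7, h8, h9]
      · change eval _ (pderiv 3 _) = _
        rw [grad3]; simp [up]
    · simp [h5, h10, h12]
    · obtain ⟨r, hr⟩ := hq
      refine ⟨c 5 * r, ?_⟩
      simp
      linear_combination c 5 ^ 2 * hr

theorem mem_ofK_pair (hL : S_LA) (u v : Fin 4 → K) (p : Fin 4 → AlgebraicClosure K) :
    p ∈ ofK (Submodule.span K {u, v}) ↔ ∃ a b : AlgebraicClosure K, a • up u + b • up v = p := by
  obtain ⟨-, -, -, -, h5, -⟩ := hL K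
  rw [h5, Set.image_pair, Submodule.mem_span_pair]

/-- core of case (a) -/
theorem coreA (h2 : (2 : K) ≠ 0) (hL : S_LA) (c : Fin 20 → K)
    (hs : Smooth (bar (cub20 c)))
    (hW1 : ∀ x y : AlgebraicClosure K, eval ![x, y, 0, 0] (bar (cub20 c)) = 0)
    (hW2 : ∀ x z : AlgebraicClosure K, eval ![x, 0, z, 0] (bar (cub20 c)) = 0)
    (hW3 : ∀ x y : AlgebraicClosure K, eval ![x, y, y, 0] (bar (cub20 c)) = 0) :
    ∃ p, IsFixedPoint (cub20 c) (Submodule.span K {E0 K, E1 K}) p := by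
  have h2' := two_ne h2
  obtain ⟨h0, h4, h7, h9⟩ := van2 h2 c hW2
  obtain ⟨-, h1, h2c, h3⟩ := van3 h2 c hW1
  have h' : ∀ x y : AlgebraicClosure K,
      (algebraMap K (AlgebraicClosure K) (c 5) * x * y * y
      + algebraMap K (AlgebraicClosure K) (c 6) * y ^ 2 * y
      + algebraMap K (AlgebraicClosure K) (c 8) * y * y ^ 2) = 0 := by
    intro x y
    have := hW3 x y
    rw [bar20, eval20] at this
    simpa [h0, h1, h2c, h3, h4, h7, h9] using this
  have a1 := h' 1 1
  have a2 := h' (-1) 1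
  have b5 : algebraMap K (AlgebraicClosure K) (c 5) = 0 := by
    have : (2 : AlgebraicClosure K) * algebraMap K (AlgebraicClosure K) (c 5) = 0 := by
      linear_combination a1 - a2
    exact (mul_eq_zero.mp this).resolve_left h2'
  have h5 : c 5 = 0 := (map_eq_zero _).mp b5
  have h10 := nz0 hs h0 h1 h4
  have h6 : c 6 ≠ 0 := fun h6 => nzz h2 hs h0 h1 h2c h3 h10 ⟨h4, h5, h6⟩
  refine ⟨E0 K, Submodule.subset_span (by simp), ?_, ?_⟩
  · intro h
    have := congrFun h 0
    simp at this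
  · rintro p' hp' - ⟨cc, hcc⟩
    obtain ⟨a, b, rfl⟩ := (mem_ofK_pair hL (E0 K) (E1 K) p').mp hp'
    have h := hcc 2
    rw [bar20, grad2, grad2] at h
    simp [up, h4, h5] at h
    rcases h with h | h
    · exact absurd h h6
    · refine ⟨a, ?_⟩
      rw [h, zero_smul, add_zero]

end

end ExhAux

open ExhAux in
theorem t_EXH : S_LA → S_CH → S_TX → S_CUB → S_GAUSS → S_EXH := by
  intro hL _ hT hC hG K _ _ h2 F hF W₁ W₂ W₃ hW₁ hW₂ hW₃ h12 h13 h23 hH
  obtain ⟨L1, -, -, -, -, -⟩ := hL K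
  have f1 : Module.finrank K W₁ = 2 := by rw [← L1]; exact hW₁.1
  have f2 : Module.finrank K W₂ = 2 := by rw [← L1]; exact hW₂.1
  have f3 : Module.finrank K W₃ = 2 := by rw [← L1]; exact hW₃.1
  obtain ⟨H, hHd⟩ : ∃ H, H = W₁ ⊔ W₂ ⊔ W₃ := ⟨_, rfl⟩
  have i1 : W₁ ≤ H := by rw [hHd]; exact le_sup_left.trans le_sup_left
  have i2 : W₂ ≤ H := by rw [hHd]; exact le_sup_right.trans le_sup_left
  have i3 : W₃ ≤ H := by rw [hHd]; exact le_sup_right
  rw [← hHd] at hH
  obtain ⟨r, hr⟩ : ∃ r, r ∉ H := by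
    by_contra hcon
    push Not at hcon
    have : H = ⊤ := by rw [eq_top_iff]; exact fun x _ => hcon x
    rw [this, finrank_top] at hH
    simp at hH
  -- two different planes of dimension two meet in a line
  have meet : ∀ V V' : Submodule K (Fin 4 → K), V ≤ H → V' ≤ H → Module.finrank K V = 2 →
      Module.finrank K V' = 2 → ∃ p, p ∈ V ∧ p ∈ V' ∧ p ≠ 0 := by
    intro V V' hV hV' e e'
    have h1 := Submodule.finrank_sup_add_finrank_inf_eq V V'
    have h3 : Module.finrank K ↥(V ⊔ V') ≤ 3 := by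
      rw [← hH]; exact Submodule.finrank_mono (sup_le hV hV')
    have h4 : V ⊓ V' ≠ ⊥ := by
      intro hb
      rw [hb, finrank_bot] at h1
      omega
    obtain ⟨p, hp, hp0⟩ := Submodule.exists_mem_ne_zero_of_ne_bot h4
    exact ⟨p, hp.1, hp.2, hp0⟩
  -- transport
  have key : ∀ v : Fin 4 → Fin 4 → K, LinearIndependent K v →
      ∃ c : Fin 20 → K, C 1 * subst (colM v) F = cub20 c ∧ IsSplit (cub20 c) ∧
      (∀ a b : Fin 4 → K, Submodule.span K {(colM v).mulVec a, (colM v).mulVec b} ∈ KLines F →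
        ∀ x y : AlgebraicClosure K, eval (x • up a + y • up b) (bar (cub20 c)) = 0) ∧
      (∀ a b : Fin 4 → K, (∃ p, IsFixedPoint (cub20 c) (Submodule.span K {a, b}) p) →
        ∃ p, IsFixedPoint F (Submodule.span K {(colM v).mulVec a, (colM v).mulVec b}) p) := by
    intro v hv
    obtain ⟨t1, t2, t3⟩ := hT K F (colM v) 1 (colM_unit hv) one_ne_zero
    have t1' := t1 hF
    obtain ⟨c, hc⟩ := hC K _ t1'.hom
    refine ⟨c, hc, hc ▸ t1', ?_, ?_⟩
    · intro a b hab x y
      have h1 : Submodule.span K {a, b} ∈ KLines (C 1 * subst (colM v) F) := by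
        rw [t2, map_pair]; exact hab
      rw [hc] at h1
      exact h1.2 _ ((mem_ofK_pair hL a b _).mpr ⟨x, y, rfl⟩)
    · rintro a b ⟨p, hp⟩
      rw [← hc, t3, map_pair] at hp
      exact ⟨_, hp⟩
  have col0 : ∀ v0 v1 v2 v3 : Fin 4 → K, (colM ![v0, v1, v2, v3]).mulVec (E0 K) = v0 := by
    intro v0 v1 v2 v3; funext i
    simp [colM, Matrix.mulVec, dotProduct, Fin.sum_univ_four]
  have col1 : ∀ v0 v1 v2 v3 : Fin 4 → K, (colM ![v0, v1, v2, v3]).mulVec (E1 K) = v1 := by
    intro v0 v1 v2 v3; funext i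
    simp [colM, Matrix.mulVec, dotProduct, Fin.sum_univ_four]
  have col2 : ∀ v0 v1 v2 v3 : Fin 4 → K, (colM ![v0, v1, v2, v3]).mulVec (E2 K) = v2 := by
    intro v0 v1 v2 v3; funext i
    simp [colM, Matrix.mulVec, dotProduct, Fin.sum_univ_four]
  have col12 : ∀ v0 v1 v2 v3 : Fin 4 → K,
      (colM ![v0, v1, v2, v3]).mulVec ![0, 1, 1, 0] = v1 + v2 := by
    intro v0 v1 v2 v3; funext i
    simp [colM, Matrix.mulVec, dotProduct, Fin.sum_univ_four]
  -- notmem helper
  have nm : ∀ (V : Submodule K (Fin 4 → K)) (a : K) (p w : Fin 4 → K), p ∉ V → w ∈ V →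
      a • p + w = 0 → a = 0 := by
    intro V a p w hp hw h
    by_contra ha
    apply hp
    have e : p = (-a⁻¹) • w := by
      have h1 : a • p = -w := by rw [eq_neg_iff_add_eq_zero]; exact h
      calc p = a⁻¹ • (a • p) := by rw [smul_smul, inv_mul_cancel₀ ha, one_smul]
        _ = _ := by rw [h1, smul_neg, neg_smul]
    rw [e]
    exact V.smul_mem _ hw
  by_cases hcase : ∃ p, p ∈ W₁ ∧ p ∈ W₂ ∧ p ∈ W₃ ∧ p ≠ 0
  · -- case (a)
    obtain ⟨p, hp1, hp2, hp3, hp0⟩ := hcase
    obtain ⟨q3, hq3, hq31⟩ : ∃ q, q ∈ W₃ ∧ q ∉ W₁ := by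
      by_contra hcon
      push Not at hcon
      exact h13 (Submodule.eq_of_le_of_finrank_eq (show W₃ ≤ W₁ from hcon) (by rw [f3, f1])).symm
    have hli3 : LinearIndependent K ![p, q3] := pair_indep hp1 hp0 hq31
    have hW3s := span_pair_of f3 hp3 hq3 hli3
    have hq32 : q3 ∉ W₂ := by
      intro h
      exact h23 ((span_pair_of f2 hp2 h hli3).trans hW3s.symm)
    have hsup : W₁ ⊔ W₂ = H := by
      have h1 := Submodule.finrank_sup_add_finrank_inf_eq W₁ W₂
      have hle : W₁ ⊔ W₂ ≤ H := sup_le i1 i2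
      refine Submodule.eq_of_le_of_finrank_le hle ?_
      rw [hH]
      have h3 : Module.finrank K ↥(W₁ ⊓ W₂) < 2 := by
        rw [← f1]
        refine Submodule.finrank_lt_finrank_of_lt ?_
        refine lt_of_le_of_ne inf_le_left ?_
        intro h
        have h4 : W₁ ≤ W₂ := by rw [← h]; exact inf_le_right
        exact h12 (Submodule.eq_of_le_of_finrank_eq h4 (by rw [f1, f2]))
      omega
    obtain ⟨a1, ha1, a2, ha2, haq⟩ : ∃ a1 ∈ W₁, ∃ a2 ∈ W₂, a1 + a2 = q3 := by
      have : q3 ∈ W₁ ⊔ W₂ := by rw [hsup]; exact i3 hq3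
      exact Submodule.mem_sup.mp this
    have ha21 : a2 ∉ W₁ := by
      intro h; apply hq31; rw [← haq]; exact W₁.add_mem ha1 h
    have ha12 : a1 ∉ W₂ := by
      intro h; apply hq32; rw [← haq]; exact W₂.add_mem h ha2
    have hW1s := span_pair_of f1 hp1 ha1 (pair_indep hp2 hp0 ha12)
    have hW2s := span_pair_of f2 hp2 ha2 (pair_indep hp1 hp0 ha21)
    have hv : LinearIndependent K ![p, a1, a2, r] := by
      refine indep4 (i1 hp1) (i1 ha1) (i2 ha2) hr (fun a b c h => ?_)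
      have hc : c = 0 := nm W₁ c a2 (a • p + b • a1) ha21
        (W₁.add_mem (W₁.smul_mem _ hp1) (W₁.smul_mem _ ha1)) (by rw [← h]; abel)
      rw [hc, zero_smul, add_zero] at h
      have hb : b = 0 := nm W₂ b a1 (a • p) ha12 (W₂.smul_mem _ hp2) (by rw [← h]; abel)
      rw [hb, zero_smul, add_zero] at h
      exact ⟨(smul_eq_zero.mp h).resolve_right hp0, hb, hc⟩
    obtain ⟨c, -, hsplit, hvan, hfix⟩ := key _ hv
    have g1 : Submodule.span K {(colM ![p, a1, a2, r]).mulVec (E0 K),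
        (colM ![p, a1, a2, r]).mulVec (E1 K)} = W₁ := by rw [col0, col1, ← hW1s]
    have g2 : Submodule.span K {(colM ![p, a1, a2, r]).mulVec (E0 K),
        (colM ![p, a1, a2, r]).mulVec (E2 K)} = W₂ := by rw [col0, col2, ← hW2s]
    have g3 : Submodule.span K {(colM ![p, a1, a2, r]).mulVec (E0 K),
        (colM ![p, a1, a2, r]).mulVec ![0, 1, 1, 0]} = W₃ := by
      rw [col0, col12, haq, ← hW3s]
    have v1 := hvan (E0 K) (E1 K) (by rw [g1]; exact hW₁)
    have v2 := hvan (E0 K) (E2 K) (by rw [g2]; exact hW₂)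
    have v3 := hvan (E0 K) ![0, 1, 1, 0] (by rw [g3]; exact hW₃)
    have hres := coreA h2 hL c hsplit.smooth
      (fun x y => by
        rw [show (![x, y, 0, 0] : Fin 4 → AlgebraicClosure K) = x • up (E0 K) + y • up (E1 K) from by
          funext i; fin_cases i <;> simp [up]]
        exact v1 x y)
      (fun x y => by
        rw [show (![x, 0, y, 0] : Fin 4 → AlgebraicClosure K) = x • up (E0 K) + y • up (E2 K) from by
          funext i; fin_cases i <;> simp [up]]
        exact v2 x y)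
      (fun x y => by
        rw [show (![x, y, y, 0] : Fin 4 → AlgebraicClosure K) = x • up (E0 K) + y • up ((![0, 1, 1, 0] : Fin 4 → K)) from by
          funext i; fin_cases i <;> simp [up]]
        exact v3 x y)
    have := hfix _ _ hres
    rw [g1] at this
    exact ⟨W₁, hW₁, this⟩
  · -- case (b)
    push Not at hcase
    obtain ⟨p12, h12a, h12b, h12n⟩ := meet W₁ W₂ i1 i2 f1 f2
    obtain ⟨p13, h13a, h13b, h13n⟩ := meet W₁ W₃ i1 i3 f1 f3
    obtain ⟨p23, h23a, h23b, h23n⟩ := meet W₂ W₃ i2 i3 f2 f3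
    have n12 : p12 ∉ W₃ := fun h => h12n (hcase p12 h12a h12b h)
    have n13 : p13 ∉ W₂ := fun h => h13n (hcase p13 h13a h h13b)
    have n23 : p23 ∉ W₁ := fun h => h23n (hcase p23 h h23a h23b)
    have hv : LinearIndependent K ![p23, p13, p12, r] := by
      refine indep4 (i2 h23a) (i1 h13a) (i1 h12a) hr (fun a b c h => ?_)
      refine ⟨?_, ?_, ?_⟩
      · exact nm W₁ a p23 (b • p13 + c • p12) n23
          (W₁.add_mem (W₁.smul_mem _ h13a) (W₁.smul_mem _ h12a)) (by rw [← h]; abel)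
      · exact nm W₂ b p13 (a • p23 + c • p12) n13
          (W₂.add_mem (W₂.smul_mem _ h23a) (W₂.smul_mem _ h12b)) (by rw [← h]; abel)
      · exact nm W₃ c p12 (a • p23 + b • p13) n12
          (W₃.add_mem (W₃.smul_mem _ h23b) (W₃.smul_mem _ h13b)) (by rw [← h]; abel)
    have hW1s := span_pair_of f1 h13a h12a (pair_indep h13b h13n n12)
    have hW2s := span_pair_of f2 h23a h12b (pair_indep h23b h23n n12)
    have hW3s := span_pair_of f3 h23b h13b (pair_indep h23a h23n n13)
    obtain ⟨c, -, hsplit, hvan, hfix⟩ := key _ hv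
    have g1 : Submodule.span K {(colM ![p23, p13, p12, r]).mulVec (E1 K),
        (colM ![p23, p13, p12, r]).mulVec (E2 K)} = W₁ := by rw [col1, col2, ← hW1s]
    have g2 : Submodule.span K {(colM ![p23, p13, p12, r]).mulVec (E0 K),
        (colM ![p23, p13, p12, r]).mulVec (E2 K)} = W₂ := by rw [col0, col2, ← hW2s]
    have g3 : Submodule.span K {(colM ![p23, p13, p12, r]).mulVec (E0 K),
        (colM ![p23, p13, p12, r]).mulVec (E1 K)} = W₃ := by rw [col0, col1, ← hW3s]
    have v1 := hvan (E1 K) (E2 K) (by rw [g1]; exact hW₁)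
    have v2 := hvan (E0 K) (E2 K) (by rw [g2]; exact hW₂)
    have v3 := hvan (E0 K) (E1 K) (by rw [g3]; exact hW₃)
    have hres := coreB h2 hG c hsplit.smooth
      (fun x y => by
        rw [show (![0, x, y, 0] : Fin 4 → AlgebraicClosure K) = x • up (E1 K) + y • up (E2 K) from by
          funext i; fin_cases i <;> simp [up]]
        exact v1 x y)
      (fun x y => by
        rw [show (![x, 0, y, 0] : Fin 4 → AlgebraicClosure K) = x • up (E0 K) + y • up (E2 K) from by
          funext i; fin_cases i <;> simp [up]]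
        exact v2 x y)
      (fun x y => by
        rw [show (![x, y, 0, 0] : Fin 4 → AlgebraicClosure K) = x • up (E0 K) + y • up (E1 K) from by
          funext i; fin_cases i <;> simp [up]]
        exact v3 x y)
    rcases hres with hres | hres | hres
    · have := hfix _ _ hres
      rw [g1] at this
      exact ⟨W₁, hW₁, this⟩
    · have := hfix _ _ hres
      rw [g2] at this
      exact ⟨W₂, hW₂, this⟩
    · have := hfix _ _ hres
      rw [g3] at this
      exact ⟨W₃, hW₃, this⟩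

end Pool.Agent.R863.CS
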