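import Pool.Agent.R863.CS.FIN5

/-! The piece FIN3 (`t_FIN3 : S_FIN3`) is proved in `FIN5.lean`. -/
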