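import Pool.Agent.R863.CS.Stm

/-! Finite checks over fields with fewer than 17 elements (MP_f18d96_ag), pieces FIN5 and FIN3. -/

set_option autoImplicit false

namespace Pool.Agent.R863.CS

namespace Fin

/-- a computable model of a finite field -/
structure Ops (C : Type) where
  all : List C
  zero : C
  one : C
  add : C → C → C
  mul : C → C → C
  neg : C → C
  eqb : C → C → Bool
  sq : C → Bool

/-- the model describes the field `K` -/
structure Snd {K C : Type} [Field K] (O : Ops C) (ev : C → K) : Prop where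
  surj : ∀ x, ∃ c ∈ O.all, ev c = x
  zero : ev O.zero = 0
  one : ev O.one = 1
  add : ∀ a b, ev (O.add a b) = ev a + ev b
  mul : ∀ a b, ev (O.mul a b) = ev a * ev b
  neg : ∀ a, ev (O.neg a) = - ev a
  eqb : ∀ a b, O.eqb a b = true ↔ ev a = ev b
  sq : ∀ a, O.sq a = true ↔ IsSquare (ev a)

section checks

variable {C : Type} (O : Ops C)

def sb (a b : C) : C := O.add a (O.neg b)

def dd5 (x a b c d : C) : C :=
  O.mul (O.mul (sb O a x) (sb O b x)) (O.mul (sb O c x) (sb O d x))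

def nn5 (a b c d e : C) : C :=
  O.neg (O.mul (O.mul (O.mul (O.add a b) (O.add a c)) (O.mul (O.add a d) (O.add a e)))
    (O.mul (O.mul (O.mul (O.add b c) (O.add b d)) (O.mul (O.add b e) (O.add c d)))
      (O.mul (O.add c e) (O.add d e))))

def cond5 (d0 d1 d2 d3 d4 n : Bool) : Bool :=
  (!(d0 && d1 && d2 && d3 && d4) || n) &&
  !((d0 && !d1 && !d2 && !d3 && !d4) || (!d0 && d1 && !d2 && !d3 && !d4) ||
    (!d0 && !d1 && d2 && !d3 && !d4) || (!d0 && !d1 && !d2 && d3 && !d4) ||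
    (!d0 && !d1 && !d2 && !d3 && d4))

def fin5 (q : ℕ) (s0 s1 s2 s3 s4 : C) (x0 x1 x2 x3 x4 : C) : Bool :=
  Nat.ble 9 q &&
  cond5 (O.sq (dd5 O x0 x1 x2 x3 x4)) (O.sq (dd5 O x1 x0 x2 x3 x4)) (O.sq (dd5 O x2 x0 x1 x3 x4))
    (O.sq (dd5 O x3 x0 x1 x2 x4)) (O.sq (dd5 O x4 x0 x1 x2 x3)) (O.sq (nn5 O s0 s1 s2 s3 s4))

def lev4 (q : ℕ) (s0 s1 s2 s3 : C) (x0 x1 x2 x3 : C) : Bool :=
  O.all.all fun s4 => (O.eqb (O.mul s4 s4) x0 || O.eqb (O.mul s4 s4) x1 ||
    O.eqb (O.mul s4 s4) x2 || O.eqb (O.mul s4 s4) x3) ||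
    fin5 O q s0 s1 s2 s3 s4 x0 x1 x2 x3 (O.mul s4 s4)

def lev3 (q : ℕ) (s0 s1 s2 : C) (x0 x1 x2 : C) : Bool :=
  O.all.all fun s3 => (O.eqb (O.mul s3 s3) x0 || O.eqb (O.mul s3 s3) x1 ||
    O.eqb (O.mul s3 s3) x2) || lev4 O q s0 s1 s2 s3 x0 x1 x2 (O.mul s3 s3)

def lev2 (q : ℕ) (s0 s1 : C) (x0 x1 : C) : Bool :=
  O.all.all fun s2 => (O.eqb (O.mul s2 s2) x0 || O.eqb (O.mul s2 s2) x1) ||
    lev3 O q s0 s1 s2 x0 x1 (O.mul s2 s2)

def lev1 (q : ℕ) (s0 : C) (x0 : C) : Bool :=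
  O.all.all fun s1 => O.eqb (O.mul s1 s1) x0 || lev2 O q s0 s1 x0 (O.mul s1 s1)

def chk5 (q : ℕ) : Bool :=
  lev1 O q O.one (O.mul O.one O.one) &&
    lev2 O q O.zero O.one (O.mul O.zero O.zero) (O.mul O.one O.one)

/-! three parameters -/

def dd3 (x a b : C) : C := O.neg (O.mul (sb O a x) (sb O b x))

def nn3 (a b c : C) : C :=
  O.neg (O.mul (O.mul a (O.mul b c)) (O.mul (O.mul (O.add a b) (O.add b c)) (O.add c a)))

def cond3 (q : ℕ) (d0 d1 d2 n : Bool) : Bool :=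
  Nat.ble 7 q && (Nat.ble 9 q || (d0 && d1 && d2)) && (!(d0 && d1 && d2) || n)

def fin3 (q : ℕ) (s0 s1 s2 : C) (x0 x1 x2 : C) : Bool :=
  cond3 q (O.sq (dd3 O x0 x1 x2)) (O.sq (dd3 O x1 x0 x2)) (O.sq (dd3 O x2 x0 x1))
    (O.sq (nn3 O s0 s1 s2))

def chk3 (q : ℕ) : Bool :=
  O.all.all fun s0 => O.eqb s0 O.zero || O.all.all fun s1 =>
    (O.eqb s1 O.zero || O.eqb (O.mul s1 s1) (O.mul s0 s0)) || O.all.all fun s2 =>
      (O.eqb s2 O.zero || O.eqb (O.mul s2 s2) (O.mul s0 s0) ||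
        O.eqb (O.mul s2 s2) (O.mul s1 s1)) ||
      fin3 O q s0 s1 s2 (O.mul s0 s0) (O.mul s1 s1) (O.mul s2 s2)

end checks

/-- the model of the prime fields -/
def opsP (p : ℕ) : Ops ℕ where
  all := List.range p
  zero := 0
  one := 1
  add a b := (a + b) % p
  mul a b := a * b % p
  neg a := (p - 1) * a % p
  eqb a b := Nat.beq (a % p) (b % p)
  sq a := Nat.ble (a ^ (p / 2) % p) 1

/-- the model of the field with nine elements -/
def ops9 : Ops (ℕ × ℕ) where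
  all := [(0, 0), (0, 1), (0, 2), (1, 0), (1, 1), (1, 2), (2, 0), (2, 1), (2, 2)]
  zero := (0, 0)
  one := (1, 0)
  add a b := ((a.1 + b.1) % 3, (a.2 + b.2) % 3)
  mul a b := ((a.1 * b.1 + 2 * (a.2 * b.2)) % 3, (a.1 * b.2 + a.2 * b.1) % 3)
  neg a := (2 * a.1 % 3, 2 * a.2 % 3)
  eqb a b := Nat.beq (a.1 % 3) (b.1 % 3) && Nat.beq (a.2 % 3) (b.2 % 3)
  sq a := Nat.beq (a.1 % 3) 0 || Nat.beq (a.2 % 3) 0

set_option maxRecDepth 100000 in
theorem c5_3 : chk5 (opsP 3) 3 = true := by decide +kernel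
set_option maxRecDepth 100000 in
theorem c5_5 : chk5 (opsP 5) 5 = true := by decide +kernel
set_option maxRecDepth 100000 in
theorem c5_7 : chk5 (opsP 7) 7 = true := by decide +kernel
set_option maxRecDepth 100000 in
theorem c5_9 : chk5 ops9 9 = true := by decide +kernel
set_option maxRecDepth 100000 in
theorem c5_11 : chk5 (opsP 11) 11 = true := by decide +kernel
set_option maxRecDepth 100000 in
theorem c5_13 : chk5 (opsP 13) 13 = true := by decide +kernel

set_option maxRecDepth 100000 in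
theorem c3_3 : chk3 (opsP 3) 3 = true := by decide +kernel
set_option maxRecDepth 100000 in
theorem c3_5 : chk3 (opsP 5) 5 = true := by decide +kernel
set_option maxRecDepth 100000 in
theorem c3_7 : chk3 (opsP 7) 7 = true := by decide +kernel
set_option maxRecDepth 100000 in
theorem c3_9 : chk3 ops9 9 = true := by decide +kernel
set_option maxRecDepth 100000 in
theorem c3_11 : chk3 (opsP 11) 11 = true := by decide +kernel
set_option maxRecDepth 100000 in
theorem c3_13 : chk3 (opsP 13) 13 = true := by decide +kernel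

/-! ### soundness -/

lemma isSquare_mul_iff {K : Type} [Field K] {u : K} (hu : u ≠ 0) (x : K) :
    IsSquare (u * u * x) ↔ IsSquare x := by
  constructor
  · rintro ⟨r, hr⟩
    refine ⟨r / u, ?_⟩
    field_simp
    linear_combination hr
  · rintro ⟨r, rfl⟩
    exact ⟨u * r, by ring⟩

section five

variable {K : Type} [Field K]

/-- the claims for one five-tuple -/
def P5 (q : ℕ) (s : Fin 5 → K) : Prop :=
  9 ≤ q ∧ ((∀ i, IsSquare (D5 s i)) → IsSquare (N5 s)) ∧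
    ¬ ∃ i, IsSquare (D5 s i) ∧ ∀ j, j ≠ i → ¬ IsSquare (D5 s j)

lemma D5_smul (u : K) (s : Fin 5 → K) (i : Fin 5) :
    D5 (fun j => u * s j) i = (u ^ 4 * u ^ 4) * D5 s i := by
  unfold D5
  have h1 : ∀ j, (u * s j) ^ 2 - (u * s i) ^ 2 = u ^ 2 * (s j ^ 2 - s i ^ 2) := by
    intro j
    ring
  simp only [h1]
  rw [Finset.prod_mul_distrib, Finset.prod_const, Finset.card_erase_of_mem (Finset.mem_univ i)]
  simp only [Finset.card_univ, Fintype.card_fin]
  ring

lemma N5_smul (u : K) (s : Fin 5 → K) :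
    N5 (fun j => u * s j) = (u ^ 5 * u ^ 5) * N5 s := by
  unfold N5
  ring

lemma P5_smul {q : ℕ} {u : K} (hu : u ≠ 0) {s : Fin 5 → K} (h : P5 q fun j => u * s j) :
    P5 q s := by
  unfold P5 at h ⊢
  simp only [D5_smul, N5_smul, isSquare_mul_iff (pow_ne_zero 4 hu),
    isSquare_mul_iff (pow_ne_zero 5 hu)] at h
  exact h

lemma dist5_smul {u : K} (hu : u ≠ 0) {s : Fin 5 → K} (h : dist5 s) :
    dist5 fun j => u * s j := by
  intro i j hij he
  apply h i j hij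
  have h1 : u ^ 2 * (s i ^ 2 - s j ^ 2) = 0 := by linear_combination he
  rcases mul_eq_zero.1 h1 with h2 | h2
  · exact absurd h2 (pow_ne_zero 2 hu)
  · exact sub_eq_zero.1 h2

lemma D5_0 (s : Fin 5 → K) : D5 s 0 = (s 1 ^ 2 - s 0 ^ 2) * (s 2 ^ 2 - s 0 ^ 2) *
    ((s 3 ^ 2 - s 0 ^ 2) * (s 4 ^ 2 - s 0 ^ 2)) := by
  unfold D5
  rw [show (Finset.univ.erase (0 : Fin 5)) = {1, 2, 3, 4} from by decide]
  simp [Finset.prod_insert]
  ring

lemma D5_1 (s : Fin 5 → K) : D5 s 1 = (s 0 ^ 2 - s 1 ^ 2) * (s 2 ^ 2 - s 1 ^ 2) *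
    ((s 3 ^ 2 - s 1 ^ 2) * (s 4 ^ 2 - s 1 ^ 2)) := by
  unfold D5
  rw [show (Finset.univ.erase (1 : Fin 5)) = {0, 2, 3, 4} from by decide]
  simp [Finset.prod_insert]
  ring

lemma D5_2 (s : Fin 5 → K) : D5 s 2 = (s 0 ^ 2 - s 2 ^ 2) * (s 1 ^ 2 - s 2 ^ 2) *
    ((s 3 ^ 2 - s 2 ^ 2) * (s 4 ^ 2 - s 2 ^ 2)) := by
  unfold D5
  rw [show (Finset.univ.erase (2 : Fin 5)) = {0, 1, 3, 4} from by decide]
  simp [Finset.prod_insert]
  ring

lemma D5_3 (s : Fin 5 → K) : D5 s 3 = (s 0 ^ 2 - s 3 ^ 2) * (s 1 ^ 2 - s 3 ^ 2) *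
    ((s 2 ^ 2 - s 3 ^ 2) * (s 4 ^ 2 - s 3 ^ 2)) := by
  unfold D5
  rw [show (Finset.univ.erase (3 : Fin 5)) = {0, 1, 2, 4} from by decide]
  simp [Finset.prod_insert]
  ring

lemma D5_4 (s : Fin 5 → K) : D5 s 4 = (s 0 ^ 2 - s 4 ^ 2) * (s 1 ^ 2 - s 4 ^ 2) *
    ((s 2 ^ 2 - s 4 ^ 2) * (s 3 ^ 2 - s 4 ^ 2)) := by
  unfold D5
  rw [show (Finset.univ.erase (4 : Fin 5)) = {0, 1, 2, 3} from by decide]
  simp [Finset.prod_insert]
  ring

variable {C : Type} {O : Ops C} {ev : C → K}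

lemma ev_dd5 (hS : Snd O ev) (x a b c d : C) : ev (dd5 O x a b c d) =
    (ev a - ev x) * (ev b - ev x) * ((ev c - ev x) * (ev d - ev x)) := by
  unfold dd5 sb
  simp only [hS.mul, hS.add, hS.neg]
  ring

lemma ev_nn5 (hS : Snd O ev) (a b c d e : C) (s : Fin 5 → K) (h0 : ev a = s 0) (h1 : ev b = s 1)
    (h2 : ev c = s 2) (h3 : ev d = s 3) (h4 : ev e = s 4) : ev (nn5 O a b c d e) = N5 s := by
  unfold nn5 N5
  simp only [hS.mul, hS.add, hS.neg, h0, h1, h2, h3, h4]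
  ring

lemma cond5_sound : ∀ d0 d1 d2 d3 d4 n : Bool, cond5 d0 d1 d2 d3 d4 n = true →
    ((d0 = true ∧ d1 = true ∧ d2 = true ∧ d3 = true ∧ d4 = true) → n = true) ∧
    ¬ (d0 = true ∧ ¬ d1 = true ∧ ¬ d2 = true ∧ ¬ d3 = true ∧ ¬ d4 = true) ∧
    ¬ (¬ d0 = true ∧ d1 = true ∧ ¬ d2 = true ∧ ¬ d3 = true ∧ ¬ d4 = true) ∧
    ¬ (¬ d0 = true ∧ ¬ d1 = true ∧ d2 = true ∧ ¬ d3 = true ∧ ¬ d4 = true) ∧
    ¬ (¬ d0 = true ∧ ¬ d1 = true ∧ ¬ d2 = true ∧ d3 = true ∧ ¬ d4 = true) ∧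
    ¬ (¬ d0 = true ∧ ¬ d1 = true ∧ ¬ d2 = true ∧ ¬ d3 = true ∧ d4 = true) := by
  intro d0 d1 d2 d3 d4 n
  cases d0 <;> cases d1 <;> cases d2 <;> cases d3 <;> cases d4 <;> cases n <;> simp [cond5]

lemma fin5_sound (hS : Snd O ev) {q : ℕ} (a b c d e : C) (s : Fin 5 → K) (h0 : ev a = s 0)
    (h1 : ev b = s 1) (h2 : ev c = s 2) (h3 : ev d = s 3) (h4 : ev e = s 4)
    (h : fin5 O q a b c d e (O.mul a a) (O.mul b b) (O.mul c c) (O.mul d d) (O.mul e e) = true) :
    P5 q s := by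
  unfold fin5 at h
  rw [Bool.and_eq_true, Nat.ble_eq] at h
  obtain ⟨hq, hc⟩ := h
  have hh := cond5_sound _ _ _ _ _ _ hc
  have e0 : ev (dd5 O (O.mul a a) (O.mul b b) (O.mul c c) (O.mul d d) (O.mul e e)) = D5 s 0 := by
    rw [ev_dd5 hS, D5_0]
    simp only [hS.mul, h0, h1, h2, h3, h4]
    ring
  have e1 : ev (dd5 O (O.mul b b) (O.mul a a) (O.mul c c) (O.mul d d) (O.mul e e)) = D5 s 1 := by
    rw [ev_dd5 hS, D5_1]
    simp only [hS.mul, h0, h1, h2, h3, h4]
    ring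
  have e2 : ev (dd5 O (O.mul c c) (O.mul a a) (O.mul b b) (O.mul d d) (O.mul e e)) = D5 s 2 := by
    rw [ev_dd5 hS, D5_2]
    simp only [hS.mul, h0, h1, h2, h3, h4]
    ring
  have e3 : ev (dd5 O (O.mul d d) (O.mul a a) (O.mul b b) (O.mul c c) (O.mul e e)) = D5 s 3 := by
    rw [ev_dd5 hS, D5_3]
    simp only [hS.mul, h0, h1, h2, h3, h4]
    ring
  have e4 : ev (dd5 O (O.mul e e) (O.mul a a) (O.mul b b) (O.mul c c) (O.mul d d)) = D5 s 4 := by
    rw [ev_dd5 hS, D5_4]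
    simp only [hS.mul, h0, h1, h2, h3, h4]
    ring
  simp only [hS.sq, e0, e1, e2, e3, e4, ev_nn5 hS a b c d e s h0 h1 h2 h3 h4] at hh
  obtain ⟨k1, k2, k3, k4, k5, k6⟩ := hh
  refine ⟨hq, fun hall => k1 ⟨hall 0, hall 1, hall 2, hall 3, hall 4⟩, ?_⟩
  rintro ⟨i, hi, hj⟩
  fin_cases i
  · exact k2 ⟨hi, hj 1 (by decide), hj 2 (by decide), hj 3 (by decide), hj 4 (by decide)⟩
  · exact k3 ⟨hj 0 (by decide), hi, hj 2 (by decide), hj 3 (by decide), hj 4 (by decide)⟩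
  · exact k4 ⟨hj 0 (by decide), hj 1 (by decide), hi, hj 3 (by decide), hj 4 (by decide)⟩
  · exact k5 ⟨hj 0 (by decide), hj 1 (by decide), hj 2 (by decide), hi, hj 4 (by decide)⟩
  · exact k6 ⟨hj 0 (by decide), hj 1 (by decide), hj 2 (by decide), hj 3 (by decide), hi⟩

lemma neq (hS : Snd O ev) (c d : C) (x y : K) (hc : ev c = x) (hd : ev d = y)
    (h : x ^ 2 ≠ y ^ 2) : O.eqb (O.mul c c) (O.mul d d) = false := by
  rw [Bool.eq_false_iff]
  intro h1
  rw [hS.eqb, hS.mul, hS.mul, hc, hd] at h1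
  apply h
  linear_combination h1

lemma lev2_sound (hS : Snd O ev) {q : ℕ} (a b : C) (s : Fin 5 → K) (hd : dist5 s)
    (h0 : ev a = s 0) (h1 : ev b = s 1) (h : lev2 O q a b (O.mul a a) (O.mul b b) = true) :
    P5 q s := by
  unfold lev2 at h
  rw [List.all_eq_true] at h
  obtain ⟨c, hc, h2⟩ := hS.surj (s 2)
  have k2 := h c hc
  rw [neq hS c a _ _ h2 h0 (hd 2 0 (by decide)), neq hS c b _ _ h2 h1 (hd 2 1 (by decide))] at k2
  simp only [Bool.or_self, Bool.false_or] at k2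
  unfold lev3 at k2
  rw [List.all_eq_true] at k2
  obtain ⟨d, hd', h3⟩ := hS.surj (s 3)
  have k3 := k2 d hd'
  rw [neq hS d a _ _ h3 h0 (hd 3 0 (by decide)), neq hS d b _ _ h3 h1 (hd 3 1 (by decide)),
    neq hS d c _ _ h3 h2 (hd 3 2 (by decide))] at k3
  simp only [Bool.or_self, Bool.false_or] at k3
  unfold lev4 at k3
  rw [List.all_eq_true] at k3
  obtain ⟨e, he, h4⟩ := hS.surj (s 4)
  have k4 := k3 e he
  rw [neq hS e a _ _ h4 h0 (hd 4 0 (by decide)), neq hS e b _ _ h4 h1 (hd 4 1 (by decide)),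
    neq hS e c _ _ h4 h2 (hd 4 2 (by decide)), neq hS e d _ _ h4 h3 (hd 4 3 (by decide))] at k4
  simp only [Bool.or_self, Bool.false_or] at k4
  exact fin5_sound hS a b c d e s h0 h1 h2 h3 h4 k4

theorem chk5_sound (hS : Snd O ev) {q : ℕ} (h : chk5 O q = true) (s : Fin 5 → K)
    (hd : dist5 s) : P5 q s := by
  unfold chk5 at h
  rw [Bool.and_eq_true] at h
  obtain ⟨hA, hB⟩ := h
  by_cases hs : s 0 = 0
  · have hs1 : s 1 ≠ 0 := by
      intro h1
      apply hd 0 1 (by decide)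
      rw [hs, h1]
    refine P5_smul (inv_ne_zero hs1) ?_
    refine lev2_sound hS O.zero O.one _ (dist5_smul (inv_ne_zero hs1) hd) ?_ ?_ hB
    · rw [hS.zero, hs, mul_zero]
    · rw [hS.one, inv_mul_cancel₀ hs1]
  · refine P5_smul (inv_ne_zero hs) ?_
    unfold lev1 at hA
    rw [List.all_eq_true] at hA
    obtain ⟨b, hb, h1⟩ := hS.surj ((s 0)⁻¹ * s 1)
    have k1 := hA b hb
    have hd' := dist5_smul (inv_ne_zero hs) hd
    have h0 : ev O.one = (s 0)⁻¹ * s 0 := by rw [hS.one, inv_mul_cancel₀ hs]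
    rw [neq hS b O.one _ _ h1 h0 (hd' 1 0 (by decide))] at k1
    simp only [Bool.false_or] at k1
    exact lev2_sound hS O.one b _ hd' h0 h1 k1

end five

section three

variable {K : Type} [Field K]

/-- the claims for one three-tuple -/
def P3 (q : ℕ) (s : Fin 3 → K) : Prop :=
  7 ≤ q ∧ (q < 9 → ∀ i, IsSquare (D3 s i)) ∧ ((∀ i, IsSquare (D3 s i)) → IsSquare (N3 s))

lemma D3_0 (s : Fin 3 → K) : D3 s 0 = -((s 1 ^ 2 - s 0 ^ 2) * (s 2 ^ 2 - s 0 ^ 2)) := by
  unfold D3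
  rw [show (Finset.univ.erase (0 : Fin 3)) = {1, 2} from by decide]
  simp [Finset.prod_insert]

lemma D3_1 (s : Fin 3 → K) : D3 s 1 = -((s 0 ^ 2 - s 1 ^ 2) * (s 2 ^ 2 - s 1 ^ 2)) := by
  unfold D3
  rw [show (Finset.univ.erase (1 : Fin 3)) = {0, 2} from by decide]
  simp [Finset.prod_insert]

lemma D3_2 (s : Fin 3 → K) : D3 s 2 = -((s 0 ^ 2 - s 2 ^ 2) * (s 1 ^ 2 - s 2 ^ 2)) := by
  unfold D3
  rw [show (Finset.univ.erase (2 : Fin 3)) = {0, 1} from by decide]
  simp [Finset.prod_insert]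

variable {C : Type} {O : Ops C} {ev : C → K}

lemma ev_dd3 (hS : Snd O ev) (x a b : C) : ev (dd3 O x a b) =
    -((ev a - ev x) * (ev b - ev x)) := by
  unfold dd3 sb
  simp only [hS.mul, hS.add, hS.neg]
  ring

lemma ev_nn3 (hS : Snd O ev) (a b c : C) (s : Fin 3 → K) (h0 : ev a = s 0) (h1 : ev b = s 1)
    (h2 : ev c = s 2) : ev (nn3 O a b c) = N3 s := by
  unfold nn3 N3
  simp only [hS.mul, hS.add, hS.neg, h0, h1, h2]
  ring

lemma fin3_sound (hS : Snd O ev) {q : ℕ} (a b c : C) (s : Fin 3 → K) (h0 : ev a = s 0)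
    (h1 : ev b = s 1) (h2 : ev c = s 2)
    (h : fin3 O q a b c (O.mul a a) (O.mul b b) (O.mul c c) = true) :
    P3 q s := by
  unfold fin3 cond3 at h
  have e0 : ev (dd3 O (O.mul a a) (O.mul b b) (O.mul c c)) = D3 s 0 := by
    rw [ev_dd3 hS, D3_0]
    simp only [hS.mul, h0, h1, h2]
    ring
  have e1 : ev (dd3 O (O.mul b b) (O.mul a a) (O.mul c c)) = D3 s 1 := by
    rw [ev_dd3 hS, D3_1]
    simp only [hS.mul, h0, h1, h2]
    ring
  have e2 : ev (dd3 O (O.mul c c) (O.mul a a) (O.mul b b)) = D3 s 2 := by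
    rw [ev_dd3 hS, D3_2]
    simp only [hS.mul, h0, h1, h2]
    ring
  rw [Bool.and_eq_true, Bool.and_eq_true, Nat.ble_eq, Bool.or_eq_true, Nat.ble_eq,
    Bool.and_eq_true, Bool.and_eq_true, Bool.or_eq_true, hS.sq, hS.sq, hS.sq, e0, e1, e2,
    hS.sq, ev_nn3 hS a b c s h0 h1 h2] at h
  obtain ⟨⟨h7, h9⟩, hN⟩ := h
  refine ⟨h7, fun hq => ?_, fun hall => ?_⟩
  · rcases h9 with h9 | ⟨⟨k0, k1⟩, k2⟩
    · omega
    · intro i
      fin_cases i
      · exact k0
      · exact k1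
      · exact k2
  · rcases hN with hN | hN
    · exfalso
      have k0 := (hS.sq _).2 (e0.symm ▸ hall 0)
      have k1 := (hS.sq _).2 (e1.symm ▸ hall 1)
      have k2 := (hS.sq _).2 (e2.symm ▸ hall 2)
      rw [k0, k1, k2] at hN
      simp at hN
    · exact hN

theorem chk3_sound (hS : Snd O ev) {q : ℕ} (h : chk3 O q = true) (s : Fin 3 → K)
    (hd : dist3 s) : P3 q s := by
  have hz : ∀ (c : C) (i : Fin 3), ev c = s i → O.eqb c O.zero = false := by
    intro c i hc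
    rw [Bool.eq_false_iff]
    intro h1
    rw [hS.eqb, hS.zero, hc] at h1
    exact hd.1 i h1
  unfold chk3 at h
  rw [List.all_eq_true] at h
  obtain ⟨a, ha, h0⟩ := hS.surj (s 0)
  have k0 := h a ha
  rw [hz a 0 h0, Bool.false_or, List.all_eq_true] at k0
  obtain ⟨b, hb, h1⟩ := hS.surj (s 1)
  have k1 := k0 b hb
  rw [hz b 1 h1, neq hS b a _ _ h1 h0 (hd.2 1 0 (by decide)), Bool.false_or, Bool.false_or,
    List.all_eq_true] at k1
  obtain ⟨c, hc, h2⟩ := hS.surj (s 2)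
  have k2 := k1 c hc
  rw [hz c 2 h2, neq hS c a _ _ h2 h0 (hd.2 2 0 (by decide)),
    neq hS c b _ _ h2 h1 (hd.2 2 1 (by decide)), Bool.false_or, Bool.false_or,
    Bool.false_or] at k2
  exact fin3_sound hS a b c s h0 h1 h2 k2

end three

/-! ### the models -/

theorem snd_prime {K : Type} [Field K] [Fintype K] {p : ℕ} (hp : p.Prime) (hp2 : p ≠ 2)
    (hK : Fintype.card K = p) : ∃ ev : ℕ → K, Snd (opsP p) ev := by
  have : Fact p.Prime := ⟨hp⟩
  have hp1 : 1 < p := hp.one_lt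
  set e : ZMod p ≃+* K := ZMod.ringEquivOfPrime K hp hK with he
  have hcast : ∀ a : ℕ, ((a % p : ℕ) : ZMod p) = (a : ZMod p) := fun a => ZMod.natCast_mod a p
  refine ⟨fun n => e (n : ZMod p), ?_, ?_, ?_, ?_, ?_, ?_, ?_, ?_⟩
  · intro x
    refine ⟨(e.symm x).val, ?_, ?_⟩
    · simp only [opsP, List.mem_range]
      exact ZMod.val_lt _
    · rw [ZMod.natCast_val, ZMod.cast_id, e.apply_symm_apply]
  · simp [opsP]
  · simp [opsP]
  · intro a b
    simp only [opsP]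
    rw [hcast, Nat.cast_add, map_add]
  · intro a b
    simp only [opsP]
    rw [hcast, Nat.cast_mul, map_mul]
  · intro a
    simp only [opsP]
    rw [hcast, Nat.cast_mul, Nat.cast_sub hp.one_le, ← map_neg]
    congr 1
    simp
  · intro a b
    simp only [opsP]
    rw [Nat.beq_eq, ← ZMod.natCast_eq_natCast_iff', e.injective.eq_iff]
  · intro a
    simp only [opsP]
    rw [Nat.ble_eq]
    have h1 : IsSquare (e (a : ZMod p)) ↔ IsSquare (a : ZMod p) := by
      constructor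
      · rintro ⟨r, hr⟩
        refine ⟨e.symm r, ?_⟩
        apply e.injective
        rw [hr, map_mul, e.apply_symm_apply]
      · rintro ⟨r, hr⟩
        exact ⟨e r, by rw [hr, map_mul]⟩
    rw [h1]
    have h2 : ((a ^ (p / 2) % p : ℕ) : ZMod p) = (a : ZMod p) ^ (p / 2) := by
      rw [hcast, Nat.cast_pow]
    have hp3 : 2 < p := lt_of_le_of_ne hp.two_le (Ne.symm hp2)
    by_cases ha : (a : ZMod p) = 0
    · rw [ha] at h2 ⊢
      rw [zero_pow (by omega)] at h2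
      rw [ZMod.natCast_eq_zero_iff] at h2
      have h3 : a ^ (p / 2) % p = 0 := by
        apply Nat.eq_zero_of_dvd_of_lt h2
        exact Nat.mod_lt _ hp.pos
      rw [h3]
      simp
    · rw [ZMod.euler_criterion p ha, ← h2]
      have hlt : a ^ (p / 2) % p < p := Nat.mod_lt _ hp.pos
      constructor
      · intro h3
        have h4 : a ^ (p / 2) % p ≠ 0 := by
          intro h5
          rw [h5] at h2
          simp only [Nat.cast_zero] at h2
          exact pow_ne_zero _ ha h2.symm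
        have h5 : a ^ (p / 2) % p = 1 := by omega
        rw [h5]
        simp
      · intro h3
        have h4 : ((a ^ (p / 2) % p : ℕ) : ZMod p) = ((1 : ℕ) : ZMod p) := by
          rw [h3]
          simp
        rw [ZMod.natCast_eq_natCast_iff', Nat.mod_eq_of_lt hlt, Nat.mod_eq_of_lt hp1] at h4
        exact h4.le

lemma z3a : ∀ u v : ZMod 3, u ^ 2 + v ^ 2 = 0 → u = 0 ∧ v = 0 := by decide

lemma z3b : (2 : ZMod 3) = -1 := by decide

lemma z3c : ∀ a b : ZMod 3, (a.val, b.val) ∈ ops9.all := by decide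

lemma z3d : ∀ u v : ZMod 3, (u = 0 ∨ v = 0) ↔
    ∃ x y : ZMod 3, u = x * x - y * y ∧ v = 2 * x * y := by decide

theorem snd_nine {K : Type} [Field K] [Fintype K] [CharP K 3]
    (hK : Fintype.card K = 9) : ∃ ev : ℕ × ℕ → K, Snd ops9 ev := by
  obtain ⟨ι, hι⟩ : IsSquare (-1 : K) := by
    rw [FiniteField.isSquare_neg_one_iff, hK]
    decide
  have : Fact (Nat.Prime 3) := ⟨Nat.prime_three⟩
  set c : ZMod 3 →+* K := ZMod.castHom (dvd_refl 3) K with hc
  set φ : ZMod 3 × ZMod 3 → K := fun u => c u.1 + c u.2 * ι with hφ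
  have hinj : Function.Injective φ := by
    rintro ⟨a, b⟩ ⟨a', b'⟩ h
    simp only [hφ] at h
    have h1 : c ((a - a') ^ 2 + (b - b') ^ 2) = 0 := by
      rw [map_add, map_pow, map_pow, map_sub, map_sub]
      linear_combination (c a - c a' - (c b - c b') * ι) * h - (c b - c b') ^ 2 * hι
    have h2 : (a - a') ^ 2 + (b - b') ^ 2 = 0 := by
      apply c.injective
      rw [h1, map_zero]
    obtain ⟨h4, h5⟩ := z3a _ _ h2
    rw [sub_eq_zero.1 h4, sub_eq_zero.1 h5]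
  have hsur : Function.Surjective φ := by
    have h1 : Function.Bijective φ := by
      rw [Fintype.bijective_iff_injective_and_card]
      refine ⟨hinj, ?_⟩
      rw [hK, Fintype.card_prod, ZMod.card]
    exact h1.2
  have hcast : ∀ a : ℕ, ((a % 3 : ℕ) : ZMod 3) = (a : ZMod 3) := fun a => ZMod.natCast_mod a 3
  refine ⟨fun n => φ ((n.1 : ZMod 3), (n.2 : ZMod 3)), ?_, ?_, ?_, ?_, ?_, ?_, ?_, ?_⟩
  · intro x
    obtain ⟨⟨a, b⟩, rfl⟩ := hsur x
    refine ⟨(a.val, b.val), ?_, ?_⟩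
    · exact z3c a b
    · simp
  · simp [ops9, hφ]
  · simp [ops9, hφ]
  · rintro ⟨a, b⟩ ⟨a', b'⟩
    simp only [ops9, hcast, hφ]
    push_cast
    rw [map_add, map_add]
    ring
  · rintro ⟨a, b⟩ ⟨a', b'⟩
    simp only [ops9, hcast, hφ]
    push_cast
    rw [map_add, map_add, map_mul, map_mul, map_mul, map_mul, map_mul]
    have h2 : c 2 = -1 := by
      rw [z3b, map_neg, map_one]
    rw [h2]
    linear_combination (c (b : ZMod 3) * c (b' : ZMod 3)) * hι
  · rintro ⟨a, b⟩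
    simp only [ops9, hcast, hφ]
    push_cast
    rw [map_mul, map_mul]
    have h2 : c 2 = -1 := by
      rw [z3b, map_neg, map_one]
    rw [h2]
    ring
  · rintro ⟨a, b⟩ ⟨a', b'⟩
    simp only [ops9]
    rw [Bool.and_eq_true, Nat.beq_eq, Nat.beq_eq, ← ZMod.natCast_eq_natCast_iff',
      ← ZMod.natCast_eq_natCast_iff', hinj.eq_iff, Prod.mk.injEq]
  · rintro ⟨a, b⟩
    simp only [ops9]
    have h0 : ∀ x : ℕ, x % 3 = 0 ↔ (x : ZMod 3) = 0 := by
      intro x
      rw [ZMod.natCast_eq_zero_iff]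
      omega
    rw [Bool.or_eq_true, Nat.beq_eq, Nat.beq_eq, h0, h0]
    have h1 : ∀ u v : ZMod 3, IsSquare (φ (u, v)) ↔
        ∃ x y : ZMod 3, u = x * x - y * y ∧ v = 2 * x * y := by
      intro u v
      constructor
      · rintro ⟨r, hr⟩
        obtain ⟨⟨x, y⟩, rfl⟩ := hsur r
        refine ⟨x, y, ?_⟩
        have h2 : φ (u, v) = φ (x * x - y * y, 2 * x * y) := by
          rw [hr]
          simp only [hφ]
          rw [map_sub, map_mul, map_mul, map_mul, map_mul]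
          have h2 : c 2 = 2 := map_ofNat c 2
          rw [h2]
          linear_combination (-(c y * c y)) * hι
        have h3 := hinj h2
        simpa only [Prod.mk.injEq] using h3
      · rintro ⟨x, y, rfl, rfl⟩
        refine ⟨φ (x, y), ?_⟩
        simp only [hφ]
        rw [map_sub, map_mul, map_mul, map_mul, map_mul]
        have h2 : c 2 = 2 := map_ofNat c 2
        rw [h2]
        linear_combination (c y * c y) * hι
    rw [h1]
    exact z3d _ _

/-- the orders of the small fields of odd characteristic -/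
theorem small {K : Type} [Field K] [Fintype K] (h2 : (2 : K) ≠ 0) (h17 : Fintype.card K < 17) :
    (∃ p : ℕ, (p = 3 ∨ p = 5 ∨ p = 7 ∨ p = 11 ∨ p = 13) ∧ Fintype.card K = p) ∨
    (CharP K 3 ∧ Fintype.card K = 9) := by
  obtain ⟨n, hp, hn⟩ := FiniteField.card K (ringChar K)
  set p := ringChar K with hpdef
  have hp2 : p ≠ 2 := by
    intro h
    apply h2
    have h3 : ((p : ℕ) : K) = 0 := ringChar.Nat.cast_ringChar
    rw [h] at h3
    exact_mod_cast h3
  have hn1 : 1 ≤ (n : ℕ) := n.2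
  have hple : p ≤ p ^ (n : ℕ) := Nat.le_self_pow (by omega) p
  have hp17 : p < 17 := by omega
  have hp3 : 3 ≤ p := by
    have := hp.two_le
    omega
  have hn3 : (n : ℕ) < 3 := by
    by_contra hcon
    have h4 : 3 ^ 3 ≤ p ^ (n : ℕ) :=
      (Nat.pow_le_pow_left hp3 3).trans (Nat.pow_le_pow_right (by omega) (by omega))
    omega
  rcases (show (n : ℕ) = 1 ∨ (n : ℕ) = 2 by omega) with h | h
  · left
    refine ⟨p, ?_, by rw [hn, h, pow_one]⟩
    interval_cases p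
    · simp
    · exact absurd hp (by decide)
    · simp
    · exact absurd hp (by decide)
    · simp
    · exact absurd hp (by decide)
    · exact absurd hp (by decide)
    · exact absurd hp (by decide)
    · simp
    · exact absurd hp (by decide)
    · simp
    · exact absurd hp (by decide)
    · exact absurd hp (by decide)
    · exact absurd hp (by decide)
  · right
    rw [h] at hn
    have hp4 : p = 3 := by
      by_contra hcon
      have h5 : 4 ^ 2 ≤ p ^ 2 := Nat.pow_le_pow_left (by omega) 2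
      have h6 : p ≠ 4 := by
        intro h7
        rw [h7] at hp
        exact absurd hp (by decide)
      have h7 : 5 ^ 2 ≤ p ^ 2 := Nat.pow_le_pow_left (by omega) 2
      omega
    constructor
    · rw [← hp4, hpdef]
      exact ringChar.charP K
    · rw [hn, hp4]
      norm_num

end Fin

theorem t_FIN5 : S_FIN5 := by
  intro K _ _ h2 s hd
  have := Fintype.ofFinite K
  rw [Nat.card_eq_fintype_card]
  rcases lt_or_ge (Fintype.card K) 17 with h | h
  · suffices hP : Fin.P5 (Fintype.card K) s from ⟨hP.1, fun _ => ⟨hP.2.1, hP.2.2⟩⟩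
    rcases Fin.small h2 h with ⟨p, hp, hK⟩ | ⟨hch, hK⟩
    · rw [hK]
      rcases hp with rfl | rfl | rfl | rfl | rfl
      · obtain ⟨ev, hS⟩ := Fin.snd_prime (by norm_num) (by norm_num) hK
        exact Fin.chk5_sound hS Fin.c5_3 s hd
      · obtain ⟨ev, hS⟩ := Fin.snd_prime (by norm_num) (by norm_num) hK
        exact Fin.chk5_sound hS Fin.c5_5 s hd
      · obtain ⟨ev, hS⟩ := Fin.snd_prime (by norm_num) (by norm_num) hK
        exact Fin.chk5_sound hS Fin.c5_7 s hd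
      · obtain ⟨ev, hS⟩ := Fin.snd_prime (by norm_num) (by norm_num) hK
        exact Fin.chk5_sound hS Fin.c5_11 s hd
      · obtain ⟨ev, hS⟩ := Fin.snd_prime (by norm_num) (by norm_num) hK
        exact Fin.chk5_sound hS Fin.c5_13 s hd
    · rw [hK]
      obtain ⟨ev, hS⟩ := Fin.snd_nine hK
      exact Fin.chk5_sound hS Fin.c5_9 s hd
  · exact ⟨by omega, fun h' => absurd h' (by omega)⟩

theorem t_FIN3 : S_FIN3 := by
  intro K _ _ h2 s hd
  have := Fintype.ofFinite K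
  rw [Nat.card_eq_fintype_card]
  rcases lt_or_ge (Fintype.card K) 17 with h | h
  · suffices hP : Fin.P3 (Fintype.card K) s from ⟨hP.1, hP.2.1, fun _ => hP.2.2⟩
    rcases Fin.small h2 h with ⟨p, hp, hK⟩ | ⟨hch, hK⟩
    · rw [hK]
      rcases hp with rfl | rfl | rfl | rfl | rfl
      · obtain ⟨ev, hS⟩ := Fin.snd_prime (by norm_num) (by norm_num) hK
        exact Fin.chk3_sound hS Fin.c3_3 s hd
      · obtain ⟨ev, hS⟩ := Fin.snd_prime (by norm_num) (by norm_num) hK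
        exact Fin.chk3_sound hS Fin.c3_5 s hd
      · obtain ⟨ev, hS⟩ := Fin.snd_prime (by norm_num) (by norm_num) hK
        exact Fin.chk3_sound hS Fin.c3_7 s hd
      · obtain ⟨ev, hS⟩ := Fin.snd_prime (by norm_num) (by norm_num) hK
        exact Fin.chk3_sound hS Fin.c3_11 s hd
      · obtain ⟨ev, hS⟩ := Fin.snd_prime (by norm_num) (by norm_num) hK
        exact Fin.chk3_sound hS Fin.c3_13 s hd
    · rw [hK]
      obtain ⟨ev, hS⟩ := Fin.snd_nine hK
      exact Fin.chk3_sound hS Fin.c3_9 s hd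
  · exact ⟨by omega, fun h' => absurd h' (by omega), fun h' => absurd h' (by omega)⟩

end Pool.Agent.R863.CS
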