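import Pool.Agent.R863.CS.Stm

set_option autoImplicit false

/-! CS-GAUSS: the type of a line in terms of its Gauss map -/

namespace Pool.Agent.R863.CS

open MvPolynomial

namespace GAUSSaux

variable {K : Type} [Field K]

lemma up_add (v w : Fin 4 → K) : up (v + w) = up v + up w := by
  funext i; simp [up]

lemma up_smul (c : K) (v : Fin 4 → K) : up (c • v) = algebraMap K (AlgebraicClosure K) c • up v := by
  funext i; simp [up]

lemma li_up (hLA : S_LA) (p q : Fin 4 → K) (h : LinearIndependent K ![p, q]) :
    LinearIndependent (AlgebraicClosure K) ![up p, up q] := by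
  rw [linearIndependent_iff_card_eq_finrank_span] at h ⊢
  have h1 : Set.range ![up p, up q] = up '' Set.range ![p, q] := by
    rw [Matrix.range_cons, Matrix.range_cons, Matrix.range_empty, Matrix.range_cons,
      Matrix.range_cons, Matrix.range_empty, Set.image_union, Set.image_union]
    simp
  have h2 := (hLA K).2.2.2.2.1 (Set.range ![p, q])
  have h3 := (hLA K).1 (Submodule.span K (Set.range ![p, q]))
  rw [h1, Set.finrank, ← h2, h3, h]
  rfl

end GAUSSaux

open GAUSSaux in
theorem t_GAUSS : S_QF → S_LA → S_GAUSS := by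
  intro hQF hLA K _ h2 F p₀ p₁ α β u v hp hab hgrad hres
  rw [← hQF K h2 u v hres]
  have Lp := li_up hLA p₀ p₁ hp
  have La := li_up hLA α β hab
  rw [LinearIndependent.pair_iff] at Lp La hp
  constructor
  · rintro ⟨p, hpW, hp0, hfix⟩
    obtain ⟨x, y, hxy⟩ := Submodule.mem_span_pair.1 hpW
    have hne : x ≠ 0 ∨ y ≠ 0 := by
      by_contra hcon
      push Not at hcon
      rw [hcon.1, hcon.2] at hxy
      simp at hxy
      exact hp0 hxy.symm
    refine ⟨x, y, hne, ?_⟩
    intro x' y' hne' hc
    obtain ⟨c, hc1, hc2⟩ := hc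
    have hup : up p = algebraMap K (AlgebraicClosure K) x • up p₀ +
        algebraMap K (AlgebraicClosure K) y • up p₁ := by
      rw [← hxy, up_add, up_smul, up_smul]
    have hmem : x' • up p₀ + y' • up p₁ ∈ ofK (Submodule.span K {p₀, p₁}) := by
      rw [(hLA K).2.2.2.2.1]
      refine Submodule.add_mem _ (Submodule.smul_mem _ _ (Submodule.subset_span ?_))
        (Submodule.smul_mem _ _ (Submodule.subset_span ?_))
      · exact ⟨p₀, by simp, rfl⟩
      · exact ⟨p₁, by simp, rfl⟩
    have hne0 : x' • up p₀ + y' • up p₁ ≠ 0 := by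
      intro h0
      have := Lp x' y' h0
      rcases hne' with h | h
      · exact h this.1
      · exact h this.2
    obtain ⟨c', hc'⟩ := hfix _ hmem hne0 ⟨c, fun i => by
      rw [hup, hgrad, hgrad, hc1, hc2]
      simp only [map_add, map_mul, map_pow]
      ring⟩
    rw [hup, ← sub_eq_zero] at hc'
    have h3 : (x' - c' * algebraMap K (AlgebraicClosure K) x) • up p₀ +
        (y' - c' * algebraMap K (AlgebraicClosure K) y) • up p₁ = 0 := by
      rw [← hc']
      module
    have h4 := Lp _ _ h3
    have h5 : x' = c' * algebraMap K (AlgebraicClosure K) x := sub_eq_zero.1 h4.1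
    have h6 : y' = c' * algebraMap K (AlgebraicClosure K) y := sub_eq_zero.1 h4.2
    rw [h5, h6]
    ring
  · rintro ⟨x, y, hne, hfix⟩
    have hup : up (x • p₀ + y • p₁) = algebraMap K (AlgebraicClosure K) x • up p₀ +
        algebraMap K (AlgebraicClosure K) y • up p₁ := by
      rw [up_add, up_smul, up_smul]
    refine ⟨x • p₀ + y • p₁, Submodule.mem_span_pair.2 ⟨x, y, rfl⟩, ?_, ?_⟩
    · intro h0
      have := hp x y h0
      rcases hne with h | h
      · exact h this.1
      · exact h this.2
    · intro p' hp' hp'0 hc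
      obtain ⟨c, hc⟩ := hc
      rw [(hLA K).2.2.2.2.1, Set.image_pair] at hp'
      obtain ⟨x', y', hxy'⟩ := Submodule.mem_span_pair.1 hp'
      have hne' : x' ≠ 0 ∨ y' ≠ 0 := by
        by_contra hcon
        push Not at hcon
        rw [hcon.1, hcon.2] at hxy'
        simp at hxy'
        exact hp'0 hxy'.symm
      have h3 : (algebraMap K (AlgebraicClosure K) (u 0) * x' ^ 2
          + algebraMap K (AlgebraicClosure K) (u 1) * x' * y'
          + algebraMap K (AlgebraicClosure K) (u 2) * y' ^ 2 -
          c * algebraMap K (AlgebraicClosure K) (u 0 * x ^ 2 + u 1 * x * y + u 2 * y ^ 2)) • up α +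
          (algebraMap K (AlgebraicClosure K) (v 0) * x' ^ 2
          + algebraMap K (AlgebraicClosure K) (v 1) * x' * y'
          + algebraMap K (AlgebraicClosure K) (v 2) * y' ^ 2 -
          c * algebraMap K (AlgebraicClosure K) (v 0 * x ^ 2 + v 1 * x * y + v 2 * y ^ 2)) • up β
          = 0 := by
        funext i
        have h4 := hc i
        rw [hup, ← hxy', hgrad, hgrad] at h4
        simp only [map_add, map_mul, map_pow, Pi.add_apply, Pi.smul_apply, smul_eq_mul,
          Pi.zero_apply]
        linear_combination h4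
      have h4 := La _ _ h3
      have h5 := hfix x' y' hne' ⟨c, sub_eq_zero.1 h4.1, sub_eq_zero.1 h4.2⟩
      rw [hup, ← hxy']
      rcases hne with hx | hy
      · have hx' : algebraMap K (AlgebraicClosure K) x ≠ 0 := by
          simpa using hx
        refine ⟨x' / algebraMap K (AlgebraicClosure K) x, ?_⟩
        rw [smul_add, smul_smul, smul_smul, div_mul_cancel₀ _ hx']
        congr 2
        field_simp
        rw [h5]
      · have hy' : algebraMap K (AlgebraicClosure K) y ≠ 0 := by
          simpa using hy
        refine ⟨y' / algebraMap K (AlgebraicClosure K) y, ?_⟩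
        rw [smul_add, smul_smul, smul_smul, div_mul_cancel₀ _ hy']
        congr 2
        field_simp
        rw [h5]

end Pool.Agent.R863.CS
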