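import Pool.Agent.R863.CS.Stm

/-!
# MP_f18d96_ag, piece CS-IN: injectivity of the parametrisations of the 27 lines
-/

set_option autoImplicit false

namespace Pool.Agent.R863.CS

open MvPolynomial Module

namespace PIN

variable {k : Type} [Field k]

theorem coords {a0 a1 a2 a3 b0 b1 b2 b3 x0 x1 x2 x3 : k}
    (h : (![x0, x1, x2, x3] : Fin 4 → k) ∈ Submodule.span k {![a0, a1, a2, a3], ![b0, b1, b2, b3]}) :
    ∃ α β : k, α * a0 + β * b0 = x0 ∧ α * a1 + β * b1 = x1 ∧ α * a2 + β * b2 = x2 ∧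
      α * a3 + β * b3 = x3 := by
  rw [Submodule.mem_span_pair] at h
  obtain ⟨α, β, h⟩ := h
  refine ⟨α, β, ?_, ?_, ?_, ?_⟩
  · simpa using congrFun h 0
  · simpa using congrFun h 1
  · simpa using congrFun h 2
  · simpa using congrFun h 3

/-- both generators of the second plane lie in the first one -/
theorem both {a0 a1 a2 a3 b0 b1 b2 b3 x0 x1 x2 x3 y0 y1 y2 y3 : k}
    (h : Submodule.span k {![a0, a1, a2, a3], ![b0, b1, b2, b3]} =
      Submodule.span k {![x0, x1, x2, x3], ![y0, y1, y2, y3]}) :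
    (∃ α β : k, α * a0 + β * b0 = x0 ∧ α * a1 + β * b1 = x1 ∧ α * a2 + β * b2 = x2 ∧
      α * a3 + β * b3 = x3) ∧
    (∃ α β : k, α * a0 + β * b0 = y0 ∧ α * a1 + β * b1 = y1 ∧ α * a2 + β * b2 = y2 ∧
      α * a3 + β * b3 = y3) := by
  constructor
  · apply coords
    rw [h]
    exact Submodule.subset_span (by simp)
  · apply coords
    rw [h]
    exact Submodule.subset_span (by simp)

theorem sg_inj (h2 : (2 : k) ≠ 0) {b b' : Bool} {x : k} (hx : x ≠ 0)
    (h : (sg b : k) * x = sg b' * x) : b = b' := by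
  have h1 := mul_right_cancel₀ hx h
  unfold sg at h1
  cases b <;> cases b'
  · rfl
  · exfalso; apply h2
    simp only [Bool.false_eq_true, if_false, if_true] at h1
    linear_combination h1
  · exfalso; apply h2
    simp only [Bool.false_eq_true, if_false, if_true] at h1
    linear_combination -h1
  · rfl

theorem sg_ne (b : Bool) : (sg b : k) ≠ 0 := by
  unfold sg; split_ifs
  · exact neg_ne_zero.2 one_ne_zero
  · exact one_ne_zero

theorem sg_sq (b : Bool) : (sg b : k) ^ 2 = 1 := by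
  unfold sg; split_ifs <;> ring

theorem sv_sq (s : Fin 5 → k) (t : Fin 4 → Bool) (i : Fin 5) : sv s t i ^ 2 = s i ^ 2 := by
  unfold sv
  fin_cases i
  · simp [mul_pow, sg_sq]
  · simp [mul_pow, sg_sq]
  · simp [mul_pow, sg_sq]
  · simp [mul_pow, sg_sq]
  · simp [mul_pow, sg_sq]

theorem e5_sv (s : Fin 5 → k) (t : Fin 4 → Bool) : e5 (sv s t) = e5 s := by
  have h0 := sg_sq (k := k) (t 0)
  have h1 := sg_sq (k := k) (t 1)
  have h2 := sg_sq (k := k) (t 2)
  have h3 := sg_sq (k := k) (t 3)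
  have e : e5 (sv s t) = (sg (t 0) ^ 2 * sg (t 1) ^ 2 * sg (t 2) ^ 2 * sg (t 3) ^ 2) * e5 s := by
    simp [e5, sv]
    ring
  rw [e, h0, h1, h2, h3]
  ring

/-- two 5-tuples with the same elementary symmetric functions -/
theorem root5 {r r' : Fin 5 → k} (h1 : e1 r = e1 r') (h2 : e2 r = e2 r') (h3 : e3 r = e3 r')
    (h4 : e4 r = e4 r') (h5 : e5 r = e5 r') (i : Fin 5) : ∃ j, r i = r' j := by
  have key : ∀ (u : Fin 5 → k) (x : k), (x - u 0) * (x - u 1) * (x - u 2) * (x - u 3) * (x - u 4) =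
      x ^ 5 - e1 u * x ^ 4 + e2 u * x ^ 3 - e3 u * x ^ 2 + e4 u * x - e5 u := by
    intro u x
    unfold e1 e2 e3 e4 e5
    ring
  have h := key r (r i)
  have hz : (r i - r 0) * (r i - r 1) * (r i - r 2) * (r i - r 3) * (r i - r 4) = 0 := by
    fin_cases i <;> simp
  rw [hz, h1, h2, h3, h4, h5, ← key] at h
  rcases mul_eq_zero.1 h.symm with h | h
  · rcases mul_eq_zero.1 h with h | h
    · rcases mul_eq_zero.1 h with h | h
      · rcases mul_eq_zero.1 h with h | h
        · exact ⟨0, sub_eq_zero.1 h⟩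
        · exact ⟨1, sub_eq_zero.1 h⟩
      · exact ⟨2, sub_eq_zero.1 h⟩
    · exact ⟨3, sub_eq_zero.1 h⟩
  · exact ⟨4, sub_eq_zero.1 h⟩

theorem root3 {r r' : Fin 3 → k} (h1 : r 0 + r 1 + r 2 = r' 0 + r' 1 + r' 2)
    (h2 : r 0 * r 1 + r 0 * r 2 + r 1 * r 2 = r' 0 * r' 1 + r' 0 * r' 2 + r' 1 * r' 2)
    (h3 : r 0 * r 1 * r 2 = r' 0 * r' 1 * r' 2) (i : Fin 3) : ∃ j, r i = r' j := by
  have key : ∀ (u : Fin 3 → k) (x : k), (x - u 0) * (x - u 1) * (x - u 2) =
      x ^ 3 - (u 0 + u 1 + u 2) * x ^ 2 + (u 0 * u 1 + u 0 * u 2 + u 1 * u 2) * x -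
        u 0 * u 1 * u 2 := by
    intro u x
    ring
  have h := key r (r i)
  have hz : (r i - r 0) * (r i - r 1) * (r i - r 2) = 0 := by
    fin_cases i <;> simp
  rw [hz, h1, h2, h3, ← key] at h
  rcases mul_eq_zero.1 h.symm with h | h
  · rcases mul_eq_zero.1 h with h | h
    · exact ⟨0, sub_eq_zero.1 h⟩
    · exact ⟨1, sub_eq_zero.1 h⟩
  · exact ⟨2, sub_eq_zero.1 h⟩

theorem pe_ne {s : Fin 5 → k} (hs : dist5 s) {i : Fin 5} (hi : s i = 0) : pe s i ≠ 0 := by
  unfold pe
  rw [Finset.prod_ne_zero_iff]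
  intro j hj h0
  rw [Finset.mem_erase] at hj
  exact hs j i hj.1 (by rw [h0, hi])

/-- the sign vectors are determined by the signed tuple -/
theorem signs5 (h2 : (2 : k) ≠ 0) {s : Fin 5 → k} (hs : dist5 s) {t t' : Fin 4 → Bool}
    (h : ∀ i, sv s t i = sv s t' i) : t = t' := by
  have g0 : sg (t 0) * s 0 = sg (t' 0) * s 0 := h 0
  have g1 : sg (t 1) * s 1 = sg (t' 1) * s 1 := h 1
  have g2 : sg (t 2) * s 2 = sg (t' 2) * s 2 := h 2
  have g3 : sg (t 3) * s 3 = sg (t' 3) * s 3 := h 3
  have g4 : sg (t 0) * sg (t 1) * sg (t 2) * sg (t 3) * s 4 =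
    sg (t' 0) * sg (t' 1) * sg (t' 2) * sg (t' 3) * s 4 := h 4
  have hne : ∀ i j : Fin 5, i ≠ j → s i = 0 → s j ≠ 0 := by
    intro i j hij hi hj
    exact hs i j hij (by rw [hi, hj])
  by_cases z0 : s 0 = 0
  · have t1 := sg_inj h2 (hne 0 1 (by decide) z0) g1
    have t2 := sg_inj h2 (hne 0 2 (by decide) z0) g2
    have t3 := sg_inj h2 (hne 0 3 (by decide) z0) g3
    have t0 : t 0 = t' 0 := by
      apply sg_inj h2 (x := sg (t 1) * sg (t 2) * sg (t 3) * s 4)
      · exact mul_ne_zero (mul_ne_zero (mul_ne_zero (sg_ne _) (sg_ne _)) (sg_ne _))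
          (hne 0 4 (by decide) z0)
      · rw [← t1, ← t2, ← t3] at g4
        linear_combination g4
    funext i
    fin_cases i <;> assumption
  · have t0 := sg_inj h2 z0 g0
    by_cases z1 : s 1 = 0
    · have t2 := sg_inj h2 (hne 1 2 (by decide) z1) g2
      have t3 := sg_inj h2 (hne 1 3 (by decide) z1) g3
      have t1 : t 1 = t' 1 := by
        apply sg_inj h2 (x := sg (t 0) * sg (t 2) * sg (t 3) * s 4)
        · exact mul_ne_zero (mul_ne_zero (mul_ne_zero (sg_ne _) (sg_ne _)) (sg_ne _))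
            (hne 1 4 (by decide) z1)
        · rw [← t0, ← t2, ← t3] at g4
          linear_combination g4
      funext i
      fin_cases i <;> assumption
    · have t1 := sg_inj h2 z1 g1
      by_cases z2 : s 2 = 0
      · have t3 := sg_inj h2 (hne 2 3 (by decide) z2) g3
        have t2 : t 2 = t' 2 := by
          apply sg_inj h2 (x := sg (t 0) * sg (t 1) * sg (t 3) * s 4)
          · exact mul_ne_zero (mul_ne_zero (mul_ne_zero (sg_ne _) (sg_ne _)) (sg_ne _))
              (hne 2 4 (by decide) z2)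
          · rw [← t0, ← t1, ← t3] at g4
            linear_combination g4
        funext i
        fin_cases i <;> assumption
      · have t2 := sg_inj h2 z2 g2
        by_cases z3 : s 3 = 0
        · have t3 : t 3 = t' 3 := by
            apply sg_inj h2 (x := sg (t 0) * sg (t 1) * sg (t 2) * s 4)
            · exact mul_ne_zero (mul_ne_zero (mul_ne_zero (sg_ne _) (sg_ne _)) (sg_ne _))
                (hne 3 4 (by decide) z3)
            · rw [← t0, ← t1, ← t2] at g4
              linear_combination g4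
          funext i
          fin_cases i <;> assumption
        · have t3 := sg_inj h2 z3 g3
          funext i
          fin_cases i <;> assumption

end PIN

open PIN

theorem t_IN5 : S_IN5 := by
  intro k _ h2 s hs x y h
  rcases x with u | ⟨i, b⟩ | t <;> rcases y with u' | ⟨i', b'⟩ | t'
  · rfl
  · exfalso
    obtain ⟨⟨α, β, c0, c1, c2, c3⟩, _⟩ := both h
    simp at c1
  · exfalso
    obtain ⟨⟨α, β, c0, c1, c2, c3⟩, _⟩ := both h
    simp at c0
  · exfalso
    obtain ⟨⟨α, β, c0, c1, c2, c3⟩, _⟩ := both h.symm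
    simp at c1
  · obtain ⟨⟨α, β, c0, c1, c2, c3⟩, ⟨α', β', d0, d1, d2, d3⟩⟩ := both h
    have a1 : α = 1 := by linear_combination c1
    have b1 : β = 0 := by linear_combination c2
    have a2 : α' = 0 := by linear_combination d1
    have b2 : β' = 1 := by linear_combination d2
    subst a1 b1 a2 b2
    have hii : i = i' := by
      by_contra hne
      apply hs i i' hne
      linear_combination -c0
    subst hii
    have hb : b = b' := by
      by_cases hi : s i = 0
      · apply sg_inj h2 (pe_ne hs hi)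
        linear_combination c3
      · apply sg_inj h2 hi
        linear_combination -d3
    rw [hb]
  · exfalso
    obtain ⟨⟨α, β, c0, c1, c2, c3⟩, _⟩ := both h
    have a1 : α = 0 := by linear_combination c1
    rw [a1] at c0
    simp at c0
  · exfalso
    obtain ⟨⟨α, β, c0, c1, c2, c3⟩, _⟩ := both h.symm
    simp at c0
  · exfalso
    obtain ⟨⟨α, β, c0, c1, c2, c3⟩, _⟩ := both h.symm
    have a1 : α = 0 := by linear_combination c1
    rw [a1] at c0
    simp at c0
  · obtain ⟨⟨α, β, c0, c1, c2, c3⟩, ⟨α', β', d0, d1, d2, d3⟩⟩ := both h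
    have a1 : α = 1 := by linear_combination c0
    have b1 : β = 0 := by linear_combination c1
    have a2 : α' = 0 := by linear_combination d0
    have b2 : β' = 1 := by linear_combination d1
    subst a1 b1 a2 b2
    have q1 : e1 (sv s t) = e1 (sv s t') := by linear_combination c2
    have q2 : e2 (sv s t) = e2 (sv s t') := by linear_combination -c3
    have q3 : e3 (sv s t) = e3 (sv s t') := by linear_combination -d2
    have q4 : e4 (sv s t) = e4 (sv s t') := by linear_combination d3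
    have q5 : e5 (sv s t) = e5 (sv s t') := by rw [e5_sv, e5_sv]
    have hr : ∀ i, sv s t i = sv s t' i := by
      intro i
      obtain ⟨j, hj⟩ := root5 q1 q2 q3 q4 q5 i
      have : i = j := by
        by_contra hne
        apply hs i j hne
        rw [← sv_sq s t i, ← sv_sq s t' j, hj]
      rw [hj, this]
    rw [signs5 h2 hs hr]

theorem t_IN3 : S_IN3 := by
  intro k _ h2 s hs x y h
  have hpi : s 0 * s 1 * s 2 ≠ 0 := mul_ne_zero (mul_ne_zero (hs.1 0) (hs.1 1)) (hs.1 2)
  rcases x with u | ⟨i, b⟩ | b | b | ⟨b, t⟩ <;> rcases y with u' | ⟨i', b'⟩ | b' | b' | ⟨b', t'⟩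
  · rfl
  · exfalso
    obtain ⟨⟨α, β, c0, c1, c2, c3⟩, _⟩ := both h
    simp at c1
  · exfalso
    obtain ⟨⟨α, β, c0, c1, c2, c3⟩, _⟩ := both h
    simp at c1
  · exfalso
    obtain ⟨⟨α, β, c0, c1, c2, c3⟩, _⟩ := both h
    simp at c0
  · exfalso
    obtain ⟨⟨α, β, c0, c1, c2, c3⟩, _⟩ := both h
    simp at c0
  -- second family
  · exfalso
    obtain ⟨⟨α, β, c0, c1, c2, c3⟩, _⟩ := both h.symm
    simp at c1
  · obtain ⟨⟨α, β, c0, c1, c2, c3⟩, ⟨α', β', d0, d1, d2, d3⟩⟩ := both h
    have a1 : α = 1 := by linear_combination c1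
    have b1 : β = 0 := by linear_combination c2
    have a2 : α' = 0 := by linear_combination d1
    have b2 : β' = 1 := by linear_combination d2
    subst a1 b1 a2 b2
    have hii : i = i' := by
      by_contra hne
      apply hs.2 i i' hne
      linear_combination -c0
    subst hii
    have hb : b = b' := by
      apply sg_inj h2 (hs.1 i)
      linear_combination d3
    rw [hb]
  · exfalso
    obtain ⟨⟨α, β, c0, c1, c2, c3⟩, _⟩ := both h
    have a1 : α = 1 := by linear_combination c1
    rw [a1] at c0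
    apply hs.1 i
    have : s i ^ 2 = 0 := by linear_combination -c0
    exact pow_eq_zero_iff (by norm_num) |>.1 this
  · exfalso
    obtain ⟨⟨α, β, c0, c1, c2, c3⟩, _⟩ := both h
    have a1 : α = 0 := by linear_combination c1
    rw [a1] at c0
    simp at c0
  · exfalso
    obtain ⟨⟨α, β, c0, c1, c2, c3⟩, _⟩ := both h
    have a1 : α = 0 := by linear_combination c1
    rw [a1] at c0
    simp at c0
  -- third family
  · exfalso
    obtain ⟨⟨α, β, c0, c1, c2, c3⟩, _⟩ := both h.symm
    simp at c1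
  · exfalso
    obtain ⟨⟨α, β, c0, c1, c2, c3⟩, _⟩ := both h.symm
    have a1 : α = 1 := by linear_combination c1
    rw [a1] at c0
    apply hs.1 i'
    have : s i' ^ 2 = 0 := by linear_combination -c0
    exact pow_eq_zero_iff (by norm_num) |>.1 this
  · obtain ⟨⟨α, β, c0, c1, c2, c3⟩, _⟩ := both h
    have a1 : α = 1 := by linear_combination c1
    subst a1
    have hb : b = b' := by
      apply sg_inj h2 hpi
      linear_combination c3
    rw [hb]
  · exfalso
    obtain ⟨⟨α, β, c0, c1, c2, c3⟩, _⟩ := both h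
    simp at c0
  · exfalso
    obtain ⟨⟨α, β, c0, c1, c2, c3⟩, _⟩ := both h
    simp at c0
  -- fourth family
  · exfalso
    obtain ⟨⟨α, β, c0, c1, c2, c3⟩, _⟩ := both h.symm
    simp at c0
  · exfalso
    obtain ⟨⟨α, β, c0, c1, c2, c3⟩, _⟩ := both h.symm
    have a1 : α = 0 := by linear_combination c1
    rw [a1] at c0
    simp at c0
  · exfalso
    obtain ⟨⟨α, β, c0, c1, c2, c3⟩, _⟩ := both h.symm
    simp at c0
  · obtain ⟨⟨α, β, c0, c1, c2, c3⟩, _⟩ := both h
    have a1 : α = 1 := by linear_combination c0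
    subst a1
    have hb : b = b' := by
      apply sg_inj h2 (one_ne_zero (α := k))
      linear_combination c2
    rw [hb]
  · exfalso
    obtain ⟨_, ⟨α, β, c0, c1, c2, c3⟩⟩ := both h
    simp at c1
  -- fifth family
  · exfalso
    obtain ⟨⟨α, β, c0, c1, c2, c3⟩, _⟩ := both h.symm
    simp at c0
  · exfalso
    obtain ⟨⟨α, β, c0, c1, c2, c3⟩, _⟩ := both h.symm
    have a1 : α = 0 := by linear_combination c1
    rw [a1] at c0
    simp at c0
  · exfalso
    obtain ⟨⟨α, β, c0, c1, c2, c3⟩, _⟩ := both h.symm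
    simp at c0
  · exfalso
    obtain ⟨_, ⟨α, β, c0, c1, c2, c3⟩⟩ := both h.symm
    simp at c1
  · obtain ⟨⟨α, β, c0, c1, c2, c3⟩, ⟨α', β', d0, d1, d2, d3⟩⟩ := both h
    have a1 : α = 1 := by linear_combination c0
    have b1 : β = 0 := by linear_combination c1
    have a2 : α' = 0 := by linear_combination d0
    have b2 : β' = 1 := by linear_combination d1
    subst a1 b1 a2 b2
    have hb : b = b' := by
      apply sg_inj h2 (one_ne_zero (α := k))
      linear_combination c2
    subst hb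
    have hg := sg_ne (k := k) b
    have q1 : sv3 s t 0 + sv3 s t 1 + sv3 s t 2 = sv3 s t' 0 + sv3 s t' 1 + sv3 s t' 2 := by
      apply mul_left_cancel₀ hg
      linear_combination -c3
    have q2 : sv3 s t 0 * sv3 s t 1 + sv3 s t 0 * sv3 s t 2 + sv3 s t 1 * sv3 s t 2 =
        sv3 s t' 0 * sv3 s t' 1 + sv3 s t' 0 * sv3 s t' 2 + sv3 s t' 1 * sv3 s t' 2 := by
      apply mul_left_cancel₀ hg
      linear_combination -d2
    have q3 : sv3 s t 0 * sv3 s t 1 * sv3 s t 2 = sv3 s t' 0 * sv3 s t' 1 * sv3 s t' 2 := by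
      apply mul_left_cancel₀ hg
      linear_combination d3
    have ht : t = t' := by
      funext i
      obtain ⟨j, hj⟩ := root3 q1 q2 q3 i
      have hij : i = j := by
        by_contra hne
        apply hs.2 i j hne
        have e1 : sv3 s t i ^ 2 = s i ^ 2 := by unfold sv3; rw [mul_pow, sg_sq, one_mul]
        have e2 : sv3 s t' j ^ 2 = s j ^ 2 := by unfold sv3; rw [mul_pow, sg_sq, one_mul]
        rw [← e1, ← e2, hj]
      subst hij
      exact sg_inj h2 (hs.1 i) hj
    rw [ht]

end Pool.Agent.R863.CS
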