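import Pool.Agent.R863.CS.Stm

set_option autoImplicit false

namespace Pool.Agent.R863.CS

open MvPolynomial

section la

variable {K : Type} [Field K]

theorem up_add (v w : Fin 4 → K) : up (v + w) = up v + up w := by ext i; simp [up]

theorem up_smul (c : K) (v : Fin 4 → K) :
    up (c • v) = algebraMap K (AlgebraicClosure K) c • up v := by ext i; simp [up]

theorem up_zero : up (0 : Fin 4 → K) = 0 := by ext i; simp [up]

theorem up_inj : Function.Injective (up : (Fin 4 → K) → _) := by
  intro v w h
  ext i
  have := congrFun h i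
  exact (algebraMap K (AlgebraicClosure K)).injective this

theorem ofK_span (S : Set (Fin 4 → K)) :
    ofK (Submodule.span K S) = Submodule.span (AlgebraicClosure K) (up '' S) := by
  apply le_antisymm
  · refine Submodule.span_le.2 ?_
    rintro _ ⟨v, hv, rfl⟩
    refine Submodule.span_induction (p := fun v _ => up v ∈
      Submodule.span (AlgebraicClosure K) (up '' S)) ?_ ?_ ?_ ?_ hv
    · intro x hx; exact Submodule.subset_span ⟨x, hx, rfl⟩
    · rw [up_zero]; exact Submodule.zero_mem _
    · intro x y _ _ hx hy; rw [up_add]; exact Submodule.add_mem _ hx hy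
    · intro a x _ hx; rw [up_smul]; exact Submodule.smul_mem _ _ hx
  · exact Submodule.span_mono (Set.image_mono Submodule.subset_span)

theorem ofK_mono {W W' : Submodule K (Fin 4 → K)} (h : W ≤ W') : ofK W ≤ ofK W' :=
  Submodule.span_mono (Set.image_mono h)

theorem up_mem {W : Submodule K (Fin 4 → K)} {v : Fin 4 → K} (h : v ∈ W) : up v ∈ ofK W :=
  Submodule.subset_span ⟨v, h, rfl⟩

theorem finrank_ofK (W : Submodule K (Fin 4 → K)) :
    Module.finrank (AlgebraicClosure K) (ofK W) = Module.finrank K W := by
  set b := Module.finBasis K W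
  have hb : LinearIndependent K (fun i => (b i : Fin 4 → K)) :=
    b.linearIndependent.map' W.subtype (by simp)
  have hW : W = Submodule.span K (Set.range fun i => (b i : Fin 4 → K)) := by
    have := b.span_eq
    have h2 := congrArg (Submodule.map W.subtype) this
    rw [Submodule.map_span, Submodule.map_top, Submodule.range_subtype, ← Set.range_comp] at h2
    exact h2.symm
  have h3 : ofK W = Submodule.span (AlgebraicClosure K)
      (Set.range fun i => (algebraMap K (AlgebraicClosure K)) ∘ (b i : Fin 4 → K)) := by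
    conv_lhs => rw [hW]
    rw [ofK_span, ← Set.range_comp]
    rfl
  have h4 : LinearIndependent (AlgebraicClosure K)
      (fun i => (algebraMap K (AlgebraicClosure K)) ∘ (b i : Fin 4 → K)) :=
    linearIndependent_algebraMap_comp_iff.2 hb
  rw [h3, finrank_span_eq_card h4]
  simp

theorem up_mem_iff (W : Submodule K (Fin 4 → K)) (v : Fin 4 → K) : up v ∈ ofK W ↔ v ∈ W := by
  refine ⟨fun h => ?_, up_mem⟩
  have h1 : ofK (W ⊔ Submodule.span K {v}) = ofK W := by
    apply le_antisymm
    · have : W ⊔ Submodule.span K {v} = Submodule.span K ((W : Set _) ∪ {v}) := by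
        rw [Submodule.span_union, Submodule.span_eq]
      rw [this, ofK_span, Set.image_union, Submodule.span_union]
      refine sup_le le_rfl ?_
      rw [Set.image_singleton, Submodule.span_singleton_le_iff_mem]
      exact h
    · exact ofK_mono le_sup_left
  have h2 : Module.finrank K W = Module.finrank K ↥(W ⊔ Submodule.span K {v}) := by
    rw [← finrank_ofK W, ← finrank_ofK (W ⊔ Submodule.span K {v}), h1]
  have h3 : W = W ⊔ Submodule.span K {v} :=
    Submodule.eq_of_le_of_finrank_eq le_sup_left h2
  rw [h3]
  exact Submodule.mem_sup_right (Submodule.mem_span_singleton_self v)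

theorem ofK_inj {W W' : Submodule K (Fin 4 → K)} (h : ofK W = ofK W') : W = W' := by
  ext v
  rw [← up_mem_iff W, ← up_mem_iff W', h]

theorem ofK_sup (W W' : Submodule K (Fin 4 → K)) : ofK (W ⊔ W') = ofK W ⊔ ofK W' := by
  have : W ⊔ W' = Submodule.span K ((W : Set _) ∪ (W' : Set _)) := by
    rw [Submodule.span_union, Submodule.span_eq, Submodule.span_eq]
  rw [this, ofK_span, Set.image_union, Submodule.span_union]
  rfl

theorem ofK_inf (W W' : Submodule K (Fin 4 → K)) : ofK (W ⊓ W') = ofK W ⊓ ofK W' := by
  refine Submodule.eq_of_le_of_finrank_eq (le_inf (ofK_mono inf_le_left) (ofK_mono inf_le_right)) ?_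
  have h1 := Submodule.finrank_sup_add_finrank_inf_eq W W'
  have h2 := Submodule.finrank_sup_add_finrank_inf_eq (ofK W) (ofK W')
  rw [← ofK_sup, finrank_ofK, finrank_ofK, finrank_ofK] at h2
  rw [finrank_ofK]
  omega

theorem t_LA : S_LA := by
  intro K _
  refine ⟨finrank_ofK, fun W W' => ofK_inj, ofK_inf, ofK_sup, ofK_span, up_mem_iff, ?_⟩
  intro W v i h hi
  have hv : v ≠ 0 := by rintro rfl; simp at hi
  have h1 : Module.finrank K W = 1 := by rw [← finrank_ofK, h, finrank_span_singleton hv]
  have h2 : W ≠ ⊥ := by rintro rfl; simp at h1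
  obtain ⟨w, hw, hw0⟩ := Submodule.exists_mem_ne_zero_of_ne_bot h2
  have h3 := up_mem hw
  rw [h, Submodule.mem_span_singleton] at h3
  obtain ⟨c, hc⟩ := h3
  have h4 : c = algebraMap K (AlgebraicClosure K) (w i) := by
    have := congrFun hc i
    simpa [hi, up] using this
  have h5 : w i ≠ 0 := by
    intro h0
    rw [h0, map_zero] at h4
    rw [h4, zero_smul] at hc
    exact hw0 (up_inj (by rw [← hc, up_zero]))
  refine ⟨(w i)⁻¹ • w, ?_⟩
  rw [up_smul, ← hc, h4, smul_smul, ← map_mul, inv_mul_cancel₀ h5, map_one, one_smul]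

end la

end Pool.Agent.R863.CS
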