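import Pool.Agent.R863.CS.LN5B

set_option autoImplicit false

namespace Pool.Agent.R863.CS

open MvPolynomial

open LNB in
theorem t_LN3B : S_LN3B := by
  intro k _ _ h2 r hd s t z₀ w₀ z₁ w₁ hst hzw h
  obtain ⟨hA, hB, hC⟩ := coeffs h2 _ _ _ _ _ _ s t z₀ w₀ z₁ w₁ h
  by_cases ht : t = 0
  · -- fourth family
    have hs : s ≠ 0 := by
      rcases hst with h | h
      · exact h
      · exact absurd ht h
    have hz1 : z₁ = 0 := by
      have : s * z₁ ^ 2 = 0 := by rw [ht] at hA; linear_combination hA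
      rcases mul_eq_zero.1 this with h | h
      · exact absurd h hs
      · exact pow_eq_zero_iff (two_ne_zero) |>.1 h
    have hw1 : w₁ ≠ 0 := by
      rcases hzw with h | h
      · exact absurd hz1 h
      · exact h
    have hz0 : z₀ ^ 2 = s ^ 2 := by
      apply mul_left_cancel₀ hs
      rw [ht] at hC
      linear_combination hC
    obtain ⟨b, hb⟩ : ∃ b : Bool, z₀ = sg b * s := by
      rcases sq_eq_sq_iff_eq_or_eq_neg.1 hz0 with h1 | h1
      · exact ⟨false, by simp [sg, h1]⟩
      · exact ⟨true, by simp [sg, h1]⟩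
    refine ⟨.inr (.inr (.inr (.inl b))), ?_⟩
    show _ = Submodule.span k {![1, 0, sg b, 0], ![0, 0, 0, 1]}
    apply span_tri _ _ _ _ s w₀ w₁ hs hw1
    · ext j
      fin_cases j
      · simp
      · simp [ht]
      · simp [hb, mul_comm]
      · simp
    · ext j
      fin_cases j
      · simp
      · simp
      · simp [hz1]
      · simp
  by_cases hs : s = 0
  · -- third family
    have hw1 : w₁ = 0 := by
      have : t * w₁ ^ 2 = 0 := by rw [hs] at hA; linear_combination hA
      rcases mul_eq_zero.1 this with h | h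
      · exact absurd h ht
      · exact pow_eq_zero_iff (two_ne_zero) |>.1 h
    have hz1 : z₁ ≠ 0 := by
      rcases hzw with h | h
      · exact h
      · exact absurd hw1 h
    have hw0 : w₀ ^ 2 = (r 0 * r 1 * r 2 * t) ^ 2 := by
      apply mul_left_cancel₀ ht
      rw [hs] at hC
      linear_combination hC
    obtain ⟨b, hb⟩ : ∃ b : Bool, w₀ = t * (sg b * (r 0 * r 1 * r 2)) := by
      rcases sq_eq_sq_iff_eq_or_eq_neg.1 hw0 with h1 | h1
      · exact ⟨false, by simp only [sg, h1, Bool.false_eq_true, if_false]; ring⟩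
      · exact ⟨true, by simp only [sg, h1, if_true]; ring⟩
    refine ⟨.inr (.inr (.inl b)), ?_⟩
    show _ = Submodule.span k {![0, 1, 0, sg b * (r 0 * r 1 * r 2)], ![0, 0, 1, 0]}
    apply span_tri _ _ _ _ t z₀ z₁ ht hz1
    · ext j
      fin_cases j
      · simp [hs]
      · simp
      · simp
      · simp [hb]
    · ext j
      fin_cases j
      · simp
      · simp
      · simp
      · simp [hw1]
  have hz1 : z₁ ≠ 0 := by
    intro hz
    have hw1 : w₁ ≠ 0 := by
      rcases hzw with h | h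
      · exact absurd hz h
      · exact h
    have : t * w₁ ^ 2 = 0 := by rw [hz] at hA; linear_combination hA
    rcases mul_eq_zero.1 this with h | h
    · exact ht h
    · exact hw1 (pow_eq_zero_iff (two_ne_zero) |>.1 h)
  -- normalise
  obtain ⟨w, hw⟩ : ∃ w, w₁ = z₁ * w := ⟨w₁ / z₁, by field_simp⟩
  obtain ⟨s', hs'⟩ : ∃ s', s = t * s' := ⟨s / t, by field_simp⟩
  obtain ⟨z', hz'⟩ : ∃ z', z₀ = t * z' := ⟨z₀ / t, by field_simp⟩
  obtain ⟨q, hq⟩ : ∃ q, w₀ = t * (q + w * z') := ⟨w₀ / t - w * z', by field_simp; ring⟩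
  subst hw hs' hz' hq
  have hsw : s' = - w ^ 2 := by
    have h1 : (t * z₁ ^ 2) * (s' + w ^ 2) = 0 := by linear_combination hA
    rcases mul_eq_zero.1 h1 with h1 | h1
    · exact absurd h1 (mul_ne_zero ht (pow_ne_zero _ hz1))
    · linear_combination h1
  subst hsw
  have hw : w ≠ 0 := by
    intro hw
    apply hs
    rw [hw]; ring
  have hq : q = 0 := by
    have h1 : (t ^ 2 * z₁ * w) * q = 0 := by linear_combination hB
    rcases mul_eq_zero.1 h1 with h1 | h1
    · exact absurd h1 (mul_ne_zero (mul_ne_zero (pow_ne_zero _ ht) hz1) hw)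
    · exact h1
  subst hq
  have h' : (w ^ 2 - r 0 ^ 2) * ((w ^ 2 - r 1 ^ 2) * (w ^ 2 - r 2 ^ 2)) = 0 := by
    have h1 : (t ^ 3) * ((w ^ 2 - r 0 ^ 2) * ((w ^ 2 - r 1 ^ 2) * (w ^ 2 - r 2 ^ 2))) = 0 := by
      linear_combination hC
    rcases mul_eq_zero.1 h1 with h1 | h1
    · exact absurd h1 (pow_ne_zero _ ht)
    · exact h1
  have hi : ∃ i, w ^ 2 = r i ^ 2 := by
    rcases mul_eq_zero.1 h' with h' | h'
    · exact ⟨0, sub_eq_zero.1 h'⟩
    rcases mul_eq_zero.1 h' with h' | h'
    · exact ⟨1, sub_eq_zero.1 h'⟩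
    · exact ⟨2, sub_eq_zero.1 h'⟩
  obtain ⟨i, hi⟩ := hi
  obtain ⟨b, hb⟩ : ∃ b : Bool, w = sg b * r i := by
    rcases sq_eq_sq_iff_eq_or_eq_neg.1 hi with h1 | h1
    · exact ⟨false, by simp only [sg, h1, Bool.false_eq_true, if_false]; ring⟩
    · exact ⟨true, by simp only [sg, h1, if_true]; ring⟩
  refine ⟨.inr (.inl (i, b)), ?_⟩
  show _ = Submodule.span k {![-(r i) ^ 2, 1, 0, 0], ![0, 0, 1, sg b * r i]}
  apply span_tri _ _ _ _ t (t * z') z₁ ht hz1
  · ext j
    fin_cases j
    · simp [← hi]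
    · simp
    · simp
    · simp only [Fin.reduceFinMk, Matrix.cons_val, Pi.add_apply, Pi.smul_apply, smul_eq_mul]
      rw [← hb]; ring
  · ext j
    fin_cases j
    · simp
    · simp
    · simp
    · simp only [Fin.reduceFinMk, Matrix.cons_val, Pi.smul_apply, smul_eq_mul]
      rw [← hb]

end Pool.Agent.R863.CS
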