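import Pool.Agent.R863.CS.LN5C

set_option autoImplicit false

namespace Pool.Agent.R863.CS

open MvPolynomial

theorem t_LN3C : S_LN3C := by
  intro k _ _ h2 r hr α β γ δ h
  have h10 := h 1 0
  have h01 := h 0 1
  have h11 := h 1 1
  have h1m := h 1 (-1)
  rw [eval_fam3_559] at h10 h01 h11 h1m
  have E0 : α ^ 2 = 1 := by linear_combination h10
  have E3 : δ ^ 2 = r 0 ^ 2 * r 1 ^ 2 * r 2 ^ 2 := by linear_combination h01
  have E1 : 2 * α * β + γ ^ 2 = r 0 ^ 2 + r 1 ^ 2 + r 2 ^ 2 := by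
    apply mul_left_cancel₀ h2
    linear_combination h11 - h1m - 2 * E3
  have E2 : β ^ 2 + 2 * γ * δ = r 0 ^ 2 * r 1 ^ 2 + r 0 ^ 2 * r 2 ^ 2 + r 1 ^ 2 * r 2 ^ 2 := by
    apply mul_left_cancel₀ h2
    linear_combination h11 + h1m - 2 * E0
  obtain ⟨c, hc⟩ : ∃ c : Bool, α = sg c := by
    have h5 : (α - 1) * (α + 1) = 0 := by linear_combination E0
    rcases mul_eq_zero.1 h5 with h6 | h6
    · exact ⟨false, by simp only [sg]; simp; linear_combination h6⟩
    · exact ⟨true, by simp only [sg]; simp; linear_combination h6⟩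
  have hP : ∀ i, ∃ b : Bool, α * (sg b * r i) ^ 3 + γ * (sg b * r i) ^ 2 - β * (sg b * r i) - δ = 0 := by
    intro i
    have h3 : (α * (r i) ^ 3 + γ * (r i) ^ 2 - β * (r i) - δ) *
        (α * (-r i) ^ 3 + γ * (-r i) ^ 2 - β * (-r i) - δ) = 0 := by
      have h4 : (α * (r i) ^ 3 + γ * (r i) ^ 2 - β * (r i) - δ) *
          (α * (-r i) ^ 3 + γ * (-r i) ^ 2 - β * (-r i) - δ) =
          -((r i) ^ 6 - (r 0 ^ 2 + r 1 ^ 2 + r 2 ^ 2) * (r i) ^ 4 +
            (r 0 ^ 2 * r 1 ^ 2 + r 0 ^ 2 * r 2 ^ 2 + r 1 ^ 2 * r 2 ^ 2) * (r i) ^ 2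
            - r 0 ^ 2 * r 1 ^ 2 * r 2 ^ 2) := by
        linear_combination (-(r i) ^ 6) * E0 + (r i) ^ 4 * E1 - (r i) ^ 2 * E2 + E3
      rw [h4]
      fin_cases i <;> simp only [Fin.reduceFinMk, Fin.zero_eta, Fin.mk_one] <;> ring
    rcases mul_eq_zero.1 h3 with h4 | h4
    · exact ⟨false, by simpa [sg] using h4⟩
    · exact ⟨true, by simpa [sg] using h4⟩
  choose b hb using hP
  have hinj : Function.Injective fun i => sg (b i) * r i := by
    intro i j hij
    by_contra hne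
    apply hr.2 i j hne
    have h3 : (sg (b i) * r i) ^ 2 = (sg (b j) * r j) ^ 2 := by
      have : sg (b i) * r i = sg (b j) * r j := hij
      rw [this]
    rw [mul_pow, mul_pow, pow_two (sg (b i)), pow_two (sg (b j)), sg_sq_559, sg_sq_559, one_mul, one_mul] at h3
    exact h3
  have hv := Matrix.eq_zero_of_forall_index_sum_pow_mul_eq_zero (n := 3)
    (v := ![-δ + α * ((sg (b 0) * r 0) * (sg (b 1) * r 1) * (sg (b 2) * r 2)),
      -β - α * ((sg (b 0) * r 0) * (sg (b 1) * r 1) + (sg (b 0) * r 0) * (sg (b 2) * r 2) +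
        (sg (b 1) * r 1) * (sg (b 2) * r 2)),
      γ + α * (sg (b 0) * r 0 + sg (b 1) * r 1 + sg (b 2) * r 2)]) hinj (by
      intro j
      rw [Fin.sum_univ_three]
      have h3 : ∀ x y0 y1 y2 : k, x = y0 ∨ x = y1 ∨ x = y2 →
          x ^ 3 - (y0 + y1 + y2) * x ^ 2 + (y0 * y1 + y0 * y2 + y1 * y2) * x - y0 * y1 * y2 = 0 := by
        intro x y0 y1 y2 h
        have : x ^ 3 - (y0 + y1 + y2) * x ^ 2 + (y0 * y1 + y0 * y2 + y1 * y2) * x - y0 * y1 * y2
          = (x - y0) * (x - y1) * (x - y2) := by ring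
        rw [this]
        rcases h with h | h | h <;> simp [h]
      have h4 := h3 (sg (b j) * r j) (sg (b 0) * r 0) (sg (b 1) * r 1) (sg (b 2) * r 2)
        (by fin_cases j <;> simp)
      have h5 := hb j
      simp only [Matrix.cons_val]
      simp only [Fin.coe_ofNat_eq_mod]
      norm_num
      linear_combination h5 - α * h4)
  have v0 := congrFun hv 0
  have v1 := congrFun hv 1
  have v2 := congrFun hv 2
  simp only [Matrix.cons_val, Pi.zero_apply] at v0 v1 v2
  refine ⟨c, b, hc, ?_, ?_, ?_⟩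
  · rw [← hc]; simp only [sv3]; linear_combination (-1 : k) * v1
  · rw [← hc]; simp only [sv3]; linear_combination v2
  · rw [← hc]; simp only [sv3]; linear_combination (-1 : k) * v0

end Pool.Agent.R863.CS
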