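import Pool.Agent.R863.CS.Stm

set_option autoImplicit false

namespace Pool.Agent.R863.CS

open MvPolynomial

namespace LNB

variable {k : Type} [Field k]

/-- equality of spans for a triangular change of basis -/
lemma span_tri (p q p' q' : Fin 4 → k) (c d e : k) (hc : c ≠ 0) (he : e ≠ 0)
    (hp : p = c • p' + d • q') (hq : q = e • q') :
    Submodule.span k {p, q} = Submodule.span k {p', q'} := by
  apply le_antisymm
  · rw [Submodule.span_le]
    rintro x (rfl | rfl)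
    · rw [hp]
      exact Submodule.add_mem _ (Submodule.smul_mem _ _ (Submodule.subset_span (by simp)))
        (Submodule.smul_mem _ _ (Submodule.subset_span (by simp)))
    · rw [hq]
      exact Submodule.smul_mem _ _ (Submodule.subset_span (by simp))
  · have hq' : q' = e⁻¹ • q := by
      rw [hq, smul_smul, inv_mul_cancel₀ he, one_smul]
    have hp' : p' = c⁻¹ • p - (c⁻¹ * d * e⁻¹) • q := by
      rw [hp, hq, smul_add, smul_smul, smul_smul, smul_smul, inv_mul_cancel₀ hc, one_smul,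
        mul_assoc (c⁻¹ * d), inv_mul_cancel₀ he, mul_one]
      abel
    rw [Submodule.span_le]
    rintro x (rfl | rfl)
    · rw [hp']
      exact Submodule.sub_mem _ (Submodule.smul_mem _ _ (Submodule.subset_span (by simp)))
        (Submodule.smul_mem _ _ (Submodule.subset_span (by simp)))
    · rw [hq']
      exact Submodule.smul_mem _ _ (Submodule.subset_span (by simp))

lemma eval_nf (a b c0 c1 c2 c3 x y z w : k) :
    eval ![x, y, z, w] (nf a b c0 c1 c2 c3) =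
      x * z ^ 2 + y * w ^ 2 + 2 * a * y ^ 2 * z + 2 * b * x ^ 2 * w
        - (c0 * x ^ 3 + c1 * x ^ 2 * y + c2 * x * y ^ 2 + c3 * y ^ 3) := by
  simp [nf]

/-- the three coefficients -/
lemma coeffs (h2 : (2 : k) ≠ 0) (a b c0 c1 c2 c3 s t z₀ w₀ z₁ w₁ : k)
    (h : ∀ u v : k, eval ![u * s, u * t, u * z₀ + v * z₁, u * w₀ + v * w₁]
      (nf a b c0 c1 c2 c3) = 0) :
    s * z₁ ^ 2 + t * w₁ ^ 2 = 0 ∧ s * z₀ * z₁ + t * w₀ * w₁ + a * t ^ 2 * z₁ + b * s ^ 2 * w₁ = 0 ∧
    s * z₀ ^ 2 + t * w₀ ^ 2 + 2 * a * t ^ 2 * z₀ + 2 * b * s ^ 2 * w₀ =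
      c0 * s ^ 3 + c1 * s ^ 2 * t + c2 * s * t ^ 2 + c3 * t ^ 3 := by
  have h0 := h 1 0
  have h1 := h 1 1
  have h3 := h 1 (-1)
  rw [eval_nf] at h0 h1 h3
  refine ⟨?_, ?_, ?_⟩
  · apply mul_left_cancel₀ h2
    linear_combination h1 + h3 - 2 * h0
  · apply mul_left_cancel₀ (mul_ne_zero h2 h2)
    linear_combination h1 - h3
  · linear_combination h0

lemma pe0 (r : Fin 5 → k) : pe r 0 = r 1 * r 2 * r 3 * r 4 := by
  have h : (Finset.univ.erase (0 : Fin 5)) = {1, 2, 3, 4} := by decide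
  rw [pe, h]
  simp [mul_assoc]
lemma pe1 (r : Fin 5 → k) : pe r 1 = r 0 * r 2 * r 3 * r 4 := by
  have h : (Finset.univ.erase (1 : Fin 5)) = {0, 2, 3, 4} := by decide
  rw [pe, h]
  simp [mul_assoc]
lemma pe2 (r : Fin 5 → k) : pe r 2 = r 0 * r 1 * r 3 * r 4 := by
  have h : (Finset.univ.erase (2 : Fin 5)) = {0, 1, 3, 4} := by decide
  rw [pe, h]
  simp [mul_assoc]
lemma pe3 (r : Fin 5 → k) : pe r 3 = r 0 * r 1 * r 2 * r 4 := by
  have h : (Finset.univ.erase (3 : Fin 5)) = {0, 1, 2, 4} := by decide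
  rw [pe, h]
  simp [mul_assoc]
lemma pe4 (r : Fin 5 → k) : pe r 4 = r 0 * r 1 * r 2 * r 3 := by
  have h : (Finset.univ.erase (4 : Fin 5)) = {0, 1, 2, 3} := by decide
  rw [pe, h]
  simp [mul_assoc]

lemma pe_mul (r : Fin 5 → k) (i : Fin 5) : r i * pe r i = e5 r := by
  fin_cases i
  · show r 0 * pe r 0 = _
    rw [pe0, e5]; ring
  · show r 1 * pe r 1 = _
    rw [pe1, e5]; ring
  · show r 2 * pe r 2 = _
    rw [pe2, e5]; ring
  · show r 3 * pe r 3 = _
    rw [pe3, e5]; ring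
  · show r 4 * pe r 4 = _
    rw [pe4, e5]; ring

lemma pe_sq (r : Fin 5 → k) (i : Fin 5) :
    (r i ^ 2) ^ 4 - e1 (fun i => r i ^ 2) * (r i ^ 2) ^ 3 + e2 (fun i => r i ^ 2) * (r i ^ 2) ^ 2
      - e3 (fun i => r i ^ 2) * (r i ^ 2) + e4 (fun i => r i ^ 2) = pe r i ^ 2 := by
  fin_cases i
  · show (r 0 ^ 2) ^ 4 - _ * (r 0 ^ 2) ^ 3 + _ * (r 0 ^ 2) ^ 2 - _ * (r 0 ^ 2) + _ = pe r 0 ^ 2
    rw [pe0]; simp only [e1, e2, e3, e4]; ring
  · show (r 1 ^ 2) ^ 4 - _ * (r 1 ^ 2) ^ 3 + _ * (r 1 ^ 2) ^ 2 - _ * (r 1 ^ 2) + _ = pe r 1 ^ 2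
    rw [pe1]; simp only [e1, e2, e3, e4]; ring
  · show (r 2 ^ 2) ^ 4 - _ * (r 2 ^ 2) ^ 3 + _ * (r 2 ^ 2) ^ 2 - _ * (r 2 ^ 2) + _ = pe r 2 ^ 2
    rw [pe2]; simp only [e1, e2, e3, e4]; ring
  · show (r 3 ^ 2) ^ 4 - _ * (r 3 ^ 2) ^ 3 + _ * (r 3 ^ 2) ^ 2 - _ * (r 3 ^ 2) + _ = pe r 3 ^ 2
    rw [pe3]; simp only [e1, e2, e3, e4]; ring
  · show (r 4 ^ 2) ^ 4 - _ * (r 4 ^ 2) ^ 3 + _ * (r 4 ^ 2) ^ 2 - _ * (r 4 ^ 2) + _ = pe r 4 ^ 2
    rw [pe4]; simp only [e1, e2, e3, e4]; ring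

lemma root5 (r : Fin 5 → k) (w : k)
    (h : w ^ 10 - e1 (fun i => r i ^ 2) * w ^ 8 + e2 (fun i => r i ^ 2) * w ^ 6
      - e3 (fun i => r i ^ 2) * w ^ 4 + e4 (fun i => r i ^ 2) * w ^ 2 - e5 r ^ 2 = 0) :
    ∃ i, w ^ 2 = r i ^ 2 := by
  have h' : (w ^ 2 - r 0 ^ 2) * ((w ^ 2 - r 1 ^ 2) * ((w ^ 2 - r 2 ^ 2) * ((w ^ 2 - r 3 ^ 2) *
      (w ^ 2 - r 4 ^ 2)))) = 0 := by
    rw [← h]
    simp only [e1, e2, e3, e4, e5]
    ring
  rcases mul_eq_zero.1 h' with h' | h'
  · exact ⟨0, sub_eq_zero.1 h'⟩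
  rcases mul_eq_zero.1 h' with h' | h'
  · exact ⟨1, sub_eq_zero.1 h'⟩
  rcases mul_eq_zero.1 h' with h' | h'
  · exact ⟨2, sub_eq_zero.1 h'⟩
  rcases mul_eq_zero.1 h' with h' | h'
  · exact ⟨3, sub_eq_zero.1 h'⟩
  · exact ⟨4, sub_eq_zero.1 h'⟩

end LNB

open LNB in
theorem t_LN5B : S_LN5B := by
  intro k _ _ h2 r _ s t z₀ w₀ z₁ w₁ hst hzw h
  obtain ⟨hA, hB, hC⟩ := coeffs h2 _ _ _ _ _ _ s t z₀ w₀ z₁ w₁ h
  -- t is nonzero
  have ht : t ≠ 0 := by
    intro ht
    have hs : s ≠ 0 := by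
      rcases hst with h | h
      · exact h
      · exact absurd ht h
    have hz1 : z₁ = 0 := by
      have : s * z₁ ^ 2 = 0 := by rw [ht] at hA; linear_combination hA
      rcases mul_eq_zero.1 this with h | h
      · exact absurd h hs
      · exact pow_eq_zero_iff (two_ne_zero) |>.1 h
    have hw1 : w₁ ≠ 0 := by
      rcases hzw with h | h
      · exact absurd hz1 h
      · exact h
    have : s ^ 2 * w₁ = 0 := by
      rw [ht, hz1] at hB
      linear_combination hB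
    rcases mul_eq_zero.1 this with h | h
    · exact hs (pow_eq_zero_iff (two_ne_zero) |>.1 h)
    · exact hw1 h
  have hz1 : z₁ ≠ 0 := by
    intro hz
    have hw1 : w₁ ≠ 0 := by
      rcases hzw with h | h
      · exact absurd hz h
      · exact h
    have : t * w₁ ^ 2 = 0 := by rw [hz] at hA; linear_combination hA
    rcases mul_eq_zero.1 this with h | h
    · exact ht h
    · exact hw1 (pow_eq_zero_iff (two_ne_zero) |>.1 h)
  -- normalise
  obtain ⟨w, hw⟩ : ∃ w, w₁ = z₁ * w := ⟨w₁ / z₁, by field_simp⟩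
  obtain ⟨s', hs'⟩ : ∃ s', s = t * s' := ⟨s / t, by field_simp⟩
  obtain ⟨z', hz'⟩ : ∃ z', z₀ = t * z' := ⟨z₀ / t, by field_simp⟩
  obtain ⟨q, hq⟩ : ∃ q, w₀ = t * (q + w * z') := ⟨w₀ / t - w * z', by field_simp; ring⟩
  subst hw hs' hz' hq
  have hsw : s' = - w ^ 2 := by
    have h1 : (t * z₁ ^ 2) * (s' + w ^ 2) = 0 := by linear_combination hA
    rcases mul_eq_zero.1 h1 with h1 | h1
    · exact absurd h1 (mul_ne_zero ht (pow_ne_zero _ hz1))
    · linear_combination h1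
  subst hsw
  have hBa : e5 r = - w * (q + w ^ 4) := by
    have h1 : (t ^ 2 * z₁) * (e5 r + w * (q + w ^ 4)) = 0 := by linear_combination hB
    rcases mul_eq_zero.1 h1 with h1 | h1
    · exact absurd h1 (mul_ne_zero (pow_ne_zero _ ht) hz1)
    · linear_combination h1
  have hCa : (q + w ^ 4) ^ 2 = w ^ 8 - e1 (fun i => r i ^ 2) * w ^ 6
      + e2 (fun i => r i ^ 2) * w ^ 4 - e3 (fun i => r i ^ 2) * w ^ 2
      + e4 (fun i => r i ^ 2) := by
    have h1 : (t ^ 3) * ((q + w ^ 4) ^ 2 - (w ^ 8 - e1 (fun i => r i ^ 2) * w ^ 6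
      + e2 (fun i => r i ^ 2) * w ^ 4 - e3 (fun i => r i ^ 2) * w ^ 2
      + e4 (fun i => r i ^ 2))) = 0 := by
      linear_combination hC - 2 * t ^ 3 * z' * hBa
    rcases mul_eq_zero.1 h1 with h1 | h1
    · exact absurd h1 (pow_ne_zero _ ht)
    · linear_combination h1
  obtain ⟨i, hi⟩ := root5 r w (by
    rw [hBa]
    linear_combination (-w ^ 2) * hCa)
  have hpe := pe_sq r i
  rw [← hi] at hpe
  have hpq : (q + w ^ 4) ^ 2 = pe r i ^ 2 := by
    rw [hCa, ← hpe]; ring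
  have hpm := pe_mul r i
  have key : ∃ b : Bool, w = - (sg b) * r i ∧ q = - (r i) ^ 4 + sg b * pe r i := by
    have hw4 : w ^ 4 = r i ^ 4 := by
      have : w ^ 4 = (w ^ 2) ^ 2 := by ring
      rw [this, hi]; ring
    by_cases hri : r i = 0
    · have hw0 : w = 0 := by
        rw [hri] at hi
        have : w ^ 2 = 0 := by rw [hi]; ring
        exact pow_eq_zero_iff (two_ne_zero) |>.1 this
      rcases sq_eq_sq_iff_eq_or_eq_neg.1 hpq with h1 | h1
      · refine ⟨false, ?_, ?_⟩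
        · rw [hw0, hri]; ring
        · simp only [sg, Bool.false_eq_true, if_false]
          linear_combination h1 - hw4
      · refine ⟨true, ?_, ?_⟩
        · rw [hw0, hri]; ring
        · simp only [sg, if_true]
          linear_combination h1 - hw4
    · rcases sq_eq_sq_iff_eq_or_eq_neg.1 hi with h1 | h1
      · refine ⟨true, ?_, ?_⟩
        · simp only [sg, if_true]
          linear_combination h1
        · simp only [sg, if_true]
          have : r i * (q + r i ^ 4 + pe r i) = 0 := by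
            rw [h1] at hBa
            linear_combination hpm + hBa
          rcases mul_eq_zero.1 this with h3 | h3
          · exact absurd h3 hri
          · linear_combination h3
      · refine ⟨false, ?_, ?_⟩
        · simp only [sg, Bool.false_eq_true, if_false]
          linear_combination h1
        · simp only [sg, Bool.false_eq_true, if_false]
          have : r i * (q + r i ^ 4 - pe r i) = 0 := by
            rw [h1] at hBa
            linear_combination -hpm - hBa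
          rcases mul_eq_zero.1 this with h3 | h3
          · exact absurd h3 hri
          · linear_combination h3
  obtain ⟨b, hb1, hb2⟩ := key
  refine ⟨i, b, ?_⟩
  show _ = Submodule.span k {![-(r i) ^ 2, 1, 0, -(r i) ^ 4 + sg b * pe r i],
      ![0, 0, 1, -(sg b) * r i]}
  apply span_tri _ _ _ _ t (t * z') z₁ ht hz1
  · ext j
    fin_cases j
    · simp [← hi]
    · simp
    · simp
    · simp only [Fin.reduceFinMk, Matrix.cons_val, Pi.add_apply, Pi.smul_apply, smul_eq_mul]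
      rw [← hb2, hb1]; ring
  · ext j
    fin_cases j
    · simp
    · simp
    · simp
    · simp only [Fin.reduceFinMk, Matrix.cons_val, Pi.smul_apply, smul_eq_mul]
      rw [hb1]

end Pool.Agent.R863.CS
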