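import Pool.Agent.R863.CS.Stm

set_option autoImplicit false

namespace Pool.Agent.R863.CS

open MvPolynomial

lemma sg_sq_559 {k : Type} [Field k] (b : Bool) : (sg b : k) * sg b = 1 := by
  cases b <;> simp [sg]

lemma sg_not_559 {k : Type} [Field k] (b : Bool) : (sg (!b) : k) = - sg b := by
  cases b <;> simp [sg]

lemma sg_cases_559 {k : Type} [Field k] (b : Bool) : (sg b : k) = 1 ∨ (sg b : k) = -1 := by
  cases b <;> simp [sg]

lemma eval_fam5_559 {k : Type} [Field k] (r : Fin 5 → k) (x y z w : k) :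
    eval ![x, y, z, w] (fam5 r) = x * z ^ 2 + y * w ^ 2 + 2 * e5 r * y ^ 2 * z + 2 * x ^ 2 * w
      - ((e1 fun i => r i ^ 2) * x ^ 3 + (e2 fun i => r i ^ 2) * x ^ 2 * y
        + (e3 fun i => r i ^ 2) * x * y ^ 2 + (e4 fun i => r i ^ 2) * y ^ 3) := by
  simp [fam5, nf]

lemma eval_fam3_559 {k : Type} [Field k] (s : Fin 3 → k) (x y z w : k) :
    eval ![x, y, z, w] (fam3 s) = x * z ^ 2 + y * w ^ 2
      - (x ^ 3 + (s 0 ^ 2 + s 1 ^ 2 + s 2 ^ 2) * x ^ 2 * y
        + (s 0 ^ 2 * s 1 ^ 2 + s 0 ^ 2 * s 2 ^ 2 + s 1 ^ 2 * s 2 ^ 2) * x * y ^ 2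
        + (s 0 ^ 2 * s 1 ^ 2 * s 2 ^ 2) * y ^ 3) := by
  simp [fam3, nf]

/-- signs of the roots -/
lemma exists_sv_559 {k : Type} [Field k] (h2 : (2 : k) ≠ 0) (r : Fin 5 → k) (b : Fin 5 → Bool)
    (h : e5 (fun i => sg (b i) * r i) = e5 r) :
    ∃ t : Fin 4 → Bool, sv r t = fun i => sg (b i) * r i := by
  have hq := fun i => sg_sq_559 (k := k) (b i)
  by_cases hp : (sg (b 0) * sg (b 1) * sg (b 2) * sg (b 3) : k) = sg (b 4)
  · refine ⟨fun i => b i.castSucc, ?_⟩
    funext i
    fin_cases i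
    · simp [sv]
    · simp [sv]
    · simp [sv]
    · simp [sv]
    · simp only [sv]
      simp only [Fin.reduceFinMk, Matrix.cons_val]
      rw [← hp]
      rfl
  · have hn : (sg (b 0) * sg (b 1) * sg (b 2) * sg (b 3) : k) = - sg (b 4) := by
      rcases sg_cases_559 (k := k) (b 0) with h0 | h0 <;> rcases sg_cases_559 (k := k) (b 1) with h1 | h1 <;>
      rcases sg_cases_559 (k := k) (b 2) with h2 | h2 <;> rcases sg_cases_559 (k := k) (b 3) with h3 | h3 <;>
      rcases sg_cases_559 (k := k) (b 4) with h4 | h4 <;> rw [h0, h1, h2, h3, h4] at hp ⊢ <;>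
      first
        | ring1
        | (exfalso; apply hp; ring1)
    have h5 : e5 r = 0 := by
      have h6 : (2 : k) * e5 r = 0 := by
        unfold e5 at h ⊢
        have h7 := hq 4
        linear_combination (-1 : k) * h + (sg (b 4) * (r 0 * r 1 * r 2 * r 3 * r 4)) * hn
          - (r 0 * r 1 * r 2 * r 3 * r 4) * h7
      exact (mul_eq_zero.1 h6).resolve_left h2
    unfold e5 at h5
    rcases mul_eq_zero.1 h5 with h5 | h5
    · rcases mul_eq_zero.1 h5 with h5 | h5
      · rcases mul_eq_zero.1 h5 with h5 | h5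
        · rcases mul_eq_zero.1 h5 with h5 | h5
          · refine ⟨![!(b 0), b 1, b 2, b 3], ?_⟩
            funext i
            fin_cases i
            · simp [sv, h5]
            · simp [sv]
            · simp [sv]
            · simp [sv]
            · simp only [sv]
              simp only [Fin.reduceFinMk, Matrix.cons_val, sg_not_559]
              linear_combination (-(r 4)) * hn
          · refine ⟨![b 0, !(b 1), b 2, b 3], ?_⟩
            funext i
            fin_cases i
            · simp [sv]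
            · simp [sv, h5]
            · simp [sv]
            · simp [sv]
            · simp only [sv]
              simp only [Fin.reduceFinMk, Matrix.cons_val, sg_not_559]
              linear_combination (-(r 4)) * hn
        · refine ⟨![b 0, b 1, !(b 2), b 3], ?_⟩
          funext i
          fin_cases i
          · simp [sv]
          · simp [sv]
          · simp [sv, h5]
          · simp [sv]
          · simp only [sv]
            simp only [Fin.reduceFinMk, Matrix.cons_val, sg_not_559]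
            linear_combination (-(r 4)) * hn
      · refine ⟨![b 0, b 1, b 2, !(b 3)], ?_⟩
        funext i
        fin_cases i
        · simp [sv]
        · simp [sv]
        · simp [sv]
        · simp [sv, h5]
        · simp only [sv]
          simp only [Fin.reduceFinMk, Matrix.cons_val, sg_not_559]
          linear_combination (-(r 4)) * hn
    · refine ⟨fun i => b i.castSucc, ?_⟩
      funext i
      fin_cases i
      · simp [sv]
      · simp [sv]
      · simp [sv]
      · simp [sv]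
      · simp [sv, h5]

theorem t_LN5C : S_LN5C := by
  intro k _ _ h2 r hr α β γ δ h
  -- the four equations
  have h10 := h 1 0
  have h01 := h 0 1
  have h11 := h 1 1
  have h1m := h 1 (-1)
  rw [eval_fam5_559] at h10 h01 h11 h1m
  have E0 : α ^ 2 + 2 * γ = e1 fun i => r i ^ 2 := by linear_combination h10
  have E3 : δ ^ 2 + 2 * e5 r * β = e4 fun i => r i ^ 2 := by linear_combination h01
  have E1 : 2 * α * β + γ ^ 2 + 2 * δ = e2 fun i => r i ^ 2 := by
    apply mul_left_cancel₀ h2
    linear_combination h11 - h1m - 2 * E3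
  have E2 : β ^ 2 + 2 * γ * δ + 2 * e5 r * α = e3 fun i => r i ^ 2 := by
    apply mul_left_cancel₀ h2
    linear_combination h11 + h1m - 2 * E0
  -- the quintic
  have hP : ∀ i, ∃ b : Bool, (sg b * r i) ^ 5 - α * (sg b * r i) ^ 4 - γ * (sg b * r i) ^ 3
      + β * (sg b * r i) ^ 2 + δ * (sg b * r i) - e5 r = 0 := by
    intro i
    have h3 : ((r i) ^ 5 - α * (r i) ^ 4 - γ * (r i) ^ 3 + β * (r i) ^ 2 + δ * (r i) - e5 r) *
        ((-r i) ^ 5 - α * (-r i) ^ 4 - γ * (-r i) ^ 3 + β * (-r i) ^ 2 + δ * (-r i) - e5 r) = 0 := by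
      have h4 : ((r i) ^ 5 - α * (r i) ^ 4 - γ * (r i) ^ 3 + β * (r i) ^ 2 + δ * (r i) - e5 r) *
          ((-r i) ^ 5 - α * (-r i) ^ 4 - γ * (-r i) ^ 3 + β * (-r i) ^ 2 + δ * (-r i) - e5 r) =
          -((r i) ^ 10 - (e1 fun i => r i ^ 2) * (r i) ^ 8 + (e2 fun i => r i ^ 2) * (r i) ^ 6
            - (e3 fun i => r i ^ 2) * (r i) ^ 4 + (e4 fun i => r i ^ 2) * (r i) ^ 2 - (e5 r) ^ 2) := by
        linear_combination (r i) ^ 8 * E0 - (r i) ^ 6 * E1 + (r i) ^ 4 * E2 - (r i) ^ 2 * E3
      rw [h4]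
      fin_cases i <;> simp only [e1, e2, e3, e4, e5, Fin.reduceFinMk, Fin.zero_eta, Fin.mk_one] <;> ring
    rcases mul_eq_zero.1 h3 with h4 | h4
    · exact ⟨false, by simpa [sg] using h4⟩
    · exact ⟨true, by simpa [sg] using h4⟩
  choose b hb using hP
  have hinj : Function.Injective fun i => sg (b i) * r i := by
    intro i j hij
    by_contra hne
    apply hr i j hne
    have h3 : (sg (b i) * r i) ^ 2 = (sg (b j) * r j) ^ 2 := by
      have : sg (b i) * r i = sg (b j) * r j := hij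
      rw [this]
    rw [mul_pow, mul_pow, pow_two (sg (b i)), pow_two (sg (b j)), sg_sq_559, sg_sq_559, one_mul, one_mul] at h3
    exact h3
  have hv := Matrix.eq_zero_of_forall_index_sum_pow_mul_eq_zero (n := 5)
    (v := ![-(e5 r) + e5 (fun i => sg (b i) * r i), δ - e4 (fun i => sg (b i) * r i),
      β + e3 (fun i => sg (b i) * r i), -γ - e2 (fun i => sg (b i) * r i),
      -α + e1 (fun i => sg (b i) * r i)]) hinj (by
      intro j
      rw [Fin.sum_univ_five]
      have h3 : ∀ x y0 y1 y2 y3 y4 : k, x = y0 ∨ x = y1 ∨ x = y2 ∨ x = y3 ∨ x = y4 →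
          x ^ 5 - (y0 + y1 + y2 + y3 + y4) * x ^ 4
          + (y0 * y1 + y0 * y2 + y0 * y3 + y0 * y4 + y1 * y2 + y1 * y3 + y1 * y4
            + y2 * y3 + y2 * y4 + y3 * y4) * x ^ 3
          - (y0 * y1 * y2 + y0 * y1 * y3 + y0 * y1 * y4 + y0 * y2 * y3 + y0 * y2 * y4
            + y0 * y3 * y4 + y1 * y2 * y3 + y1 * y2 * y4 + y1 * y3 * y4 + y2 * y3 * y4) * x ^ 2
          + (y0 * y1 * y2 * y3 + y0 * y1 * y2 * y4 + y0 * y1 * y3 * y4 + y0 * y2 * y3 * y4
            + y1 * y2 * y3 * y4) * x - y0 * y1 * y2 * y3 * y4 = 0 := by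
        intro x y0 y1 y2 y3 y4 h
        have : x ^ 5 - (y0 + y1 + y2 + y3 + y4) * x ^ 4
          + (y0 * y1 + y0 * y2 + y0 * y3 + y0 * y4 + y1 * y2 + y1 * y3 + y1 * y4
            + y2 * y3 + y2 * y4 + y3 * y4) * x ^ 3
          - (y0 * y1 * y2 + y0 * y1 * y3 + y0 * y1 * y4 + y0 * y2 * y3 + y0 * y2 * y4
            + y0 * y3 * y4 + y1 * y2 * y3 + y1 * y2 * y4 + y1 * y3 * y4 + y2 * y3 * y4) * x ^ 2
          + (y0 * y1 * y2 * y3 + y0 * y1 * y2 * y4 + y0 * y1 * y3 * y4 + y0 * y2 * y3 * y4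
            + y1 * y2 * y3 * y4) * x - y0 * y1 * y2 * y3 * y4
          = (x - y0) * (x - y1) * (x - y2) * (x - y3) * (x - y4) := by ring
        rw [this]
        rcases h with h | h | h | h | h <;> simp [h]
      have h4 := h3 (sg (b j) * r j) (sg (b 0) * r 0) (sg (b 1) * r 1) (sg (b 2) * r 2)
        (sg (b 3) * r 3) (sg (b 4) * r 4) (by fin_cases j <;> simp)
      have h5 := hb j
      simp only [e1, e2, e3, e4, Matrix.cons_val]
      have h6 : e5 (fun i => sg (b i) * r i) = (sg (b 0) * r 0) * (sg (b 1) * r 1) *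
        (sg (b 2) * r 2) * (sg (b 3) * r 3) * (sg (b 4) * r 4) := rfl
      rw [h6]
      simp only [Fin.coe_ofNat_eq_mod]
      norm_num
      linear_combination h5 - h4)
  have v0 := congrFun hv 0
  have v1 := congrFun hv 1
  have v2 := congrFun hv 2
  have v3 := congrFun hv 3
  have v4 := congrFun hv 4
  simp only [Matrix.cons_val, Pi.zero_apply] at v0 v1 v2 v3 v4
  obtain ⟨t, ht⟩ := exists_sv_559 h2 r b (by linear_combination v0)
  refine ⟨t, ?_, ?_, ?_, ?_⟩
  · rw [ht]; linear_combination (-1 : k) * v4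
  · rw [ht]; linear_combination v2
  · rw [ht]; linear_combination (-1 : k) * v3
  · rw [ht]; linear_combination v1

end Pool.Agent.R863.CS
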