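import Pool.Agent.R863.CS.Stm

/-! CS-NF1 (MP_f18d96_ag): normal form of a cubic surface with a hyperbolic line. helper710. -/

set_option autoImplicit false

namespace Pool.Agent.R863.CS

open MvPolynomial

namespace NF1

section general

variable {k : Type} [Field k]

theorem subst_cub (m : Matrix (Fin 4) (Fin 4) k) (a b : Fin 3 → k) (c d e : Fin 2 → k)
    (g : Fin 4 → k) : subst m (cub16 a b c d e g) =
    (∑ j, C (m 0 j) * X j) * (C (a 0) * (∑ j, C (m 2 j) * X j) ^ 2 +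
        C (a 1) * (∑ j, C (m 2 j) * X j) * (∑ j, C (m 3 j) * X j) +
        C (a 2) * (∑ j, C (m 3 j) * X j) ^ 2)
    + (∑ j, C (m 1 j) * X j) * (C (b 0) * (∑ j, C (m 2 j) * X j) ^ 2 +
        C (b 1) * (∑ j, C (m 2 j) * X j) * (∑ j, C (m 3 j) * X j) +
        C (b 2) * (∑ j, C (m 3 j) * X j) ^ 2)
    + (∑ j, C (m 0 j) * X j) ^ 2 * (C (c 0) * (∑ j, C (m 2 j) * X j) +
        C (c 1) * (∑ j, C (m 3 j) * X j))
    + (∑ j, C (m 0 j) * X j) * (∑ j, C (m 1 j) * X j) * (C (d 0) * (∑ j, C (m 2 j) * X j) +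
        C (d 1) * (∑ j, C (m 3 j) * X j))
    + (∑ j, C (m 1 j) * X j) ^ 2 * (C (e 0) * (∑ j, C (m 2 j) * X j) +
        C (e 1) * (∑ j, C (m 3 j) * X j))
    + (C (g 0) * (∑ j, C (m 0 j) * X j) ^ 3 + C (g 1) * (∑ j, C (m 0 j) * X j) ^ 2 *
        (∑ j, C (m 1 j) * X j) + C (g 2) * (∑ j, C (m 0 j) * X j) * (∑ j, C (m 1 j) * X j) ^ 2 +
        C (g 3) * (∑ j, C (m 1 j) * X j) ^ 3) := by
  unfold subst cub16
  simp only [map_add, map_mul, map_pow, aeval_X, aeval_C, algebraMap_eq]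

set_option maxRecDepth 10000 in
theorem sub1 (A B : Fin 3 → k) (c d e : Fin 2 → k) (g : Fin 4 → k) (α β γ δ t : k) :
    subst !![α, β, 0, 0; γ, δ, 0, 0; 0, 0, 1, -t; 0, 0, 0, 1] (cub16 A B c d e g) =
      cub16 ![α * A 0 + γ * B 0, α * (A 1 - 2 * t * A 0) + γ * (B 1 - 2 * t * B 0),
          α * (A 2 - t * A 1 + t ^ 2 * A 0) + γ * (B 2 - t * B 1 + t ^ 2 * B 0)]
        ![β * A 0 + δ * B 0, β * (A 1 - 2 * t * A 0) + δ * (B 1 - 2 * t * B 0),
          β * (A 2 - t * A 1 + t ^ 2 * A 0) + δ * (B 2 - t * B 1 + t ^ 2 * B 0)]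
        ![α ^ 2 * c 0 + α * γ * d 0 + γ ^ 2 * e 0,
          α ^ 2 * (c 1 - t * c 0) + α * γ * (d 1 - t * d 0) + γ ^ 2 * (e 1 - t * e 0)]
        ![2 * α * β * c 0 + (α * δ + β * γ) * d 0 + 2 * γ * δ * e 0,
          2 * α * β * (c 1 - t * c 0) + (α * δ + β * γ) * (d 1 - t * d 0)
            + 2 * γ * δ * (e 1 - t * e 0)]
        ![β ^ 2 * c 0 + β * δ * d 0 + δ ^ 2 * e 0,
          β ^ 2 * (c 1 - t * c 0) + β * δ * (d 1 - t * d 0) + δ ^ 2 * (e 1 - t * e 0)]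
        ![g 0 * α ^ 3 + g 1 * α ^ 2 * γ + g 2 * α * γ ^ 2 + g 3 * γ ^ 3,
          3 * g 0 * α ^ 2 * β + g 1 * (α ^ 2 * δ + 2 * α * β * γ)
            + g 2 * (β * γ ^ 2 + 2 * α * γ * δ) + 3 * g 3 * γ ^ 2 * δ,
          3 * g 0 * α * β ^ 2 + g 1 * (β ^ 2 * γ + 2 * α * β * δ)
            + g 2 * (α * δ ^ 2 + 2 * β * γ * δ) + 3 * g 3 * γ * δ ^ 2,
          g 0 * β ^ 3 + g 1 * β ^ 2 * δ + g 2 * β * δ ^ 2 + g 3 * δ ^ 3] := by
  have y0 : (∑ j, C ((!![α, β, 0, 0; γ, δ, 0, 0; 0, 0, 1, -t; 0, 0, 0, 1] :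
      Matrix (Fin 4) (Fin 4) k) 0 j) * X j : MvPolynomial (Fin 4) k) = C α * X 0 + C β * X 1 := by
    simp [Fin.sum_univ_four]
  have y1 : (∑ j, C ((!![α, β, 0, 0; γ, δ, 0, 0; 0, 0, 1, -t; 0, 0, 0, 1] :
      Matrix (Fin 4) (Fin 4) k) 1 j) * X j : MvPolynomial (Fin 4) k) = C γ * X 0 + C δ * X 1 := by
    simp [Fin.sum_univ_four]
  have y2 : (∑ j, C ((!![α, β, 0, 0; γ, δ, 0, 0; 0, 0, 1, -t; 0, 0, 0, 1] :
      Matrix (Fin 4) (Fin 4) k) 2 j) * X j : MvPolynomial (Fin 4) k) = X 2 + C (-t) * X 3 := by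
    simp [Fin.sum_univ_four]
  have y3 : (∑ j, C ((!![α, β, 0, 0; γ, δ, 0, 0; 0, 0, 1, -t; 0, 0, 0, 1] :
      Matrix (Fin 4) (Fin 4) k) 3 j) * X j : MvPolynomial (Fin 4) k) = X 3 := by
    simp [Fin.sum_univ_four]
  rw [subst_cub, y0, y1, y2, y3]
  unfold cub16
  simp only [Fin.isValue, Matrix.cons_val, map_add, map_mul, map_pow, map_neg, map_sub, map_ofNat]
  ring

set_option maxRecDepth 10000 in
theorem sub2 (g : Fin 4 → k) (a b u₀ v₀ u₁ v₁ : k) :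
    subst !![1, 0, 0, 0; 0, 1, 0, 0; -u₀, -v₀, 1, 0; -u₁, -v₁, 0, 1]
      (cub16 ![1, 0, 0] ![0, 0, 1] ![2 * u₀, 2 * b] ![2 * v₀, 2 * u₁] ![2 * a, 2 * v₁] g) =
    nf a b (u₀ ^ 2 + 2 * b * u₁ - g 0) (2 * u₀ * v₀ + u₁ ^ 2 + 2 * b * v₁ - g 1)
      (v₀ ^ 2 + 2 * u₁ * v₁ + 2 * a * u₀ - g 2) (v₁ ^ 2 + 2 * a * v₀ - g 3) := by
  have y0 : (∑ j, C ((!![1, 0, 0, 0; 0, 1, 0, 0; -u₀, -v₀, 1, 0; -u₁, -v₁, 0, 1] :
      Matrix (Fin 4) (Fin 4) k) 0 j) * X j : MvPolynomial (Fin 4) k) = X 0 := by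
    simp [Fin.sum_univ_four]
  have y1 : (∑ j, C ((!![1, 0, 0, 0; 0, 1, 0, 0; -u₀, -v₀, 1, 0; -u₁, -v₁, 0, 1] :
      Matrix (Fin 4) (Fin 4) k) 1 j) * X j : MvPolynomial (Fin 4) k) = X 1 := by
    simp [Fin.sum_univ_four]
  have y2 : (∑ j, C ((!![1, 0, 0, 0; 0, 1, 0, 0; -u₀, -v₀, 1, 0; -u₁, -v₁, 0, 1] :
      Matrix (Fin 4) (Fin 4) k) 2 j) * X j : MvPolynomial (Fin 4) k) =
      C (-u₀) * X 0 + C (-v₀) * X 1 + X 2 := by
    simp [Fin.sum_univ_four]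
  have y3 : (∑ j, C ((!![1, 0, 0, 0; 0, 1, 0, 0; -u₀, -v₀, 1, 0; -u₁, -v₁, 0, 1] :
      Matrix (Fin 4) (Fin 4) k) 3 j) * X j : MvPolynomial (Fin 4) k) =
      C (-u₁) * X 0 + C (-v₁) * X 1 + X 3 := by
    simp [Fin.sum_univ_four]
  rw [subst_cub, y0, y1, y2, y3]
  unfold nf
  simp only [Fin.isValue, Matrix.cons_val, map_add, map_mul, map_pow, map_neg, map_sub, map_ofNat,
    map_one, map_zero]
  ring

theorem grad (A B : Fin 3 → k) (c d e : Fin 2 → k) (g : Fin 4 → k) (z w : k) :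
    eval ![0, 0, z, w] (pderiv 0 (cub16 A B c d e g)) = A 0 * z ^ 2 + A 1 * z * w + A 2 * w ^ 2 ∧
    eval ![0, 0, z, w] (pderiv 1 (cub16 A B c d e g)) = B 0 * z ^ 2 + B 1 * z * w + B 2 * w ^ 2 ∧
    eval ![0, 0, z, w] (pderiv 2 (cub16 A B c d e g)) = 0 ∧
    eval ![0, 0, z, w] (pderiv 3 (cub16 A B c d e g)) = 0 := by
  unfold cub16
  refine ⟨?_, ?_, ?_, ?_⟩
  · simp [pderiv_X, Derivation.leibniz]
  · simp [pderiv_X, Derivation.leibniz]
  · simp [pderiv_X, Derivation.leibniz]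
  · simp [pderiv_X, Derivation.leibniz]

end general

theorem bar_cub {K : Type} [Field K] (A B : Fin 3 → K) (c d e : Fin 2 → K) (g : Fin 4 → K) :
    bar (cub16 A B c d e g) = cub16 (fun i => algebraMap K (AlgebraicClosure K) (A i))
      (fun i => algebraMap K (AlgebraicClosure K) (B i))
      (fun i => algebraMap K (AlgebraicClosure K) (c i))
      (fun i => algebraMap K (AlgebraicClosure K) (d i))
      (fun i => algebraMap K (AlgebraicClosure K) (e i))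
      (fun i => algebraMap K (AlgebraicClosure K) (g i)) := by
  unfold bar cub16
  simp only [map_add, map_mul, map_pow, map_X, map_C]

/-- existence of the normal form, algebraic part -/
theorem alg {K : Type} [Field K] (h2 : (2 : K) ≠ 0) (hTR : S_TRANS) (A B : Fin 3 → K)
    (c d e : Fin 2 → K) (g : Fin 4 → K) (t D : K) (hA : A 1 = 2 * t * A 0)
    (hB : B 1 = 2 * t * B 0) (hD : D = A 0 * B 2 - A 2 * B 0) (hD0 : D ≠ 0) :
    ∃ a b c0 c1 c2 c3 : K, Eqv (cub16 A B c d e g) (nf a b c0 c1 c2 c3) := by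
  set A2 := A 2 - t ^ 2 * A 0 with hA2
  set B2 := B 2 - t ^ 2 * B 0 with hB2
  have hD' : D = A 0 * B2 - A2 * B 0 := by rw [hD, hA2, hB2]; ring
  have hinv : (!![A 0, B 0, 0, 0; A2, B2, 0, 0; 0, 0, 1, t; 0, 0, 0, 1] : Matrix (Fin 4) (Fin 4) K) *
      !![B2 / D, -B 0 / D, 0, 0; -A2 / D, A 0 / D, 0, 0; 0, 0, 1, -t; 0, 0, 0, 1] = 1 := by
    ext i j
    fin_cases i <;> fin_cases j <;>
      simp [Matrix.mul_apply, Fin.sum_univ_four] <;> field_simp <;>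
      first | (rw [hD']; ring) | ring
  have hu1 : IsUnit (!![B2 / D, -B 0 / D, 0, 0; -A2 / D, A 0 / D, 0, 0; 0, 0, 1, -t; 0, 0, 0, 1] :
      Matrix (Fin 4) (Fin 4) K).det := Matrix.isUnit_det_of_left_inverse hinv
  obtain ⟨c', d', e', g', hG⟩ : ∃ (c' d' e' : Fin 2 → K) (g' : Fin 4 → K),
      subst !![B2 / D, -B 0 / D, 0, 0; -A2 / D, A 0 / D, 0, 0; 0, 0, 1, -t; 0, 0, 0, 1]
        (cub16 A B c d e g) = cub16 ![1, 0, 0] ![0, 0, 1] c' d' e' g' := by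
    rw [sub1]
    have e1 : (![B2 / D * A 0 + -A2 / D * B 0,
        B2 / D * (A 1 - 2 * t * A 0) + -A2 / D * (B 1 - 2 * t * B 0),
        B2 / D * (A 2 - t * A 1 + t ^ 2 * A 0) + -A2 / D * (B 2 - t * B 1 + t ^ 2 * B 0)] :
        Fin 3 → K) = ![1, 0, 0] := by
      have q0 : B2 / D * A 0 + -A2 / D * B 0 = 1 := by
        field_simp
        rw [hD']
        ring
      have q1 : B2 / D * (A 1 - 2 * t * A 0) + -A2 / D * (B 1 - 2 * t * B 0) = 0 := by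
        rw [hA, hB]; ring
      have q2 : B2 / D * (A 2 - t * A 1 + t ^ 2 * A 0) +
          -A2 / D * (B 2 - t * B 1 + t ^ 2 * B 0) = 0 := by
        have r1 : A 2 - t * A 1 + t ^ 2 * A 0 = A2 := by rw [hA, hA2]; ring
        have r2 : B 2 - t * B 1 + t ^ 2 * B 0 = B2 := by rw [hB, hB2]; ring
        rw [r1, r2]
        ring
      rw [q0, q1, q2]
    have e2 : (![-B 0 / D * A 0 + A 0 / D * B 0,
        -B 0 / D * (A 1 - 2 * t * A 0) + A 0 / D * (B 1 - 2 * t * B 0),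
        -B 0 / D * (A 2 - t * A 1 + t ^ 2 * A 0) + A 0 / D * (B 2 - t * B 1 + t ^ 2 * B 0)] :
        Fin 3 → K) = ![0, 0, 1] := by
      have q0 : -B 0 / D * A 0 + A 0 / D * B 0 = 0 := by ring
      have q1 : -B 0 / D * (A 1 - 2 * t * A 0) + A 0 / D * (B 1 - 2 * t * B 0) = 0 := by
        rw [hA, hB]; ring
      have q2 : -B 0 / D * (A 2 - t * A 1 + t ^ 2 * A 0) +
          A 0 / D * (B 2 - t * B 1 + t ^ 2 * B 0) = 1 := by
        have r1 : A 2 - t * A 1 + t ^ 2 * A 0 = A2 := by rw [hA, hA2]; ring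
        have r2 : B 2 - t * B 1 + t ^ 2 * B 0 = B2 := by rw [hB, hB2]; ring
        rw [r1, r2]
        field_simp
        rw [hD']
        ring
      rw [q0, q1, q2]
    rw [e1, e2]
    exact ⟨_, _, _, _, rfl⟩
  have e1 : Eqv (cub16 A B c d e g) (cub16 ![1, 0, 0] ![0, 0, 1] c' d' e' g') :=
    ⟨_, hu1, 1, one_ne_zero, by rw [map_one, one_mul, hG]⟩
  have hinv2 : ∀ u₀ v₀ u₁ v₁ : K,
      (!![1, 0, 0, 0; 0, 1, 0, 0; u₀, v₀, 1, 0; u₁, v₁, 0, 1] : Matrix (Fin 4) (Fin 4) K) *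
      !![1, 0, 0, 0; 0, 1, 0, 0; -u₀, -v₀, 1, 0; -u₁, -v₁, 0, 1] = 1 := by
    intro u₀ v₀ u₁ v₁
    ext i j
    fin_cases i <;> fin_cases j <;> simp [Matrix.mul_apply, Fin.sum_univ_four]
  have hc' : c' = ![2 * (c' 0 / 2), 2 * (c' 1 / 2)] := by
    funext i; fin_cases i <;> simp <;> field_simp
  have hd' : d' = ![2 * (d' 0 / 2), 2 * (d' 1 / 2)] := by
    funext i; fin_cases i <;> simp <;> field_simp
  have he' : e' = ![2 * (e' 0 / 2), 2 * (e' 1 / 2)] := by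
    funext i; fin_cases i <;> simp <;> field_simp
  have hfin := sub2 g' (e' 0 / 2) (c' 1 / 2) (c' 0 / 2) (d' 0 / 2) (d' 1 / 2) (e' 1 / 2)
  rw [← hc', ← hd', ← he'] at hfin
  have e2 : Eqv (cub16 ![1, 0, 0] ![0, 0, 1] c' d' e' g') (nf (e' 0 / 2) (c' 1 / 2)
      ((c' 0 / 2) ^ 2 + 2 * (c' 1 / 2) * (d' 1 / 2) - g' 0)
      (2 * (c' 0 / 2) * (d' 0 / 2) + (d' 1 / 2) ^ 2 + 2 * (c' 1 / 2) * (e' 1 / 2) - g' 1)
      ((d' 0 / 2) ^ 2 + 2 * (d' 1 / 2) * (e' 1 / 2) + 2 * (e' 0 / 2) * (c' 0 / 2) - g' 2)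
      ((e' 1 / 2) ^ 2 + 2 * (e' 0 / 2) * (d' 0 / 2) - g' 3)) :=
    ⟨_, Matrix.isUnit_det_of_left_inverse
      (hinv2 (c' 0 / 2) (d' 0 / 2) (d' 1 / 2) (e' 1 / 2)), 1,
      one_ne_zero, by rw [map_one, one_mul]; exact hfin.symm⟩
  exact ⟨_, _, _, _, _, _, hTR K _ _ _ e1 e2⟩

end NF1

open NF1

theorem t_NF1 (hLA : S_LA) (_hCH : S_CH) (hTX : S_TX) (hTR : S_TRANS) (hCO : S_COEF)
    (hAD : S_ADAPT) : S_NF1 := by
  intro K _ h2 F W p hF hW hp
  obtain ⟨l1, -, -, -, l5, -, -⟩ := hLA K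
  have hW2 : Module.finrank K W = 2 := by rw [← l1]; exact hW.1
  obtain ⟨g, hg, hg2, hgW⟩ := hAD K W p hW2 hp.1 hp.2.1
  obtain ⟨t1, t2, t3⟩ := hTX K F g 1 hg one_ne_zero
  set W₀ : Submodule K (Fin 4 → K) := Submodule.span K {![0, 0, 1, 0], ![0, 0, 0, 1]} with hW₀
  have hmul : ∀ z w : K, g.mulVec (z • ![0, 0, 1, 0] + w • ![0, 0, 0, 1]) =
      fun i => z * g i 2 + w * g i 3 := by
    intro z w
    funext i
    simp [Matrix.mulVec, dotProduct, Fin.sum_univ_four]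
    ring
  have hmap : W₀.map g.mulVecLin = W := by
    ext v
    rw [Submodule.mem_map, hgW]
    constructor
    · rintro ⟨y, hy, rfl⟩
      rw [hW₀, Submodule.mem_span_pair] at hy
      obtain ⟨z, w, rfl⟩ := hy
      refine ⟨z, w, fun i => ?_⟩
      rw [Matrix.mulVecLin_apply, hmul]
    · rintro ⟨z, w, h⟩
      refine ⟨z • ![0, 0, 1, 0] + w • ![0, 0, 0, 1], ?_, ?_⟩
      · rw [hW₀, Submodule.mem_span_pair]
        exact ⟨z, w, rfl⟩
      · rw [Matrix.mulVecLin_apply, hmul]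
        funext i
        exact (h i).symm
  set G := C (1 : K) * subst g F with hG
  have hGs : IsSplit G := t1 hF
  have hGW : W₀ ∈ KLines G := by rw [t2, hmap]; exact hW
  have hGp : IsFixedPoint G W₀ ![0, 0, 1, 0] := by
    rw [t3, hmap]
    have : g.mulVec ![0, 0, 1, 0] = p := by
      have h := hmul 1 0
      rw [one_smul, zero_smul, add_zero] at h
      rw [h]
      funext i
      rw [one_mul, zero_mul, add_zero, hg2]
    rw [this]
    exact hp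
  -- points of the line
  have hmem : ∀ z w : AlgebraicClosure K, ![0, 0, z, w] ∈ ofK W₀ := by
    intro z w
    rw [hW₀, l5]
    have h : (![0, 0, z, w] : Fin 4 → AlgebraicClosure K) =
        z • up (![0, 0, 1, 0] : Fin 4 → K) + w • up (![0, 0, 0, 1] : Fin 4 → K) := by
      funext i
      fin_cases i <;> simp [up]
    rw [h]
    refine Submodule.add_mem _ (Submodule.smul_mem _ _ (Submodule.subset_span ?_))
      (Submodule.smul_mem _ _ (Submodule.subset_span ?_))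
    · exact ⟨_, by simp, rfl⟩
    · exact ⟨_, by simp, rfl⟩
  obtain ⟨A, B, c, d, e, g', hGc⟩ := hCO K G hGs.hom (fun z w => hGW.2 _ (hmem z w))
  set ι := algebraMap K (AlgebraicClosure K) with hι
  have hgrad := fun z w : AlgebraicClosure K => grad (fun i => ι (A i)) (fun i => ι (B i))
    (fun i => ι (c i)) (fun i => ι (d i)) (fun i => ι (e i)) (fun i => ι (g' i)) z w
  have hbar : bar G = cub16 (fun i => ι (A i)) (fun i => ι (B i))
    (fun i => ι (c i)) (fun i => ι (d i)) (fun i => ι (e i)) (fun i => ι (g' i)) := by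
    rw [hGc, bar_cub]
  rw [← hbar] at hgrad
  have hιinj : Function.Injective ι := (algebraMap K (AlgebraicClosure K)).injective
  -- no common zero
  have hsm : ∀ z w : AlgebraicClosure K, (z ≠ 0 ∨ w ≠ 0) →
      ι (A 0) * z ^ 2 + ι (A 1) * z * w + ι (A 2) * w ^ 2 = 0 →
      ι (B 0) * z ^ 2 + ι (B 1) * z * w + ι (B 2) * w ^ 2 = 0 → False := by
    intro z w hzw hA hB
    have hne : (![0, 0, z, w] : Fin 4 → AlgebraicClosure K) ≠ 0 := by
      intro h0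
      have e2 := congrFun h0 2
      have e3 := congrFun h0 3
      simp at e2 e3
      rcases hzw with h | h
      · exact h e2
      · exact h e3
    obtain ⟨i, hi⟩ := hGs.smooth _ hne (hGW.2 _ (hmem z w))
    obtain ⟨g0, g1, g2, g3⟩ := hgrad z w
    apply hi
    fin_cases i
    · exact g0.trans hA
    · exact g1.trans hB
    · exact g2
    · exact g3
  have hAB0 : A 0 ≠ 0 ∨ B 0 ≠ 0 := by
    by_contra hno
    push Not at hno
    apply hsm 1 0 (Or.inl one_ne_zero)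
    · rw [hno.1]; simp
    · rw [hno.2]; simp
  -- the fixed point
  have hfix : ∀ (z w : K) (r : K), (z ≠ 0 ∨ w ≠ 0) →
      A 0 * z ^ 2 + A 1 * z * w + A 2 * w ^ 2 = r * A 0 →
      B 0 * z ^ 2 + B 1 * z * w + B 2 * w ^ 2 = r * B 0 → w = 0 := by
    intro z w r hzw hA hB
    have hne : (![0, 0, ι z, ι w] : Fin 4 → AlgebraicClosure K) ≠ 0 := by
      intro h0
      have e2 := congrFun h0 2
      have e3 := congrFun h0 3
      simp at e2 e3
      rcases hzw with h | h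
      · exact h e2
      · exact h e3
    have hup : up (![0, 0, 1, 0] : Fin 4 → K) = ![0, 0, 1, 0] := by
      funext i
      fin_cases i <;> simp [up]
    obtain ⟨s, hs⟩ := hGp.2.2 _ (hmem (ι z) (ι w)) hne ⟨ι r, by
      intro i
      rw [hup]
      obtain ⟨g0, g1, g2, g3⟩ := hgrad (ι z) (ι w)
      obtain ⟨q0, q1, q2, q3⟩ := hgrad 1 0
      fin_cases i
      · change eval _ (pderiv 0 (bar G)) = ι r * eval _ (pderiv 0 (bar G))
        rw [g0, q0]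
        simp only [one_pow, mul_one, mul_zero, add_zero, ne_eq, OfNat.ofNat_ne_zero,
          not_false_eq_true, zero_pow]
        rw [← map_pow, ← map_pow, ← map_mul, ← map_mul, ← map_mul, ← map_mul, ← map_add,
          ← map_add, hA, map_mul]
      · change eval _ (pderiv 1 (bar G)) = ι r * eval _ (pderiv 1 (bar G))
        rw [g1, q1]
        simp only [one_pow, mul_one, mul_zero, add_zero, ne_eq, OfNat.ofNat_ne_zero,
          not_false_eq_true, zero_pow]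
        rw [← map_pow, ← map_pow, ← map_mul, ← map_mul, ← map_mul, ← map_mul, ← map_add,
          ← map_add, hB, map_mul]
      · change eval _ (pderiv 2 (bar G)) = ι r * eval _ (pderiv 2 (bar G))
        rw [g2, q2, mul_zero]
      · change eval _ (pderiv 3 (bar G)) = ι r * eval _ (pderiv 3 (bar G))
        rw [g3, q3, mul_zero]⟩
    have e3 := congrFun hs 3
    rw [hup] at e3
    simp at e3
    exact e3
  have hpar : B 0 * A 1 = A 0 * B 1 := by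
    by_contra hne
    have hne' : B 0 * A 1 - A 0 * B 1 ≠ 0 := sub_ne_zero.2 hne
    have key : ∀ r, A 0 * (-(B 0 * A 2 - A 0 * B 2)) ^ 2 +
        A 1 * (-(B 0 * A 2 - A 0 * B 2)) * (B 0 * A 1 - A 0 * B 1) +
        A 2 * (B 0 * A 1 - A 0 * B 1) ^ 2 = r * A 0 →
        B 0 * (-(B 0 * A 2 - A 0 * B 2)) ^ 2 +
        B 1 * (-(B 0 * A 2 - A 0 * B 2)) * (B 0 * A 1 - A 0 * B 1) +
        B 2 * (B 0 * A 1 - A 0 * B 1) ^ 2 = r * B 0 → False := fun r h1 h2 =>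
      hne' (hfix _ _ r (Or.inr hne') h1 h2)
    rcases hAB0 with h0 | h0
    · apply key ((A 0 * (-(B 0 * A 2 - A 0 * B 2)) ^ 2 +
        A 1 * (-(B 0 * A 2 - A 0 * B 2)) * (B 0 * A 1 - A 0 * B 1) +
        A 2 * (B 0 * A 1 - A 0 * B 1) ^ 2) / A 0)
      · field_simp
      · field_simp
        ring
    · apply key ((B 0 * (-(B 0 * A 2 - A 0 * B 2)) ^ 2 +
        B 1 * (-(B 0 * A 2 - A 0 * B 2)) * (B 0 * A 1 - A 0 * B 1) +
        B 2 * (B 0 * A 1 - A 0 * B 1) ^ 2) / B 0)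
      · field_simp
        ring
      · field_simp
  obtain ⟨t, hA1, hB1⟩ : ∃ t, A 1 = 2 * t * A 0 ∧ B 1 = 2 * t * B 0 := by
    rcases hAB0 with h0 | h0
    · refine ⟨A 1 / (2 * A 0), ?_, ?_⟩
      · field_simp
      · field_simp
        linear_combination -hpar
    · refine ⟨B 1 / (2 * B 0), ?_, ?_⟩
      · field_simp
        linear_combination hpar
      · field_simp
  have hD0 : A 0 * B 2 - A 2 * B 0 ≠ 0 := by
    intro hD
    obtain ⟨m, hA2, hB2⟩ : ∃ m, A 2 = m * A 0 ∧ B 2 = m * B 0 := by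
      rcases hAB0 with h0 | h0
      · refine ⟨A 2 / A 0, ?_, ?_⟩
        · field_simp
        · field_simp
          linear_combination hD
      · refine ⟨B 2 / B 0, ?_, ?_⟩
        · field_simp
          linear_combination -hD
        · field_simp
    obtain ⟨s, hs⟩ := IsAlgClosed.exists_pow_nat_eq (ι (t ^ 2 - m)) (n := 2) (by norm_num)
    have hz : (s - ι t) ^ 2 + 2 * ι t * (s - ι t) + ι m = 0 := by
      have : (s - ι t) ^ 2 + 2 * ι t * (s - ι t) + ι m = s ^ 2 - ι t ^ 2 + ι m := by ring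
      rw [this, hs, map_sub, map_pow]
      ring
    apply hsm (s - ι t) 1 (Or.inr one_ne_zero)
    · rw [hA1, hA2]
      simp only [map_mul, map_ofNat]
      linear_combination ι (A 0) * hz
    · rw [hB1, hB2]
      simp only [map_mul, map_ofNat]
      linear_combination ι (B 0) * hz
  obtain ⟨a, b, c0, c1, c2, c3, hfin⟩ := NF1.alg h2 hTR A B c d e g' t _ hA1 hB1 rfl hD0
  refine ⟨a, b, c0, c1, c2, c3, hTR K _ _ _ ⟨g, hg, 1, one_ne_zero, rfl⟩ ?_⟩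
  rw [← hG, hGc]
  exact hfin

end Pool.Agent.R863.CS
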