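import Pool.Agent.R863.CS.Stm

set_option autoImplicit false

namespace Pool.Agent.R863.CS

namespace NF2

section roots

open Polynomial

variable {k : Type} [Field k] [IsAlgClosed k]

theorem root2 (c0 c1 : k) : ∃ x : k, x ^ 2 - c0 * x + c1 = 0 := by
  have hd : (X ^ 2 - C c0 * X + C c1 : k[X]).natDegree = 2 := by compute_degree!
  obtain ⟨x, hx⟩ := IsAlgClosed.exists_root (X ^ 2 - C c0 * X + C c1 : k[X])
    (by intro h; have := natDegree_eq_of_degree_eq_some h; rw [hd] at this; simp at this)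
  refine ⟨x, ?_⟩
  simpa [IsRoot.def] using hx

theorem root3 (c0 c1 c2 : k) : ∃ x : k, x ^ 3 - c0 * x ^ 2 + c1 * x - c2 = 0 := by
  have hd : (X ^ 3 - C c0 * X ^ 2 + C c1 * X - C c2 : k[X]).natDegree = 3 := by compute_degree!
  obtain ⟨x, hx⟩ := IsAlgClosed.exists_root (X ^ 3 - C c0 * X ^ 2 + C c1 * X - C c2 : k[X])
    (by intro h; have := natDegree_eq_of_degree_eq_some h; rw [hd] at this; simp at this)
  refine ⟨x, ?_⟩
  simpa [IsRoot.def] using hx

theorem root4 (c0 c1 c2 c3 : k) : ∃ x : k,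
    x ^ 4 - c0 * x ^ 3 + c1 * x ^ 2 - c2 * x + c3 = 0 := by
  have hd : (X ^ 4 - C c0 * X ^ 3 + C c1 * X ^ 2 - C c2 * X + C c3 : k[X]).natDegree = 4 := by
    compute_degree!
  obtain ⟨x, hx⟩ := IsAlgClosed.exists_root
    (X ^ 4 - C c0 * X ^ 3 + C c1 * X ^ 2 - C c2 * X + C c3 : k[X])
    (by intro h; have := natDegree_eq_of_degree_eq_some h; rw [hd] at this; simp at this)
  refine ⟨x, ?_⟩
  simpa [IsRoot.def] using hx

theorem root5 (c0 c1 c2 c3 c4 : k) : ∃ x : k,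
    x ^ 5 - c0 * x ^ 4 + c1 * x ^ 3 - c2 * x ^ 2 + c3 * x - c4 = 0 := by
  have hd : (X ^ 5 - C c0 * X ^ 4 + C c1 * X ^ 3 - C c2 * X ^ 2 + C c3 * X - C c4 :
      k[X]).natDegree = 5 := by compute_degree!
  obtain ⟨x, hx⟩ := IsAlgClosed.exists_root
    (X ^ 5 - C c0 * X ^ 4 + C c1 * X ^ 3 - C c2 * X ^ 2 + C c3 * X - C c4 : k[X])
    (by intro h; have := natDegree_eq_of_degree_eq_some h; rw [hd] at this; simp at this)
  refine ⟨x, ?_⟩
  simpa [IsRoot.def] using hx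

theorem sym2 (c0 c1 : k) : ∃ x y : k, x + y = c0 ∧ x * y = c1 := by
  obtain ⟨x, hx⟩ := root2 c0 c1
  exact ⟨x, c0 - x, by ring, by linear_combination -hx⟩

theorem sym3 (c0 c1 c2 : k) : ∃ x y z : k, x + y + z = c0 ∧ x * y + x * z + y * z = c1 ∧
    x * y * z = c2 := by
  obtain ⟨x, hx⟩ := root3 c0 c1 c2
  obtain ⟨y, z, h1, h2⟩ := sym2 (c0 - x) (c1 - x * (c0 - x))
  exact ⟨x, y, z, by linear_combination h1, by linear_combination h2 + x * h1,
    by linear_combination x * h2 + hx⟩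

theorem sym4 (c0 c1 c2 c3 : k) : ∃ x y z w : k, x + y + z + w = c0 ∧
    x * y + x * z + x * w + y * z + y * w + z * w = c1 ∧
    x * y * z + x * y * w + x * z * w + y * z * w = c2 ∧ x * y * z * w = c3 := by
  obtain ⟨x, hx⟩ := root4 c0 c1 c2 c3
  obtain ⟨y, z, w, h1, h2, h3⟩ := sym3 (c0 - x) (c1 - x * (c0 - x)) (c2 - x * (c1 - x * (c0 - x)))
  exact ⟨x, y, z, w, by linear_combination h1, by linear_combination h2 + x * h1,
    by linear_combination h3 + x * h2, by linear_combination x * h3 - hx⟩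

theorem sym5 (c0 c1 c2 c3 c4 : k) : ∃ x : Fin 5 → k, e1 x = c0 ∧ e2 x = c1 ∧ e3 x = c2 ∧
    e4 x = c3 ∧ e5 x = c4 := by
  obtain ⟨x, hx⟩ := root5 c0 c1 c2 c3 c4
  obtain ⟨y, z, w, v, h1, h2, h3, h4⟩ := sym4 (c0 - x) (c1 - x * (c0 - x))
    (c2 - x * (c1 - x * (c0 - x))) (c3 - x * (c2 - x * (c1 - x * (c0 - x))))
  refine ⟨![x, y, z, w, v], ?_, ?_, ?_, ?_, ?_⟩
  · simp [e1]; linear_combination h1
  · simp [e2]; linear_combination h2 + x * h1
  · simp [e3]; linear_combination h3 + x * h2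
  · simp [e4]; linear_combination h4 + x * h3
  · simp [e5]; linear_combination x * h4 + hx

theorem sqroot (x : k) : ∃ y : k, y ^ 2 = x := by
  obtain ⟨y, hy⟩ := root2 0 (-x)
  exact ⟨y, by linear_combination hy⟩

/-- square roots with prescribed symmetric functions -/
theorem choose5 (a c0 c1 c2 c3 : k) : ∃ s : Fin 5 → k, e1 (fun i => s i ^ 2) = c0 ∧
    e2 (fun i => s i ^ 2) = c1 ∧ e3 (fun i => s i ^ 2) = c2 ∧ e4 (fun i => s i ^ 2) = c3 ∧
    e5 s = a := by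
  obtain ⟨x, h1, h2, h3, h4, h5⟩ := sym5 c0 c1 c2 c3 (a ^ 2)
  choose s hs using fun i => sqroot (x i)
  have hx : (fun i => s i ^ 2) = x := funext hs
  have h6 : (e5 s - a) * (e5 s + a) = 0 := by
    have : e5 s ^ 2 = a ^ 2 := by
      rw [← h5, ← hx]; simp only [e5]; ring
    linear_combination this
  rcases mul_eq_zero.1 h6 with h | h
  · exact ⟨s, by rw [hx, h1], by rw [hx, h2], by rw [hx, h3], by rw [hx, h4],
      sub_eq_zero.1 h⟩
  · refine ⟨![-s 0, s 1, s 2, s 3, s 4], ?_, ?_, ?_, ?_, ?_⟩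
    · rw [← h1, ← hx]; simp [e1]
    · rw [← h2, ← hx]; simp [e2]
    · rw [← h3, ← hx]; simp [e3]
    · rw [← h4, ← hx]; simp [e4]
    · simp [e5] at h ⊢; linear_combination -h

theorem choose3 (c1 c2 c3 : k) : ∃ s : Fin 3 → k, s 0 ^ 2 + s 1 ^ 2 + s 2 ^ 2 = c1 ∧
    s 0 ^ 2 * s 1 ^ 2 + s 0 ^ 2 * s 2 ^ 2 + s 1 ^ 2 * s 2 ^ 2 = c2 ∧
    s 0 ^ 2 * s 1 ^ 2 * s 2 ^ 2 = c3 := by
  obtain ⟨x, y, z, h1, h2, h3⟩ := sym3 c1 c2 c3
  obtain ⟨a, ha⟩ := sqroot x
  obtain ⟨b, hb⟩ := sqroot y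
  obtain ⟨c, hc⟩ := sqroot z
  refine ⟨![a, b, c], ?_, ?_, ?_⟩
  · simp [ha, hb, hc, h1]
  · simp [ha, hb, hc, h2]
  · simp [ha, hb, hc, h3]

end roots

open MvPolynomial

theorem alg2 (K : Type) [Field K] : algebraMap K (AlgebraicClosure K) 2 = 2 :=
  map_ofNat _ 2

theorem two_ne (K : Type) [Field K] (h2 : (2 : K) ≠ 0) : (2 : AlgebraicClosure K) ≠ 0 := by
  intro h
  apply h2
  apply (algebraMap K (AlgebraicClosure K)).injective
  rw [map_zero, alg2, h]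

theorem bar_nf {K : Type} [Field K] (a b c0 c1 c2 c3 : K) :
    bar (nf a b c0 c1 c2 c3) = nf (algebraMap K (AlgebraicClosure K) a)
      (algebraMap K (AlgebraicClosure K) b) (algebraMap K (AlgebraicClosure K) c0)
      (algebraMap K (AlgebraicClosure K) c1) (algebraMap K (AlgebraicClosure K) c2)
      (algebraMap K (AlgebraicClosure K) c3) := by
  simp [bar, nf, alg2]

/-- rationality: a line `span {p, q}` over `K` with `p j = 1`, which is rational, meets the rational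
subspace `M` in `span {q}`, `q i = 1`, so `q` is rational -/
theorem rational (hLA : S_LA) {K : Type} [Field K] (W₀ : Submodule K (Fin 4 → K))
    (S : Set (Fin 4 → K)) (p q : Fin 4 → AlgebraicClosure K) (i j : Fin 4)
    (hW : Submodule.span (AlgebraicClosure K) {p, q} = ofK W₀)
    (hS : ∀ v ∈ S, v j = 0) (hp : p j = 1) (hq : q j = 0)
    (hqS : q ∈ Submodule.span (AlgebraicClosure K) (up '' S)) (hqi : q i = 1) :
    ∃ v₀ : Fin 4 → K, q = up v₀ := by
  obtain ⟨l1, l2, l3, l4, l5, l6, l7⟩ := hLA K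
  refine l7 (W₀ ⊓ Submodule.span K S) q i ?_ hqi
  rw [l3, l5, ← hW]
  apply le_antisymm
  · rintro v ⟨hv1, hv2⟩
    obtain ⟨x, y, rfl⟩ := Submodule.mem_span_pair.1 hv1
    have h0 : ∀ u ∈ Submodule.span (AlgebraicClosure K) (up '' S), u j = 0 := by
      intro u hu
      induction hu using Submodule.span_induction with
      | mem u hu => obtain ⟨v, hv, rfl⟩ := hu; simp [up, hS v hv]
      | zero => rfl
      | add u v _ _ h1 h2 => simp [h1, h2]
      | smul c u _ h => simp [h]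
    have h1 := h0 _ hv2
    simp [hp, hq] at h1
    rw [h1, zero_smul, zero_add]
    exact Submodule.smul_mem _ _ (Submodule.mem_span_singleton_self q)
  · rw [Submodule.span_singleton_le_iff_mem]
    exact ⟨Submodule.subset_span (by simp), hqS⟩

theorem nf5 (hLA : S_LA) (hD : S_DIST5) (hL : S_LN5) {K : Type} [Field K] (h2 : (2 : K) ≠ 0)
    (a c0 c1 c2 c3 : K) (hF : IsSplit (nf a 1 c0 c1 c2 c3)) :
    ∃ s : Fin 5 → K, dist5 s ∧ nf a 1 c0 c1 c2 c3 = fam5 s := by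
  have h2' := two_ne K h2
  obtain ⟨σ, k1, k2, k3, k4, k5⟩ := choose5 (algebraMap K (AlgebraicClosure K) a)
    (algebraMap K (AlgebraicClosure K) c0) (algebraMap K (AlgebraicClosure K) c1)
    (algebraMap K (AlgebraicClosure K) c2) (algebraMap K (AlgebraicClosure K) c3)
  have hbar : bar (nf a 1 c0 c1 c2 c3) = fam5 σ := by
    rw [bar_nf, fam5, k1, k2, k3, k4, k5, map_one]
  have hdist : dist5 σ := hD _ h2' σ (hbar ▸ hF.smooth)
  have hlines := hL _ h2' σ hdist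
  have hrat : ∀ i, ∃ x : K, algebraMap K (AlgebraicClosure K) x = σ i := by
    intro i
    have hm : L5 σ (.inr (.inl (i, false))) ∈ Lines (bar (nf a 1 c0 c1 c2 c3)) := by
      rw [hbar, hlines]; exact ⟨_, rfl⟩
    obtain ⟨W₀, hW₀⟩ := hF.rat _ hm
    have hspan : (![0, 0, 1, -(sg false) * σ i] : Fin 4 → AlgebraicClosure K) ∈
        Submodule.span (AlgebraicClosure K) (up '' ({![0, 0, 1, 0], ![0, 0, 0, 1]} :
          Set (Fin 4 → K))) := by
      have e : (![0, 0, 1, -(sg false) * σ i] : Fin 4 → AlgebraicClosure K) =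
          up (![0, 0, 1, 0] : Fin 4 → K) + (-(sg false) * σ i) • up (![0, 0, 0, 1] : Fin 4 → K) := by
        funext j; fin_cases j <;> simp [up]
      rw [e]
      exact Submodule.add_mem _ (Submodule.subset_span ⟨_, by simp, rfl⟩)
        (Submodule.smul_mem _ _ (Submodule.subset_span ⟨_, by simp, rfl⟩))
    obtain ⟨v₀, hv₀⟩ := rational hLA W₀ {![0, 0, 1, 0], ![0, 0, 0, 1]} _ _ 2 1 hW₀
      (by rintro v (rfl | rfl) <;> simp) (by simp) (by simp) hspan (by simp)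
    have := congrFun hv₀ 3
    simp [up, sg] at this
    exact ⟨-v₀ 3, by simp [← this]⟩
  choose s hs using hrat
  have inj : Function.Injective (algebraMap K (AlgebraicClosure K)) :=
    (algebraMap K (AlgebraicClosure K)).injective
  refine ⟨s, ?_, ?_⟩
  · intro i j hij h
    exact hdist i j hij (by rw [← hs, ← hs, ← map_pow, ← map_pow, h])
  · have q1 : e1 (fun i => s i ^ 2) = c0 := inj (by rw [← k1]; simp [e1, hs])
    have q2 : e2 (fun i => s i ^ 2) = c1 := inj (by rw [← k2]; simp [e2, hs])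
    have q3 : e3 (fun i => s i ^ 2) = c2 := inj (by rw [← k3]; simp [e3, hs])
    have q4 : e4 (fun i => s i ^ 2) = c3 := inj (by rw [← k4]; simp [e4, hs])
    have q5 : e5 s = a := inj (by rw [← k5]; simp [e5, hs])
    rw [fam5, q1, q2, q3, q4, q5]

theorem nf3 (hLA : S_LA) (hD : S_DIST3) (hL : S_LN3) {K : Type} [Field K] (h2 : (2 : K) ≠ 0)
    (c1 c2 c3 : K) (hF : IsSplit (nf 0 0 1 c1 c2 c3)) :
    ∃ s : Fin 3 → K, dist3 s ∧ nf 0 0 1 c1 c2 c3 = fam3 s := by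
  have h2' := two_ne K h2
  obtain ⟨σ, k1, k2, k3⟩ := choose3 (algebraMap K (AlgebraicClosure K) c1)
    (algebraMap K (AlgebraicClosure K) c2) (algebraMap K (AlgebraicClosure K) c3)
  have hbar : bar (nf 0 0 1 c1 c2 c3) = fam3 σ := by
    rw [bar_nf, fam3, k1, k2, k3, map_one, map_zero]
  have hdist : dist3 σ := hD _ h2' σ (hbar ▸ hF.smooth)
  have hlines := hL _ h2' σ hdist
  have hrat : ∀ i, ∃ x : K, algebraMap K (AlgebraicClosure K) x = σ i := by
    intro i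
    have hm : L3 σ (.inr (.inl (i, false))) ∈ Lines (bar (nf 0 0 1 c1 c2 c3)) := by
      rw [hbar, hlines]; exact ⟨_, rfl⟩
    obtain ⟨W₀, hW₀⟩ := hF.rat _ hm
    have hspan : (![0, 0, 1, (sg false) * σ i] : Fin 4 → AlgebraicClosure K) ∈
        Submodule.span (AlgebraicClosure K) (up '' ({![0, 0, 1, 0], ![0, 0, 0, 1]} :
          Set (Fin 4 → K))) := by
      have e : (![0, 0, 1, (sg false) * σ i] : Fin 4 → AlgebraicClosure K) =
          up (![0, 0, 1, 0] : Fin 4 → K) + ((sg false) * σ i) • up (![0, 0, 0, 1] : Fin 4 → K) := by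
        funext j; fin_cases j <;> simp [up]
      rw [e]
      exact Submodule.add_mem _ (Submodule.subset_span ⟨_, by simp, rfl⟩)
        (Submodule.smul_mem _ _ (Submodule.subset_span ⟨_, by simp, rfl⟩))
    obtain ⟨v₀, hv₀⟩ := rational hLA W₀ {![0, 0, 1, 0], ![0, 0, 0, 1]} _ _ 2 1 hW₀
      (by rintro v (rfl | rfl) <;> simp) (by simp) (by simp) hspan (by simp)
    have := congrFun hv₀ 3
    simp [up, sg] at this
    exact ⟨v₀ 3, by simp [← this]⟩
  choose s hs using hrat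
  have inj : Function.Injective (algebraMap K (AlgebraicClosure K)) :=
    (algebraMap K (AlgebraicClosure K)).injective
  refine ⟨s, ⟨?_, ?_⟩, ?_⟩
  · intro i h
    exact hdist.1 i (by rw [← hs, h, map_zero])
  · intro i j hij h
    exact hdist.2 i j hij (by rw [← hs, ← hs, ← map_pow, ← map_pow, h])
  · have q1 : s 0 ^ 2 + s 1 ^ 2 + s 2 ^ 2 = c1 := inj (by rw [← k1]; simp [hs])
    have q2 : s 0 ^ 2 * s 1 ^ 2 + s 0 ^ 2 * s 2 ^ 2 + s 1 ^ 2 * s 2 ^ 2 = c2 :=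
      inj (by rw [← k2]; simp [hs])
    have q3 : s 0 ^ 2 * s 1 ^ 2 * s 2 ^ 2 = c3 := inj (by rw [← k3]; simp [hs])
    rw [fam3, q1, q2, q3]

/-- scaling of `z` and `w` -/
theorem eqv_scale {K : Type} [Field K] (a b c0 c1 c2 c3 r : K) (hr : r ≠ 0) :
    Eqv (nf a b c0 c1 c2 c3)
      (nf (a / r) (b / r) (c0 / r ^ 2) (c1 / r ^ 2) (c2 / r ^ 2) (c3 / r ^ 2)) := by
  refine ⟨Matrix.diagonal ![1, 1, r, r], ?_, (r ^ 2)⁻¹, inv_ne_zero (pow_ne_zero _ hr), ?_⟩
  · rw [Matrix.det_diagonal, Fin.prod_univ_four, isUnit_iff_ne_zero]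
    simp [hr]
  · have h : (C r * C r⁻¹ : MvPolynomial (Fin 4) K) = 1 := by
      rw [← C_mul, mul_inv_cancel₀ hr, C_1]
    simp only [subst, nf, map_add, map_sub, map_mul, map_pow, aeval_X, algHom_C, algebraMap_eq,
      Fin.sum_univ_four, Matrix.diagonal_apply, div_eq_mul_inv, ← inv_pow]
    simp
    linear_combination (-(C r * C r⁻¹ + 1) * (X 0 * X 2 ^ 2) - (C r * C r⁻¹ + 1) * (X 1 * X 3 ^ 2)
      - C r⁻¹ * C 2 * C a * X 1 ^ 2 * X 2 - C r⁻¹ * C 2 * C b * X 0 ^ 2 * X 3) * h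

/-- the symmetry -/
theorem eqv_swap {K : Type} [Field K] (a b c0 c1 c2 c3 : K) :
    Eqv (nf a b c0 c1 c2 c3) (nf b a c3 c2 c1 c0) := by
  refine ⟨!![0, 1, 0, 0; 1, 0, 0, 0; 0, 0, 0, 1; 0, 0, 1, 0], ?_, 1, one_ne_zero, ?_⟩
  · simp [Matrix.det_succ_row_zero, Fin.sum_univ_succ, show Fin.succAbove (1 : Fin 4) 2 = 3 from rfl]
  · simp only [subst, nf, map_add, map_sub, map_mul, map_pow, aeval_X, algHom_C, algebraMap_eq,
      Fin.sum_univ_four]
    simp
    ring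

theorem c0_ne {K : Type} [Field K] (c0 c1 c2 c3 : K)
    (hF : IsSplit (nf 0 0 c0 c1 c2 c3)) : c0 ≠ 0 := by
  rintro rfl
  obtain ⟨w, hw⟩ := sqroot (algebraMap K (AlgebraicClosure K) c1)
  have h := hF.smooth
  rw [bar_nf] at h
  obtain ⟨i, hi⟩ := h ![1, 0, 0, w] (by intro h; simpa using congrFun h 0) (by simp [nf])
  apply hi
  fin_cases i
  · simp [nf, pderiv_X]
  · simp [nf, pderiv_X, hw]
  · simp [nf, pderiv_X]
  · simp [nf, pderiv_X]

/-- the case `b ≠ 0` -/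
theorem caseb (hLA : S_LA) (hTR : S_TR) (hD : S_DIST5) (hL : S_LN5) {K : Type} [Field K]
    (h2 : (2 : K) ≠ 0) (a b c0 c1 c2 c3 : K) (hb : b ≠ 0) (hF : IsSplit (nf a b c0 c1 c2 c3)) :
    ∃ s : Fin 5 → K, dist5 s ∧ Eqv (nf a b c0 c1 c2 c3) (fam5 s) := by
  have h := eqv_scale a b c0 c1 c2 c3 b hb
  rw [div_self hb] at h
  have hF' := (hTR K _ _ h).1 hF
  obtain ⟨s, hs, e⟩ := nf5 hLA hD hL h2 _ _ _ _ _ hF'
  exact ⟨s, hs, e ▸ h⟩

/-- the case `a = b = 0` -/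
theorem case0 (hLA : S_LA) (hTR : S_TR) (hD : S_DIST3) (hL : S_LN3) {K : Type} [Field K]
    (h2 : (2 : K) ≠ 0) (c0 c1 c2 c3 : K) (hF : IsSplit (nf 0 0 c0 c1 c2 c3)) :
    ∃ s : Fin 3 → K, dist3 s ∧ Eqv (nf 0 0 c0 c1 c2 c3) (fam3 s) := by
  have hc0 := c0_ne c0 c1 c2 c3 hF
  obtain ⟨ρ, hρ⟩ := sqroot (algebraMap K (AlgebraicClosure K) c0)
  have hbar := bar_nf (0 : K) 0 c0 c1 c2 c3
  rw [map_zero] at hbar
  have hm : Submodule.span (AlgebraicClosure K) {![0, 0, 0, 1], ![1, 0, ρ, 0]} ∈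
      Lines (bar (nf 0 0 c0 c1 c2 c3)) := by
    refine ⟨?_, ?_⟩
    · have hli : LinearIndependent (AlgebraicClosure K)
          ![(![0, 0, 0, 1] : Fin 4 → AlgebraicClosure K), ![1, 0, ρ, 0]] := by
        rw [LinearIndependent.pair_iff]
        intro x y hxy
        have q0 := congrFun hxy 0
        have q3 := congrFun hxy 3
        simp at q0 q3
        exact ⟨q3, q0⟩
      have := finrank_span_eq_card hli
      rw [Matrix.range_cons_cons_empty] at this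
      simpa using this
    · intro v hv
      obtain ⟨x, y, rfl⟩ := Submodule.mem_span_pair.1 hv
      rw [hbar]
      simp [nf]
      linear_combination y ^ 3 * hρ
  obtain ⟨W₀, hW₀⟩ := hF.rat _ hm
  have hspan : (![1, 0, ρ, 0] : Fin 4 → AlgebraicClosure K) ∈
      Submodule.span (AlgebraicClosure K) (up '' ({![1, 0, 0, 0], ![0, 0, 1, 0]} :
        Set (Fin 4 → K))) := by
    have e : (![1, 0, ρ, 0] : Fin 4 → AlgebraicClosure K) =
        up (![1, 0, 0, 0] : Fin 4 → K) + ρ • up (![0, 0, 1, 0] : Fin 4 → K) := by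
      funext j; fin_cases j <;> simp [up]
    rw [e]
    exact Submodule.add_mem _ (Submodule.subset_span ⟨_, by simp, rfl⟩)
      (Submodule.smul_mem _ _ (Submodule.subset_span ⟨_, by simp, rfl⟩))
  obtain ⟨v₀, hv₀⟩ := rational hLA W₀ {![1, 0, 0, 0], ![0, 0, 1, 0]} _ _ 0 3 hW₀
    (by rintro v (rfl | rfl) <;> simp) (by simp) (by simp) hspan (by simp)
  have hv := congrFun hv₀ 2
  simp [up] at hv
  have hsq : v₀ 2 ^ 2 = c0 := by
    apply (algebraMap K (AlgebraicClosure K)).injective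
    rw [map_pow, ← hv, hρ]
  have hne : v₀ 2 ≠ 0 := by
    intro h
    rw [h] at hsq
    exact hc0 (by rw [← hsq]; ring)
  have h := eqv_scale 0 0 c0 c1 c2 c3 (v₀ 2) hne
  rw [hsq, zero_div, div_self hc0] at h
  have hF' := (hTR K _ _ h).1 hF
  obtain ⟨s, hs, e⟩ := nf3 hLA hD hL h2 _ _ _ hF'
  exact ⟨s, hs, e ▸ h⟩

end NF2

theorem t_NF2 : S_LA → S_TX → S_TR → S_TRANS → S_DIST5 → S_DIST3 → S_LN5 → S_LN3 → S_NF2 := by
  intro hLA _ hTR hTRANS hD5 hD3 hL5 hL3 K _ h2 a b c0 c1 c2 c3 hF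
  by_cases hb : b = 0
  · by_cases ha : a = 0
    · subst ha hb
      exact Or.inr (NF2.case0 hLA hTR hD3 hL3 h2 c0 c1 c2 c3 hF)
    · have h := NF2.eqv_swap a b c0 c1 c2 c3
      obtain ⟨s, hs, e⟩ := NF2.caseb hLA hTR hD5 hL5 h2 b a c3 c2 c1 c0 ha ((hTR K _ _ h).1 hF)
      exact Or.inl ⟨s, hs, hTRANS K _ _ _ h e⟩
  · exact Or.inl (NF2.caseb hLA hTR hD5 hL5 h2 a b c0 c1 c2 c3 hb hF)

end Pool.Agent.R863.CS
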