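import Pool.Agent.R863.CS.Stm

set_option autoImplicit false

namespace Pool.Agent.R863.CS

open MvPolynomial

namespace PLaux

variable {k : Type} [Field k]

/-- a binary form of discriminant zero is a square -/
lemma bin_sq [IsAlgClosed k] (α β γ : k) (h : β ^ 2 = 4 * α * γ) :
    ∃ p r : k, ∀ w u : k, α * w ^ 2 + β * u * w + γ * u ^ 2 = (p * w + r * u) ^ 2 := by
  obtain ⟨p, hp⟩ := IsAlgClosed.exists_pow_nat_eq α (n := 2) (by norm_num)
  obtain ⟨r, hr⟩ := IsAlgClosed.exists_pow_nat_eq γ (n := 2) (by norm_num)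
  have hb : β ^ 2 = (2 * p * r) ^ 2 := by
    rw [h, ← hp, ← hr]; ring
  rcases sq_eq_sq_iff_eq_or_eq_neg.1 hb with h1 | h1
  · refine ⟨p, r, ?_⟩
    intro w u
    rw [h1, ← hp, ← hr]; ring
  · refine ⟨p, -r, ?_⟩
    intro w u
    rw [h1, ← hp, ← hr]; ring

/-- a ternary quadratic form with a square term and of determinant zero splits -/
lemma split_aux [IsAlgClosed k] (h2 : (2 : k) ≠ 0) (A B C D E G : k) (hA : A ≠ 0)
    (h : 4 * A * C * G + B * D * E - A * E ^ 2 - C * D ^ 2 - B ^ 2 * G = 0) :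
    ∃ l m : Fin 3 → k, ∀ u z w : k,
      A * z ^ 2 + B * z * w + C * w ^ 2 + D * u * z + E * u * w + G * u ^ 2 =
        (l 0 * u + l 1 * z + l 2 * w) * (m 0 * u + m 1 * z + m 2 * w) := by
  obtain ⟨B', hB'⟩ : ∃ B', B = 2 * B' := ⟨B / 2, by field_simp⟩
  obtain ⟨D', hD'⟩ : ∃ D', D = 2 * D' := ⟨D / 2, by field_simp⟩
  subst hB' hD'
  obtain ⟨p, r, hpr⟩ := bin_sq (B' ^ 2 - A * C) (2 * B' * D' - A * E) (D' ^ 2 - A * G) (by
    linear_combination (-A) * h)
  refine ⟨![A⁻¹ * (D' - r), A⁻¹ * A, A⁻¹ * (B' - p)], ![D' + r, A, B' + p], ?_⟩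
  intro u z w
  simp only [Matrix.cons_val_zero, Matrix.cons_val_one, Matrix.cons_val]
  apply mul_left_cancel₀ hA
  have h1 := hpr w u
  have hAA : A * A⁻¹ = 1 := mul_inv_cancel₀ hA
  have e1 : A * ((A⁻¹ * (D' - r) * u + A⁻¹ * A * z + A⁻¹ * (B' - p) * w) *
      ((D' + r) * u + A * z + (B' + p) * w)) =
      (A * A⁻¹) * (((D' - r) * u + A * z + (B' - p) * w) *
      ((D' + r) * u + A * z + (B' + p) * w)) := by ring
  rw [e1, hAA]
  linear_combination -h1

lemma split_form [IsAlgClosed k] (h2 : (2 : k) ≠ 0) (A B C D E G : k)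
    (h : 4 * A * C * G + B * D * E - A * E ^ 2 - C * D ^ 2 - B ^ 2 * G = 0) :
    ∃ l m : Fin 3 → k, ∀ u z w : k,
      A * z ^ 2 + B * z * w + C * w ^ 2 + D * u * z + E * u * w + G * u ^ 2 =
        (l 0 * u + l 1 * z + l 2 * w) * (m 0 * u + m 1 * z + m 2 * w) := by
  by_cases hA : A = 0
  · by_cases hC : C = 0
    · subst hA hC
      by_cases hB : B = 0
      · subst hB
        refine ⟨![1, 0, 0], ![G, D, E], ?_⟩
        intro u z w
        simp only [Matrix.cons_val_zero, Matrix.cons_val_one, Matrix.cons_val]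
        ring
      · have hG : D * E = B * G := by
          apply mul_left_cancel₀ hB
          linear_combination h
        have hBB : B * B⁻¹ = 1 := mul_inv_cancel₀ hB
        refine ⟨![B⁻¹ * E, B⁻¹ * B, 0], ![D, 0, B], ?_⟩
        intro u z w
        simp only [Matrix.cons_val_zero, Matrix.cons_val_one, Matrix.cons_val]
        apply mul_left_cancel₀ hB
        have e1 : B * ((B⁻¹ * E * u + B⁻¹ * B * z + 0 * w) * (D * u + 0 * z + B * w)) =
          (B * B⁻¹) * ((E * u + B * z) * (D * u + B * w)) := by ring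
        rw [e1, hBB]
        linear_combination (-u ^ 2) * hG
    · obtain ⟨l, m, hlm⟩ := split_aux h2 C B A E D G hC (by linear_combination h)
      refine ⟨![l 0, l 2, l 1], ![m 0, m 2, m 1], ?_⟩
      intro u z w
      have h1 := hlm u w z
      simp only [Matrix.cons_val_zero, Matrix.cons_val_one, Matrix.cons_val]
      linear_combination h1
  · exact split_aux h2 A B C D E G hA h

/-- the determinant of the plane section -/
def Del (a b : Fin 3 → k) (c d e : Fin 2 → k) (g : Fin 4 → k) (s t : k) : k :=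
  4 * (s * a 0 + t * b 0) * (s * a 2 + t * b 2)
      * (g 0 * s ^ 3 + g 1 * s ^ 2 * t + g 2 * s * t ^ 2 + g 3 * t ^ 3)
    + (s * a 1 + t * b 1) * (s ^ 2 * c 0 + s * t * d 0 + t ^ 2 * e 0)
      * (s ^ 2 * c 1 + s * t * d 1 + t ^ 2 * e 1)
    - (s * a 0 + t * b 0) * (s ^ 2 * c 1 + s * t * d 1 + t ^ 2 * e 1) ^ 2
    - (s * a 2 + t * b 2) * (s ^ 2 * c 0 + s * t * d 0 + t ^ 2 * e 0) ^ 2
    - (s * a 1 + t * b 1) ^ 2 * (g 0 * s ^ 3 + g 1 * s ^ 2 * t + g 2 * s * t ^ 2 + g 3 * t ^ 3)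

lemma Del_hom (a b : Fin 3 → k) (c d e : Fin 2 → k) (g : Fin 4 → k) (r s t : k) :
    Del a b c d e g (r * s) (r * t) = r ^ 5 * Del a b c d e g s t := by
  unfold Del
  ring

lemma Del_poly (a b : Fin 3 → k) (c d e : Fin 2 → k) (g : Fin 4 → k) :
    ∃ P : Polynomial k, ∀ t : k, P.eval t = Del a b c d e g 1 t := by
  refine ⟨4 * (Polynomial.C (a 0) + Polynomial.X * Polynomial.C (b 0))
      * (Polynomial.C (a 2) + Polynomial.X * Polynomial.C (b 2))
      * (Polynomial.C (g 0) + Polynomial.C (g 1) * Polynomial.X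
        + Polynomial.C (g 2) * Polynomial.X ^ 2 + Polynomial.C (g 3) * Polynomial.X ^ 3)
    + (Polynomial.C (a 1) + Polynomial.X * Polynomial.C (b 1))
      * (Polynomial.C (c 0) + Polynomial.X * Polynomial.C (d 0)
        + Polynomial.X ^ 2 * Polynomial.C (e 0))
      * (Polynomial.C (c 1) + Polynomial.X * Polynomial.C (d 1)
        + Polynomial.X ^ 2 * Polynomial.C (e 1))
    - (Polynomial.C (a 0) + Polynomial.X * Polynomial.C (b 0))
      * (Polynomial.C (c 1) + Polynomial.X * Polynomial.C (d 1)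
        + Polynomial.X ^ 2 * Polynomial.C (e 1)) ^ 2
    - (Polynomial.C (a 2) + Polynomial.X * Polynomial.C (b 2))
      * (Polynomial.C (c 0) + Polynomial.X * Polynomial.C (d 0)
        + Polynomial.X ^ 2 * Polynomial.C (e 0)) ^ 2
    - (Polynomial.C (a 1) + Polynomial.X * Polynomial.C (b 1)) ^ 2
      * (Polynomial.C (g 0) + Polynomial.C (g 1) * Polynomial.X
        + Polynomial.C (g 2) * Polynomial.X ^ 2 + Polynomial.C (g 3) * Polynomial.X ^ 3), ?_⟩
  intro t
  simp only [Polynomial.eval_add, Polynomial.eval_sub, Polynomial.eval_mul, Polynomial.eval_pow,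
    Polynomial.eval_C, Polynomial.eval_X, Polynomial.eval_ofNat]
  unfold Del
  ring

lemma Del_poly' (a b : Fin 3 → k) (c d e : Fin 2 → k) (g : Fin 4 → k) :
    ∃ P : Polynomial k, ∀ t : k, P.eval t = Del a b c d e g t 1 := by
  obtain ⟨P, hP⟩ := Del_poly b a e d c ![g 3, g 2, g 1, g 0]
  refine ⟨P, ?_⟩
  intro t
  rw [hP]
  unfold Del
  simp only [Matrix.cons_val_zero, Matrix.cons_val_one, Matrix.cons_val]
  ring

lemma Del_zero [IsAlgClosed k] (a b : Fin 3 → k) (c d e : Fin 2 → k) (g : Fin 4 → k) :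
    ∃ s t : k, (s ≠ 0 ∨ t ≠ 0) ∧ Del a b c d e g s t = 0 := by
  obtain ⟨P, hP⟩ := Del_poly a b c d e g
  by_cases hroot : ∃ t, P.eval t = 0
  · obtain ⟨t, ht⟩ := hroot
    exact ⟨1, t, Or.inl one_ne_zero, by rw [← hP]; exact ht⟩
  have hdeg : P.degree = 0 := by
    by_contra hne
    obtain ⟨t, ht⟩ := IsAlgClosed.exists_root P hne
    exact hroot ⟨t, ht⟩
  have hconst : P = Polynomial.C (P.coeff 0) := Polynomial.eq_C_of_degree_eq_zero hdeg
  obtain ⟨Q, hQ⟩ := Del_poly' a b c d e g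
  have hinf : Infinite k := IsAlgClosed.instInfinite
  have hz : Q - Polynomial.C (P.coeff 0) * Polynomial.X ^ 5 = 0 := by
    apply Polynomial.eq_zero_of_infinite_isRoot
    apply Set.Infinite.mono (s := {x : k | x ≠ 0})
    · intro x hx
      have hx' : x ≠ 0 := hx
      show Polynomial.eval x (Q - Polynomial.C (P.coeff 0) * Polynomial.X ^ 5) = 0
      rw [Polynomial.eval_sub, hQ, Polynomial.eval_mul, Polynomial.eval_C, Polynomial.eval_pow,
        Polynomial.eval_X]
      have h1 : Del a b c d e g x 1 = x ^ 5 * Del a b c d e g 1 x⁻¹ := by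
        rw [← Del_hom, mul_one, mul_inv_cancel₀ hx']
      rw [h1, ← hP, hconst, Polynomial.eval_C, Polynomial.coeff_C_zero]
      ring
    · exact Set.infinite_of_finite_compl (by
        have : {x : k | x ≠ 0}ᶜ = {0} := by
          ext x; simp
        rw [this]
        exact Set.finite_singleton 0)
  refine ⟨0, 1, Or.inr one_ne_zero, ?_⟩
  rw [← hQ, sub_eq_zero.1 hz]
  simp

end PLaux

open PLaux in
theorem t_PL : S_PL := by
  intro k _ _ h2 a b c d e g
  obtain ⟨s, t, hst, hD⟩ := Del_zero a b c d e g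
  obtain ⟨l, m, hlm⟩ := split_form h2 (s * a 0 + t * b 0) (s * a 1 + t * b 1) (s * a 2 + t * b 2)
    (s ^ 2 * c 0 + s * t * d 0 + t ^ 2 * e 0) (s ^ 2 * c 1 + s * t * d 1 + t ^ 2 * e 1)
    (g 0 * s ^ 3 + g 1 * s ^ 2 * t + g 2 * s * t ^ 2 + g 3 * t ^ 3) hD
  refine ⟨s, t, l, m, hst, ?_⟩
  intro u z w
  rw [mul_assoc, ← hlm u z w]
  simp [cub16]
  ring

end Pool.Agent.R863.CS
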