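import Pool.Agent.R863.CS.Stm

/-! CS-QF: fixed points of a pencil of binary quadratic forms (MP_f18d96_ag). -/

set_option autoImplicit false

namespace Pool.Agent.R863.CS

theorem qf_nozero {K : Type} [Field K] (u0 u1 u2 v0 v1 v2 x y : K)
    (hR : (u0 * v2 - u2 * v0) ^ 2 - (u0 * v1 - u1 * v0) * (u1 * v2 - u2 * v1) ≠ 0)
    (hxy : x ≠ 0 ∨ y ≠ 0) (hU : u0 * x ^ 2 + u1 * x * y + u2 * y ^ 2 = 0)
    (hV : v0 * x ^ 2 + v1 * x * y + v2 * y ^ 2 = 0) : False := by
  have h1 : y * ((u0 * v1 - u1 * v0) * x + (u0 * v2 - u2 * v0) * y) = 0 := by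
    linear_combination (-v0) * hU + u0 * hV
  have h2 : x * ((u0 * v2 - u2 * v0) * x + (u1 * v2 - u2 * v1) * y) = 0 := by
    linear_combination v2 * hU - u2 * hV
  have h3 : (u0 * v1 - u1 * v0) * x ^ 2 - (u1 * v2 - u2 * v1) * y ^ 2 = 0 := by
    linear_combination v1 * hU - u1 * hV
  apply hR
  by_cases hx : x = 0
  · have hy : y ≠ 0 := by
      rcases hxy with h | h
      · exact absurd hx h
      · exact h
    have h4 : (u0 * v2 - u2 * v0) * y ^ 2 = 0 := by
      rw [hx] at h1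
      linear_combination h1
    have h5 : (u1 * v2 - u2 * v1) * y ^ 2 = 0 := by
      rw [hx] at h3
      linear_combination -h3
    have hy2 : y ^ 2 ≠ 0 := pow_ne_zero 2 hy
    have h6 := (mul_eq_zero.1 h4).resolve_right hy2
    have h7 := (mul_eq_zero.1 h5).resolve_right hy2
    rw [h6, h7]
    ring
  · by_cases hy : y = 0
    · have h4 : (u0 * v2 - u2 * v0) * x ^ 2 = 0 := by
        rw [hy] at h2
        linear_combination h2
      have h5 : (u0 * v1 - u1 * v0) * x ^ 2 = 0 := by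
        rw [hy] at h3
        linear_combination h3
      have hx2 : x ^ 2 ≠ 0 := pow_ne_zero 2 hx
      have h6 := (mul_eq_zero.1 h4).resolve_right hx2
      have h7 := (mul_eq_zero.1 h5).resolve_right hx2
      rw [h6, h7]
      ring
    · have h6 := (mul_eq_zero.1 h1).resolve_left hy
      have h7 := (mul_eq_zero.1 h2).resolve_left hx
      have h8 : ((u0 * v2 - u2 * v0) ^ 2 - (u0 * v1 - u1 * v0) * (u1 * v2 - u2 * v1)) * y = 0 := by
        linear_combination (u0 * v2 - u2 * v0) * h6 - (u0 * v1 - u1 * v0) * h7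
      exact (mul_eq_zero.1 h8).resolve_right hy

theorem t_QF : S_QF := by
  intro K _ _ u v hR
  generalize u 0 = u0 at *
  generalize u 1 = u1 at *
  generalize u 2 = u2 at *
  generalize v 0 = v0 at *
  generalize v 1 = v1 at *
  generalize v 2 = v2 at *
  set φ := algebraMap K (AlgebraicClosure K) with hφ
  have hinj : Function.Injective φ := φ.injective
  constructor
  · rintro ⟨x, y, hxy, h⟩
    -- the other point of the fibre
    set x' := (u0 * v2 - u2 * v0) * x + (u1 * v2 - u2 * v1) * y with hx'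
    set y' := -((u0 * v1 - u1 * v0) * x + (u0 * v2 - u2 * v0) * y) with hy'
    have hne : x' ≠ 0 ∨ y' ≠ 0 := by
      by_contra hcon
      push Not at hcon
      obtain ⟨h1, h2⟩ := hcon
      have h3 : ((u0 * v2 - u2 * v0) ^ 2 - (u0 * v1 - u1 * v0) * (u1 * v2 - u2 * v1)) * x = 0 := by
        rw [hx'] at h1
        rw [hy'] at h2
        linear_combination (u0 * v2 - u2 * v0) * h1 + (u1 * v2 - u2 * v1) * h2
      have h4 : ((u0 * v2 - u2 * v0) ^ 2 - (u0 * v1 - u1 * v0) * (u1 * v2 - u2 * v1)) * y = 0 := by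
        rw [hx'] at h1
        rw [hy'] at h2
        linear_combination -(u0 * v1 - u1 * v0) * h1 - (u0 * v2 - u2 * v0) * h2
      rcases hxy with h5 | h5
      · exact h5 ((mul_eq_zero.1 h3).resolve_left hR)
      · exact h5 ((mul_eq_zero.1 h4).resolve_left hR)
    have hc : ∃ c : K, u0 * x' ^ 2 + u1 * x' * y' + u2 * y' ^ 2 =
        c * (u0 * x ^ 2 + u1 * x * y + u2 * y ^ 2) ∧
        v0 * x' ^ 2 + v1 * x' * y' + v2 * y' ^ 2 = c * (v0 * x ^ 2 + v1 * x * y + v2 * y ^ 2) := by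
      have hW : (u0 * x' ^ 2 + u1 * x' * y' + u2 * y' ^ 2) * (v0 * x ^ 2 + v1 * x * y + v2 * y ^ 2)
          = (v0 * x' ^ 2 + v1 * x' * y' + v2 * y' ^ 2) *
            (u0 * x ^ 2 + u1 * x * y + u2 * y ^ 2) := by
        rw [hx', hy']
        ring
      by_cases hU : u0 * x ^ 2 + u1 * x * y + u2 * y ^ 2 = 0
      · have hV : v0 * x ^ 2 + v1 * x * y + v2 * y ^ 2 ≠ 0 := fun hV =>
          qf_nozero u0 u1 u2 v0 v1 v2 x y hR hxy hU hV
        refine ⟨(v0 * x' ^ 2 + v1 * x' * y' + v2 * y' ^ 2) /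
          (v0 * x ^ 2 + v1 * x * y + v2 * y ^ 2), ?_, ?_⟩
        · rw [hU, mul_zero]
          rw [hU, mul_zero] at hW
          exact (mul_eq_zero.1 hW).resolve_right hV
        · rw [div_mul_cancel₀ _ hV]
      · refine ⟨(u0 * x' ^ 2 + u1 * x' * y' + u2 * y' ^ 2) /
          (u0 * x ^ 2 + u1 * x * y + u2 * y ^ 2), ?_, ?_⟩
        · rw [div_mul_cancel₀ _ hU]
        · rw [div_mul_eq_mul_div, hW, mul_div_assoc, div_self hU, mul_one]
    obtain ⟨c, hc1, hc2⟩ := hc
    have h1 := h (φ x') (φ y') (by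
      rcases hne with h | h
      · left
        exact fun h0 => h (hinj (by rw [h0, map_zero]))
      · right
        exact fun h0 => h (hinj (by rw [h0, map_zero]))) ⟨φ c, by
        have e := congrArg φ hc1
        simp only [map_add, map_mul, map_pow] at e ⊢
        linear_combination e, by
        have e := congrArg φ hc2
        simp only [map_add, map_mul, map_pow] at e ⊢
        linear_combination e⟩
    rw [← map_mul, ← map_mul] at h1
    have h2 := hinj h1
    have hJ : (u0 * v1 - u1 * v0) * x ^ 2 + 2 * (u0 * v2 - u2 * v0) * x * y +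
        (u1 * v2 - u2 * v1) * y ^ 2 = 0 := by
      rw [hx', hy'] at h2
      linear_combination h2
    by_cases hy0 : y = 0
    · have hx0 : x ≠ 0 := by
        rcases hxy with h | h
        · exact h
        · exact absurd hy0 h
      have h3 : (u0 * v1 - u1 * v0) * x ^ 2 = 0 := by
        rw [hy0] at hJ
        linear_combination hJ
      have h4 := (mul_eq_zero.1 h3).resolve_right (pow_ne_zero 2 hx0)
      refine ⟨u0 * v2 - u2 * v0, ?_⟩
      rw [h4]
      ring
    · refine ⟨((u0 * v1 - u1 * v0) * x + (u0 * v2 - u2 * v0) * y) / y, ?_⟩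
      rw [div_mul_div_comm, eq_div_iff (mul_ne_zero hy0 hy0)]
      linear_combination -(u0 * v1 - u1 * v0) * hJ
  · rintro ⟨r, hr⟩
    have hex : ∃ x y : K, (x ≠ 0 ∨ y ≠ 0) ∧ (u0 * v1 - u1 * v0) * x ^ 2 +
        2 * (u0 * v2 - u2 * v0) * x * y + (u1 * v2 - u2 * v1) * y ^ 2 = 0 := by
      by_cases hA : u0 * v1 - u1 * v0 = 0
      · refine ⟨1, 0, Or.inl one_ne_zero, ?_⟩
        rw [hA]
        ring
      · refine ⟨r - (u0 * v2 - u2 * v0), u0 * v1 - u1 * v0, Or.inr hA, ?_⟩
        linear_combination -(u0 * v1 - u1 * v0) * hr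
    obtain ⟨x, y, hxy, hJ⟩ := hex
    refine ⟨x, y, hxy, ?_⟩
    rintro x' y' - ⟨c, h1, h2⟩
    have hne : (u0 * v1 - u1 * v0) * x + (u0 * v2 - u2 * v0) * y ≠ 0 ∨
        (u0 * v2 - u2 * v0) * x + (u1 * v2 - u2 * v1) * y ≠ 0 := by
      by_contra hcon
      push Not at hcon
      obtain ⟨h1, h2⟩ := hcon
      have h3 : ((u0 * v2 - u2 * v0) ^ 2 - (u0 * v1 - u1 * v0) * (u1 * v2 - u2 * v1)) * x = 0 := by
        linear_combination (u0 * v2 - u2 * v0) * h2 - (u1 * v2 - u2 * v1) * h1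
      have h4 : ((u0 * v2 - u2 * v0) ^ 2 - (u0 * v1 - u1 * v0) * (u1 * v2 - u2 * v1)) * y = 0 := by
        linear_combination (u0 * v2 - u2 * v0) * h1 - (u0 * v1 - u1 * v0) * h2
      rcases hxy with h5 | h5
      · exact h5 ((mul_eq_zero.1 h3).resolve_left hR)
      · exact h5 ((mul_eq_zero.1 h4).resolve_left hR)
    have hJ' := congrArg φ hJ
    simp only [map_add, map_mul, map_pow, map_sub, map_zero, map_ofNat] at h1 h2 hJ'
    by_contra hcon
    have hd : x' * φ y - y' * φ x ≠ 0 := sub_ne_zero.2 hcon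
    have hL : ((φ u0 * φ v1 - φ u1 * φ v0) * φ x + (φ u0 * φ v2 - φ u2 * φ v0) * φ y) * x' +
        ((φ u0 * φ v2 - φ u2 * φ v0) * φ x + (φ u1 * φ v2 - φ u2 * φ v1) * φ y) * y' = 0 := by
      have h3 : (x' * φ y - y' * φ x) *
          (((φ u0 * φ v1 - φ u1 * φ v0) * φ x + (φ u0 * φ v2 - φ u2 * φ v0) * φ y) * x' +
          ((φ u0 * φ v2 - φ u2 * φ v0) * φ x + (φ u1 * φ v2 - φ u2 * φ v1) * φ y) * y') = 0 := by
        linear_combination (φ v0 * φ x ^ 2 + φ v1 * φ x * φ y + φ v2 * φ y ^ 2) * h1 -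
          (φ u0 * φ x ^ 2 + φ u1 * φ x * φ y + φ u2 * φ y ^ 2) * h2
      exact (mul_eq_zero.1 h3).resolve_left hd
    rcases hne with h | h
    · have h4 : ((φ u0 * φ v1 - φ u1 * φ v0) * φ x + (φ u0 * φ v2 - φ u2 * φ v0) * φ y) *
          (x' * φ y - y' * φ x) = 0 := by
        linear_combination φ y * hL - y' * hJ'
      have h5 := (mul_eq_zero.1 h4).resolve_right hd
      apply h
      apply hinj
      rw [map_zero]
      simp only [map_add, map_mul, map_sub]
      exact h5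
    · have h4 : ((φ u0 * φ v2 - φ u2 * φ v0) * φ x + (φ u1 * φ v2 - φ u2 * φ v1) * φ y) *
          (x' * φ y - y' * φ x) = 0 := by
        linear_combination -φ x * hL + x' * hJ'
      have h5 := (mul_eq_zero.1 h4).resolve_right hd
      apply h
      apply hinj
      rw [map_zero]
      simp only [map_add, map_mul, map_sub]
      exact h5

end Pool.Agent.R863.CS
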