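import Pool.Agent.R863.CS.Stm

set_option autoImplicit false

namespace Pool.Agent.R863.CS

open MvPolynomial

section SM

variable {k : Type} [Field k]

theorem sm_eval (a b c0 c1 c2 c3 : k) (v : Fin 4 → k) : eval v (nf a b c0 c1 c2 c3) =
    v 0 * v 2 ^ 2 + v 1 * v 3 ^ 2 + 2 * a * v 1 ^ 2 * v 2 + 2 * b * v 0 ^ 2 * v 3
      - (c0 * v 0 ^ 3 + c1 * v 0 ^ 2 * v 1 + c2 * v 0 * v 1 ^ 2 + c3 * v 1 ^ 3) := by
  simp [nf]

theorem sm_d0 (a b c0 c1 c2 c3 : k) (v : Fin 4 → k) : eval v (pderiv 0 (nf a b c0 c1 c2 c3)) =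
    v 2 ^ 2 + 4 * b * v 0 * v 3 - (3 * c0 * v 0 ^ 2 + 2 * c1 * v 0 * v 1 + c2 * v 1 ^ 2) := by
  simp [nf, pderiv_X, Derivation.leibniz, Derivation.leibniz_pow]
  ring

theorem sm_d1 (a b c0 c1 c2 c3 : k) (v : Fin 4 → k) : eval v (pderiv 1 (nf a b c0 c1 c2 c3)) =
    v 3 ^ 2 + 4 * a * v 1 * v 2 - (c1 * v 0 ^ 2 + 2 * c2 * v 0 * v 1 + 3 * c3 * v 1 ^ 2) := by
  simp [nf, pderiv_X, Derivation.leibniz, Derivation.leibniz_pow]
  ring

theorem sm_d2 (a b c0 c1 c2 c3 : k) (v : Fin 4 → k) : eval v (pderiv 2 (nf a b c0 c1 c2 c3)) =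
    2 * (v 0 * v 2 + a * v 1 ^ 2) := by
  simp [nf, pderiv_X, Derivation.leibniz, Derivation.leibniz_pow]
  ring

theorem sm_d3 (a b c0 c1 c2 c3 : k) (v : Fin 4 → k) : eval v (pderiv 3 (nf a b c0 c1 c2 c3)) =
    2 * (v 1 * v 3 + b * v 0 ^ 2) := by
  simp [nf, pderiv_X, Derivation.leibniz, Derivation.leibniz_pow]
  ring

theorem t_SM5 : S_SM5 := by
  intro k _ h2 s hs v hv hF
  by_contra hcon
  push Not at hcon
  have g0 := hcon 0
  have g1 := hcon 1
  have g2 := hcon 2
  have g3 := hcon 3
  unfold fam5 at hF g0 g1 g2 g3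
  rw [sm_eval] at hF
  rw [sm_d0] at g0
  rw [sm_d1] at g1
  rw [sm_d2] at g2
  rw [sm_d3] at g3
  have g2' : v 0 * v 2 + e5 s * v 1 ^ 2 = 0 := (mul_eq_zero.1 g2).resolve_left h2
  have g3' : v 1 * v 3 + 1 * v 0 ^ 2 = 0 := (mul_eq_zero.1 g3).resolve_left h2
  by_cases hy : v 1 = 0
  · have hx : v 0 = 0 := by
      rw [hy] at g3'
      have : v 0 ^ 2 = 0 := by linear_combination g3'
      exact pow_eq_zero_iff (two_ne_zero) |>.1 this
    rw [hx, hy] at g0 g1
    have hz : v 2 = 0 := by
      have : v 2 ^ 2 = 0 := by linear_combination g0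
      exact pow_eq_zero_iff (two_ne_zero) |>.1 this
    have hw : v 3 = 0 := by
      have : v 3 ^ 2 = 0 := by linear_combination g1
      exact pow_eq_zero_iff (two_ne_zero) |>.1 this
    apply hv
    funext i
    fin_cases i <;> simp [hx, hy, hz, hw]
  by_cases hx : v 0 = 0
  · rw [hx] at g2' g3'
    have ha : e5 s = 0 := by
      have : e5 s * v 1 ^ 2 = 0 := by linear_combination g2'
      exact (mul_eq_zero.1 this).resolve_right (pow_ne_zero 2 hy)
    have hw : v 3 = 0 := by
      have : v 1 * v 3 = 0 := by linear_combination g3'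
      exact (mul_eq_zero.1 this).resolve_left hy
    rw [hx, hw, ha] at hF
    have hc3 : (e4 fun i => s i ^ 2) = 0 := by
      have : (e4 fun i => s i ^ 2) * v 1 ^ 3 = 0 := by linear_combination -hF
      exact (mul_eq_zero.1 this).resolve_right (pow_ne_zero 3 hy)
    have hne : ∀ i j, i ≠ j → s i = 0 → s j ≠ 0 := by
      intro i j hij hi hj
      apply hs i j hij
      rw [hi, hj]
    unfold e5 at ha
    simp only [e4] at hc3
    simp only [mul_eq_zero] at ha
    rcases ha with (((h | h) | h) | h) | h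
    · rw [h] at hc3
      have : s 1 ^ 2 * s 2 ^ 2 * s 3 ^ 2 * s 4 ^ 2 = 0 := by linear_combination hc3
      simp only [mul_eq_zero, pow_eq_zero_iff two_ne_zero] at this
      rcases this with ((h' | h') | h') | h'
      · exact hne 0 1 (by decide) h h'
      · exact hne 0 2 (by decide) h h'
      · exact hne 0 3 (by decide) h h'
      · exact hne 0 4 (by decide) h h'
    · rw [h] at hc3
      have : s 0 ^ 2 * s 2 ^ 2 * s 3 ^ 2 * s 4 ^ 2 = 0 := by linear_combination hc3
      simp only [mul_eq_zero, pow_eq_zero_iff two_ne_zero] at this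
      rcases this with ((h' | h') | h') | h'
      · exact hne 1 0 (by decide) h h'
      · exact hne 1 2 (by decide) h h'
      · exact hne 1 3 (by decide) h h'
      · exact hne 1 4 (by decide) h h'
    · rw [h] at hc3
      have : s 0 ^ 2 * s 1 ^ 2 * s 3 ^ 2 * s 4 ^ 2 = 0 := by linear_combination hc3
      simp only [mul_eq_zero, pow_eq_zero_iff two_ne_zero] at this
      rcases this with ((h' | h') | h') | h'
      · exact hne 2 0 (by decide) h h'
      · exact hne 2 1 (by decide) h h'
      · exact hne 2 3 (by decide) h h'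
      · exact hne 2 4 (by decide) h h'
    · rw [h] at hc3
      have : s 0 ^ 2 * s 1 ^ 2 * s 2 ^ 2 * s 4 ^ 2 = 0 := by linear_combination hc3
      simp only [mul_eq_zero, pow_eq_zero_iff two_ne_zero] at this
      rcases this with ((h' | h') | h') | h'
      · exact hne 3 0 (by decide) h h'
      · exact hne 3 1 (by decide) h h'
      · exact hne 3 2 (by decide) h h'
      · exact hne 3 4 (by decide) h h'
    · rw [h] at hc3
      have : s 0 ^ 2 * s 1 ^ 2 * s 2 ^ 2 * s 3 ^ 2 = 0 := by linear_combination hc3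
      simp only [mul_eq_zero, pow_eq_zero_iff two_ne_zero] at this
      rcases this with ((h' | h') | h') | h'
      · exact hne 4 0 (by decide) h h'
      · exact hne 4 1 (by decide) h h'
      · exact hne 4 2 (by decide) h h'
      · exact hne 4 3 (by decide) h h'
  · -- the generic case
    have hkey : ∀ i j, i ≠ j → v 0 + s i ^ 2 * v 1 = 0 → v 0 + s j ^ 2 * v 1 = 0 → False := by
      intro i j hij h h'
      apply hs i j hij
      have : (s i ^ 2 - s j ^ 2) * v 1 = 0 := by linear_combination h - h'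
      exact sub_eq_zero.1 ((mul_eq_zero.1 this).resolve_right hy)
    obtain ⟨A0, hA0⟩ : ∃ A0, A0 = v 0 + s 0 ^ 2 * v 1 := ⟨_, rfl⟩
    obtain ⟨A1, hA1⟩ : ∃ A1, A1 = v 0 + s 1 ^ 2 * v 1 := ⟨_, rfl⟩
    obtain ⟨A2, hA2⟩ : ∃ A2, A2 = v 0 + s 2 ^ 2 * v 1 := ⟨_, rfl⟩
    obtain ⟨A3, hA3⟩ : ∃ A3, A3 = v 0 + s 3 ^ 2 * v 1 := ⟨_, rfl⟩
    obtain ⟨A4, hA4⟩ : ∃ A4, A4 = v 0 + s 4 ^ 2 * v 1 := ⟨_, rfl⟩
    have hP : A0 * A1 * A2 * A3 * A4 = 0 := by
      rw [hA0, hA1, hA2, hA3, hA4]
      simp only [e1, e2, e3, e4, e5] at hF g2' g3' ⊢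
      linear_combination (-(v 0 * v 1)) * hF + v 1 * (v 0 * v 2 + (s 0 * s 1 * s 2 * s 3 * s 4) * v 1 ^ 2) * g2' + v 0 * (v 1 * v 3 + v 0 ^ 2) * g3'
    have hPx : A1 * A2 * A3 * A4 + A0 * A2 * A3 * A4 + A0 * A1 * A3 * A4 + A0 * A1 * A2 * A4 +
        A0 * A1 * A2 * A3 = 0 := by
      rw [hA0, hA1, hA2, hA3, hA4]
      simp only [e1, e2, e3, e4, e5] at hF g0 g2' g3' ⊢
      linear_combination (-(v 1)) * hF - (v 0 * v 1) * g0 + 2 * v 1 * v 2 * g2' + (v 1 * v 3 + 5 * v 0 ^ 2) * g3'
    have hkey : ∀ i j, i ≠ j → (![A0, A1, A2, A3, A4] : Fin 5 → k) i = 0 →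
        (![A0, A1, A2, A3, A4] : Fin 5 → k) j = 0 → False := by
      have hA : ∀ i, (![A0, A1, A2, A3, A4] : Fin 5 → k) i = v 0 + s i ^ 2 * v 1 := by
        intro i
        fin_cases i <;> simp [hA0, hA1, hA2, hA3, hA4]
      intro i j hij h h'
      rw [hA] at h h'
      exact hkey i j hij h h'
    simp only [mul_eq_zero] at hP
    rcases hP with (((h | h) | h) | h) | h
    · have hp : A1 * A2 * A3 * A4 = 0 := by
        have := hPx
        rw [h] at this
        linear_combination this
      simp only [mul_eq_zero] at hp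
      rcases hp with ((h2 | h2) | h2) | h2
      · exact hkey 0 1 (by decide) h h2
      · exact hkey 0 2 (by decide) h h2
      · exact hkey 0 3 (by decide) h h2
      · exact hkey 0 4 (by decide) h h2
    · have hp : A0 * A2 * A3 * A4 = 0 := by
        have := hPx
        rw [h] at this
        linear_combination this
      simp only [mul_eq_zero] at hp
      rcases hp with ((h2 | h2) | h2) | h2
      · exact hkey 1 0 (by decide) h h2
      · exact hkey 1 2 (by decide) h h2
      · exact hkey 1 3 (by decide) h h2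
      · exact hkey 1 4 (by decide) h h2
    · have hp : A0 * A1 * A3 * A4 = 0 := by
        have := hPx
        rw [h] at this
        linear_combination this
      simp only [mul_eq_zero] at hp
      rcases hp with ((h2 | h2) | h2) | h2
      · exact hkey 2 0 (by decide) h h2
      · exact hkey 2 1 (by decide) h h2
      · exact hkey 2 3 (by decide) h h2
      · exact hkey 2 4 (by decide) h h2
    · have hp : A0 * A1 * A2 * A4 = 0 := by
        have := hPx
        rw [h] at this
        linear_combination this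
      simp only [mul_eq_zero] at hp
      rcases hp with ((h2 | h2) | h2) | h2
      · exact hkey 3 0 (by decide) h h2
      · exact hkey 3 1 (by decide) h h2
      · exact hkey 3 2 (by decide) h h2
      · exact hkey 3 4 (by decide) h h2
    · have hp : A0 * A1 * A2 * A3 = 0 := by
        have := hPx
        rw [h] at this
        linear_combination this
      simp only [mul_eq_zero] at hp
      rcases hp with ((h2 | h2) | h2) | h2
      · exact hkey 4 0 (by decide) h h2
      · exact hkey 4 1 (by decide) h h2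
      · exact hkey 4 2 (by decide) h h2
      · exact hkey 4 3 (by decide) h h2

theorem t_SM3 : S_SM3 := by
  intro k _ h2 s hs v hv hF
  obtain ⟨hs0, hs⟩ := hs
  by_contra hcon
  push Not at hcon
  have g0 := hcon 0
  have g1 := hcon 1
  have g2 := hcon 2
  have g3 := hcon 3
  unfold fam3 at hF g0 g1 g2 g3
  rw [sm_eval] at hF
  rw [sm_d0] at g0
  rw [sm_d1] at g1
  rw [sm_d2] at g2
  rw [sm_d3] at g3
  have g2' : v 0 * v 2 = 0 := by
    have := (mul_eq_zero.1 g2).resolve_left h2
    linear_combination this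
  have g3' : v 1 * v 3 = 0 := by
    have := (mul_eq_zero.1 g3).resolve_left h2
    linear_combination this
  by_cases hy : v 1 = 0
  · by_cases hx : v 0 = 0
    · rw [hx, hy] at g0 g1
      have hz : v 2 = 0 := by
        have : v 2 ^ 2 = 0 := by linear_combination g0
        exact pow_eq_zero_iff (two_ne_zero) |>.1 this
      have hw : v 3 = 0 := by
        have : v 3 ^ 2 = 0 := by linear_combination g1
        exact pow_eq_zero_iff (two_ne_zero) |>.1 this
      apply hv
      funext i
      fin_cases i <;> simp [hx, hy, hz, hw]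
    · have hz : v 2 = 0 := (mul_eq_zero.1 g2').resolve_left hx
      rw [hy, hz] at hF
      have : v 0 ^ 3 = 0 := by linear_combination -hF
      exact hx (pow_eq_zero_iff (three_ne_zero) |>.1 this)
  have hw : v 3 = 0 := (mul_eq_zero.1 g3').resolve_left hy
  by_cases hx : v 0 = 0
  · rw [hx, hw] at hF
    have : (s 0 ^ 2 * s 1 ^ 2 * s 2 ^ 2) * v 1 ^ 3 = 0 := by linear_combination -hF
    simp only [mul_eq_zero, pow_eq_zero_iff two_ne_zero, pow_eq_zero_iff three_ne_zero] at this
    rcases this with ((h | h) | h) | h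
    · exact hs0 _ h
    · exact hs0 _ h
    · exact hs0 _ h
    · exact hy h
  · have hz : v 2 = 0 := (mul_eq_zero.1 g2').resolve_left hx
    rw [hz, hw] at hF g0
    have hkey : ∀ i j, i ≠ j → v 0 + s i ^ 2 * v 1 = 0 → v 0 + s j ^ 2 * v 1 = 0 → False := by
      intro i j hij h h'
      apply hs i j hij
      have : (s i ^ 2 - s j ^ 2) * v 1 = 0 := by linear_combination h - h'
      exact sub_eq_zero.1 ((mul_eq_zero.1 this).resolve_right hy)
    obtain ⟨A0, hA0⟩ : ∃ A0, A0 = v 0 + s 0 ^ 2 * v 1 := ⟨_, rfl⟩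
    obtain ⟨A1, hA1⟩ : ∃ A1, A1 = v 0 + s 1 ^ 2 * v 1 := ⟨_, rfl⟩
    obtain ⟨A2, hA2⟩ : ∃ A2, A2 = v 0 + s 2 ^ 2 * v 1 := ⟨_, rfl⟩
    have hP : A0 * A1 * A2 = 0 := by
      rw [hA0, hA1, hA2]
      linear_combination -hF
    have hPx : A1 * A2 + A0 * A2 + A0 * A1 = 0 := by
      rw [hA0, hA1, hA2]
      linear_combination -g0
    have hkey : ∀ i j, i ≠ j → (![A0, A1, A2] : Fin 3 → k) i = 0 →
        (![A0, A1, A2] : Fin 3 → k) j = 0 → False := by
      have hA : ∀ i, (![A0, A1, A2] : Fin 3 → k) i = v 0 + s i ^ 2 * v 1 := by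
        intro i
        fin_cases i <;> simp [hA0, hA1, hA2]
      intro i j hij h h'
      rw [hA] at h h'
      exact hkey i j hij h h'
    simp only [mul_eq_zero] at hP
    rcases hP with (h | h) | h
    · have hp : A1 * A2 = 0 := by
        have := hPx
        rw [h] at this
        linear_combination this
      simp only [mul_eq_zero] at hp
      rcases hp with h2 | h2
      · exact hkey 0 1 (by decide) h h2
      · exact hkey 0 2 (by decide) h h2
    · have hp : A0 * A2 = 0 := by
        have := hPx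
        rw [h] at this
        linear_combination this
      simp only [mul_eq_zero] at hp
      rcases hp with h2 | h2
      · exact hkey 1 0 (by decide) h h2
      · exact hkey 1 2 (by decide) h h2
    · have hp : A0 * A1 = 0 := by
        have := hPx
        rw [h] at this
        linear_combination this
      simp only [mul_eq_zero] at hp
      rcases hp with h2 | h2
      · exact hkey 2 0 (by decide) h h2
      · exact hkey 2 1 (by decide) h h2

end SM

end Pool.Agent.R863.CS
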