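import Pool.Agent.R863.CS.Stm

/-! CS-SPL: the families `fam5`, `fam3` are split (helper619 for helper863) -/

set_option autoImplicit false

namespace Pool.Agent.R863.CS

open MvPolynomial

theorem nf_hom {k : Type} [Field k] (a b c0 c1 c2 c3 : k) :
    (nf a b c0 c1 c2 c3).IsHomogeneous 3 := by
  have hX : ∀ i : Fin 4, (X i : MvPolynomial (Fin 4) k).IsHomogeneous 1 :=
    fun i => isHomogeneous_X k i
  have hXn : ∀ (i : Fin 4) (n : ℕ), (X i ^ n : MvPolynomial (Fin 4) k).IsHomogeneous n := by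
    intro i n
    have := (hX i).pow n
    rwa [one_mul] at this
  unfold nf
  have h1 : (X 0 * X 2 ^ 2 : MvPolynomial (Fin 4) k).IsHomogeneous 3 := (hX 0).mul (hXn 2 2)
  have h2 : (X 1 * X 3 ^ 2 : MvPolynomial (Fin 4) k).IsHomogeneous 3 := (hX 1).mul (hXn 3 2)
  have h3 : (C (2 * a) * X 1 ^ 2 * X 2 : MvPolynomial (Fin 4) k).IsHomogeneous 3 :=
    ((hXn 1 2).C_mul (2 * a)).mul (hX 2)
  have h4 : (C (2 * b) * X 0 ^ 2 * X 3 : MvPolynomial (Fin 4) k).IsHomogeneous 3 :=
    ((hXn 0 2).C_mul (2 * b)).mul (hX 3)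
  have h5 : (C c0 * X 0 ^ 3 : MvPolynomial (Fin 4) k).IsHomogeneous 3 := (hXn 0 3).C_mul c0
  have h6 : (C c1 * X 0 ^ 2 * X 1 : MvPolynomial (Fin 4) k).IsHomogeneous 3 :=
    ((hXn 0 2).C_mul c1).mul (hX 1)
  have h7 : (C c2 * X 0 * X 1 ^ 2 : MvPolynomial (Fin 4) k).IsHomogeneous 3 :=
    ((hX 0).C_mul c2).mul (hXn 1 2)
  have h8 : (C c3 * X 1 ^ 3 : MvPolynomial (Fin 4) k).IsHomogeneous 3 := (hXn 1 3).C_mul c3
  exact (((h1.add h2).add h3).add h4).sub (((h5.add h6).add h7).add h8)

section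

variable {K : Type} [Field K]

theorem bar_nf (a b c0 c1 c2 c3 : K) : bar (nf a b c0 c1 c2 c3) =
    nf (algebraMap K (AlgebraicClosure K) a) (algebraMap K (AlgebraicClosure K) b)
      (algebraMap K (AlgebraicClosure K) c0) (algebraMap K (AlgebraicClosure K) c1)
      (algebraMap K (AlgebraicClosure K) c2) (algebraMap K (AlgebraicClosure K) c3) := by
  have h2 : algebraMap K (AlgebraicClosure K) 2 = 2 := map_ofNat _ 2
  simp [bar, nf, h2]

theorem bar_fam5 (s : Fin 5 → K) :
    bar (fam5 s) = fam5 (fun i => algebraMap K (AlgebraicClosure K) (s i)) := by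
  unfold fam5
  rw [bar_nf]
  simp [e1, e2, e3, e4, e5]

theorem bar_fam3 (s : Fin 3 → K) :
    bar (fam3 s) = fam3 (fun i => algebraMap K (AlgebraicClosure K) (s i)) := by
  unfold fam3
  rw [bar_nf]
  simp

theorem dist5_up {s : Fin 5 → K} (h : dist5 s) :
    dist5 (fun i => algebraMap K (AlgebraicClosure K) (s i)) := by
  intro i j hij he
  apply h i j hij
  apply (algebraMap K (AlgebraicClosure K)).injective
  simpa using he

theorem dist3_up {s : Fin 3 → K} (h : dist3 s) :
    dist3 (fun i => algebraMap K (AlgebraicClosure K) (s i)) := by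
  refine ⟨fun i he => h.1 i ?_, fun i j hij he => h.2 i j hij ?_⟩
  · apply (algebraMap K (AlgebraicClosure K)).injective
    simpa using he
  · apply (algebraMap K (AlgebraicClosure K)).injective
    simpa using he

theorem up_vec (a b c d : K) : up ![a, b, c, d] =
    ![algebraMap K (AlgebraicClosure K) a, algebraMap K (AlgebraicClosure K) b,
      algebraMap K (AlgebraicClosure K) c, algebraMap K (AlgebraicClosure K) d] := by
  funext i
  fin_cases i <;> rfl

theorem map_sg (b : Bool) : algebraMap K (AlgebraicClosure K) (sg b) = sg b := by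
  cases b <;> simp [sg]

theorem map_sv (s : Fin 5 → K) (t : Fin 4 → Bool) (i : Fin 5) :
    algebraMap K (AlgebraicClosure K) (sv s t i) =
      sv (fun i => algebraMap K (AlgebraicClosure K) (s i)) t i := by
  fin_cases i <;> simp [sv, map_sg]

theorem map_sv3 (s : Fin 3 → K) (t : Fin 3 → Bool) (i : Fin 3) :
    algebraMap K (AlgebraicClosure K) (sv3 s t i) =
      sv3 (fun i => algebraMap K (AlgebraicClosure K) (s i)) t i := by
  simp [sv3, map_sg]

theorem map_pe (s : Fin 5 → K) (i : Fin 5) :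
    algebraMap K (AlgebraicClosure K) (pe s i) =
      pe (fun i => algebraMap K (AlgebraicClosure K) (s i)) i := by
  simp [pe, map_prod]

theorem ofK_L5 (hLA : S_LA) (s : Fin 5 → K) (i : I5) :
    ofK (L5 s i) = L5 (fun i => algebraMap K (AlgebraicClosure K) (s i)) i := by
  have h5 := (hLA K).2.2.2.2.1
  rcases i with u | ⟨i, b⟩ | t
  · simp only [L5]
    rw [h5, Set.image_pair, up_vec, up_vec]
    simp
  · simp only [L5]
    rw [h5, Set.image_pair, up_vec, up_vec]
    simp only [map_neg, map_pow, map_one, map_zero, map_add, map_mul, map_sg, map_pe]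
  · simp only [L5]
    rw [h5, Set.image_pair, up_vec, up_vec]
    simp only [map_neg, map_pow, map_one, map_zero, map_add, map_mul, e1, e2, e3, e4, map_sv]

theorem ofK_L3 (hLA : S_LA) (s : Fin 3 → K) (i : I3) :
    ofK (L3 s i) = L3 (fun i => algebraMap K (AlgebraicClosure K) (s i)) i := by
  have h5 := (hLA K).2.2.2.2.1
  rcases i with u | ⟨i, b⟩ | b | b | ⟨b, t⟩
  · simp only [L3]
    rw [h5, Set.image_pair, up_vec, up_vec]
    simp
  · simp only [L3]
    rw [h5, Set.image_pair, up_vec, up_vec]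
    simp only [map_neg, map_pow, map_one, map_zero, map_add, map_mul, map_sg]
  · simp only [L3]
    rw [h5, Set.image_pair, up_vec, up_vec]
    simp only [map_neg, map_pow, map_one, map_zero, map_add, map_mul, map_sg]
  · simp only [L3]
    rw [h5, Set.image_pair, up_vec, up_vec]
    simp only [map_neg, map_pow, map_one, map_zero, map_add, map_mul, map_sg]
  · simp only [L3]
    rw [h5, Set.image_pair, up_vec, up_vec]
    simp only [map_neg, map_pow, map_one, map_zero, map_add, map_mul, map_sg, map_sv3]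

theorem two_up (h : (2 : K) ≠ 0) : (2 : AlgebraicClosure K) ≠ 0 := by
  intro he
  apply h
  apply (algebraMap K (AlgebraicClosure K)).injective
  rw [map_zero, map_ofNat]
  exact he

end

theorem t_SPL5 : S_LA → S_SM5 → S_LN5 → S_IN5 → S_SPL5 := by
  intro hLA hSM hLN hIN K _ h2 s hs
  have h2' := two_up h2
  have hs' := dist5_up hs
  have hinf : Infinite (AlgebraicClosure K) := inferInstance
  have hL := hLN (AlgebraicClosure K) h2' _ hs'
  have hI := hIN (AlgebraicClosure K) h2' _ hs'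
  refine ⟨⟨nf_hom _ _ _ _ _ _, ?_, ?_, ?_⟩, ?_⟩
  · rw [bar_fam5]
    exact hSM (AlgebraicClosure K) h2' _ hs'
  · rw [bar_fam5, hL, ← Set.image_univ, Set.ncard_image_of_injective _ hI, Set.ncard_univ,
      Nat.card_eq_fintype_card]
    rfl
  · intro W hW
    rw [bar_fam5, hL] at hW
    obtain ⟨i, rfl⟩ := hW
    exact ⟨L5 s i, (ofK_L5 hLA s i).symm⟩
  · ext W
    constructor
    · intro hW
      have hW' : ofK W ∈ Lines (bar (fam5 s)) := hW
      rw [bar_fam5, hL] at hW'
      obtain ⟨i, hi⟩ := hW'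
      refine ⟨i, (hLA K).2.1 _ _ ?_⟩
      rw [ofK_L5 hLA, hi]
    · rintro ⟨i, rfl⟩
      show ofK (L5 s i) ∈ Lines (bar (fam5 s))
      rw [bar_fam5, hL, ofK_L5 hLA]
      exact ⟨i, rfl⟩

theorem t_SPL3 : S_LA → S_SM3 → S_LN3 → S_IN3 → S_SPL3 := by
  intro hLA hSM hLN hIN K _ h2 s hs
  have h2' := two_up h2
  have hs' := dist3_up hs
  have hinf : Infinite (AlgebraicClosure K) := inferInstance
  have hL := hLN (AlgebraicClosure K) h2' _ hs'
  have hI := hIN (AlgebraicClosure K) h2' _ hs'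
  refine ⟨⟨nf_hom _ _ _ _ _ _, ?_, ?_, ?_⟩, ?_⟩
  · rw [bar_fam3]
    exact hSM (AlgebraicClosure K) h2' _ hs'
  · rw [bar_fam3, hL, ← Set.image_univ, Set.ncard_image_of_injective _ hI, Set.ncard_univ,
      Nat.card_eq_fintype_card]
    rfl
  · intro W hW
    rw [bar_fam3, hL] at hW
    obtain ⟨i, rfl⟩ := hW
    exact ⟨L3 s i, (ofK_L3 hLA s i).symm⟩
  · ext W
    constructor
    · intro hW
      have hW' : ofK W ∈ Lines (bar (fam3 s)) := hW
      rw [bar_fam3, hL] at hW'
      obtain ⟨i, hi⟩ := hW'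
      refine ⟨i, (hLA K).2.1 _ _ ?_⟩
      rw [ofK_L3 hLA, hi]
    · rintro ⟨i, rfl⟩
      show ofK (L3 s i) ∈ Lines (bar (fam3 s))
      rw [bar_fam3, hL, ofK_L3 hLA]
      exact ⟨i, rfl⟩

end Pool.Agent.R863.CS
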