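import Mathlib

/-! Hyperbolic and elliptic lines on split cubic surfaces (MP_f18d96_ag): definitions and the
exact statements of the pieces.  See `NOTES.md` for complete proofs. -/

set_option autoImplicit false

namespace Pool.Agent.R863.CS

open MvPolynomial

section overAField

variable {k : Type} [Field k]

/-- The lines on the surface `F = 0` in `P^3` over `k`: the two-dimensional subspaces of `k^4` on
which `F` vanishes. -/
def Lines (F : MvPolynomial (Fin 4) k) : Set (Submodule k (Fin 4 → k)) :=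
  {W | Module.finrank k W = 2 ∧ ∀ v ∈ W, eval v F = 0}

/-- No point of `F = 0` is singular. -/
def Smooth (F : MvPolynomial (Fin 4) k) : Prop :=
  ∀ v : Fin 4 → k, v ≠ 0 → eval v F = 0 → ∃ i, eval v (pderiv i F) ≠ 0

/-- `x z² + y w² + 2 a y² z + 2 b x² w - (c0 x³ + c1 x² y + c2 x y² + c3 y³)` -/
noncomputable def nf (a b c0 c1 c2 c3 : k) : MvPolynomial (Fin 4) k :=
  X 0 * X 2 ^ 2 + X 1 * X 3 ^ 2 + C (2 * a) * X 1 ^ 2 * X 2 + C (2 * b) * X 0 ^ 2 * X 3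
    - (C c0 * X 0 ^ 3 + C c1 * X 0 ^ 2 * X 1 + C c2 * X 0 * X 1 ^ 2 + C c3 * X 1 ^ 3)

def e1 (r : Fin 5 → k) : k := r 0 + r 1 + r 2 + r 3 + r 4
def e2 (r : Fin 5 → k) : k :=
  r 0 * r 1 + r 0 * r 2 + r 0 * r 3 + r 0 * r 4 + r 1 * r 2 + r 1 * r 3 + r 1 * r 4
    + r 2 * r 3 + r 2 * r 4 + r 3 * r 4
def e3 (r : Fin 5 → k) : k :=
  r 0 * r 1 * r 2 + r 0 * r 1 * r 3 + r 0 * r 1 * r 4 + r 0 * r 2 * r 3 + r 0 * r 2 * r 4
    + r 0 * r 3 * r 4 + r 1 * r 2 * r 3 + r 1 * r 2 * r 4 + r 1 * r 3 * r 4 + r 2 * r 3 * r 4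
def e4 (r : Fin 5 → k) : k :=
  r 0 * r 1 * r 2 * r 3 + r 0 * r 1 * r 2 * r 4 + r 0 * r 1 * r 3 * r 4 + r 0 * r 2 * r 3 * r 4
    + r 1 * r 2 * r 3 * r 4
def e5 (r : Fin 5 → k) : k := r 0 * r 1 * r 2 * r 3 * r 4

/-- first family of surfaces -/
noncomputable def fam5 (s : Fin 5 → k) : MvPolynomial (Fin 4) k :=
  nf (e5 s) 1 (e1 fun i => s i ^ 2) (e2 fun i => s i ^ 2) (e3 fun i => s i ^ 2)
    (e4 fun i => s i ^ 2)

/-- second family: `x z² + y w² - (x + s0² y) (x + s1² y) (x + s2² y)` -/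
noncomputable def fam3 (s : Fin 3 → k) : MvPolynomial (Fin 4) k :=
  nf 0 0 1 (s 0 ^ 2 + s 1 ^ 2 + s 2 ^ 2)
    (s 0 ^ 2 * s 1 ^ 2 + s 0 ^ 2 * s 2 ^ 2 + s 1 ^ 2 * s 2 ^ 2) (s 0 ^ 2 * s 1 ^ 2 * s 2 ^ 2)

def dist5 (s : Fin 5 → k) : Prop := ∀ i j, i ≠ j → s i ^ 2 ≠ s j ^ 2
def dist3 (s : Fin 3 → k) : Prop := (∀ i, s i ≠ 0) ∧ ∀ i j, i ≠ j → s i ^ 2 ≠ s j ^ 2

def sg (b : Bool) : k := if b then -1 else 1

/-- even sign changes of `s` -/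
def sv (s : Fin 5 → k) (t : Fin 4 → Bool) : Fin 5 → k :=
  ![sg (t 0) * s 0, sg (t 1) * s 1, sg (t 2) * s 2, sg (t 3) * s 3,
    sg (t 0) * sg (t 1) * sg (t 2) * sg (t 3) * s 4]

/-- product of the other `s j` -/
def pe (s : Fin 5 → k) (i : Fin 5) : k := ∏ j ∈ Finset.univ.erase i, s j

abbrev I5 : Type := Unit ⊕ (Fin 5 × Bool) ⊕ (Fin 4 → Bool)

/-- the 27 lines of `fam5 s` -/
def L5 (s : Fin 5 → k) : I5 → Submodule k (Fin 4 → k)
  | .inl _ => Submodule.span k {![0, 0, 1, 0], ![0, 0, 0, 1]}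
  | .inr (.inl (i, b)) => Submodule.span k {![-(s i) ^ 2, 1, 0, -(s i) ^ 4 + sg b * pe s i],
      ![0, 0, 1, -(sg b) * s i]}
  | .inr (.inr t) => Submodule.span k {![1, 0, e1 (sv s t), -e2 (sv s t)],
      ![0, 1, -e3 (sv s t), e4 (sv s t)]}

def N5 (r : Fin 5 → k) : k :=
  -((r 0 + r 1) * (r 0 + r 2) * (r 0 + r 3) * (r 0 + r 4) * (r 1 + r 2) * (r 1 + r 3) * (r 1 + r 4)
    * (r 2 + r 3) * (r 2 + r 4) * (r 3 + r 4))

def D5 (s : Fin 5 → k) (i : Fin 5) : k := ∏ j ∈ Finset.univ.erase i, (s j ^ 2 - s i ^ 2)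

/-- the hyperbolic ones among the lines of `fam5 s` -/
def ty5 (s : Fin 5 → k) : I5 → Prop
  | .inl _ => True
  | .inr (.inl (i, _)) => IsSquare (D5 s i)
  | .inr (.inr t) => IsSquare (N5 (sv s t))

def sv3 (s : Fin 3 → k) (t : Fin 3 → Bool) : Fin 3 → k := fun i => sg (t i) * s i

abbrev I3 : Type := Unit ⊕ (Fin 3 × Bool) ⊕ Bool ⊕ Bool ⊕ (Bool × (Fin 3 → Bool))

/-- the 27 lines of `fam3 s` -/
def L3 (s : Fin 3 → k) : I3 → Submodule k (Fin 4 → k)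
  | .inl _ => Submodule.span k {![0, 0, 1, 0], ![0, 0, 0, 1]}
  | .inr (.inl (i, b)) => Submodule.span k {![-(s i) ^ 2, 1, 0, 0], ![0, 0, 1, sg b * s i]}
  | .inr (.inr (.inl b)) => Submodule.span k {![0, 1, 0, sg b * (s 0 * s 1 * s 2)], ![0, 0, 1, 0]}
  | .inr (.inr (.inr (.inl b))) => Submodule.span k {![1, 0, sg b, 0], ![0, 0, 0, 1]}
  | .inr (.inr (.inr (.inr (b, t)))) => Submodule.span k
      {![1, 0, sg b, -(sg b) * (sv3 s t 0 + sv3 s t 1 + sv3 s t 2)],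
       ![0, 1, -(sg b) * (sv3 s t 0 * sv3 s t 1 + sv3 s t 0 * sv3 s t 2 + sv3 s t 1 * sv3 s t 2),
         sg b * (sv3 s t 0 * sv3 s t 1 * sv3 s t 2)]}

def N3 (r : Fin 3 → k) : k := -(r 0 * r 1 * r 2 * (r 0 + r 1) * (r 1 + r 2) * (r 2 + r 0))

def D3 (s : Fin 3 → k) (i : Fin 3) : k := -∏ j ∈ Finset.univ.erase i, (s j ^ 2 - s i ^ 2)

def ty3 (s : Fin 3 → k) : I3 → Prop
  | .inl _ => True
  | .inr (.inl (i, _)) => IsSquare (D3 s i)
  | .inr (.inr (.inl _)) => True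
  | .inr (.inr (.inr (.inl _))) => True
  | .inr (.inr (.inr (.inr (_, t)))) => IsSquare (N3 (sv3 s t))

/-- linear substitution -/
noncomputable def subst (g : Matrix (Fin 4) (Fin 4) k) (F : MvPolynomial (Fin 4) k) :
    MvPolynomial (Fin 4) k :=
  aeval (fun i => ∑ j, C (g i j) * X j) F

def Eqv (F G : MvPolynomial (Fin 4) k) : Prop :=
  ∃ g : Matrix (Fin 4) (Fin 4) k, IsUnit g.det ∧ ∃ c : k, c ≠ 0 ∧ G = C c * subst g F

/-- a cubic form that vanishes on the line `x = y = 0` -/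
noncomputable def cub16 (a b : Fin 3 → k) (c d e : Fin 2 → k) (g : Fin 4 → k) :
    MvPolynomial (Fin 4) k :=
  X 0 * (C (a 0) * X 2 ^ 2 + C (a 1) * X 2 * X 3 + C (a 2) * X 3 ^ 2)
    + X 1 * (C (b 0) * X 2 ^ 2 + C (b 1) * X 2 * X 3 + C (b 2) * X 3 ^ 2)
    + X 0 ^ 2 * (C (c 0) * X 2 + C (c 1) * X 3) + X 0 * X 1 * (C (d 0) * X 2 + C (d 1) * X 3)
    + X 1 ^ 2 * (C (e 0) * X 2 + C (e 1) * X 3)
    + (C (g 0) * X 0 ^ 3 + C (g 1) * X 0 ^ 2 * X 1 + C (g 2) * X 0 * X 1 ^ 2 + C (g 3) * X 1 ^ 3)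

/-- a general cubic form -/
noncomputable def cub20 (c : Fin 20 → k) : MvPolynomial (Fin 4) k :=
  C (c 0) * X 0 ^ 3 + C (c 1) * X 0 ^ 2 * X 1 + C (c 2) * X 0 * X 1 ^ 2 + C (c 3) * X 1 ^ 3
    + C (c 4) * X 0 ^ 2 * X 2 + C (c 5) * X 0 * X 1 * X 2 + C (c 6) * X 1 ^ 2 * X 2
    + C (c 7) * X 0 * X 2 ^ 2 + C (c 8) * X 1 * X 2 ^ 2 + C (c 9) * X 2 ^ 3
    + X 3 * (C (c 10) * X 0 ^ 2 + C (c 11) * X 0 * X 1 + C (c 12) * X 1 ^ 2
      + C (c 13) * X 0 * X 2 + C (c 14) * X 1 * X 2 + C (c 15) * X 2 ^ 2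
      + C (c 16) * X 0 * X 3 + C (c 17) * X 1 * X 3 + C (c 18) * X 2 * X 3 + C (c 19) * X 3 ^ 2)

end overAField

section split

variable {K : Type} [Field K]

/-- the same form over the algebraic closure -/
noncomputable def bar (F : MvPolynomial (Fin 4) K) : MvPolynomial (Fin 4) (AlgebraicClosure K) :=
  map (algebraMap K (AlgebraicClosure K)) F

/-- a vector over `K` as a vector over the algebraic closure -/
noncomputable def up (v : Fin 4 → K) : Fin 4 → AlgebraicClosure K :=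
  fun i => algebraMap K (AlgebraicClosure K) (v i)

/-- the subspace over the algebraic closure spanned by a subspace over `K` -/
noncomputable def ofK (W : Submodule K (Fin 4 → K)) :
    Submodule (AlgebraicClosure K) (Fin 4 → AlgebraicClosure K) :=
  Submodule.span (AlgebraicClosure K) (up '' (W : Set (Fin 4 → K)))

/-- `F = 0` is a smooth cubic surface which has exactly 27 lines over the algebraic closure of `K`,
all of them defined over `K`. -/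
structure IsSplit (F : MvPolynomial (Fin 4) K) : Prop where
  hom : F.IsHomogeneous 3
  smooth : Smooth (bar F)
  card : (Lines (bar F)).ncard = 27
  rat : ∀ W ∈ Lines (bar F), ∃ W₀ : Submodule K (Fin 4 → K), W = ofK W₀

/-- The point `p` of the line `W` is rational and a fixed point of Segre's involution: no other
point of the line has the same tangent plane as `p`. -/
def IsFixedPoint (F : MvPolynomial (Fin 4) K) (W : Submodule K (Fin 4 → K)) (p : Fin 4 → K) :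
    Prop :=
  p ∈ W ∧ p ≠ 0 ∧ ∀ p' ∈ ofK W, p' ≠ 0 →
    (∃ c : AlgebraicClosure K, ∀ i,
      eval p' (pderiv i (bar F)) = c * eval (up p) (pderiv i (bar F))) →
    ∃ c : AlgebraicClosure K, p' = c • up p

/-- the lines over `K` on the surface -/
def KLines (F : MvPolynomial (Fin 4) K) : Set (Submodule K (Fin 4 → K)) :=
  {W | ofK W ∈ Lines (bar F)}

/-- the hyperbolic lines -/
def Hyp (F : MvPolynomial (Fin 4) K) : Set (Submodule K (Fin 4 → K)) :=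
  {W | W ∈ KLines F ∧ ∃ p, IsFixedPoint F W p}

/-- the elliptic lines -/
def Ell (F : MvPolynomial (Fin 4) K) : Set (Submodule K (Fin 4 → K)) :=
  {W | W ∈ KLines F ∧ ¬ ∃ p, IsFixedPoint F W p}

end split

/-! ### The pieces -/

/-- CS-CH: chain rule and base change for `subst` -/
def S_CH : Prop := (∀ (k : Type) [Field k] (g : Matrix (Fin 4) (Fin 4) k)
    (F : MvPolynomial (Fin 4) k) (v : Fin 4 → k),
    eval v (subst g F) = eval (g.mulVec v) F ∧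
    ∀ j, eval v (pderiv j (subst g F)) = ∑ i, g i j * eval (g.mulVec v) (pderiv i F)) ∧
  (∀ (k : Type) [Field k] (g : Matrix (Fin 4) (Fin 4) k) (F : MvPolynomial (Fin 4) k),
    F.IsHomogeneous 3 → (subst g F).IsHomogeneous 3) ∧
  (∀ (K : Type) [Field K] (g : Matrix (Fin 4) (Fin 4) K) (F : MvPolynomial (Fin 4) K),
    bar (subst g F) = subst (g.map (algebraMap K (AlgebraicClosure K))) (bar F)) ∧
  (∀ (K : Type) [Field K] (g : Matrix (Fin 4) (Fin 4) K) (v : Fin 4 → K),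
    up (g.mulVec v) = (g.map (algebraMap K (AlgebraicClosure K))).mulVec (up v))

/-- CS-TX: transport of lines and of fixed points under a linear substitution -/
def S_TX : Prop := ∀ (K : Type) [Field K] (F : MvPolynomial (Fin 4) K)
  (g : Matrix (Fin 4) (Fin 4) K) (c : K), IsUnit g.det → c ≠ 0 →
  (IsSplit F → IsSplit (C c * subst g F)) ∧
  (∀ W : Submodule K (Fin 4 → K),
    W ∈ KLines (C c * subst g F) ↔ W.map g.mulVecLin ∈ KLines F) ∧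
  (∀ (W : Submodule K (Fin 4 → K)) (p : Fin 4 → K),
    IsFixedPoint (C c * subst g F) W p ↔ IsFixedPoint F (W.map g.mulVecLin) (g.mulVec p))

/-- CS-TR: invariance under linear substitutions and scalars -/
def S_TR : Prop := ∀ (K : Type) [Field K] (F G : MvPolynomial (Fin 4) K), Eqv F G →
  (IsSplit F → IsSplit G) ∧ (Hyp G).ncard = (Hyp F).ncard ∧ (Ell G).ncard = (Ell F).ncard

def S_TRANS : Prop := ∀ (K : Type) [Field K] (F G H : MvPolynomial (Fin 4) K),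
  Eqv F G → Eqv G H → Eqv F H

/-- CS-LA: linear algebra of `ofK` -/
def S_LA : Prop := ∀ (K : Type) [Field K],
  (∀ W : Submodule K (Fin 4 → K), Module.finrank (AlgebraicClosure K) (ofK W) = Module.finrank K W) ∧
  (∀ W W' : Submodule K (Fin 4 → K), ofK W = ofK W' → W = W') ∧
  (∀ W W' : Submodule K (Fin 4 → K), ofK (W ⊓ W') = ofK W ⊓ ofK W') ∧
  (∀ W W' : Submodule K (Fin 4 → K), ofK (W ⊔ W') = ofK W ⊔ ofK W') ∧
  (∀ S : Set (Fin 4 → K), ofK (Submodule.span K S) = Submodule.span (AlgebraicClosure K) (up '' S)) ∧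
  (∀ (W : Submodule K (Fin 4 → K)) (v : Fin 4 → K), up v ∈ ofK W ↔ v ∈ W) ∧
  (∀ (W : Submodule K (Fin 4 → K)) (v : Fin 4 → AlgebraicClosure K) (i : Fin 4),
    ofK W = Submodule.span (AlgebraicClosure K) {v} → v i = 1 →
      ∃ v₀ : Fin 4 → K, v = up v₀)

/-- CS-CUB: coefficients of a cubic form -/
def S_CUB : Prop := ∀ (K : Type) [Field K] (G : MvPolynomial (Fin 4) K), G.IsHomogeneous 3 →
  ∃ c : Fin 20 → K, G = cub20 c

/-- CS-CUB: a cubic form vanishing on `x = y = 0` -/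
def S_COEF : Prop := ∀ (K : Type) [Field K] (G : MvPolynomial (Fin 4) K), G.IsHomogeneous 3 →
  (∀ z w : AlgebraicClosure K, eval ![0, 0, z, w] (bar G) = 0) →
  ∃ (a b : Fin 3 → K) (c d e : Fin 2 → K) (g : Fin 4 → K), G = cub16 a b c d e g

/-- CS-ADAPT: an adapted basis -/
def S_ADAPT : Prop := ∀ (K : Type) [Field K] (W : Submodule K (Fin 4 → K)) (p : Fin 4 → K),
  Module.finrank K W = 2 → p ∈ W → p ≠ 0 →
  ∃ g : Matrix (Fin 4) (Fin 4) K, IsUnit g.det ∧ (∀ i, g i 2 = p i) ∧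
    ∀ v : Fin 4 → K, v ∈ W ↔ ∃ z w : K, ∀ i, v i = z * g i 2 + w * g i 3

/-- CS-NF1: normal form of a surface with a hyperbolic line -/
def S_NF1 : Prop := ∀ (K : Type) [Field K] (_ : (2 : K) ≠ 0) (F : MvPolynomial (Fin 4) K)
  (W : Submodule K (Fin 4 → K)) (p : Fin 4 → K), IsSplit F → W ∈ KLines F → IsFixedPoint F W p →
  ∃ a b c0 c1 c2 c3 : K, Eqv F (nf a b c0 c1 c2 c3)

/-- CS-SM: smoothness -/
def S_SM5 : Prop := ∀ (k : Type) [Field k] (_ : (2 : k) ≠ 0) (s : Fin 5 → k), dist5 s →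
  Smooth (fam5 s)
def S_SM3 : Prop := ∀ (k : Type) [Field k] (_ : (2 : k) ≠ 0) (s : Fin 3 → k), dist3 s →
  Smooth (fam3 s)

/-- CS-DIST: conversely -/
def S_DIST5 : Prop := ∀ (k : Type) [Field k] [IsAlgClosed k] (_ : (2 : k) ≠ 0) (s : Fin 5 → k),
  Smooth (fam5 s) → dist5 s
def S_DIST3 : Prop := ∀ (k : Type) [Field k] [IsAlgClosed k] (_ : (2 : k) ≠ 0) (s : Fin 3 → k),
  Smooth (fam3 s) → dist3 s

/-- CS-W: two-dimensional subspaces of `k^4` -/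
def S_W : Prop := ∀ (k : Type) [Field k] (W : Submodule k (Fin 4 → k)), Module.finrank k W = 2 →
  W = Submodule.span k {![0, 0, 1, 0], ![0, 0, 0, 1]} ∨
  (∃ s t z₀ w₀ z₁ w₁ : k, (s ≠ 0 ∨ t ≠ 0) ∧ (z₁ ≠ 0 ∨ w₁ ≠ 0) ∧
    W = Submodule.span k {![s, t, z₀, w₀], ![0, 0, z₁, w₁]}) ∨
  (∃ α β γ δ : k, W = Submodule.span k {![1, 0, α, γ], ![0, 1, β, δ]})

/-- CS-LN5B: the lines that meet `x = y = 0` -/
def S_LN5B : Prop := ∀ (k : Type) [Field k] [Infinite k] (_ : (2 : k) ≠ 0) (r : Fin 5 → k),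
  dist5 r → ∀ s t z₀ w₀ z₁ w₁ : k, (s ≠ 0 ∨ t ≠ 0) → (z₁ ≠ 0 ∨ w₁ ≠ 0) →
  (∀ u v : k, eval ![u * s, u * t, u * z₀ + v * z₁, u * w₀ + v * w₁] (fam5 r) = 0) →
  ∃ i b, Submodule.span k {![s, t, z₀, w₀], ![0, 0, z₁, w₁]} = L5 r (.inr (.inl (i, b)))
/-- CS-LN5C: the lines that do not meet `x = y = 0` -/
def S_LN5C : Prop := ∀ (k : Type) [Field k] [Infinite k] (_ : (2 : k) ≠ 0) (r : Fin 5 → k),
  dist5 r → ∀ α β γ δ : k,
  (∀ x y : k, eval ![x, y, α * x + β * y, γ * x + δ * y] (fam5 r) = 0) →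
  ∃ t : Fin 4 → Bool, α = e1 (sv r t) ∧ β = -e3 (sv r t) ∧ γ = -e2 (sv r t) ∧ δ = e4 (sv r t)
/-- CS-LN3B -/
def S_LN3B : Prop := ∀ (k : Type) [Field k] [Infinite k] (_ : (2 : k) ≠ 0) (r : Fin 3 → k),
  dist3 r → ∀ s t z₀ w₀ z₁ w₁ : k, (s ≠ 0 ∨ t ≠ 0) → (z₁ ≠ 0 ∨ w₁ ≠ 0) →
  (∀ u v : k, eval ![u * s, u * t, u * z₀ + v * z₁, u * w₀ + v * w₁] (fam3 r) = 0) →
  ∃ i : I3, Submodule.span k {![s, t, z₀, w₀], ![0, 0, z₁, w₁]} = L3 r i
/-- CS-LN3C -/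
def S_LN3C : Prop := ∀ (k : Type) [Field k] [Infinite k] (_ : (2 : k) ≠ 0) (r : Fin 3 → k),
  dist3 r → ∀ α β γ δ : k,
  (∀ x y : k, eval ![x, y, α * x + β * y, γ * x + δ * y] (fam3 r) = 0) →
  ∃ (b : Bool) (t : Fin 3 → Bool), α = sg b ∧
    β = -(sg b) * (sv3 r t 0 * sv3 r t 1 + sv3 r t 0 * sv3 r t 2 + sv3 r t 1 * sv3 r t 2) ∧
    γ = -(sg b) * (sv3 r t 0 + sv3 r t 1 + sv3 r t 2) ∧
    δ = sg b * (sv3 r t 0 * sv3 r t 1 * sv3 r t 2)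

/-- CS-LN: the lines -/
def S_LN5 : Prop := ∀ (k : Type) [Field k] [Infinite k] (_ : (2 : k) ≠ 0) (s : Fin 5 → k),
  dist5 s → Lines (fam5 s) = Set.range (L5 s)
def S_IN5 : Prop := ∀ (k : Type) [Field k] (_ : (2 : k) ≠ 0) (s : Fin 5 → k),
  dist5 s → Function.Injective (L5 s)
def S_LN3 : Prop := ∀ (k : Type) [Field k] [Infinite k] (_ : (2 : k) ≠ 0) (s : Fin 3 → k),
  dist3 s → Lines (fam3 s) = Set.range (L3 s)
def S_IN3 : Prop := ∀ (k : Type) [Field k] (_ : (2 : k) ≠ 0) (s : Fin 3 → k),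
  dist3 s → Function.Injective (L3 s)

/-- CS-SPL: the families are split; base change of the lines -/
def S_SPL5 : Prop := ∀ (K : Type) [Field K] (_ : (2 : K) ≠ 0) (s : Fin 5 → K), dist5 s →
  IsSplit (fam5 s) ∧ KLines (fam5 s) = Set.range (L5 s)
def S_SPL3 : Prop := ∀ (K : Type) [Field K] (_ : (2 : K) ≠ 0) (s : Fin 3 → K), dist3 s →
  IsSplit (fam3 s) ∧ KLines (fam3 s) = Set.range (L3 s)

/-- CS-QF: a pencil of binary quadratic forms -/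
def S_QF : Prop := ∀ (K : Type) [Field K] (_ : (2 : K) ≠ 0) (u v : Fin 3 → K),
  (u 0 * v 2 - u 2 * v 0) ^ 2 - (u 0 * v 1 - u 1 * v 0) * (u 1 * v 2 - u 2 * v 1) ≠ 0 →
  ((∃ x y : K, (x ≠ 0 ∨ y ≠ 0) ∧ ∀ x' y' : AlgebraicClosure K, (x' ≠ 0 ∨ y' ≠ 0) →
      (∃ c : AlgebraicClosure K,
        algebraMap K (AlgebraicClosure K) (u 0) * x' ^ 2
            + algebraMap K (AlgebraicClosure K) (u 1) * x' * y'
            + algebraMap K (AlgebraicClosure K) (u 2) * y' ^ 2 =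
          c * algebraMap K (AlgebraicClosure K) (u 0 * x ^ 2 + u 1 * x * y + u 2 * y ^ 2) ∧
        algebraMap K (AlgebraicClosure K) (v 0) * x' ^ 2
            + algebraMap K (AlgebraicClosure K) (v 1) * x' * y'
            + algebraMap K (AlgebraicClosure K) (v 2) * y' ^ 2 =
          c * algebraMap K (AlgebraicClosure K) (v 0 * x ^ 2 + v 1 * x * y + v 2 * y ^ 2)) →
      x' * algebraMap K (AlgebraicClosure K) y = y' * algebraMap K (AlgebraicClosure K) x) ↔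
    IsSquare ((u 0 * v 2 - u 2 * v 0) ^ 2 - (u 0 * v 1 - u 1 * v 0) * (u 1 * v 2 - u 2 * v 1)))

/-- CS-GAUSS: the type of a line in terms of its Gauss map -/
def S_GAUSS : Prop := ∀ (K : Type) [Field K] (_ : (2 : K) ≠ 0) (F : MvPolynomial (Fin 4) K)
  (p₀ p₁ α β : Fin 4 → K) (u v : Fin 3 → K),
  LinearIndependent K ![p₀, p₁] → LinearIndependent K ![α, β] →
  (∀ (z w : AlgebraicClosure K) (i : Fin 4),
    eval (z • up p₀ + w • up p₁) (pderiv i (bar F)) =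
      (algebraMap K (AlgebraicClosure K) (u 0) * z ^ 2
          + algebraMap K (AlgebraicClosure K) (u 1) * z * w
          + algebraMap K (AlgebraicClosure K) (u 2) * w ^ 2) * up α i
        + (algebraMap K (AlgebraicClosure K) (v 0) * z ^ 2
          + algebraMap K (AlgebraicClosure K) (v 1) * z * w
          + algebraMap K (AlgebraicClosure K) (v 2) * w ^ 2) * up β i) →
  (u 0 * v 2 - u 2 * v 0) ^ 2 - (u 0 * v 1 - u 1 * v 0) * (u 1 * v 2 - u 2 * v 1) ≠ 0 →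
  ((∃ p, IsFixedPoint F (Submodule.span K {p₀, p₁}) p) ↔
    IsSquare ((u 0 * v 2 - u 2 * v 0) ^ 2 - (u 0 * v 1 - u 1 * v 0) * (u 1 * v 2 - u 2 * v 1)))

/-- CS-TY5M -/
def S_TY5M : Prop := ∀ (K : Type) [Field K] (_ : (2 : K) ≠ 0) (s : Fin 5 → K), dist5 s →
  ∀ (i : Fin 5) (b : Bool),
    (∃ p, IsFixedPoint (fam5 s) (L5 s (.inr (.inl (i, b)))) p) ↔ IsSquare (D5 s i)
/-- CS-TY5N -/
def S_TY5N : Prop := ∀ (K : Type) [Field K] (_ : (2 : K) ≠ 0) (s : Fin 5 → K), dist5 s →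
  ((∃ p, IsFixedPoint (fam5 s)
      (Submodule.span K {![1, 0, e1 s, -e2 s], ![0, 1, -e3 s, e4 s]}) p) ↔ IsSquare (N5 s))
/-- CS-TY0 -/
def S_TY0 : Prop := ∀ (K : Type) [Field K] (a b c0 c1 c2 c3 : K),
  ∃ p, IsFixedPoint (nf a b c0 c1 c2 c3)
    (Submodule.span K {![0, 0, 1, 0], ![0, 0, 0, 1]}) p

/-- CS-TY: the types of the lines -/
def S_TY5 : Prop := ∀ (K : Type) [Field K] (_ : (2 : K) ≠ 0) (s : Fin 5 → K), dist5 s →
  ∀ i : I5, (∃ p, IsFixedPoint (fam5 s) (L5 s i) p) ↔ ty5 s i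
def S_TY3 : Prop := ∀ (K : Type) [Field K] (_ : (2 : K) ≠ 0) (s : Fin 3 → K), dist3 s →
  ∀ i : I3, (∃ p, IsFixedPoint (fam3 s) (L3 s i) p) ↔ ty3 s i

/-- CS-CT: counting -/
def S_CT5 : Prop := ∀ (K : Type) [Field K] [Finite K] (_ : (2 : K) ≠ 0) (s : Fin 5 → K), dist5 s →
  ({i | ty5 s i}.ncard = 27 ∧ (∀ i, IsSquare (D5 s i)) ∧ IsSquare (N5 s)) ∨
  ({i | ty5 s i}.ncard = 15 ∧ (∃ i, ¬ IsSquare (D5 s i)) ∧ (∃ i j, i ≠ j ∧ IsSquare (D5 s i) ∧ IsSquare (D5 s j))) ∨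
  ({i | ty5 s i}.ncard = 11 ∧
    (((∀ i, IsSquare (D5 s i)) ∧ ¬ IsSquare (N5 s)) ∨
      (∃ i, IsSquare (D5 s i) ∧ ∀ j, j ≠ i → ¬ IsSquare (D5 s j))))
def S_CT3 : Prop := ∀ (K : Type) [Field K] [Finite K] (_ : (2 : K) ≠ 0) (s : Fin 3 → K), dist3 s →
  ({i | ty3 s i}.ncard = 27 ∧ (∀ i, IsSquare (D3 s i)) ∧ IsSquare (N3 s)) ∨
  ({i | ty3 s i}.ncard = 15 ∧ ∃ i, ¬ IsSquare (D3 s i)) ∨
  ({i | ty3 s i}.ncard = 11 ∧ (∀ i, IsSquare (D3 s i)) ∧ ¬ IsSquare (N3 s))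

/-- CS-NF2: the normal form of a split surface -/
def S_NF2 : Prop := ∀ (K : Type) [Field K] (_ : (2 : K) ≠ 0) (a b c0 c1 c2 c3 : K),
  IsSplit (nf a b c0 c1 c2 c3) →
  (∃ s : Fin 5 → K, dist5 s ∧ Eqv (nf a b c0 c1 c2 c3) (fam5 s)) ∨
  (∃ s : Fin 3 → K, dist3 s ∧ Eqv (nf a b c0 c1 c2 c3) (fam3 s))

/-- CS-PL: a smooth cubic surface over an algebraically closed field that contains the line
`x = y = 0` has a plane section `x = s u, y = t u` that consists of three lines -/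
def S_PL : Prop := ∀ (k : Type) [Field k] [IsAlgClosed k] (_ : (2 : k) ≠ 0) (a b : Fin 3 → k)
  (c d e : Fin 2 → k) (g : Fin 4 → k),
  ∃ (s t : k) (l m : Fin 3 → k), (s ≠ 0 ∨ t ≠ 0) ∧ ∀ u z w : k,
    eval ![s * u, t * u, z, w] (cub16 a b c d e g) =
      u * (l 0 * u + l 1 * z + l 2 * w) * (m 0 * u + m 1 * z + m 2 * w)

/-- CS-TRI: a split surface contains three different coplanar lines over `K` -/
def S_TRI : Prop := ∀ (K : Type) [Field K] (_ : (2 : K) ≠ 0) (F : MvPolynomial (Fin 4) K),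
  IsSplit F → ∃ W₁ W₂ W₃ : Submodule K (Fin 4 → K), W₁ ∈ KLines F ∧ W₂ ∈ KLines F ∧
    W₃ ∈ KLines F ∧ W₁ ≠ W₂ ∧ W₁ ≠ W₃ ∧ W₂ ≠ W₃ ∧ Module.finrank K ↥(W₁ ⊔ W₂ ⊔ W₃) = 3

/-- CS-EXH: one of three coplanar lines is hyperbolic -/
def S_EXH : Prop := ∀ (K : Type) [Field K] [Finite K] (_ : (2 : K) ≠ 0)
  (F : MvPolynomial (Fin 4) K), IsSplit F →
  ∀ W₁ W₂ W₃ : Submodule K (Fin 4 → K), W₁ ∈ KLines F → W₂ ∈ KLines F →
    W₃ ∈ KLines F → W₁ ≠ W₂ → W₁ ≠ W₃ → W₂ ≠ W₃ → Module.finrank K ↥(W₁ ⊔ W₂ ⊔ W₃) = 3 →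
    ∃ W ∈ KLines F, ∃ p, IsFixedPoint F W p

/-- CS-FIN: small fields -/
def S_FIN5 : Prop := ∀ (K : Type) [Field K] [Finite K] (_ : (2 : K) ≠ 0) (s : Fin 5 → K), dist5 s →
  9 ≤ Nat.card K ∧
  (Nat.card K < 17 → ((∀ i, IsSquare (D5 s i)) → IsSquare (N5 s)) ∧
    ¬ ∃ i, IsSquare (D5 s i) ∧ ∀ j, j ≠ i → ¬ IsSquare (D5 s j))
def S_FIN3 : Prop := ∀ (K : Type) [Field K] [Finite K] (_ : (2 : K) ≠ 0) (s : Fin 3 → K), dist3 s →
  7 ≤ Nat.card K ∧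
  (Nat.card K < 9 → ∀ i, IsSquare (D3 s i)) ∧
  (Nat.card K < 17 → (∀ i, IsSquare (D3 s i)) → IsSquare (N3 s))

/-- CS-E0: existence, all lines hyperbolic -/
def S_E0 : Prop := ∀ (K : Type) [Field K] [Finite K] (_ : (2 : K) ≠ 0), 7 ≤ Nat.card K →
  (∃ s : Fin 3 → K, dist3 s ∧ (∀ i, IsSquare (D3 s i)) ∧ IsSquare (N3 s)) ∨
  (∃ s : Fin 5 → K, dist5 s ∧ (∀ i, IsSquare (D5 s i)) ∧ IsSquare (N5 s))

/-- CS-E12 -/
def S_E12 : Prop := ∀ (K : Type) [Field K] [Finite K] (_ : (2 : K) ≠ 0), 9 ≤ Nat.card K →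
  ∃ s : Fin 3 → K, dist3 s ∧ ∃ i, ¬ IsSquare (D3 s i)

/-- CS-E16 -/
def S_E16A : Prop := ∀ (K : Type) [Field K] [Finite K] (_ : (2 : K) ≠ 0), 17 ≤ Nat.card K →
  IsSquare (-1 : K) →
  ∃ s : Fin 5 → K, dist5 s ∧ ∃ i, IsSquare (D5 s i) ∧ ∀ j, j ≠ i → ¬ IsSquare (D5 s j)
def S_E16B : Prop := ∀ (K : Type) [Field K] [Finite K] (_ : (2 : K) ≠ 0), 17 ≤ Nat.card K →
  ¬ IsSquare (-1 : K) →
  ∃ s : Fin 5 → K, dist5 s ∧ ∃ i, IsSquare (D5 s i) ∧ ∀ j, j ≠ i → ¬ IsSquare (D5 s j)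

end Pool.Agent.R863.CS
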