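import Pool.Agent.R863.CS.Stm

/-!
# MP_f18d96_ag, pieces CS-TR, CS-TRANS
-/

set_option autoImplicit false

namespace Pool.Agent.R863.CS

open MvPolynomial Module

theorem t_TR : S_TX → S_TR := by
  rintro hTX K _ F G ⟨g, hg, c, hc, rfl⟩
  obtain ⟨h1, h2, h3⟩ := hTX K F g c hg hc
  have hgu : IsUnit g := (Matrix.isUnit_iff_isUnit_det g).2 hg
  have hinj : Function.Injective g.mulVecLin := Matrix.mulVec_injective_iff_isUnit.2 hgu
  have hsur : Function.Surjective g.mulVecLin := Matrix.mulVec_surjective_iff_isUnit.2 hgu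
  have hI : Function.Injective (fun W : Submodule K (Fin 4 → K) => W.map g.mulVecLin) :=
    Submodule.map_injective_of_injective hinj
  have hS : Function.Surjective (fun W : Submodule K (Fin 4 → K) => W.map g.mulVecLin) :=
    Submodule.map_surjective_of_surjective hsur
  have hfix : ∀ W : Submodule K (Fin 4 → K),
      (∃ p, IsFixedPoint (C c * subst g F) W p) ↔ ∃ p, IsFixedPoint F (W.map g.mulVecLin) p := by
    intro W
    constructor
    · rintro ⟨p, hp⟩
      exact ⟨g.mulVec p, (h3 W p).1 hp⟩
    · rintro ⟨p, hp⟩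
      obtain ⟨q, hq⟩ := hsur p
      refine ⟨q, (h3 W q).2 ?_⟩
      rw [Matrix.mulVecLin_apply] at hq
      rw [hq]
      exact hp
  refine ⟨h1, ?_, ?_⟩
  · have e : Hyp (C c * subst g F) =
        (fun W : Submodule K (Fin 4 → K) => W.map g.mulVecLin) ⁻¹' Hyp F := by
      ext W
      simp only [Hyp, Set.mem_ofPred_eq, Set.mem_preimage]
      rw [h2, hfix]
    rw [e]
    exact Set.ncard_preimage_of_injective_subset_range hI (fun W _ => hS W)
  · have e : Ell (C c * subst g F) =
        (fun W : Submodule K (Fin 4 → K) => W.map g.mulVecLin) ⁻¹' Ell F := by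
      ext W
      simp only [Ell, Set.mem_ofPred_eq, Set.mem_preimage]
      rw [h2, hfix]
    rw [e]
    exact Set.ncard_preimage_of_injective_subset_range hI (fun W _ => hS W)

theorem subst_subst {K : Type} [Field K] (g h : Matrix (Fin 4) (Fin 4) K)
    (F : MvPolynomial (Fin 4) K) : subst h (subst g F) = subst (g * h) F := by
  have key : (aeval (fun i => ∑ j, C (h i j) * X j) : MvPolynomial (Fin 4) K →ₐ[K] _).comp
      (aeval (fun i => ∑ j, C (g i j) * X j)) =
      (aeval (fun i => ∑ j, C ((g * h) i j) * X j) : MvPolynomial (Fin 4) K →ₐ[K] _) := by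
    apply MvPolynomial.algHom_ext
    intro i
    simp only [AlgHom.comp_apply, aeval_X, map_sum, map_mul, algHom_C, algebraMap_eq]
    simp only [Matrix.mul_apply, map_sum, map_mul, Finset.sum_mul, Finset.mul_sum]
    rw [Finset.sum_comm]
    refine Finset.sum_congr rfl fun j _ => Finset.sum_congr rfl fun l _ => ?_
    ring
  exact DFunLike.congr_fun key F

theorem t_TRANS : S_TRANS := by
  rintro K _ F G H ⟨g, hg, c, hc, rfl⟩ ⟨g', hg', c', hc', rfl⟩
  refine ⟨g * g', ?_, c' * c, mul_ne_zero hc' hc, ?_⟩
  · rw [Matrix.det_mul]; exact hg.mul hg'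
  · have e : subst g' (C c * subst g F) = C c * subst (g * g') F := by
      rw [← subst_subst]
      unfold subst
      rw [map_mul, algHom_C, algebraMap_eq]
    rw [e, map_mul]
    ring

end Pool.Agent.R863.CS
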