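import Pool.Agent.R863.CS.Stm

/-! # CS-TRI: three coplanar lines -/

set_option autoImplicit false
set_option maxHeartbeats 1000000

namespace Pool.Agent.R863.CS

open MvPolynomial

namespace TRI

section field

variable {k : Type} [Field k]

/-! ## the cubic -/

theorem ev_cub (a b : Fin 3 → k) (c d e : Fin 2 → k) (g v : Fin 4 → k) :
    eval v (cub16 a b c d e g) =
      v 0 * (a 0 * v 2 ^ 2 + a 1 * v 2 * v 3 + a 2 * v 3 ^ 2)
      + v 1 * (b 0 * v 2 ^ 2 + b 1 * v 2 * v 3 + b 2 * v 3 ^ 2)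
      + v 0 ^ 2 * (c 0 * v 2 + c 1 * v 3) + v 0 * v 1 * (d 0 * v 2 + d 1 * v 3)
      + v 1 ^ 2 * (e 0 * v 2 + e 1 * v 3)
      + (g 0 * v 0 ^ 3 + g 1 * v 0 ^ 2 * v 1 + g 2 * v 0 * v 1 ^ 2 + g 3 * v 1 ^ 3) := by
  simp [cub16]

theorem gr0 (a b : Fin 3 → k) (c d e : Fin 2 → k) (g v : Fin 4 → k) :
    eval v (pderiv 0 (cub16 a b c d e g)) =
      (a 0 * v 2 ^ 2 + a 1 * v 2 * v 3 + a 2 * v 3 ^ 2)
      + 2 * v 0 * (c 0 * v 2 + c 1 * v 3) + v 1 * (d 0 * v 2 + d 1 * v 3)
      + (3 * g 0 * v 0 ^ 2 + 2 * g 1 * v 0 * v 1 + g 2 * v 1 ^ 2) := by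
  simp [cub16, pderiv_X]
  ring

theorem gr1 (a b : Fin 3 → k) (c d e : Fin 2 → k) (g v : Fin 4 → k) :
    eval v (pderiv 1 (cub16 a b c d e g)) =
      (b 0 * v 2 ^ 2 + b 1 * v 2 * v 3 + b 2 * v 3 ^ 2)
      + v 0 * (d 0 * v 2 + d 1 * v 3) + 2 * v 1 * (e 0 * v 2 + e 1 * v 3)
      + (g 1 * v 0 ^ 2 + 2 * g 2 * v 0 * v 1 + 3 * g 3 * v 1 ^ 2) := by
  simp [cub16, pderiv_X]
  ring

theorem gr2 (a b : Fin 3 → k) (c d e : Fin 2 → k) (g v : Fin 4 → k) :
    eval v (pderiv 2 (cub16 a b c d e g)) =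
      v 0 * (2 * a 0 * v 2 + a 1 * v 3) + v 1 * (2 * b 0 * v 2 + b 1 * v 3)
      + v 0 ^ 2 * c 0 + v 0 * v 1 * d 0 + v 1 ^ 2 * e 0 := by
  simp [cub16, pderiv_X]
  ring

theorem gr3 (a b : Fin 3 → k) (c d e : Fin 2 → k) (g v : Fin 4 → k) :
    eval v (pderiv 3 (cub16 a b c d e g)) =
      v 0 * (a 1 * v 2 + 2 * a 2 * v 3) + v 1 * (b 1 * v 2 + 2 * b 2 * v 3)
      + v 0 ^ 2 * c 1 + v 0 * v 1 * d 1 + v 1 ^ 2 * e 1 := by
  simp [cub16, pderiv_X]
  ring

/-- a linear form -/
def lf (l : Fin 3 → k) : (Fin 3 → k) →ₗ[k] k := ∑ i, l i • LinearMap.proj i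

theorem lf_apply (l x : Fin 3 → k) : lf l x = l 0 * x 0 + l 1 * x 1 + l 2 * x 2 := by
  simp [lf, Fin.sum_univ_three]

/-- the parametrisation of the plane -/
def ph (s t : k) : (Fin 3 → k) →ₗ[k] (Fin 4 → k) where
  toFun := fun x => ![s * x 0, t * x 0, x 1, x 2]
  map_add' := fun x y => by
    ext i
    fin_cases i <;> simp [mul_add]
  map_smul' := fun c x => by
    ext i
    fin_cases i <;> simp [mul_left_comm]

theorem ph_apply (s t : k) (x : Fin 3 → k) : ph s t x = ![s * x 0, t * x 0, x 1, x 2] := rfl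

theorem ph_inj (s t : k) (hst : s ≠ 0 ∨ t ≠ 0) : Function.Injective (ph s t) := by
  intro x y h
  have h0 : s * x 0 = s * y 0 := by simpa [ph_apply] using congrFun h 0
  have h1 : t * x 0 = t * y 0 := by simpa [ph_apply] using congrFun h 1
  have h2 : x 1 = y 1 := by simpa [ph_apply] using congrFun h 2
  have h3 : x 2 = y 2 := by simpa [ph_apply] using congrFun h 3
  have h4 : x 0 = y 0 := by
    rcases hst with hs | ht
    · exact mul_left_cancel₀ hs h0
    · exact mul_left_cancel₀ ht h1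
  funext i
  fin_cases i
  · exact h4
  · exact h2
  · exact h3

theorem quad_zero [IsAlgClosed k] (h2 : (2 : k) ≠ 0) (A B C : k) :
    ∃ α β : k, (α ≠ 0 ∨ β ≠ 0) ∧ A * α ^ 2 + B * α * β + C * β ^ 2 = 0 := by
  by_cases hA : A = 0
  · exact ⟨1, 0, Or.inl one_ne_zero, by rw [hA]; ring⟩
  · obtain ⟨δ, hδ⟩ := IsAlgClosed.exists_eq_mul_self (B ^ 2 - 4 * A * C)
    refine ⟨(-B + δ) / (2 * A), 1, Or.inr one_ne_zero, ?_⟩
    have h2A : 2 * A ≠ 0 := mul_ne_zero h2 hA
    field_simp
    linear_combination (-1 : k) * hδ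

variable (a b : Fin 3 → k) (c d e : Fin 2 → k) (g : Fin 4 → k) (s t : k) (l m : Fin 3 → k)

theorem coeffs (h2 : (2 : k) ≠ 0) (hid : ∀ u z w : k,
    eval ![s * u, t * u, z, w] (cub16 a b c d e g) =
      u * (l 0 * u + l 1 * z + l 2 * w) * (m 0 * u + m 1 * z + m 2 * w)) :
    (s * a 0 + t * b 0 = l 1 * m 1) ∧ (s * a 1 + t * b 1 = l 1 * m 2 + l 2 * m 1) ∧
    (s * a 2 + t * b 2 = l 2 * m 2) ∧
    (s ^ 2 * c 0 + s * t * d 0 + t ^ 2 * e 0 = l 0 * m 1 + l 1 * m 0) ∧
    (s ^ 2 * c 1 + s * t * d 1 + t ^ 2 * e 1 = l 0 * m 2 + l 2 * m 0) ∧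
    (s ^ 3 * g 0 + s ^ 2 * t * g 1 + s * t ^ 2 * g 2 + t ^ 3 * g 3 = l 0 * m 0) := by
  have H : ∀ u z w : k,
      s * u * (a 0 * z ^ 2 + a 1 * z * w + a 2 * w ^ 2)
      + t * u * (b 0 * z ^ 2 + b 1 * z * w + b 2 * w ^ 2)
      + (s * u) ^ 2 * (c 0 * z + c 1 * w) + s * u * (t * u) * (d 0 * z + d 1 * w)
      + (t * u) ^ 2 * (e 0 * z + e 1 * w)
      + (g 0 * (s * u) ^ 3 + g 1 * (s * u) ^ 2 * (t * u) + g 2 * (s * u) * (t * u) ^ 2
        + g 3 * (t * u) ^ 3) =
      u * (l 0 * u + l 1 * z + l 2 * w) * (m 0 * u + m 1 * z + m 2 * w) := by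
    intro u z w
    rw [← hid, ev_cub]
    simp
  have e0 := H 1 0 0
  have e1 := H 1 1 0
  have e2 := H 1 (-1) 0
  have e3 := H 1 0 1
  have e4 := H 1 0 (-1)
  have e5 := H 1 1 1
  have c1 : s ^ 3 * g 0 + s ^ 2 * t * g 1 + s * t ^ 2 * g 2 + t ^ 3 * g 3 = l 0 * m 0 := by
    linear_combination e0
  have c2 : s * a 0 + t * b 0 = l 1 * m 1 := by
    apply mul_left_cancel₀ h2
    linear_combination e1 + e2 - 2 * e0
  have c3 : s ^ 2 * c 0 + s * t * d 0 + t ^ 2 * e 0 = l 0 * m 1 + l 1 * m 0 := by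
    apply mul_left_cancel₀ h2
    linear_combination e1 - e2
  have c4 : s * a 2 + t * b 2 = l 2 * m 2 := by
    apply mul_left_cancel₀ h2
    linear_combination e3 + e4 - 2 * e0
  have c5 : s ^ 2 * c 1 + s * t * d 1 + t ^ 2 * e 1 = l 0 * m 2 + l 2 * m 0 := by
    apply mul_left_cancel₀ h2
    linear_combination e3 - e4
  have c6 : s * a 1 + t * b 1 = l 1 * m 2 + l 2 * m 1 := by
    linear_combination e5 - c1 - c2 - c3 - c4 - c5
  exact ⟨c2, c6, c4, c3, c5, c1⟩

theorem restr (h2 : (2 : k) ≠ 0) (hid : ∀ u z w : k,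
    eval ![s * u, t * u, z, w] (cub16 a b c d e g) =
      u * (l 0 * u + l 1 * z + l 2 * w) * (m 0 * u + m 1 * z + m 2 * w)) (x : Fin 3 → k) :
    eval (ph s t x) (cub16 a b c d e g) = x 0 * lf l x * lf m x ∧
    s * eval (ph s t x) (pderiv 0 (cub16 a b c d e g)) +
      t * eval (ph s t x) (pderiv 1 (cub16 a b c d e g)) =
      lf l x * lf m x + l 0 * (x 0 * lf m x) + m 0 * (x 0 * lf l x) ∧
    eval (ph s t x) (pderiv 2 (cub16 a b c d e g)) =
      l 1 * (x 0 * lf m x) + m 1 * (x 0 * lf l x) ∧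
    eval (ph s t x) (pderiv 3 (cub16 a b c d e g)) =
      l 2 * (x 0 * lf m x) + m 2 * (x 0 * lf l x) := by
  obtain ⟨c2, c6, c4, c3, c5, c1⟩ := coeffs a b c d e g s t l m h2 hid
  refine ⟨?_, ?_, ?_, ?_⟩
  · rw [ph_apply, hid, lf_apply, lf_apply]
  · rw [gr0, gr1, ph_apply, lf_apply, lf_apply]
    simp only [Matrix.cons_val_zero, Matrix.cons_val_one, Matrix.cons_val]
    linear_combination (x 1) ^ 2 * c2 + x 1 * x 2 * c6 + (x 2) ^ 2 * c4 + 2 * x 0 * x 1 * c3
      + 2 * x 0 * x 2 * c5 + 3 * (x 0) ^ 2 * c1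
  · rw [gr2, ph_apply, lf_apply, lf_apply]
    simp only [Matrix.cons_val_zero, Matrix.cons_val_one, Matrix.cons_val]
    linear_combination x 0 * (2 * x 1 * c2 + x 2 * c6 + x 0 * c3)
  · rw [gr3, ph_apply, lf_apply, lf_apply]
    simp only [Matrix.cons_val_zero, Matrix.cons_val_one, Matrix.cons_val]
    linear_combination x 0 * (x 1 * c6 + 2 * x 2 * c4 + x 0 * c5)

/-- there is no plane on which all the products vanish -/
theorem noplane [IsAlgClosed k] (h2 : (2 : k) ≠ 0) (hsm : Smooth (cub16 a b c d e g))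
    (hst : s ≠ 0 ∨ t ≠ 0) (hid : ∀ u z w : k,
    eval ![s * u, t * u, z, w] (cub16 a b c d e g) =
      u * (l 0 * u + l 1 * z + l 2 * w) * (m 0 * u + m 1 * z + m 2 * w))
    (U : Submodule k (Fin 3 → k)) (hU : 1 < Module.finrank k U)
    (h1 : ∀ x ∈ U, x 0 * lf l x = 0) (h3 : ∀ x ∈ U, x 0 * lf m x = 0)
    (h4 : ∀ x ∈ U, lf l x * lf m x = 0) : False := by
  have hne : U ≠ ⊥ := by
    rintro rfl
    rw [finrank_bot] at hU
    omega
  obtain ⟨x0, hx0, hx0'⟩ := Submodule.exists_mem_ne_zero_of_ne_bot hne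
  obtain ⟨y, hy⟩ := exists_linearIndependent_pair_of_one_lt_finrank (R := k) (M := U) hU
    (x := ⟨x0, hx0⟩) (fun h => hx0' (congrArg Subtype.val h))
  rw [LinearIndependent.pair_iff] at hy
  set p := ph s t x0 with hp
  set q := ph s t (y : Fin 3 → k) with hq
  -- a point of the plane with one more vanishing derivative
  have key : ∀ α β : k, (α ≠ 0 ∨ β ≠ 0) →
      eval (α • p + β • q) (pderiv 0 (cub16 a b c d e g)) = 0 →
      eval (α • p + β • q) (pderiv 1 (cub16 a b c d e g)) = 0 → False := by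
    intro α β hαβ z0 z1
    set x : Fin 3 → k := α • x0 + β • (y : Fin 3 → k) with hx
    have hxU : x ∈ U := U.add_mem (U.smul_mem _ hx0) (U.smul_mem _ y.2)
    have hpx : α • p + β • q = ph s t x := by
      rw [hx, map_add, map_smul, map_smul]
    have hxne : x ≠ 0 := by
      intro h0
      have := hy α β (Subtype.ext h0)
      rcases hαβ with h | h
      · exact h this.1
      · exact h this.2
    obtain ⟨r0, r1, r2, r3⟩ := restr a b c d e g s t l m h2 hid x
    rw [hpx] at z0 z1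
    have hvne : ph s t x ≠ 0 := by
      intro h0
      apply hxne
      apply ph_inj s t hst
      rw [h0, map_zero]
    obtain ⟨i, hi⟩ := hsm (ph s t x) hvne (by rw [r0, h1 x hxU, zero_mul])
    apply hi
    fin_cases i
    · exact z0
    · exact z1
    · change eval (ph s t x) (pderiv 2 (cub16 a b c d e g)) = 0
      rw [r2, h1 x hxU, h3 x hxU, mul_zero, mul_zero, add_zero]
    · change eval (ph s t x) (pderiv 3 (cub16 a b c d e g)) = 0
      rw [r3, h1 x hxU, h3 x hxU, mul_zero, mul_zero, add_zero]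
  have sumz : ∀ α β : k, s * eval (α • p + β • q) (pderiv 0 (cub16 a b c d e g)) +
      t * eval (α • p + β • q) (pderiv 1 (cub16 a b c d e g)) = 0 := by
    intro α β
    set x : Fin 3 → k := α • x0 + β • (y : Fin 3 → k) with hx
    have hxU : x ∈ U := U.add_mem (U.smul_mem _ hx0) (U.smul_mem _ y.2)
    have hpx : α • p + β • q = ph s t x := by
      rw [hx, map_add, map_smul, map_smul]
    obtain ⟨r0, r1, r2, r3⟩ := restr a b c d e g s t l m h2 hid x
    rw [hpx, r1, h1 x hxU, h3 x hxU, h4 x hxU]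
    ring
  rcases hst with hs | ht
  · obtain ⟨α, β, hαβ, hz⟩ := quad_zero h2 (eval p (pderiv 1 (cub16 a b c d e g)))
      (eval (p + q) (pderiv 1 (cub16 a b c d e g)) - eval p (pderiv 1 (cub16 a b c d e g))
        - eval q (pderiv 1 (cub16 a b c d e g))) (eval q (pderiv 1 (cub16 a b c d e g)))
    have z1 : eval (α • p + β • q) (pderiv 1 (cub16 a b c d e g)) = 0 := by
      rw [← hz]
      simp only [gr1, Pi.add_apply, Pi.smul_apply, smul_eq_mul]
      ring
    have z0 : eval (α • p + β • q) (pderiv 0 (cub16 a b c d e g)) = 0 := by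
      have := sumz α β
      rw [z1, mul_zero, add_zero] at this
      exact (mul_eq_zero.mp this).resolve_left hs
    exact key α β hαβ z0 z1
  · obtain ⟨α, β, hαβ, hz⟩ := quad_zero h2 (eval p (pderiv 0 (cub16 a b c d e g)))
      (eval (p + q) (pderiv 0 (cub16 a b c d e g)) - eval p (pderiv 0 (cub16 a b c d e g))
        - eval q (pderiv 0 (cub16 a b c d e g))) (eval q (pderiv 0 (cub16 a b c d e g)))
    have z0 : eval (α • p + β • q) (pderiv 0 (cub16 a b c d e g)) = 0 := by
      rw [← hz]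
      simp only [gr0, Pi.add_apply, Pi.smul_apply, smul_eq_mul]
      ring
    have z1 : eval (α • p + β • q) (pderiv 1 (cub16 a b c d e g)) = 0 := by
      have := sumz α β
      rw [z0, mul_zero, zero_add] at this
      exact (mul_eq_zero.mp this).resolve_left ht
    exact key α β hαβ z0 z1

/-- the three forms -/
def ff : Fin 3 → ((Fin 3 → k) →ₗ[k] k) := ![LinearMap.proj 0, lf l, lf m]

theorem exists_three [IsAlgClosed k] (h2 : (2 : k) ≠ 0) (hsm : Smooth (cub16 a b c d e g))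
    (hst : s ≠ 0 ∨ t ≠ 0) (hid : ∀ u z w : k,
    eval ![s * u, t * u, z, w] (cub16 a b c d e g) =
      u * (l 0 * u + l 1 * z + l 2 * w) * (m 0 * u + m 1 * z + m 2 * w)) :
    ∃ L : Fin 3 → Submodule k (Fin 4 → k), (∀ i, L i ∈ Lines (cub16 a b c d e g)) ∧
      Function.Injective L ∧ Module.finrank k ↥(L 0 ⊔ L 1 ⊔ L 2) = 3 := by
  have hno : ∀ i j : Fin 3, i ≠ j → ∀ U : Submodule k (Fin 3 → k), 1 < Module.finrank k U →
      (∀ x ∈ U, ff l m i x = 0) → (∀ x ∈ U, ff l m j x = 0) → False := by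
    intro i j hij U hU hi hj
    have e0 : ∀ x, ff l m 0 x = x 0 := fun x => rfl
    have e1 : ∀ x, ff l m 1 x = lf l x := fun x => rfl
    have e2 : ∀ x, ff l m 2 x = lf m x := fun x => rfl
    apply noplane a b c d e g s t l m h2 hsm hst hid U hU
    · intro x hx
      have h1 := hi x hx
      have h2 := hj x hx
      fin_cases i <;> fin_cases j <;> simp_all
    · intro x hx
      have h1 := hi x hx
      have h2 := hj x hx
      fin_cases i <;> fin_cases j <;> simp_all
    · intro x hx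
      have h1 := hi x hx
      have h2 := hj x hx
      fin_cases i <;> fin_cases j <;> simp_all
  have hker : ∀ i, ff l m i ≠ 0 := by
    intro i hi
    obtain ⟨j, hj⟩ : ∃ j : Fin 3, i ≠ j := ⟨i + 1, by fin_cases i <;> decide⟩
    refine hno i j hj (LinearMap.ker (ff l m j)) ?_ (fun x _ => by rw [hi]; rfl)
      (fun x hx => hx)
    by_cases h0 : ff l m j = 0
    · rw [h0, LinearMap.ker_zero, finrank_top, Module.finrank_fin_fun]
      norm_num
    · have := Module.Dual.finrank_ker_add_one_of_ne_zero (f := ff l m j) h0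
      rw [Module.finrank_fin_fun] at this
      omega
  have hrk : ∀ i, Module.finrank k (LinearMap.ker (ff l m i)) = 2 := by
    intro i
    have := Module.Dual.finrank_ker_add_one_of_ne_zero (f := ff l m i) (hker i)
    rw [Module.finrank_fin_fun] at this
    omega
  have hinj := ph_inj s t hst
  have hrk2 : ∀ i, Module.finrank k ((LinearMap.ker (ff l m i)).map (ph s t)) = 2 := by
    intro i
    rw [← hrk i]
    exact (Submodule.equivMapOfInjective (ph s t) hinj _).finrank_eq.symm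
  have hLinj : Function.Injective fun i => (LinearMap.ker (ff l m i)).map (ph s t) := by
    intro i j hij
    by_contra hne
    have h1 := Submodule.map_injective_of_injective hinj hij
    refine hno i j hne (LinearMap.ker (ff l m i)) (by rw [hrk]; norm_num) (fun x hx => hx)
      (fun x hx => ?_)
    rw [h1] at hx
    exact hx
  refine ⟨fun i => (LinearMap.ker (ff l m i)).map (ph s t), ?_, hLinj, ?_⟩
  · intro i
    refine ⟨hrk2 i, ?_⟩
    rintro v ⟨x, hx, rfl⟩
    rw [(restr a b c d e g s t l m h2 hid x).1]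
    have hx' : ff l m i x = 0 := hx
    have e0 : ∀ x, ff l m 0 x = x 0 := fun x => rfl
    have e1 : ∀ x, ff l m 1 x = lf l x := fun x => rfl
    have e2 : ∀ x, ff l m 2 x = lf m x := fun x => rfl
    fin_cases i <;> simp_all
  · apply le_antisymm
    · have h1 : (LinearMap.ker (ff l m 0)).map (ph s t) ⊔ (LinearMap.ker (ff l m 1)).map (ph s t) ⊔
          (LinearMap.ker (ff l m 2)).map (ph s t) ≤ LinearMap.range (ph s t) := by
        refine sup_le (sup_le ?_ ?_) ?_ <;> exact LinearMap.map_le_range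
      have h3 := Submodule.finrank_mono h1
      rwa [LinearMap.finrank_range_of_inj hinj, Module.finrank_fin_fun] at h3
    · have hlt : (LinearMap.ker (ff l m 0)).map (ph s t) <
          (LinearMap.ker (ff l m 0)).map (ph s t) ⊔ (LinearMap.ker (ff l m 1)).map (ph s t) := by
        rw [lt_iff_le_and_ne]
        refine ⟨le_sup_left, fun h => ?_⟩
        have h5 : (LinearMap.ker (ff l m 1)).map (ph s t) ≤
            (LinearMap.ker (ff l m 0)).map (ph s t) := by
          rw [h]; exact le_sup_right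
        have h6 := Submodule.eq_of_le_of_finrank_eq h5 ((hrk2 1).trans (hrk2 0).symm)
        exact absurd (hLinj h6) (by decide)
      have h7 := Submodule.finrank_lt_finrank_of_lt hlt
      rw [hrk2] at h7
      have h8 : Module.finrank k ↥((LinearMap.ker (ff l m 0)).map (ph s t) ⊔
          (LinearMap.ker (ff l m 1)).map (ph s t)) ≤ Module.finrank k
          ↥((LinearMap.ker (ff l m 0)).map (ph s t) ⊔
          (LinearMap.ker (ff l m 1)).map (ph s t) ⊔ (LinearMap.ker (ff l m 2)).map (ph s t)) :=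
        Submodule.finrank_mono le_sup_left
      exact le_trans h7 h8

end field

theorem bar_cub {K : Type} [Field K] (a b : Fin 3 → K) (c d e : Fin 2 → K) (g : Fin 4 → K) :
    bar (cub16 a b c d e g) = cub16 (fun i => algebraMap K (AlgebraicClosure K) (a i))
      (fun i => algebraMap K (AlgebraicClosure K) (b i))
      (fun i => algebraMap K (AlgebraicClosure K) (c i))
      (fun i => algebraMap K (AlgebraicClosure K) (d i))
      (fun i => algebraMap K (AlgebraicClosure K) (e i))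
      (fun i => algebraMap K (AlgebraicClosure K) (g i)) := by
  simp [bar, cub16]

end TRI

open TRI in
theorem t_TRI (hLA : S_LA) (hCH : S_CH) (hTX : S_TX) (hCO : S_COEF) (hAD : S_ADAPT)
    (hPL : S_PL) : S_TRI := by
  intro K _ h2 F hF
  obtain ⟨W, hW⟩ : (Lines (bar F)).Nonempty := by
    apply Set.nonempty_of_ncard_ne_zero
    rw [hF.card]
    norm_num
  obtain ⟨W₀, hW₀⟩ := hF.rat W hW
  obtain ⟨la1, la2, la3, la4, la5, la6, la7⟩ := hLA K
  have hrk : Module.finrank K W₀ = 2 := by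
    rw [← la1, ← hW₀]
    exact hW.1
  obtain ⟨p, hp, hp0⟩ : ∃ p ∈ W₀, p ≠ 0 := by
    apply Submodule.exists_mem_ne_zero_of_ne_bot
    rintro rfl
    rw [finrank_bot] at hrk
    omega
  obtain ⟨g, hg, -, hgW⟩ := hAD K W₀ p hrk hp hp0
  obtain ⟨tx1, tx2, -⟩ := hTX K F g 1 hg one_ne_zero
  set G := C (1 : K) * subst g F with hG
  have hGs : G = subst g F := by rw [hG, C_1, one_mul]
  have hGsplit : IsSplit G := tx1 hF
  obtain ⟨ch1, ch2, ch3, ch4⟩ := hCH
  have hvan : ∀ z w : AlgebraicClosure K, eval ![0, 0, z, w] (bar G) = 0 := by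
    intro z w
    rw [hGs, ch3, (ch1 (AlgebraicClosure K) _ _ _).1]
    apply hW.2
    have e1 : (g.map (algebraMap K (AlgebraicClosure K))).mulVec ![0, 0, z, w] =
        z • up (fun i => g i 2) + w • up (fun i => g i 3) := by
      ext i
      simp [Matrix.mulVec, dotProduct, Fin.sum_univ_four, up, mul_comm]
    rw [e1, hW₀]
    refine Submodule.add_mem _ (Submodule.smul_mem _ _ ?_) (Submodule.smul_mem _ _ ?_)
    · rw [la6, hgW]
      exact ⟨1, 0, fun i => by ring⟩
    · rw [la6, hgW]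
      exact ⟨0, 1, fun i => by ring⟩
  obtain ⟨a, b, c, d, e, g', hcub⟩ := hCO K G hGsplit.hom hvan
  have h2' : (2 : AlgebraicClosure K) ≠ 0 := by
    have h := (map_ne_zero (algebraMap K (AlgebraicClosure K))).mpr h2
    rwa [map_ofNat] at h
  obtain ⟨s, t, l, m, hst, hid⟩ := hPL (AlgebraicClosure K) h2'
    (fun i => algebraMap K (AlgebraicClosure K) (a i))
    (fun i => algebraMap K (AlgebraicClosure K) (b i))
    (fun i => algebraMap K (AlgebraicClosure K) (c i))
    (fun i => algebraMap K (AlgebraicClosure K) (d i))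
    (fun i => algebraMap K (AlgebraicClosure K) (e i))
    (fun i => algebraMap K (AlgebraicClosure K) (g' i))
  have hbar : bar G = cub16 (fun i => algebraMap K (AlgebraicClosure K) (a i))
      (fun i => algebraMap K (AlgebraicClosure K) (b i))
      (fun i => algebraMap K (AlgebraicClosure K) (c i))
      (fun i => algebraMap K (AlgebraicClosure K) (d i))
      (fun i => algebraMap K (AlgebraicClosure K) (e i))
      (fun i => algebraMap K (AlgebraicClosure K) (g' i)) := by
    rw [hcub, bar_cub]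
  obtain ⟨L, hL, hLinj, hL3⟩ := exists_three _ _ _ _ _ _ s t l m h2'
    (by rw [← hbar]; exact hGsplit.smooth) hst hid
  rw [← hbar] at hL
  choose V hV using fun i => hGsplit.rat (L i) (hL i)
  have hVK : ∀ i, V i ∈ KLines G := fun i => by
    change ofK (V i) ∈ Lines (bar G)
    rw [← hV]
    exact hL i
  have hVinj : ∀ i j, V i = V j → i = j := fun i j h => hLinj (by rw [hV i, hV j, h])
  have hV3 : Module.finrank K ↥(V 0 ⊔ V 1 ⊔ V 2) = 3 := by
    rw [← la1, la4, la4, ← hV, ← hV, ← hV]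
    exact hL3
  have hginj : Function.Injective g.mulVecLin := by
    have := Matrix.mulVec_injective_of_isUnit ((Matrix.isUnit_iff_isUnit_det g).mpr hg)
    intro x y hxy
    exact this hxy
  have hmap := Submodule.map_injective_of_injective hginj
  refine ⟨(V 0).map g.mulVecLin, (V 1).map g.mulVecLin, (V 2).map g.mulVecLin,
    (tx2 _).mp (hVK 0), (tx2 _).mp (hVK 1), (tx2 _).mp (hVK 2), ?_, ?_, ?_, ?_⟩
  · intro h
    exact absurd (hVinj 0 1 (hmap h)) (by decide)
  · intro h
    exact absurd (hVinj 0 2 (hmap h)) (by decide)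
  · intro h
    exact absurd (hVinj 1 2 (hmap h)) (by decide)
  · rw [← Submodule.map_sup, ← Submodule.map_sup]
    exact (Submodule.equivMapOfInjective g.mulVecLin hginj _).finrank_eq.symm.trans hV3

end Pool.Agent.R863.CS
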