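import Pool.Agent.R863.CS.LA
import Pool.Agent.R863.CS.CH

set_option autoImplicit false

namespace Pool.Agent.R863.CS

open MvPolynomial

section gen

variable {k : Type} [Field k]

/-- the linear equivalence of an invertible matrix -/
noncomputable def eqv (g : Matrix (Fin 4) (Fin 4) k) (hg : IsUnit g.det) :
    (Fin 4 → k) ≃ₗ[k] (Fin 4 → k) :=
  LinearEquiv.ofBijective g.mulVecLin
    ⟨Matrix.mulVec_injective_iff_isUnit.2 ((Matrix.isUnit_iff_isUnit_det g).2 hg),
     Matrix.mulVec_surjective_iff_isUnit.2 ((Matrix.isUnit_iff_isUnit_det g).2 hg)⟩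

theorem eqv_apply (g : Matrix (Fin 4) (Fin 4) k) (hg : IsUnit g.det) (v : Fin 4 → k) :
    eqv g hg v = g.mulVec v := rfl

theorem map_eqv (g : Matrix (Fin 4) (Fin 4) k) (hg : IsUnit g.det)
    (W : Submodule k (Fin 4 → k)) :
    W.map g.mulVecLin = W.map (eqv g hg : (Fin 4 → k) →ₗ[k] (Fin 4 → k)) := rfl

theorem lines_subst (F : MvPolynomial (Fin 4) k) (g : Matrix (Fin 4) (Fin 4) k) (c : k)
    (hg : IsUnit g.det) (hc : c ≠ 0) (W : Submodule k (Fin 4 → k)) :
    W ∈ Lines (C c * subst g F) ↔ W.map g.mulVecLin ∈ Lines F := by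
  unfold Lines
  have h1 : Module.finrank k (W.map g.mulVecLin) = Module.finrank k W := by
    rw [map_eqv g hg]; exact LinearEquiv.finrank_map_eq _ _
  have h2 : (∀ v ∈ W, eval v (C c * subst g F) = 0) ↔
      ∀ v ∈ W.map g.mulVecLin, eval v F = 0 := by
    constructor
    · intro h v hv
      obtain ⟨w, hw, rfl⟩ := Submodule.mem_map.1 hv
      have := h w hw
      rw [map_mul, eval_C, eval_subst] at this
      exact (mul_eq_zero.1 this).resolve_left hc
    · intro h v hv
      rw [map_mul, eval_C, eval_subst]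
      rw [show eval (g.mulVec v) F = 0 from h _ (Submodule.mem_map.2 ⟨v, hv, rfl⟩), mul_zero]
  show (_ ∧ _) ↔ (_ ∧ _)
  rw [h1, h2]

theorem ncard_lines_subst (F : MvPolynomial (Fin 4) k) (g : Matrix (Fin 4) (Fin 4) k) (c : k)
    (hg : IsUnit g.det) (hc : c ≠ 0) :
    (Lines (C c * subst g F)).ncard = (Lines F).ncard := by
  have hinj : Function.Injective (fun W : Submodule k (Fin 4 → k) => W.map g.mulVecLin) := by
    intro W W' h
    exact Submodule.map_injective_of_injective (f := g.mulVecLin)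
      (Matrix.mulVec_injective_iff_isUnit.2 ((Matrix.isUnit_iff_isUnit_det g).2 hg)) h
  have h1 : Lines F = (fun W : Submodule k (Fin 4 → k) => W.map g.mulVecLin) ''
      Lines (C c * subst g F) := by
    ext W
    constructor
    · intro hW
      have h2 : (W.comap g.mulVecLin).map g.mulVecLin = W :=
        Submodule.map_comap_eq_of_surjective
          (Matrix.mulVec_surjective_iff_isUnit.2 ((Matrix.isUnit_iff_isUnit_det g).2 hg)) W
      refine ⟨W.comap g.mulVecLin, ?_, h2⟩
      rw [lines_subst F g c hg hc, h2]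
      exact hW
    · rintro ⟨W', hW', rfl⟩
      exact (lines_subst F g c hg hc W').1 hW'
  rw [h1, Set.ncard_image_of_injective _ hinj]

/-- gradient of the transformed form -/
theorem grad_subst (F : MvPolynomial (Fin 4) k) (g : Matrix (Fin 4) (Fin 4) k) (c : k)
    (v : Fin 4 → k) :
    (fun j => eval v (pderiv j (C c * subst g F))) =
      c • Matrix.vecMul (fun i => eval (g.mulVec v) (pderiv i F)) g := by
  ext j
  rw [Derivation.leibniz, smul_eq_mul, smul_eq_mul, pderiv_C, mul_zero, add_zero, map_mul, eval_C,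
    pderiv_subst]
  simp only [Pi.smul_apply, smul_eq_mul, Matrix.vecMul, dotProduct]
  congr 1
  exact Finset.sum_congr rfl fun i _ => mul_comm _ _

theorem vecMul_inj (g : Matrix (Fin 4) (Fin 4) k) (hg : IsUnit g.det) {a b : Fin 4 → k}
    (h : Matrix.vecMul a g = Matrix.vecMul b g) : a = b :=
  Matrix.vecMul_injective_iff_isUnit.2 ((Matrix.isUnit_iff_isUnit_det g).2 hg) h

theorem mulVec_inj (g : Matrix (Fin 4) (Fin 4) k) (hg : IsUnit g.det) {a b : Fin 4 → k}
    (h : g.mulVec a = g.mulVec b) : a = b :=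
  Matrix.mulVec_injective_iff_isUnit.2 ((Matrix.isUnit_iff_isUnit_det g).2 hg) h

theorem smooth_subst (F : MvPolynomial (Fin 4) k) (g : Matrix (Fin 4) (Fin 4) k) (c : k)
    (hg : IsUnit g.det) (hc : c ≠ 0) (hF : Smooth F) : Smooth (C c * subst g F) := by
  intro v hv h
  rw [map_mul, eval_C, eval_subst] at h
  have h1 := (mul_eq_zero.1 h).resolve_left hc
  have h2 : g.mulVec v ≠ 0 := by
    intro h0
    apply hv
    apply mulVec_inj g hg
    rw [h0, Matrix.mulVec_zero]
  obtain ⟨i, hi⟩ := hF _ h2 h1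
  by_contra hcon
  push Not at hcon
  have h3 : (fun j => eval v (pderiv j (C c * subst g F))) = 0 := by
    ext j; exact hcon j
  rw [grad_subst, smul_eq_zero] at h3
  have h4 := h3.resolve_left hc
  have h5 : (fun i => eval (g.mulVec v) (pderiv i F)) = 0 := by
    apply vecMul_inj g hg
    rw [h4, Matrix.zero_vecMul]
  exact hi (congrFun h5 i)

/-- proportional gradients -/
theorem prop_subst (F : MvPolynomial (Fin 4) k) (g : Matrix (Fin 4) (Fin 4) k) (c : k)
    (hg : IsUnit g.det) (hc : c ≠ 0) (v w : Fin 4 → k) :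
    (∃ d : k, ∀ i, eval v (pderiv i (C c * subst g F)) =
        d * eval w (pderiv i (C c * subst g F))) ↔
      ∃ d : k, ∀ i, eval (g.mulVec v) (pderiv i F) = d * eval (g.mulVec w) (pderiv i F) := by
  have key : ∀ d : k, (∀ i, eval v (pderiv i (C c * subst g F)) =
        d * eval w (pderiv i (C c * subst g F))) ↔
      ∀ i, eval (g.mulVec v) (pderiv i F) = d * eval (g.mulVec w) (pderiv i F) := by
    intro d
    have e1 : (∀ i, eval v (pderiv i (C c * subst g F)) =
        d * eval w (pderiv i (C c * subst g F))) ↔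
        (fun j => eval v (pderiv j (C c * subst g F))) =
          d • (fun j => eval w (pderiv j (C c * subst g F))) := by
      rw [funext_iff]; rfl
    have e2 : (∀ i, eval (g.mulVec v) (pderiv i F) = d * eval (g.mulVec w) (pderiv i F)) ↔
        (fun i => eval (g.mulVec v) (pderiv i F)) =
          d • (fun i => eval (g.mulVec w) (pderiv i F)) := by
      rw [funext_iff]; rfl
    rw [e1, e2, grad_subst, grad_subst]
    constructor
    · intro h
      apply vecMul_inj g hg
      rw [Matrix.smul_vecMul]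
      rw [smul_comm] at h
      exact smul_right_injective _ hc h
    · intro h
      rw [h, Matrix.smul_vecMul, smul_comm]
  exact ⟨fun ⟨d, hd⟩ => ⟨d, (key d).1 hd⟩, fun ⟨d, hd⟩ => ⟨d, (key d).2 hd⟩⟩

end gen

section bars

variable {K : Type} [Field K]

theorem bar_subst' (F : MvPolynomial (Fin 4) K) (g : Matrix (Fin 4) (Fin 4) K) (c : K) :
    bar (C c * subst g F) = C (algebraMap K (AlgebraicClosure K) c) *
      subst (g.map (algebraMap K (AlgebraicClosure K))) (bar F) := by
  have := t_CH.2.2.1 K g F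
  rw [← this]
  simp [bar]

theorem up_mulVec (g : Matrix (Fin 4) (Fin 4) K) (v : Fin 4 → K) :
    up (g.mulVec v) = (g.map (algebraMap K (AlgebraicClosure K))).mulVec (up v) :=
  t_CH.2.2.2 K g v

theorem det_map (g : Matrix (Fin 4) (Fin 4) K) (hg : IsUnit g.det) :
    IsUnit (g.map (algebraMap K (AlgebraicClosure K))).det := by
  have : (g.map (algebraMap K (AlgebraicClosure K))).det =
      algebraMap K (AlgebraicClosure K) g.det := by
    rw [RingHom.map_det]; rfl
  rw [this]
  exact hg.map _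

theorem ofK_map (g : Matrix (Fin 4) (Fin 4) K) (W : Submodule K (Fin 4 → K)) :
    ofK (W.map g.mulVecLin) =
      (ofK W).map (g.map (algebraMap K (AlgebraicClosure K))).mulVecLin := by
  unfold ofK
  rw [Submodule.map_span, Set.image_image]
  congr 1
  ext v
  constructor
  · rintro ⟨_, ⟨w, hw, rfl⟩, rfl⟩
    exact ⟨w, hw, (up_mulVec g w).symm⟩
  · rintro ⟨w, hw, rfl⟩
    exact ⟨g.mulVec w, ⟨w, hw, rfl⟩, up_mulVec g w⟩

theorem klines_subst (F : MvPolynomial (Fin 4) K) (g : Matrix (Fin 4) (Fin 4) K) (c : K)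
    (hg : IsUnit g.det) (hc : c ≠ 0) (W : Submodule K (Fin 4 → K)) :
    W ∈ KLines (C c * subst g F) ↔ W.map g.mulVecLin ∈ KLines F := by
  unfold KLines
  show ofK W ∈ Lines _ ↔ ofK _ ∈ Lines _
  rw [bar_subst', ofK_map, lines_subst _ _ _ (det_map g hg)
    ((map_ne_zero (algebraMap K (AlgebraicClosure K))).2 hc)]

theorem isSplit_subst (F : MvPolynomial (Fin 4) K) (g : Matrix (Fin 4) (Fin 4) K) (c : K)
    (hg : IsUnit g.det) (hc : c ≠ 0) (hF : IsSplit F) : IsSplit (C c * subst g F) := by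
  have hg' := det_map g hg
  have hc' : algebraMap K (AlgebraicClosure K) c ≠ 0 := (map_ne_zero _).2 hc
  refine ⟨(t_CH.2.1 K g F hF.hom).C_mul c, ?_, ?_, ?_⟩
  · rw [bar_subst']; exact smooth_subst _ _ _ hg' hc' hF.smooth
  · rw [bar_subst', ncard_lines_subst _ _ _ hg' hc', hF.card]
  · intro U hU
    rw [bar_subst', lines_subst _ _ _ hg' hc'] at hU
    obtain ⟨W₀, hW₀⟩ := hF.rat _ hU
    refine ⟨W₀.comap g.mulVecLin, ?_⟩
    have h2 : (W₀.comap g.mulVecLin).map g.mulVecLin = W₀ :=
      Submodule.map_comap_eq_of_surjective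
        (Matrix.mulVec_surjective_iff_isUnit.2 ((Matrix.isUnit_iff_isUnit_det g).2 hg)) W₀
    apply Submodule.map_injective_of_injective
      (f := (g.map (algebraMap K (AlgebraicClosure K))).mulVecLin)
      (Matrix.mulVec_injective_iff_isUnit.2 ((Matrix.isUnit_iff_isUnit_det _).2 hg'))
    rw [hW₀, ← ofK_map, h2]

theorem fixed_subst (F : MvPolynomial (Fin 4) K) (g : Matrix (Fin 4) (Fin 4) K) (c : K)
    (hg : IsUnit g.det) (hc : c ≠ 0) (W : Submodule K (Fin 4 → K)) (p : Fin 4 → K) :
    IsFixedPoint (C c * subst g F) W p ↔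
      IsFixedPoint F (W.map g.mulVecLin) (g.mulVec p) := by
  have hg' := det_map g hg
  have hc' : algebraMap K (AlgebraicClosure K) c ≠ 0 := (map_ne_zero _).2 hc
  unfold IsFixedPoint
  have h1 : p ∈ W ↔ g.mulVec p ∈ W.map g.mulVecLin := by
    constructor
    · intro h; exact Submodule.mem_map.2 ⟨p, h, rfl⟩
    · intro h
      obtain ⟨w, hw, hw'⟩ := Submodule.mem_map.1 h
      have : w = p := mulVec_inj g hg hw'
      rwa [← this]
  have h2 : p ≠ 0 ↔ g.mulVec p ≠ 0 := by
    rw [not_iff_not]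
    constructor
    · rintro rfl; exact Matrix.mulVec_zero _
    · intro h; apply mulVec_inj g hg; rw [h, Matrix.mulVec_zero]
  rw [h1, h2, bar_subst', ofK_map]
  refine and_congr_right fun _ => and_congr_right fun _ => ?_
  constructor
  · intro h q hq hq0 hd
    obtain ⟨v, hv, rfl⟩ := Submodule.mem_map.1 hq
    have hv0 : v ≠ 0 := by rintro rfl; simp at hq0
    obtain ⟨e, he⟩ := h v hv hv0 ((prop_subst _ _ _ hg' hc' _ _).2 (by
      rw [← up_mulVec]; exact hd))
    refine ⟨e, ?_⟩
    rw [he, up_mulVec]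
    simp
  · intro h v hv hv0 hd
    have hd' := (prop_subst _ _ _ hg' hc' _ _).1 hd
    rw [← up_mulVec] at hd'
    obtain ⟨e, he⟩ := h _ (Submodule.mem_map.2 ⟨v, hv, rfl⟩) (by
      intro h0
      apply hv0
      apply mulVec_inj _ hg'
      rw [Matrix.mulVec_zero]; exact h0) hd'
    refine ⟨e, ?_⟩
    apply mulVec_inj _ hg'
    rw [Matrix.mulVec_smul, ← up_mulVec]
    exact he

theorem t_TX : S_TX := fun K _ F g c hg hc =>
  ⟨isSplit_subst F g c hg hc, klines_subst F g c hg hc, fixed_subst F g c hg hc⟩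

end bars

end Pool.Agent.R863.CS
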