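import Pool.Agent.R863.CS.Stm

/-!
CS-TY3 (MP_f18d96_ag): the types of the lines of the second family.
-/

set_option autoImplicit false

namespace Pool.Agent.R863.CS

open MvPolynomial

namespace TY3aux

section grad

variable {k : Type} [Field k]

theorem g0 (s : Fin 3 → k) (v : Fin 4 → k) : eval v (pderiv 0 (fam3 s)) =
    v 2 ^ 2 - (3 * v 0 ^ 2 + 2 * (s 0 ^ 2 + s 1 ^ 2 + s 2 ^ 2) * v 0 * v 1 +
      (s 0 ^ 2 * s 1 ^ 2 + s 0 ^ 2 * s 2 ^ 2 + s 1 ^ 2 * s 2 ^ 2) * v 1 ^ 2) := by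
  simp [fam3, nf, pderiv_X]
  ring

theorem g1 (s : Fin 3 → k) (v : Fin 4 → k) : eval v (pderiv 1 (fam3 s)) =
    v 3 ^ 2 - ((s 0 ^ 2 + s 1 ^ 2 + s 2 ^ 2) * v 0 ^ 2 +
      2 * (s 0 ^ 2 * s 1 ^ 2 + s 0 ^ 2 * s 2 ^ 2 + s 1 ^ 2 * s 2 ^ 2) * v 0 * v 1 +
      3 * (s 0 ^ 2 * s 1 ^ 2 * s 2 ^ 2) * v 1 ^ 2) := by
  simp [fam3, nf, pderiv_X]
  ring

theorem g2 (s : Fin 3 → k) (v : Fin 4 → k) : eval v (pderiv 2 (fam3 s)) = 2 * v 0 * v 2 := by
  simp [fam3, nf, pderiv_X]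
  ring

theorem g3 (s : Fin 3 → k) (v : Fin 4 → k) : eval v (pderiv 3 (fam3 s)) = 2 * v 1 * v 3 := by
  simp [fam3, nf, pderiv_X]
  ring

theorem li {p q : Fin 4 → k} (i j : Fin 4) (h1 : p i ≠ 0) (h2 : q i = 0) (h3 : q j ≠ 0) :
    LinearIndependent k ![p, q] := by
  rw [LinearIndependent.pair_iff]
  intro a b h
  have e1 := congrFun h i
  simp only [Pi.add_apply, Pi.smul_apply, smul_eq_mul, Pi.zero_apply, h2, mul_zero, add_zero] at e1
  have ha : a = 0 := (mul_eq_zero.1 e1).resolve_right h1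
  have e2 := congrFun h j
  simp only [Pi.add_apply, Pi.smul_apply, smul_eq_mul, Pi.zero_apply, ha, zero_mul, zero_add] at e2
  exact ⟨ha, (mul_eq_zero.1 e2).resolve_right h3⟩

end grad

variable {K : Type} [Field K]

theorem bar_fam3 (s : Fin 3 → K) :
    bar (fam3 s) = fam3 (fun i => algebraMap K (AlgebraicClosure K) (s i)) := by
  simp [bar, fam3, nf]

theorem sg_sq (b : Bool) : (sg b : K) * sg b = 1 := by
  cases b <;> simp [sg]

theorem sg_ne (b : Bool) : (sg b : K) ≠ 0 := by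
  cases b <;> simp [sg]

theorem isq {c x : K} (hc : c ≠ 0) : IsSquare (c * c * x) ↔ IsSquare x := by
  constructor
  · rintro ⟨y, hy⟩
    refine ⟨y / c, ?_⟩
    field_simp
    rw [pow_two, pow_two, ← hy]
    ring
  · rintro ⟨y, rfl⟩
    exact ⟨c * y, by ring⟩

theorem fin3 (i : Fin 3) : i = 0 ∨ i = 1 ∨ i = 2 := by fin_cases i <;> simp

theorem fin4 (i : Fin 4) : i = 0 ∨ i = 1 ∨ i = 2 ∨ i = 3 := by fin_cases i <;> simp

theorem D0 (s : Fin 3 → K) : D3 s 0 = -((s 1 ^ 2 - s 0 ^ 2) * (s 2 ^ 2 - s 0 ^ 2)) := by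
  unfold D3
  have : Finset.univ.erase (0 : Fin 3) = {1, 2} := by decide
  rw [this, Finset.prod_pair (by decide)]

theorem D1 (s : Fin 3 → K) : D3 s 1 = -((s 0 ^ 2 - s 1 ^ 2) * (s 2 ^ 2 - s 1 ^ 2)) := by
  unfold D3
  have : Finset.univ.erase (1 : Fin 3) = {0, 2} := by decide
  rw [this, Finset.prod_pair (by decide)]

theorem D2 (s : Fin 3 → K) : D3 s 2 = -((s 0 ^ 2 - s 2 ^ 2) * (s 1 ^ 2 - s 2 ^ 2)) := by
  unfold D3
  have : Finset.univ.erase (2 : Fin 3) = {0, 1} := by decide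
  rw [this, Finset.prod_pair (by decide)]

theorem D_ne (s : Fin 3 → K) (hs : dist3 s) (i : Fin 3) : D3 s i ≠ 0 := by
  unfold D3
  rw [neg_ne_zero, Finset.prod_ne_zero_iff]
  intro j hj
  exact sub_ne_zero.2 (hs.2 j i (Finset.ne_of_mem_erase hj))

theorem A2 : algebraMap K (AlgebraicClosure K) 2 = 2 := map_ofNat _ 2

theorem caseM (hG : S_GAUSS) (h2 : (2 : K) ≠ 0) (s : Fin 3 → K) (hs : dist3 s) (i : Fin 3)
    (b : Bool) : (∃ p, IsFixedPoint (fam3 s)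
      (Submodule.span K {![-(s i) ^ 2, 1, 0, 0], ![0, 0, 1, sg b * s i]}) p) ↔
      IsSquare (D3 s i) := by
  have hsi := hs.1 i
  have key := hG K h2 (fam3 s) ![-(s i) ^ 2, 1, 0, 0] ![0, 0, 1, sg b * s i]
    ![1, s i ^ 2, 0, 0] ![0, 0, -(s i), sg b] ![D3 s i, 0, 1] ![0, 2 * s i, 0]
    (li 1 2 (by simp) (by simp) (by simp)) (li 0 3 (by simp) (by simp) (by simpa using sg_ne b))
    (by
      intro z w m
      rw [bar_fam3]
      rcases fin3 i with rfl | rfl | rfl <;> cases b <;> rcases fin4 m with rfl | rfl | rfl | rfl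
      all_goals first | rw [g0] | rw [g1] | rw [g2] | rw [g3]
      all_goals simp [up, sg, D0, D1, D2, A2]
      all_goals ring)
  have e : ((![D3 s i, 0, 1] : Fin 3 → K) 0 * (![0, 2 * s i, 0] : Fin 3 → K) 2 -
      (![D3 s i, 0, 1] : Fin 3 → K) 2 * (![0, 2 * s i, 0] : Fin 3 → K) 0) ^ 2 -
      ((![D3 s i, 0, 1] : Fin 3 → K) 0 * (![0, 2 * s i, 0] : Fin 3 → K) 1 -
        (![D3 s i, 0, 1] : Fin 3 → K) 1 * (![0, 2 * s i, 0] : Fin 3 → K) 0) *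
      ((![D3 s i, 0, 1] : Fin 3 → K) 1 * (![0, 2 * s i, 0] : Fin 3 → K) 2 -
        (![D3 s i, 0, 1] : Fin 3 → K) 2 * (![0, 2 * s i, 0] : Fin 3 → K) 1) =
      (2 * s i) * (2 * s i) * D3 s i := by
    simp
    ring
  rw [e, isq (mul_ne_zero h2 hsi)] at key
  exact key (mul_ne_zero (mul_ne_zero (mul_ne_zero h2 hsi) (mul_ne_zero h2 hsi)) (D_ne s hs i))

theorem caseA (hG : S_GAUSS) (h2 : (2 : K) ≠ 0) (s : Fin 3 → K) (hs : dist3 s)
    (b : Bool) : ∃ p, IsFixedPoint (fam3 s)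
      (Submodule.span K {![0, 1, 0, sg b * (s 0 * s 1 * s 2)], ![0, 0, 1, 0]}) p := by
  have h0 := hs.1 0
  have h1 := hs.1 1
  have h2' := hs.1 2
  have key := hG K h2 (fam3 s) ![0, 1, 0, sg b * (s 0 * s 1 * s 2)] ![0, 0, 1, 0]
    ![1, 0, 0, 0] ![0, -(s 0 * s 1 * s 2) ^ 2, 0, sg b * (s 0 * s 1 * s 2)]
    ![-(s 0 ^ 2 * s 1 ^ 2 + s 0 ^ 2 * s 2 ^ 2 + s 1 ^ 2 * s 2 ^ 2), 0, 1] ![2, 0, 0]
    (li 1 2 (by simp) (by simp) (by simp))
    (li 0 3 (by simp) (by simp) (mul_ne_zero (sg_ne b) (mul_ne_zero (mul_ne_zero h0 h1) h2')))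
    (by
      intro z w m
      rw [bar_fam3]
      cases b <;> rcases fin4 m with rfl | rfl | rfl | rfl
      all_goals first | rw [g0] | rw [g1] | rw [g2] | rw [g3]
      all_goals simp [up, sg, A2]
      all_goals try ring)
  refine (key ?_).2 ⟨2, ?_⟩
  · simp only [Matrix.cons_val_zero, Matrix.cons_val_one, Matrix.cons_val]
    have : (((-(s 0 ^ 2 * s 1 ^ 2 + s 0 ^ 2 * s 2 ^ 2 + s 1 ^ 2 * s 2 ^ 2)) * 0 - 1 * 2) ^ 2 -
      ((-(s 0 ^ 2 * s 1 ^ 2 + s 0 ^ 2 * s 2 ^ 2 + s 1 ^ 2 * s 2 ^ 2)) * 0 - 0 * 2) * (0 * 0 - 1 * 0) : K)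
      = 2 * 2 := by ring
    rw [this]
    exact mul_ne_zero h2 h2
  · simp only [Matrix.cons_val_zero, Matrix.cons_val_one, Matrix.cons_val]
    ring

theorem caseB (hG : S_GAUSS) (h2 : (2 : K) ≠ 0) (s : Fin 3 → K) (b : Bool) :
    ∃ p, IsFixedPoint (fam3 s) (Submodule.span K {![1, 0, sg b, 0], ![0, 0, 0, 1]}) p := by
  have key := hG K h2 (fam3 s) ![1, 0, sg b, 0] ![0, 0, 0, 1]
    ![0, 1, 0, 0] ![-1, 0, sg b, 0]
    ![-(s 0 ^ 2 + s 1 ^ 2 + s 2 ^ 2), 0, 1] ![2, 0, 0]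
    (li 0 3 (by simp) (by simp) (by simp))
    (li 1 2 (by simp) (by simp) (by simpa using sg_ne b))
    (by
      intro z w m
      rw [bar_fam3]
      cases b <;> rcases fin4 m with rfl | rfl | rfl | rfl
      all_goals first | rw [g0] | rw [g1] | rw [g2] | rw [g3]
      all_goals simp [up, sg, A2]
      all_goals try ring)
  refine (key ?_).2 ⟨2, ?_⟩
  · simp only [Matrix.cons_val_zero, Matrix.cons_val_one, Matrix.cons_val]
    have : (((-(s 0 ^ 2 + s 1 ^ 2 + s 2 ^ 2)) * 0 - 1 * 2) ^ 2 -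
      ((-(s 0 ^ 2 + s 1 ^ 2 + s 2 ^ 2)) * 0 - 0 * 2) * (0 * 0 - 1 * 0) : K)
      = 2 * 2 := by ring
    rw [this]
    exact mul_ne_zero h2 h2
  · simp only [Matrix.cons_val_zero, Matrix.cons_val_one, Matrix.cons_val]
    ring

theorem caseN (hG : S_GAUSS) (h2 : (2 : K) ≠ 0) (r : Fin 3 → K) (hr : dist3 r) (b : Bool) :
    (∃ p, IsFixedPoint (fam3 r) (Submodule.span K {![1, 0, sg b, -(sg b) * (r 0 + r 1 + r 2)],
       ![0, 1, -(sg b) * (r 0 * r 1 + r 0 * r 2 + r 1 * r 2), sg b * (r 0 * r 1 * r 2)]}) p) ↔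
      IsSquare (N3 r) := by
  have key := hG K h2 (fam3 r) ![1, 0, sg b, -(sg b) * (r 0 + r 1 + r 2)]
    ![0, 1, -(sg b) * (r 0 * r 1 + r 0 * r 2 + r 1 * r 2), sg b * (r 0 * r 1 * r 2)]
    ![-(sg b), sg b * (r 0 * r 1 + r 0 * r 2 + r 1 * r 2), 1, 0]
    ![sg b * (r 0 + r 1 + r 2), -(sg b * (r 0 * r 1 * r 2)), 0, 1]
    ![2 * sg b, -(2 * sg b * (r 0 * r 1 + r 0 * r 2 + r 1 * r 2)), 0]
    ![0, -(2 * sg b * (r 0 + r 1 + r 2)), 2 * sg b * (r 0 * r 1 * r 2)]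
    (li 0 1 (by simp) (by simp) (by simp))
    (li 2 3 (by simp) (by simp) (by simp))
    (by
      intro z w m
      rw [bar_fam3]
      cases b <;> rcases fin4 m with rfl | rfl | rfl | rfl
      all_goals first | rw [g0] | rw [g1] | rw [g2] | rw [g3]
      all_goals simp [up, sg, A2]
      all_goals try ring)
  simp only [Matrix.cons_val_zero, Matrix.cons_val_one, Matrix.cons_val] at key
  have e : (2 * sg b * (2 * sg b * (r 0 * r 1 * r 2)) - 0 * 0) ^ 2 -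
      (2 * sg b * -(2 * sg b * (r 0 + r 1 + r 2)) -
        -(2 * sg b * (r 0 * r 1 + r 0 * r 2 + r 1 * r 2)) * 0) *
      (-(2 * sg b * (r 0 * r 1 + r 0 * r 2 + r 1 * r 2)) * (2 * sg b * (r 0 * r 1 * r 2)) -
        0 * -(2 * sg b * (r 0 + r 1 + r 2))) = (2 * 2) * (2 * 2) * N3 r := by
    unfold N3
    cases b <;> simp only [sg] <;> simp <;> ring
  rw [e, isq (mul_ne_zero h2 h2)] at key
  refine key ?_
  refine mul_ne_zero (mul_ne_zero (mul_ne_zero h2 h2) (mul_ne_zero h2 h2)) ?_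
  unfold N3
  have hadd : ∀ i j : Fin 3, i ≠ j → r i + r j ≠ 0 := by
    intro i j hij h
    apply hr.2 i j hij
    have : r i = - r j := eq_neg_of_add_eq_zero_left h
    rw [this]
    ring
  have a0 := hr.1 0
  have a1 := hr.1 1
  have a2 := hr.1 2
  have b0 := hadd 0 1 (by decide)
  have b1 := hadd 1 2 (by decide)
  have b2 := hadd 2 0 (by decide)
  rw [neg_ne_zero]
  exact mul_ne_zero (mul_ne_zero (mul_ne_zero (mul_ne_zero (mul_ne_zero a0 a1) a2) b0) b1) b2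

theorem sv3_sq (s : Fin 3 → K) (t : Fin 3 → Bool) (i : Fin 3) : sv3 s t i ^ 2 = s i ^ 2 := by
  unfold sv3
  rw [mul_pow, pow_two (sg (t i)), sg_sq, one_mul]

theorem fam3_sv3 (s : Fin 3 → K) (t : Fin 3 → Bool) : fam3 (sv3 s t) = fam3 s := by
  unfold fam3
  rw [sv3_sq, sv3_sq, sv3_sq]

theorem dist3_sv3 {s : Fin 3 → K} (hs : dist3 s) (t : Fin 3 → Bool) : dist3 (sv3 s t) := by
  refine ⟨fun i => mul_ne_zero (sg_ne _) (hs.1 i), fun i j hij => ?_⟩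
  rw [sv3_sq, sv3_sq]
  exact hs.2 i j hij

end TY3aux

open TY3aux in
theorem t_TY3 (hG : S_GAUSS) (h0 : S_TY0) : S_TY3 := by
  intro K _ h2 s hs i
  match i with
  | .inl _ => exact iff_of_true (h0 K _ _ _ _ _ _) trivial
  | .inr (.inl (i, b)) => exact caseM hG h2 s hs i b
  | .inr (.inr (.inl b)) => exact iff_of_true (caseA hG h2 s hs b) trivial
  | .inr (.inr (.inr (.inl b))) => exact iff_of_true (caseB hG h2 s b) trivial
  | .inr (.inr (.inr (.inr (b, t)))) =>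
    have := caseN hG h2 (sv3 s t) (dist3_sv3 hs t) b
    rw [fam3_sv3] at this
    exact this

end Pool.Agent.R863.CS
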