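import Pool.Agent.R863.CS.Stm

set_option autoImplicit false

/-! CS-TY5M: the type of the lines of `fam5 s` that meet `x = y = 0` -/

namespace Pool.Agent.R863.CS

open MvPolynomial

namespace TY5Maux

lemma grad_nf {k : Type} [Field k] (a b c0 c1 c2 c3 : k) (x : Fin 4 → k) :
    eval x (pderiv 0 (nf a b c0 c1 c2 c3)) =
        x 2 ^ 2 + 4 * b * x 0 * x 3 - (3 * c0 * x 0 ^ 2 + 2 * c1 * x 0 * x 1 + c2 * x 1 ^ 2) ∧
      eval x (pderiv 1 (nf a b c0 c1 c2 c3)) =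
        x 3 ^ 2 + 4 * a * x 1 * x 2 - (c1 * x 0 ^ 2 + 2 * c2 * x 0 * x 1 + 3 * c3 * x 1 ^ 2) ∧
      eval x (pderiv 2 (nf a b c0 c1 c2 c3)) = 2 * x 0 * x 2 + 2 * a * x 1 ^ 2 ∧
      eval x (pderiv 3 (nf a b c0 c1 c2 c3)) = 2 * x 1 * x 3 + 2 * b * x 0 ^ 2 := by
  refine ⟨?_, ?_, ?_, ?_⟩ <;>
  · simp [nf, pderiv_X, Derivation.leibniz, Derivation.leibniz_pow]
    ring

lemma bar_nf {K : Type} [Field K] (a b c0 c1 c2 c3 : K) :
    bar (nf a b c0 c1 c2 c3) = nf (algebraMap K (AlgebraicClosure K) a)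
      (algebraMap K (AlgebraicClosure K) b) (algebraMap K (AlgebraicClosure K) c0)
      (algebraMap K (AlgebraicClosure K) c1) (algebraMap K (AlgebraicClosure K) c2)
      (algebraMap K (AlgebraicClosure K) c3) := by
  simp [bar, nf, map_ofNat]

lemma pr0 {k : Type} [Field k] (f : Fin 5 → k) :
    ∏ j ∈ Finset.univ.erase (0 : Fin 5), f j = f 1 * f 2 * f 3 * f 4 := by
  have h : (Finset.univ.erase (0 : Fin 5)) = {1, 2, 3, 4} := by decide
  rw [h]
  simp [mul_assoc]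

lemma pr1 {k : Type} [Field k] (f : Fin 5 → k) :
    ∏ j ∈ Finset.univ.erase (1 : Fin 5), f j = f 0 * f 2 * f 3 * f 4 := by
  have h : (Finset.univ.erase (1 : Fin 5)) = {0, 2, 3, 4} := by decide
  rw [h]
  simp [mul_assoc]

lemma pr2 {k : Type} [Field k] (f : Fin 5 → k) :
    ∏ j ∈ Finset.univ.erase (2 : Fin 5), f j = f 0 * f 1 * f 3 * f 4 := by
  have h : (Finset.univ.erase (2 : Fin 5)) = {0, 1, 3, 4} := by decide
  rw [h]
  simp [mul_assoc]

lemma pr3 {k : Type} [Field k] (f : Fin 5 → k) :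
    ∏ j ∈ Finset.univ.erase (3 : Fin 5), f j = f 0 * f 1 * f 2 * f 4 := by
  have h : (Finset.univ.erase (3 : Fin 5)) = {0, 1, 2, 4} := by decide
  rw [h]
  simp [mul_assoc]

lemma pr4 {k : Type} [Field k] (f : Fin 5 → k) :
    ∏ j ∈ Finset.univ.erase (4 : Fin 5), f j = f 0 * f 1 * f 2 * f 3 := by
  have h : (Finset.univ.erase (4 : Fin 5)) = {0, 1, 2, 3} := by decide
  rw [h]
  simp [mul_assoc]

/-- the symmetric functions of the squares -/
lemma key_id {k : Type} [Field k] (s : Fin 5 → k) (i : Fin 5) :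
    e5 s = s i * pe s i ∧
    pe s i ^ 2 = s i ^ 8 - (e1 fun j => s j ^ 2) * s i ^ 6 + (e2 fun j => s j ^ 2) * s i ^ 4
      - (e3 fun j => s j ^ 2) * s i ^ 2 + (e4 fun j => s j ^ 2) ∧
    D5 s i = 5 * s i ^ 8 - 4 * (e1 fun j => s j ^ 2) * s i ^ 6
      + 3 * (e2 fun j => s j ^ 2) * s i ^ 4
      - 2 * (e3 fun j => s j ^ 2) * s i ^ 2 + (e4 fun j => s j ^ 2) := by
  fin_cases i <;>
  · simp only [e1, e2, e3, e4, e5, pe, D5, Fin.isValue, Fin.zero_eta, Fin.mk_one,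
      Fin.reduceFinMk, pr0, pr1, pr2, pr3, pr4]
    refine ⟨?_, ?_, ?_⟩ <;> ring

lemma D5_ne {k : Type} [Field k] (s : Fin 5 → k) (hs : dist5 s) (i : Fin 5) : D5 s i ≠ 0 := by
  unfold D5
  refine Finset.prod_ne_zero_iff.2 fun j hj => ?_
  exact sub_ne_zero.2 (hs j i (Finset.ne_of_mem_erase hj))

end TY5Maux

open TY5Maux in
theorem t_TY5M : S_GAUSS → S_TY5M := by
  intro hG K _ h2 s hs i b
  obtain ⟨k1, k2, k3⟩ := key_id s i
  have hσ2 : (sg b : K) ^ 2 = 1 := by cases b <;> simp [sg]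
  have hD := D5_ne s hs i
  change (∃ p, IsFixedPoint (fam5 s) (Submodule.span K {![-(s i) ^ 2, 1, 0,
    -(s i) ^ 4 + sg b * pe s i], ![0, 0, 1, -(sg b) * s i]}) p) ↔ IsSquare (D5 s i)
  have hF : fam5 s = nf (e5 s) 1 (e1 fun i => s i ^ 2) (e2 fun i => s i ^ 2)
    (e3 fun i => s i ^ 2) (e4 fun i => s i ^ 2) := rfl
  generalize hc0 : (e1 fun i => s i ^ 2) = c0 at *
  generalize hc1 : (e2 fun i => s i ^ 2) = c1 at *
  generalize hc2 : (e3 fun i => s i ^ 2) = c2 at *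
  generalize hc3 : (e4 fun i => s i ^ 2) = c3 at *
  generalize hx : s i = x at *
  generalize hπ : pe s i = π at *
  generalize hσ : (sg b : K) = σ at *
  generalize hDD : D5 s i = D at *
  have hσ0 : σ ≠ 0 := by
    rintro rfl
    simp at hσ2
  have L1 : LinearIndependent K ![(![-x ^ 2, 1, 0, -x ^ 4 + σ * π] : Fin 4 → K),
      ![0, 0, 1, -σ * x]] := by
    rw [LinearIndependent.pair_iff]
    intro a c h
    have e1 := congrFun h 1
    have e2 := congrFun h 2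
    simp at e1 e2
    exact ⟨e1, e2⟩
  have L2 : LinearIndependent K ![(![1, x ^ 2, 0, 0] : Fin 4 → K),
      ![0, σ * x ^ 4 - π, x, σ]] := by
    rw [LinearIndependent.pair_iff]
    intro a c h
    have e1 := congrFun h 0
    have e2 := congrFun h 3
    simp at e1 e2
    exact ⟨e1, e2.resolve_right hσ0⟩
  have hres : ((![4 * x ^ 6 - 4 * x ^ 2 * σ * π - (3 * c0 * x ^ 4 - 2 * c1 * x ^ 2 + c2),
      4 * x ^ 3 * σ, 1] : Fin 3 → K) 0 * (![2 * π, -2 * x, 0] : Fin 3 → K) 2 -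
      (![4 * x ^ 6 - 4 * x ^ 2 * σ * π - (3 * c0 * x ^ 4 - 2 * c1 * x ^ 2 + c2),
      4 * x ^ 3 * σ, 1] : Fin 3 → K) 2 * (![2 * π, -2 * x, 0] : Fin 3 → K) 0) ^ 2 -
      ((![4 * x ^ 6 - 4 * x ^ 2 * σ * π - (3 * c0 * x ^ 4 - 2 * c1 * x ^ 2 + c2),
      4 * x ^ 3 * σ, 1] : Fin 3 → K) 0 * (![2 * π, -2 * x, 0] : Fin 3 → K) 1 -
      (![4 * x ^ 6 - 4 * x ^ 2 * σ * π - (3 * c0 * x ^ 4 - 2 * c1 * x ^ 2 + c2),
      4 * x ^ 3 * σ, 1] : Fin 3 → K) 1 * (![2 * π, -2 * x, 0] : Fin 3 → K) 0) *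
      ((![4 * x ^ 6 - 4 * x ^ 2 * σ * π - (3 * c0 * x ^ 4 - 2 * c1 * x ^ 2 + c2),
      4 * x ^ 3 * σ, 1] : Fin 3 → K) 1 * (![2 * π, -2 * x, 0] : Fin 3 → K) 2 -
      (![4 * x ^ 6 - 4 * x ^ 2 * σ * π - (3 * c0 * x ^ 4 - 2 * c1 * x ^ 2 + c2),
      4 * x ^ 3 * σ, 1] : Fin 3 → K) 2 * (![2 * π, -2 * x, 0] : Fin 3 → K) 1) = 4 * D := by
    simp only [Matrix.cons_val_zero, Matrix.cons_val_one, Matrix.cons_val]
    linear_combination 4 * k2 - 4 * k3
  have h4 : (4 : K) ≠ 0 := by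
    have : (4 : K) = 2 * 2 := by norm_num
    rw [this]
    exact mul_ne_zero h2 h2
  have key := hG K h2 (fam5 s) ![-x ^ 2, 1, 0, -x ^ 4 + σ * π] ![0, 0, 1, -σ * x]
    ![1, x ^ 2, 0, 0] ![0, σ * x ^ 4 - π, x, σ]
    ![4 * x ^ 6 - 4 * x ^ 2 * σ * π - (3 * c0 * x ^ 4 - 2 * c1 * x ^ 2 + c2), 4 * x ^ 3 * σ, 1]
    ![2 * π, -2 * x, 0] L1 L2 ?_ (by rw [hres]; exact mul_ne_zero h4 hD)
  · rw [key, hres]
    constructor
    · rintro ⟨r, hr⟩
      refine ⟨r / 2, ?_⟩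
      field_simp
      linear_combination hr
    · rintro ⟨r, hr⟩
      refine ⟨2 * r, ?_⟩
      linear_combination 4 * hr
  · intro z w j
    rw [hF, bar_nf]
    obtain ⟨g0, g1, g2, g3⟩ := grad_nf (algebraMap K (AlgebraicClosure K) (e5 s))
      (algebraMap K (AlgebraicClosure K) 1) (algebraMap K (AlgebraicClosure K) c0)
      (algebraMap K (AlgebraicClosure K) c1) (algebraMap K (AlgebraicClosure K) c2)
      (algebraMap K (AlgebraicClosure K) c3)
      (z • up ![-x ^ 2, 1, 0, -x ^ 4 + σ * π] + w • up ![0, 0, 1, -σ * x])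
    have k1' := congrArg (algebraMap K (AlgebraicClosure K)) k1
    have k2' := congrArg (algebraMap K (AlgebraicClosure K)) k2
    have hσ2' := congrArg (algebraMap K (AlgebraicClosure K)) hσ2
    simp only [map_add, map_sub, map_mul, map_pow, map_one, map_ofNat] at k1' k2' hσ2'
    simp only [Pi.add_apply, Pi.smul_apply, smul_eq_mul, up, Matrix.cons_val_zero,
      Matrix.cons_val_one, Matrix.cons_val, map_add, map_sub, map_mul, map_pow, map_one,
      map_zero, map_neg, map_ofNat] at g0 g1 g2 g3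
    fin_cases j
    · simp only [Fin.zero_eta, up, Matrix.cons_val_zero,
        Matrix.cons_val_one, Matrix.cons_val, map_add, map_sub, map_mul, map_pow, map_one,
        map_zero, map_neg, map_ofNat, Fin.isValue]
      rw [g0]
      ring
    · simp only [Fin.mk_one, up, Matrix.cons_val_zero,
        Matrix.cons_val_one, Matrix.cons_val, map_add, map_sub, map_mul, map_pow, map_one,
        map_zero, map_neg, map_ofNat, Fin.isValue]
      rw [g1]
      linear_combination 4 * z * w * k1' +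
        (algebraMap K (AlgebraicClosure K) π * z - w * algebraMap K (AlgebraicClosure K) x) ^ 2 *
          hσ2' + 3 * z ^ 2 * k2'
    · simp only [Fin.reduceFinMk, up, Matrix.cons_val_zero,
        Matrix.cons_val_one, Matrix.cons_val, map_add, map_sub, map_mul, map_pow, map_one,
        map_zero, map_neg, map_ofNat, Fin.isValue]
      rw [g2]
      linear_combination 2 * z ^ 2 * k1'
    · simp only [Fin.reduceFinMk, up, Matrix.cons_val_zero,
        Matrix.cons_val_one, Matrix.cons_val, map_add, map_sub, map_mul, map_pow, map_one,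
        map_zero, map_neg, map_ofNat, Fin.isValue]
      rw [g3]
      ring

end Pool.Agent.R863.CS
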