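import Pool.Agent.R863.CS.Stm

/-!
# CS-TY5N, CS-TY0, CS-TY5: types of the lines of `fam5 s`
-/

set_option autoImplicit false

namespace Pool.Agent.R863.CS

open MvPolynomial

namespace TYN

lemma bar_nf {K : Type} [Field K] (a b c0 c1 c2 c3 : K) :
    bar (nf a b c0 c1 c2 c3) = nf (algebraMap K (AlgebraicClosure K) a)
      (algebraMap K (AlgebraicClosure K) b) (algebraMap K (AlgebraicClosure K) c0)
      (algebraMap K (AlgebraicClosure K) c1) (algebraMap K (AlgebraicClosure K) c2)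
      (algebraMap K (AlgebraicClosure K) c3) := by
  simp only [bar, nf, map_add, map_sub, map_mul, map_pow, map_X, map_C, map_ofNat]

section grad

variable {k : Type} [Field k] (a b c0 c1 c2 c3 : k) (v : Fin 4 → k)

lemma gx : eval v (pderiv 0 (nf a b c0 c1 c2 c3)) =
    v 2 ^ 2 + 4 * b * v 0 * v 3 - (3 * c0 * v 0 ^ 2 + 2 * c1 * v 0 * v 1 + c2 * v 1 ^ 2) := by
  simp [nf, pderiv_X, Derivation.leibniz]
  ring

lemma gy : eval v (pderiv 1 (nf a b c0 c1 c2 c3)) =
    v 3 ^ 2 + 4 * a * v 1 * v 2 - (c1 * v 0 ^ 2 + 2 * c2 * v 0 * v 1 + 3 * c3 * v 1 ^ 2) := by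
  simp [nf, pderiv_X, Derivation.leibniz]
  ring

lemma gz : eval v (pderiv 2 (nf a b c0 c1 c2 c3)) = 2 * v 0 * v 2 + 2 * a * v 1 ^ 2 := by
  simp [nf, pderiv_X, Derivation.leibniz]
  ring

lemma gw : eval v (pderiv 3 (nf a b c0 c1 c2 c3)) = 2 * v 1 * v 3 + 2 * b * v 0 ^ 2 := by
  simp [nf, pderiv_X, Derivation.leibniz]
  ring

end grad

section sym

variable {k : Type} [Field k] (s : Fin 5 → k)

lemma q0 : (e1 fun i => s i ^ 2) = e1 s ^ 2 - 2 * e2 s := by
  simp only [e1, e2]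
  ring

lemma q1 : (e2 fun i => s i ^ 2) = e2 s ^ 2 - 2 * e1 s * e3 s + 2 * e4 s := by
  simp only [e1, e2, e3, e4]
  ring

lemma q2 : (e3 fun i => s i ^ 2) = e3 s ^ 2 - 2 * e2 s * e4 s + 2 * e1 s * e5 s := by
  simp only [e1, e2, e3, e4, e5]
  ring

lemma q3 : (e4 fun i => s i ^ 2) = e4 s ^ 2 - 2 * e3 s * e5 s := by
  simp only [e3, e4, e5]
  ring

lemma res : (e1 s * e4 s - e5 s) ^ 2 - (e3 s - e1 s * e2 s) * (e5 s * e2 s - e3 s * e4 s) = N5 s := by
  simp only [e1, e2, e3, e4, e5, N5]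
  ring

lemma sg_sq (b : Bool) : (sg b : k) ^ 2 = 1 := by
  cases b <;> simp [sg]

lemma sv_sq (t : Fin 4 → Bool) (i : Fin 5) : sv s t i ^ 2 = s i ^ 2 := by
  have h := fun b => sg_sq (k := k) b
  fin_cases i <;> simp [sv, mul_pow, h]

lemma sv_e5 (t : Fin 4 → Bool) : e5 (sv s t) = e5 s := by
  have h0 := sg_sq (k := k) (t 0)
  have h1 := sg_sq (k := k) (t 1)
  have h2 := sg_sq (k := k) (t 2)
  have h3 := sg_sq (k := k) (t 3)
  have e : e5 (sv s t) = (sg (t 0) ^ 2) * (sg (t 1) ^ 2) * (sg (t 2) ^ 2) * (sg (t 3) ^ 2) * e5 s := by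
    simp [e5, sv]
    ring
  rw [e, h0, h1, h2, h3]
  ring

lemma sv_fam (t : Fin 4 → Bool) : fam5 (sv s t) = fam5 s := by
  have h : (fun i => sv s t i ^ 2) = fun i => s i ^ 2 := by
    funext i
    exact sv_sq s t i
  unfold fam5
  rw [h, sv_e5]

lemma sv_dist (t : Fin 4 → Bool) (h : dist5 s) : dist5 (sv s t) := by
  intro i j hij
  rw [sv_sq, sv_sq]
  exact h i j hij

lemma N5_ne (h : dist5 s) : N5 s ≠ 0 := by
  have h2 : ∀ i j, i ≠ j → s i + s j ≠ 0 := by
    intro i j hij h0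
    apply h i j hij
    have : s i = -s j := eq_neg_of_add_eq_zero_left h0
    rw [this]
    ring
  unfold N5
  rw [neg_ne_zero]
  refine mul_ne_zero (mul_ne_zero (mul_ne_zero (mul_ne_zero (mul_ne_zero (mul_ne_zero (mul_ne_zero
    (mul_ne_zero (mul_ne_zero ?_ ?_) ?_) ?_) ?_) ?_) ?_) ?_) ?_) ?_ <;>
    exact h2 _ _ (by decide)

end sym

lemma up_apply {K : Type} [Field K] (v : Fin 4 → K) (i : Fin 4) :
    up v i = algebraMap K (AlgebraicClosure K) (v i) := rfl

lemma isSquare_16 {K : Type} [Field K] (h2 : (2 : K) ≠ 0) (x : K) : IsSquare (16 * x) ↔ IsSquare x := by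
  have h4 : (4 : K) ≠ 0 := by
    have : (4 : K) = 2 * 2 := by norm_num
    rw [this]
    exact mul_ne_zero h2 h2
  constructor
  · rintro ⟨y, hy⟩
    refine ⟨y / 4, ?_⟩
    field_simp
    rw [sq] at *
    linear_combination hy
  · rintro ⟨y, hy⟩
    refine ⟨4 * y, ?_⟩
    rw [hy]
    ring

end TYN

open TYN

theorem t_TY0 : S_TY0 := by
  intro K _ a b c0 c1 c2 c3
  refine ⟨![0, 0, 1, 0], Submodule.subset_span (by simp), ?_, ?_⟩
  · intro h
    have := congrFun h 2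
    simp at this
  · intro p' hp' _ ⟨c, hc⟩
    have h01' : ∀ q ∈ ofK (Submodule.span K {![0, 0, 1, 0], ![0, 0, 0, (1 : K)]}),
        q 0 = 0 ∧ q 1 = 0 := by
      intro q hq
      unfold ofK at hq
      induction hq using Submodule.span_induction with
      | mem x hx =>
        obtain ⟨y, hy, rfl⟩ := hx
        rw [SetLike.mem_coe, Submodule.mem_span_pair] at hy
        obtain ⟨α, β, rfl⟩ := hy
        simp [up]
      | zero => simp
      | add x y _ _ hx hy => simp [hx, hy]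
      | smul a x _ hx => simp [hx]
    have h01 := h01' p' hp'
    have h1 := hc 1
    rw [bar_nf, gy, gy, h01.1, h01.2] at h1
    have h3 : p' 3 = 0 := by
      have : p' 3 ^ 2 = 0 := by
        simpa [up] using h1
      exact pow_eq_zero_iff (two_ne_zero) |>.1 this
    refine ⟨p' 2, ?_⟩
    funext i
    fin_cases i
    · simp [up, h01.1]
    · simp [up, h01.2]
    · simp [up]
    · simp [up, h3]

theorem t_TY5N (hG : S_GAUSS) : S_TY5N := by
  intro K _ h2 s hs
  have h := hG K h2 (fam5 s) ![1, 0, e1 s, -e2 s] ![0, 1, -e3 s, e4 s]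
    ![-e1 s, e3 s, 1, 0] ![e2 s, -e4 s, 0, 1]
    ![2 * e1 s, -2 * e3 s, 2 * e5 s] ![2, -2 * e2 s, 2 * e4 s] ?_ ?_ ?_ ?_
  · rw [h]
    have hres : ((![2 * e1 s, -2 * e3 s, 2 * e5 s] : Fin 3 → K) 0 * (![2, -2 * e2 s, 2 * e4 s] : Fin 3 → K) 2 -
        (![2 * e1 s, -2 * e3 s, 2 * e5 s] : Fin 3 → K) 2 * (![2, -2 * e2 s, 2 * e4 s] : Fin 3 → K) 0) ^ 2 -
        ((![2 * e1 s, -2 * e3 s, 2 * e5 s] : Fin 3 → K) 0 * (![2, -2 * e2 s, 2 * e4 s] : Fin 3 → K) 1 -
        (![2 * e1 s, -2 * e3 s, 2 * e5 s] : Fin 3 → K) 1 * (![2, -2 * e2 s, 2 * e4 s] : Fin 3 → K) 0) *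
        ((![2 * e1 s, -2 * e3 s, 2 * e5 s] : Fin 3 → K) 1 * (![2, -2 * e2 s, 2 * e4 s] : Fin 3 → K) 2 -
        (![2 * e1 s, -2 * e3 s, 2 * e5 s] : Fin 3 → K) 2 * (![2, -2 * e2 s, 2 * e4 s] : Fin 3 → K) 1) =
        16 * N5 s := by
      rw [← res]
      simp only [Matrix.cons_val]
      ring
    rw [hres]
    exact isSquare_16 h2 _
  · rw [LinearIndependent.pair_iff]
    intro x y hxy
    have e0 := congrFun hxy 0
    have e1 := congrFun hxy 1
    simp at e0 e1
    exact ⟨e0, e1⟩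
  · rw [LinearIndependent.pair_iff]
    intro x y hxy
    have e0 := congrFun hxy 2
    have e1 := congrFun hxy 3
    simp at e0 e1
    exact ⟨e0, e1⟩
  · intro z w i
    unfold fam5
    rw [bar_nf, q0, q1, q2, q3]
    simp only [map_add, map_sub, map_mul, map_pow, map_ofNat, map_one]
    fin_cases i
    · simp only [Fin.zero_eta, gx, Pi.add_apply, Pi.smul_apply, up_apply, Matrix.cons_val, map_neg, map_mul,
        map_ofNat, map_one, map_zero, smul_eq_mul]
      ring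
    · simp only [Fin.mk_one, gy, Pi.add_apply, Pi.smul_apply, up_apply, Matrix.cons_val, map_neg, map_mul,
        map_ofNat, map_one, map_zero, smul_eq_mul]
      ring
    · simp only [Fin.reduceFinMk, gz, Pi.add_apply, Pi.smul_apply, up_apply, Matrix.cons_val, map_neg, map_mul,
        map_ofNat, map_one, map_zero, smul_eq_mul]
      ring
    · simp only [Fin.reduceFinMk, gw, Pi.add_apply, Pi.smul_apply, up_apply, Matrix.cons_val, map_neg, map_mul,
        map_ofNat, map_one, map_zero, smul_eq_mul]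
      ring
  · have h4 : (16 : K) ≠ 0 := by
      have : (16 : K) = 2 * 2 * 2 * 2 := by norm_num
      rw [this]
      exact mul_ne_zero (mul_ne_zero (mul_ne_zero h2 h2) h2) h2
    have h5 : (16 : K) * N5 s ≠ 0 := mul_ne_zero h4 (N5_ne s hs)
    rw [← res] at h5
    simp only [Matrix.cons_val]
    intro h6
    apply h5
    rw [← h6]
    ring

theorem t_TY5 (h0 : S_TY0) (hM : S_TY5M) (hN : S_TY5N) : S_TY5 := by
  intro K _ h2 s hs i
  rcases i with u | ⟨i, b⟩ | t
  · simp only [L5, ty5, iff_true]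
    exact h0 K _ _ _ _ _ _
  · exact hM K h2 s hs i b
  · have h := hN K h2 (sv s t) (sv_dist s t hs)
    rw [sv_fam] at h
    exact h

end Pool.Agent.R863.CS
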