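import Pool.Agent.R863.CS.Stm

/-! CS-W: two-dimensional subspaces of `k^4`, and the lists of lines from their parts. -/

set_option autoImplicit false

namespace Pool.Agent.R863.CS

open MvPolynomial

namespace PieceW

section
variable {k : Type} [Field k]

theorem li_of_minor {p q : Fin 4 → k} (i j : Fin 4) (h : p i * q j - p j * q i ≠ 0) :
    LinearIndependent k ![p, q] := by
  rw [LinearIndependent.pair_iff]
  intro s t hst
  have h1 := congrFun hst i
  have h2 := congrFun hst j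
  simp only [Pi.add_apply, Pi.smul_apply, smul_eq_mul, Pi.zero_apply] at h1 h2
  constructor
  · have : s * (p i * q j - p j * q i) = 0 := by linear_combination q j * h1 - q i * h2
    exact (mul_eq_zero.1 this).resolve_right h
  · have : t * (p i * q j - p j * q i) = 0 := by linear_combination p i * h2 - p j * h1
    exact (mul_eq_zero.1 this).resolve_right h

theorem rank_two {p q : Fin 4 → k} (h : LinearIndependent k ![p, q]) :
    Module.finrank k (Submodule.span k {p, q} : Submodule k (Fin 4 → k)) = 2 := by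
  have h1 := finrank_span_eq_card h
  have h2 : Set.range ![p, q] = {p, q} := by simp [Set.pair_comm]
  rw [h2] at h1
  simpa using h1

theorem eq_span {W : Submodule k (Fin 4 → k)} (hW : Module.finrank k W = 2) {p q : Fin 4 → k}
    (hp : p ∈ W) (hq : q ∈ W) (h : LinearIndependent k ![p, q]) :
    W = Submodule.span k {p, q} := by
  symm
  apply Submodule.eq_of_le_of_finrank_eq
  · rw [Submodule.span_le]
    rintro x (rfl | rfl)
    · exact hp
    · exact hq
  · rw [rank_two h, hW]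

theorem exists_pair {W : Submodule k (Fin 4 → k)} (hW : Module.finrank k W = 2) :
    ∃ p q : Fin 4 → k, p ∈ W ∧ q ∈ W ∧ LinearIndependent k ![p, q] := by
  let b := Module.finBasisOfFinrankEq k W hW
  refine ⟨b 0, b 1, (b 0).2, (b 1).2, ?_⟩
  have h := b.linearIndependent.map' W.subtype W.ker_subtype
  have h2 : (W.subtype ∘ b) = ![((b 0 : W) : Fin 4 → k), ((b 1 : W) : Fin 4 → k)] := by
    funext i
    fin_cases i <;> rfl
  rw [h2] at h
  exact h

theorem vec_ext {v : Fin 4 → k} {a b c d : k} (h0 : v 0 = a) (h1 : v 1 = b) (h2 : v 2 = c)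
    (h3 : v 3 = d) : v = ![a, b, c, d] := by
  funext i
  fin_cases i
  · exact h0
  · exact h1
  · exact h2
  · exact h3

theorem ne_zero_coord {v : Fin 4 → k} (h : v ≠ 0) (h0 : v 0 = 0) (h1 : v 1 = 0) :
    v 2 ≠ 0 ∨ v 3 ≠ 0 := by
  by_contra hc
  push Not at hc
  apply h
  rw [vec_ext h0 h1 hc.1 hc.2]
  funext i
  fin_cases i <;> rfl

end

end PieceW

open PieceW

theorem t_W : S_W := by
  intro k _ W hW
  obtain ⟨p, q, hp, hq, hpq⟩ := exists_pair hW
  by_cases hd : p 0 * q 1 - p 1 * q 0 = 0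
  · -- a nonzero vector with vanishing first coordinates
    obtain ⟨w, hwW, hw0, hw1, hw2, u, huW, hli⟩ : ∃ w ∈ W, w ≠ 0 ∧ w 0 = 0 ∧ w 1 = 0 ∧
        ∃ u ∈ W, LinearIndependent k ![u, w] := by
      rw [LinearIndependent.pair_iff] at hpq
      by_cases hp0 : p 0 = 0 ∧ p 1 = 0
      · refine ⟨p, hp, ?_, hp0.1, hp0.2, q, hq, ?_⟩
        · rintro rfl
          have := hpq 1 0 (by simp)
          exact one_ne_zero this.1
        · rw [LinearIndependent.pair_iff]
          intro s t h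
          have := hpq t s (by rw [← h]; abel)
          exact ⟨this.2, this.1⟩
      · obtain ⟨c, hc⟩ : ∃ c : k, q 0 = c * p 0 ∧ q 1 = c * p 1 := by
          by_cases h0 : p 0 = 0
          · have h1 : p 1 ≠ 0 := fun h => hp0 ⟨h0, h⟩
            refine ⟨q 1 / p 1, ?_, by field_simp⟩
            have : p 1 * q 0 = 0 := by rw [h0, zero_mul, zero_sub, neg_eq_zero] at hd; exact hd
            rw [h0, mul_zero]
            exact (mul_eq_zero.1 this).resolve_left h1
          · refine ⟨q 0 / p 0, by field_simp, ?_⟩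
            field_simp
            linear_combination hd
        refine ⟨q - c • p, W.sub_mem hq (W.smul_mem c hp), ?_, ?_, ?_, p, hp, ?_⟩
        · intro h
          have := hpq (-c) 1 (by rw [← h, one_smul, neg_smul]; abel)
          exact one_ne_zero this.2
        · simp [hc.1]
        · simp [hc.2]
        · rw [LinearIndependent.pair_iff]
          intro s t h
          have h2 := hpq (s - t * c) t (by
            rw [← h, sub_smul, smul_sub, mul_smul]; abel)
          refine ⟨?_, h2.2⟩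
          have h3 := h2.1
          rw [h2.2, zero_mul, sub_zero] at h3
          exact h3
    have hw := vec_ext (a := 0) (b := 0) hw1 hw2 rfl rfl
    by_cases hu : u 0 = 0 ∧ u 1 = 0
    · left
      have hu' := vec_ext (a := 0) (b := 0) hu.1 hu.2 rfl rfl
      have hm : u 2 * w 3 - u 3 * w 2 ≠ 0 := by
        intro hm
        rw [LinearIndependent.pair_iff] at hli
        have e1 := hli (w 2) (-(u 2)) (by
          funext i
          fin_cases i
          · show w 2 * u 0 + -(u 2) * w 0 = 0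
            rw [hu.1, hw1]; ring
          · show w 2 * u 1 + -(u 2) * w 1 = 0
            rw [hu.2, hw2]; ring
          · show w 2 * u 2 + -(u 2) * w 2 = 0
            ring
          · show w 2 * u 3 + -(u 2) * w 3 = 0
            linear_combination -hm)
        have e2 := hli (w 3) (-(u 3)) (by
          funext i
          fin_cases i
          · show w 3 * u 0 + -(u 3) * w 0 = 0
            rw [hu.1, hw1]; ring
          · show w 3 * u 1 + -(u 3) * w 1 = 0
            rw [hu.2, hw2]; ring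
          · show w 3 * u 2 + -(u 3) * w 2 = 0
            linear_combination hm
          · show w 3 * u 3 + -(u 3) * w 3 = 0
            ring)
        rcases ne_zero_coord hw0 hw1 hw2 with h | h
        · exact h e1.1
        · exact h e2.1
      have hs1 : (![0, 0, 1, 0] : Fin 4 → k) =
          (w 3 / (u 2 * w 3 - u 3 * w 2)) • u + (-(u 3) / (u 2 * w 3 - u 3 * w 2)) • w := by
        funext i
        fin_cases i
        · show (0 : k) = (w 3 / (u 2 * w 3 - u 3 * w 2)) * u 0
            + (-(u 3) / (u 2 * w 3 - u 3 * w 2)) * w 0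
          rw [hu.1, hw1]; ring
        · show (0 : k) = (w 3 / (u 2 * w 3 - u 3 * w 2)) * u 1
            + (-(u 3) / (u 2 * w 3 - u 3 * w 2)) * w 1
          rw [hu.2, hw2]; ring
        · show (1 : k) = (w 3 / (u 2 * w 3 - u 3 * w 2)) * u 2
            + (-(u 3) / (u 2 * w 3 - u 3 * w 2)) * w 2
          rw [div_mul_eq_mul_div, div_mul_eq_mul_div, ← add_div, eq_div_iff hm]
          ring
        · show (0 : k) = (w 3 / (u 2 * w 3 - u 3 * w 2)) * u 3
            + (-(u 3) / (u 2 * w 3 - u 3 * w 2)) * w 3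
          field_simp
          ring
      have hs2 : (![0, 0, 0, 1] : Fin 4 → k) =
          (-(w 2) / (u 2 * w 3 - u 3 * w 2)) • u + (u 2 / (u 2 * w 3 - u 3 * w 2)) • w := by
        funext i
        fin_cases i
        · show (0 : k) = (-(w 2) / (u 2 * w 3 - u 3 * w 2)) * u 0
            + (u 2 / (u 2 * w 3 - u 3 * w 2)) * w 0
          rw [hu.1, hw1]; ring
        · show (0 : k) = (-(w 2) / (u 2 * w 3 - u 3 * w 2)) * u 1
            + (u 2 / (u 2 * w 3 - u 3 * w 2)) * w 1
          rw [hu.2, hw2]; ring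
        · show (0 : k) = (-(w 2) / (u 2 * w 3 - u 3 * w 2)) * u 2
            + (u 2 / (u 2 * w 3 - u 3 * w 2)) * w 2
          field_simp
          ring
        · show (1 : k) = (-(w 2) / (u 2 * w 3 - u 3 * w 2)) * u 3
            + (u 2 / (u 2 * w 3 - u 3 * w 2)) * w 3
          rw [div_mul_eq_mul_div, div_mul_eq_mul_div, ← add_div, eq_div_iff hm]
          ring
      refine eq_span hW ?_ ?_ (li_of_minor 2 3 (by simp))
      · rw [hs1]; exact W.add_mem (W.smul_mem _ huW) (W.smul_mem _ hwW)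
      · rw [hs2]; exact W.add_mem (W.smul_mem _ huW) (W.smul_mem _ hwW)
    · right; left
      refine ⟨u 0, u 1, u 2, u 3, w 2, w 3, ?_, ne_zero_coord hw0 hw1 hw2, ?_⟩
      · by_contra hc
        push Not at hc
        exact hu hc
      · rw [← vec_ext (v := u) rfl rfl rfl rfl, ← hw]
        exact eq_span hW huW hwW hli
  · right; right
    set D := p 0 * q 1 - p 1 * q 0 with hD
    let a : Fin 4 → k := (q 1 / D) • p + (-(p 1) / D) • q
    let b : Fin 4 → k := (-(q 0) / D) • p + (p 0 / D) • q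
    have ha0 : a 0 = 1 := by
      show (q 1 / D) * p 0 + (-(p 1) / D) * q 0 = 1
      field_simp
      rw [hD]; ring
    have ha1 : a 1 = 0 := by
      show (q 1 / D) * p 1 + (-(p 1) / D) * q 1 = 0
      field_simp
      ring
    have hb0 : b 0 = 0 := by
      show (-(q 0) / D) * p 0 + (p 0 / D) * q 0 = 0
      field_simp
      ring
    have hb1 : b 1 = 1 := by
      show (-(q 0) / D) * p 1 + (p 0 / D) * q 1 = 1
      field_simp
      rw [hD]; ring
    refine ⟨a 2, b 2, a 3, b 3, ?_⟩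
    rw [← vec_ext (v := a) ha0 ha1 rfl rfl, ← vec_ext (v := b) hb0 hb1 rfl rfl]
    refine eq_span hW (W.add_mem (W.smul_mem _ hp) (W.smul_mem _ hq))
      (W.add_mem (W.smul_mem _ hp) (W.smul_mem _ hq)) (li_of_minor 0 1 ?_)
    rw [ha0, ha1, hb0, hb1]
    simp

namespace PieceW

section
variable {k : Type} [Field k]

theorem eval_nf (a b c0 c1 c2 c3 : k) (v : Fin 4 → k) : eval v (nf a b c0 c1 c2 c3) =
    v 0 * v 2 ^ 2 + v 1 * v 3 ^ 2 + 2 * a * v 1 ^ 2 * v 2 + 2 * b * v 0 ^ 2 * v 3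
      - (c0 * v 0 ^ 3 + c1 * v 0 ^ 2 * v 1 + c2 * v 0 * v 1 ^ 2 + c3 * v 1 ^ 3) := by
  simp [nf]

theorem sg_sq (b : Bool) : (sg b : k) ^ 2 = 1 := by
  cases b <;> simp [sg]

theorem fam5_sv (s : Fin 5 → k) (t : Fin 4 → Bool) : fam5 (sv s t) = fam5 s := by
  have h0 := sg_sq (k := k) (t 0)
  have h1 := sg_sq (k := k) (t 1)
  have h2 := sg_sq (k := k) (t 2)
  have h3 := sg_sq (k := k) (t 3)
  have g0 : (sv s t 0) ^ 2 = s 0 ^ 2 := by
    show (sg (t 0) * s 0) ^ 2 = _
    rw [mul_pow, h0, one_mul]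
  have g1 : (sv s t 1) ^ 2 = s 1 ^ 2 := by
    show (sg (t 1) * s 1) ^ 2 = _
    rw [mul_pow, h1, one_mul]
  have g2 : (sv s t 2) ^ 2 = s 2 ^ 2 := by
    show (sg (t 2) * s 2) ^ 2 = _
    rw [mul_pow, h2, one_mul]
  have g3 : (sv s t 3) ^ 2 = s 3 ^ 2 := by
    show (sg (t 3) * s 3) ^ 2 = _
    rw [mul_pow, h3, one_mul]
  have g4 : (sv s t 4) ^ 2 = s 4 ^ 2 := by
    show (sg (t 0) * sg (t 1) * sg (t 2) * sg (t 3) * s 4) ^ 2 = _
    rw [mul_pow, mul_pow, mul_pow, mul_pow, h0, h1, h2, h3]; ring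
  have g5 : e5 (sv s t) = e5 s := by
    show sg (t 0) * s 0 * (sg (t 1) * s 1) * (sg (t 2) * s 2) * (sg (t 3) * s 3) *
      (sg (t 0) * sg (t 1) * sg (t 2) * sg (t 3) * s 4) = s 0 * s 1 * s 2 * s 3 * s 4
    have : sg (t 0) * s 0 * (sg (t 1) * s 1) * (sg (t 2) * s 2) * (sg (t 3) * s 3) *
      (sg (t 0) * sg (t 1) * sg (t 2) * sg (t 3) * s 4) =
      (sg (t 0)) ^ 2 * (sg (t 1)) ^ 2 * (sg (t 2)) ^ 2 * (sg (t 3)) ^ 2 *
        (s 0 * s 1 * s 2 * s 3 * s 4) := by ring
    rw [this, h0, h1, h2, h3]; ring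
  have g : (fun i => sv s t i ^ 2) = fun i => s i ^ 2 := by
    funext i
    fin_cases i
    · exact g0
    · exact g1
    · exact g2
    · exact g3
    · exact g4
  unfold fam5
  rw [g5, g]

theorem fam3_sv (s : Fin 3 → k) (t : Fin 3 → Bool) : fam3 (sv3 s t) = fam3 s := by
  have h : ∀ i, (sv3 s t i) ^ 2 = s i ^ 2 := fun i => by
    show (sg (t i) * s i) ^ 2 = _
    rw [mul_pow, sg_sq, one_mul]
  unfold fam3
  simp only [h]

theorem van5 (r : Fin 5 → k) (x y : k) :
    eval (x • (![1, 0, e1 r, -e2 r] : Fin 4 → k) + y • ![0, 1, -e3 r, e4 r]) (fam5 r) = 0 := by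
  rw [fam5, eval_nf]
  simp [e1, e2, e3, e4, e5]
  ring

theorem pe_0 (s : Fin 5 → k) : pe s 0 = s 1 * s 2 * s 3 * s 4 := by
  have h : Finset.univ.erase (0 : Fin 5) = {1, 2, 3, 4} := by decide
  unfold pe
  rw [h]
  simp [mul_assoc]

theorem pe_1 (s : Fin 5 → k) : pe s 1 = s 0 * s 2 * s 3 * s 4 := by
  have h : Finset.univ.erase (1 : Fin 5) = {0, 2, 3, 4} := by decide
  unfold pe
  rw [h]
  simp [mul_assoc]

theorem pe_2 (s : Fin 5 → k) : pe s 2 = s 0 * s 1 * s 3 * s 4 := by
  have h : Finset.univ.erase (2 : Fin 5) = {0, 1, 3, 4} := by decide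
  unfold pe
  rw [h]
  simp [mul_assoc]

theorem pe_3 (s : Fin 5 → k) : pe s 3 = s 0 * s 1 * s 2 * s 4 := by
  have h : Finset.univ.erase (3 : Fin 5) = {0, 1, 2, 4} := by decide
  unfold pe
  rw [h]
  simp [mul_assoc]

theorem pe_4 (s : Fin 5 → k) : pe s 4 = s 0 * s 1 * s 2 * s 3 := by
  have h : Finset.univ.erase (4 : Fin 5) = {0, 1, 2, 3} := by decide
  unfold pe
  rw [h]
  simp [mul_assoc]

theorem van5m (s : Fin 5 → k) (i : Fin 5) (b : Bool) (x y : k) :
    eval (x • (![-(s i) ^ 2, 1, 0, -(s i) ^ 4 + sg b * pe s i] : Fin 4 → k)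
      + y • ![0, 0, 1, -(sg b) * s i]) (fam5 s) = 0 := by
  rw [fam5, eval_nf]
  have hs := sg_sq (k := k) b
  set σ : k := sg b with hσ
  simp only [Pi.add_apply, Pi.smul_apply, smul_eq_mul, Matrix.cons_val_zero, Matrix.cons_val_one,
    Matrix.cons_val]
  fin_cases i
  · simp only [Fin.zero_eta, Fin.isValue, pe_0, e1, e2, e3, e4, e5]
    linear_combination (x ^ 3 * (s 1 * s 2 * s 3 * s 4) ^ 2 - 2 * x ^ 2 * y * s 0 * (s 1 * s 2 * s 3 * s 4) + x * y ^ 2 * s 0 ^ 2) * hs
  · simp only [Fin.mk_one, Fin.isValue, pe_1, e1, e2, e3, e4, e5]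
    linear_combination (x ^ 3 * (s 0 * s 2 * s 3 * s 4) ^ 2 - 2 * x ^ 2 * y * s 1 * (s 0 * s 2 * s 3 * s 4) + x * y ^ 2 * s 1 ^ 2) * hs
  · simp only [Fin.reduceFinMk, Fin.isValue, pe_2, e1, e2, e3, e4, e5]
    linear_combination (x ^ 3 * (s 0 * s 1 * s 3 * s 4) ^ 2 - 2 * x ^ 2 * y * s 2 * (s 0 * s 1 * s 3 * s 4) + x * y ^ 2 * s 2 ^ 2) * hs
  · simp only [Fin.reduceFinMk, Fin.isValue, pe_3, e1, e2, e3, e4, e5]
    linear_combination (x ^ 3 * (s 0 * s 1 * s 2 * s 4) ^ 2 - 2 * x ^ 2 * y * s 3 * (s 0 * s 1 * s 2 * s 4) + x * y ^ 2 * s 3 ^ 2) * hs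
  · simp only [Fin.reduceFinMk, Fin.isValue, pe_4, e1, e2, e3, e4, e5]
    linear_combination (x ^ 3 * (s 0 * s 1 * s 2 * s 3) ^ 2 - 2 * x ^ 2 * y * s 4 * (s 0 * s 1 * s 2 * s 3) + x * y ^ 2 * s 4 ^ 2) * hs

theorem van0 (a b c0 c1 c2 c3 : k) (x y : k) :
    eval (x • (![0, 0, 1, 0] : Fin 4 → k) + y • ![0, 0, 0, 1]) (nf a b c0 c1 c2 c3) = 0 := by
  rw [eval_nf]
  simp

theorem mem_lines {F : MvPolynomial (Fin 4) k} {p q : Fin 4 → k}
    (h : LinearIndependent k ![p, q]) (hv : ∀ x y : k, eval (x • p + y • q) F = 0) :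
    Submodule.span k {p, q} ∈ Lines F := by
  refine ⟨rank_two h, fun v hv' => ?_⟩
  obtain ⟨x, y, rfl⟩ := Submodule.mem_span_pair.1 hv'
  exact hv x y

end

end PieceW

theorem t_LN5 : S_W → S_LN5B → S_LN5C → S_LN5 := by
  intro hW hB hC k _ _ h2 s hs
  ext W
  constructor
  · rintro ⟨hr, hv⟩
    rcases hW k W hr with h | ⟨a, b, z₀, w₀, z₁, w₁, hab, hzw, h⟩ | ⟨α, β, γ, δ, h⟩
    · exact ⟨.inl (), h.symm⟩
    · obtain ⟨i, c, hic⟩ := hB k h2 s hs a b z₀ w₀ z₁ w₁ hab hzw (fun u v => by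
        apply hv
        rw [h, Submodule.mem_span_pair]
        refine ⟨u, v, ?_⟩
        funext i
        fin_cases i <;> simp)
      exact ⟨.inr (.inl (i, c)), by rw [h, hic]⟩
    · obtain ⟨t, h1, h2, h3, h4⟩ := hC k h2 s hs α β γ δ (fun x y => by
        apply hv
        rw [h, Submodule.mem_span_pair]
        refine ⟨x, y, ?_⟩
        funext i
        fin_cases i <;> simp [mul_comm])
      refine ⟨.inr (.inr t), ?_⟩
      rw [h, h1, h2, h3, h4]
      rfl
  · rintro ⟨i, rfl⟩
    rcases i with _ | ⟨i, b⟩ | t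
    · exact mem_lines (li_of_minor 2 3 (by simp)) (fun x y => van0 _ _ _ _ _ _ x y)
    · exact mem_lines (li_of_minor 1 2 (by simp)) (fun x y => van5m s i b x y)
    · refine mem_lines (li_of_minor 0 1 (by simp)) (fun x y => ?_)
      rw [← fam5_sv s t]
      exact van5 (sv s t) x y

theorem t_LN3 : S_W → S_LN3B → S_LN3C → S_LN3 := by
  intro hW hB hC k _ _ h2 s hs
  ext W
  constructor
  · rintro ⟨hr, hv⟩
    rcases hW k W hr with h | ⟨a, b, z₀, w₀, z₁, w₁, hab, hzw, h⟩ | ⟨α, β, γ, δ, h⟩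
    · exact ⟨.inl (), h.symm⟩
    · obtain ⟨i, hic⟩ := hB k h2 s hs a b z₀ w₀ z₁ w₁ hab hzw (fun u v => by
        apply hv
        rw [h, Submodule.mem_span_pair]
        refine ⟨u, v, ?_⟩
        funext i
        fin_cases i <;> simp)
      exact ⟨i, by rw [h, hic]⟩
    · obtain ⟨b, t, h1, h2, h3, h4⟩ := hC k h2 s hs α β γ δ (fun x y => by
        apply hv
        rw [h, Submodule.mem_span_pair]
        refine ⟨x, y, ?_⟩
        funext i
        fin_cases i <;> simp [mul_comm])
      refine ⟨.inr (.inr (.inr (.inr (b, t)))), ?_⟩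
      rw [h, h1, h2, h3, h4]
      rfl
  · rintro ⟨i, rfl⟩
    rcases i with _ | ⟨i, b⟩ | b | b | ⟨b, t⟩
    · exact mem_lines (li_of_minor 2 3 (by simp)) (fun x y => van0 _ _ _ _ _ _ x y)
    · refine mem_lines (li_of_minor 1 2 (by simp)) (fun x y => ?_)
      rw [fam3, eval_nf]
      have hs := sg_sq (k := k) b
      set σ : k := sg b with hσ
      simp only [Pi.add_apply, Pi.smul_apply, smul_eq_mul, Matrix.cons_val_zero,
        Matrix.cons_val_one, Matrix.cons_val]
      fin_cases i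
      · simp only [Fin.zero_eta, Fin.isValue]
        linear_combination (x * y ^ 2 * s 0 ^ 2) * hs
      · simp only [Fin.mk_one, Fin.isValue]
        linear_combination (x * y ^ 2 * s 1 ^ 2) * hs
      · simp only [Fin.reduceFinMk, Fin.isValue]
        linear_combination (x * y ^ 2 * s 2 ^ 2) * hs
    · refine mem_lines (li_of_minor 1 2 (by simp)) (fun x y => ?_)
      rw [fam3, eval_nf]
      have hs := sg_sq (k := k) b
      set σ : k := sg b with hσ
      simp only [Pi.add_apply, Pi.smul_apply, smul_eq_mul, Matrix.cons_val_zero,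
        Matrix.cons_val_one, Matrix.cons_val]
      linear_combination (x ^ 3 * (s 0 * s 1 * s 2) ^ 2) * hs
    · refine mem_lines (li_of_minor 0 3 (by simp)) (fun x y => ?_)
      rw [fam3, eval_nf]
      have hs := sg_sq (k := k) b
      set σ : k := sg b with hσ
      simp only [Pi.add_apply, Pi.smul_apply, smul_eq_mul, Matrix.cons_val_zero,
        Matrix.cons_val_one, Matrix.cons_val]
      linear_combination (x ^ 3) * hs
    · refine mem_lines (li_of_minor 0 1 (by simp)) (fun x y => ?_)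
      rw [← fam3_sv s t]
      set r := sv3 s t with hr
      rw [fam3, eval_nf]
      have hs := sg_sq (k := k) b
      set σ : k := sg b with hσ
      simp only [Pi.add_apply, Pi.smul_apply, smul_eq_mul, Matrix.cons_val_zero,
        Matrix.cons_val_one, Matrix.cons_val]
      linear_combination (x * (x - y * (r 0 * r 1 + r 0 * r 2 + r 1 * r 2)) ^ 2
        + y * (-x * (r 0 + r 1 + r 2) + y * (r 0 * r 1 * r 2)) ^ 2) * hs

end Pool.Agent.R863.CS
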